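import Pool.Agent.Run7.k800g.InitG

set_option autoImplicit false
set_option linter.unusedSectionVars false

/-!
# Uniform bounds
-/

namespace Run7.k800g

open Run7.k800 (c1 s1 c2 s2 B MB JJ St Sg Pi4 cs1 cs2 c1_neg s1_neg c2_neg s2_neg gd pd pd_c1 pd_s1 pd_c2 pd_s2 pd_cmul ev s2_B c2_B c1_B s1_B TB zz DL dM dgm dd B.diff dM_apply sg pd_const Mn)
open Filter Topology Set

variable {P : Type*} [TopologicalSpace P] [CompactSpace P]

/-- a range of base points -/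
structure Rg (a b : ℝ) : Prop where
  ha : 1 < a
  hb : b < 2

variable {a b : ℝ}

lemma Rg.ok (h : Rg a b) {y : ℝ} (hy : y ∈ Icc a b) : Ok y :=
  ⟨by linarith [h.ha, hy.1], by linarith [h.hb, hy.2]⟩

/-- bounded on the range -/
def CB (a b : ℝ) (c : ℝ → ℝ) : Prop := ∃ M : ℝ, 0 ≤ M ∧ ∀ y ∈ Icc a b, |c y| ≤ M

lemma CB.of_cont {c : ℝ → ℝ} (h : ContinuousOn c (Icc a b)) : CB a b c := by
  obtain ⟨M, hM⟩ := isCompact_Icc.exists_bound_of_continuousOn h
  exact ⟨max M 0, le_max_right _ _, fun y hy => (hM y hy).trans (le_max_left _ _)⟩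

lemma CB.cst (c : ℝ) : CB a b (fun _ => c) := ⟨|c|, abs_nonneg _, fun _ _ => le_rfl⟩

lemma CB.id : CB a b (fun y => y) := CB.of_cont continuousOn_id

lemma CB.add {c d : ℝ → ℝ} (hc : CB a b c) (hd : CB a b d) : CB a b (fun y => c y + d y) := by
  obtain ⟨M, hM, h1⟩ := hc
  obtain ⟨N, hN, h2⟩ := hd
  exact ⟨M + N, by positivity, fun y hy => (abs_add_le _ _).trans (add_le_add (h1 y hy) (h2 y hy))⟩

lemma CB.mul {c d : ℝ → ℝ} (hc : CB a b c) (hd : CB a b d) : CB a b (fun y => c y * d y) := by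
  obtain ⟨M, hM, h1⟩ := hc
  obtain ⟨N, hN, h2⟩ := hd
  refine ⟨M * N, by positivity, fun y hy => ?_⟩
  rw [abs_mul]
  exact mul_le_mul (h1 y hy) (h2 y hy) (abs_nonneg _) hM

lemma CB.congr {c d : ℝ → ℝ} (hc : CB a b c) (h : ∀ y, c y = d y) : CB a b d := by
  have : c = d := funext h
  rwa [this] at hc

lemma CB.neg {c : ℝ → ℝ} (hc : CB a b c) : CB a b (fun y => -c y) :=
  ((CB.cst (-1)).mul hc).congr (fun y => by ring)

lemma CB.sub {c d : ℝ → ℝ} (hc : CB a b c) (hd : CB a b d) : CB a b (fun y => c y - d y) :=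
  (hc.add hd.neg).congr (fun y => by ring)

lemma Rg.cE (h : Rg a b) : ContinuousOn (fun y => (eE y)⁻¹) (Icc a b) := by
  refine ContinuousOn.inv₀ ?_ (fun y hy => (h.ok hy).eE_pos.ne')
  unfold eE
  fun_prop

lemma Rg.ctt (h : Rg a b) : ContinuousOn tt (Icc a b) := by
  have : tt = fun y => (3 * y - 2) * (eE y)⁻¹ := by funext y; unfold tt; rw [div_eq_mul_inv]
  rw [this]
  exact ContinuousOn.mul (by fun_prop) h.cE

lemma Rg.cbt (h : Rg a b) : ContinuousOn bt (Icc a b) := by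
  have : bt = fun y => (2 - y) * (eE y)⁻¹ := by funext y; unfold bt; rw [div_eq_mul_inv]
  rw [this]
  exact ContinuousOn.mul (by fun_prop) h.cE

lemma Rg.ck0 (h : Rg a b) : ContinuousOn k0 (Icc a b) := by
  have : k0 = fun y => y ^ 2 * (eE y)⁻¹ := by funext y; unfold k0; rw [div_eq_mul_inv]
  rw [this]
  exact ContinuousOn.mul (by fun_prop) h.cE

lemma Rg.cal (h : Rg a b) : ContinuousOn al (Icc a b) := h.ctt.sqrt

lemma Rg.cla (h : Rg a b) : ContinuousOn la (Icc a b) :=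
  (h.cbt.mul (by fun_prop : ContinuousOn (fun y : ℝ => y + 1) (Icc a b))).sqrt

lemma Rg.cbe (h : Rg a b) : ContinuousOn be (Icc a b) := by
  unfold be
  exact ((h.cal.mul (by fun_prop : ContinuousOn (fun y : ℝ => y + 2) (Icc a b))).div_const 2).neg

lemma Rg.cdh (h : Rg a b) : ContinuousOn dh (Icc a b) := by
  unfold dh
  refine (ContinuousOn.div (by fun_prop) (by fun_prop) (fun y hy => ?_)).neg
  have := (h.ok hy).y1
  linarith

lemma Rg.cch (h : Rg a b) : ContinuousOn chh (Icc a b) :=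
  h.cdh.div h.cla (fun y hy => (h.ok hy).la_pos.ne')

lemma Rg.ciQ (h : Rg a b) : ContinuousOn iQ (Icc a b) := by
  unfold iQ
  refine ContinuousOn.div continuousOn_const (h.ctt.add (h.cbt.mul (by fun_prop))) (fun y hy => ?_)
  have h1 := (h.ok hy).tt_pos
  have h2 := (h.ok hy).ll_pos
  exact (add_pos h1 h2).ne'

lemma Rg.cia (h : Rg a b) : ContinuousOn ia (Icc a b) :=
  h.cal.inv₀ (fun y hy => (h.ok hy).al_pos.ne')

lemma Rg.ciy (h : Rg a b) : ContinuousOn iy (Icc a b) := by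
  unfold iy
  refine ContinuousOn.inv₀ (by fun_prop) (fun y hy => ?_)
  have := (h.ok hy).y1
  linarith

/-- uniformly bounded families -/
def TU (a b : ℝ) (f : ℝ → P → ℝ × ℝ → ℝ) : Prop := ∃ M : ℝ, 0 ≤ M ∧ ∀ y ∈ Icc a b, B 4 M (f y)

lemma TU.of_CB {c : ℝ → ℝ} (h : CB a b c) : TU (P := P) a b (fun y _ _ => c y) := by
  obtain ⟨M, hM, h1⟩ := h
  exact ⟨M, hM, fun y hy => (B.rconst (c y)).mono (by norm_num) le_rfl (h1 y hy)⟩

lemma TU.of_TB {f : P → ℝ × ℝ → ℝ} (h : TB f) : TU a b (fun _ => f) := by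
  obtain ⟨M, hM, h1⟩ := h
  exact ⟨M, hM, fun y hy => h1⟩

lemma TU.mul {f g : ℝ → P → ℝ × ℝ → ℝ} (hf : TU a b f) (hg : TU a b g) :
    TU a b (fun y p x => f y p x * g y p x) := by
  obtain ⟨M, hM, h1⟩ := hf
  obtain ⟨N, hN, h2⟩ := hg
  exact ⟨M * N, by positivity, fun y hy => (h1 y hy).mul (h2 y hy) (by norm_num)⟩

lemma TU.neg {f : ℝ → P → ℝ × ℝ → ℝ} (hf : TU a b f) : TU a b (fun y p x => -f y p x) := by
  obtain ⟨M, hM, h1⟩ := hf
  exact ⟨M, hM, fun y hy => (h1 y hy).neg (by norm_num)⟩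

lemma TU.cm {c : ℝ → ℝ} (h : CB a b c) {f : P → ℝ × ℝ → ℝ} (hf : TB f) :
    TU a b (fun y p x => c y * f p x) := (TU.of_CB h).mul (TU.of_TB hf)

lemma MU_exists {m n : Type*} [Fintype m] [Fintype n] {A : ℝ → P → ℝ × ℝ → Matrix m n ℝ}
    (h : ∀ i j, TU a b (fun y p x => A y p x i j)) : ∃ k : ℝ, 0 ≤ k ∧ ∀ y ∈ Icc a b, MB 4 k (A y) := by
  choose M hM h1 using h
  refine ⟨∑ i, ∑ j, M i j, Finset.sum_nonneg fun i _ => Finset.sum_nonneg fun j _ => hM i j, ?_⟩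
  intro y hy i j
  refine (h1 i j y hy).mono (by norm_num) le_rfl ?_
  calc M i j ≤ ∑ j, M i j := Finset.single_le_sum (fun j _ => hM i j) (Finset.mem_univ j)
    _ ≤ ∑ i, ∑ j, M i j := Finset.single_le_sum (f := fun i => ∑ j, M i j)
        (fun i _ => Finset.sum_nonneg fun j _ => hM i j) (Finset.mem_univ i)

section bounds

variable (h : Rg a b)
include h

lemma U00_TU : ∀ i j, TU (P := P) a b (fun y _ x => U00 y x i j) := by
  intro i j
  unfold U00
  fin_cases i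
  · exact TU.of_TB TB.c1
  · exact TU.of_TB TB.s1
  · exact TU.of_TB TB.c2
  · exact TU.cm (CB.of_cont h.cbe) TB.s2
  · exact TU.cm (CB.of_cont h.cal.neg) TB.s2
  · exact TU.cm (CB.of_cont (h.cal.mul h.cbe)) TB.c2

lemma Pb00_TU : ∀ i j, TU (P := P) a b (fun y _ x => Pb00 y x i j) := by
  have z0 : TU (P := P) a b (fun y _ x => (0 : ℝ)) := TU.of_CB (CB.cst 0)
  have z1 : TU (P := P) a b (fun y _ x => (1 : ℝ)) := TU.of_CB (CB.cst 1)
  intro i j
  unfold Pb00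
  fin_cases i <;> fin_cases j
  · exact TU.of_TB TB.c1
  · exact z0
  · exact z0
  · exact z0
  · exact TU.of_TB TB.s1
  · exact z0
  · exact z0
  · exact z0
  · exact z0
  · exact TU.of_TB TB.c2
  · exact z1
  · exact z1
  · exact z0
  · exact TU.cm (CB.of_cont h.cbe) TB.s2
  · exact TU.of_CB (CB.of_cont h.cch)
  · exact TU.of_CB (CB.of_cont h.cch.neg)
  · exact z0
  · exact TU.cm (CB.of_cont h.cal.neg) TB.s2
  · exact TU.of_CB (CB.of_cont h.cla)
  · exact TU.of_CB (CB.of_cont h.cla.neg)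
  · exact z0
  · exact TU.cm (CB.of_cont (h.cal.mul h.cbe)) TB.c2
  · exact TU.of_CB (CB.of_cont h.cdh)
  · exact TU.of_CB (CB.of_cont h.cdh)

lemma Psa00_TU : ∀ i j, TU (P := P) a b (fun y _ x => Psa00 y x i j) := by
  have z0 : TU (P := P) a b (fun y _ x => (0 : ℝ)) := TU.of_CB (CB.cst 0)
  intro i j
  unfold Psa00
  fin_cases i <;> fin_cases j
  · exact (TU.of_TB TB.s1).neg
  · exact TU.of_TB TB.c1
  · exact z0
  · exact z0
  · exact z0
  · exact z0
  · exact z0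
  · exact z0
  · exact TU.cm (CB.of_cont (h.cdh.mul h.ciQ).neg) TB.s2
  · exact TU.cm (CB.of_cont ((h.cbt.mul h.ciQ).mul h.cia).neg) TB.c2
  · exact TU.cm (CB.of_cont ((((h.cbt.sub h.ctt).div_const 2).mul h.ciQ).mul h.cia)) TB.c2
  · exact TU.cm (CB.of_cont h.ciQ) TB.s2

lemma Psb00_TU : ∀ i j, TU (P := P) a b (fun y _ x => Psb00 y x i j) := by
  have z0 : TU (P := P) a b (fun y _ x => (0 : ℝ)) := TU.of_CB (CB.cst 0)
  have w1 : CB a b (fun y => -(al y * be y * iQ y / 2)) :=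
    CB.of_cont ((((h.cal.mul h.cbe).mul h.ciQ).div_const 2).neg)
  have w2 : CB a b (fun y => la y * iQ y * iy y / 2) :=
    CB.of_cont (((h.cla.mul h.ciQ).mul h.ciy).div_const 2)
  have w3 : CB a b (fun y => la y * (y + 2) * iQ y * iy y / 4) :=
    CB.of_cont ((((h.cla.mul (by fun_prop : ContinuousOn (fun y : ℝ => y + 2) (Icc a b))).mul
      h.ciQ).mul h.ciy).div_const 4)
  have w4 : CB a b (fun y => iQ y / 2) := CB.of_cont (h.ciQ.div_const 2)
  intro i j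
  unfold Psb00
  fin_cases i <;> fin_cases j
  · exact TU.of_TB TB.c1
  · exact TU.of_TB TB.s1
  · exact z0
  · exact z0
  · exact z0
  · exact z0
  · exact z0
  · exact z0
  · exact TU.cm (CB.of_cont (h.cdh.mul h.ciQ)) TB.c2
  · exact TU.cm (CB.of_cont ((h.cbt.mul h.ciQ).mul h.cia).neg) TB.s2
  · exact TU.cm (CB.of_cont ((((h.cbt.sub h.ctt).div_const 2).mul h.ciQ).mul h.cia)) TB.s2
  · exact TU.cm (CB.of_cont h.ciQ.neg) TB.c2
  · exact z0
  · exact z0
  · exact TU.of_CB w1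
  · exact TU.of_CB w2.neg
  · exact TU.of_CB w3
  · exact TU.of_CB w4
  · exact z0
  · exact z0
  · exact TU.of_CB w1
  · exact TU.of_CB w2
  · exact TU.of_CB w3.neg
  · exact TU.of_CB w4

lemma St0_bd : ∃ k : ℝ, 0 ≤ k ∧ ∀ y ∈ Icc a b, (St0 P y).Bd 4 k := by
  obtain ⟨k1, h1, g1⟩ := MU_exists (P := P) (U00_TU h)
  obtain ⟨k2, h2, g2⟩ := MU_exists (P := P) (Pb00_TU h)
  obtain ⟨k3, h3, g3⟩ := MU_exists (P := P) (Psa00_TU h)
  obtain ⟨k4, h4, g4⟩ := MU_exists (P := P) (Psb00_TU h)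
  refine ⟨k1 + k2 + k3 + k4, by positivity, fun y hy => ⟨?_, ?_, ?_, ?_, ?_⟩⟩
  · exact (g1 y hy).mono (by norm_num) le_rfl (by linarith)
  · exact (g2 y hy).mono (by norm_num) le_rfl (by linarith)
  · exact (g3 y hy).mono (by norm_num) le_rfl (by linarith)
  · exact (g4 y hy).mono (by norm_num) le_rfl (by linarith)
  · intro i j
    exact B.zero.mono (by norm_num) le_rfl (by positivity)

end bounds

/-- positive continuous functions are bounded below -/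
lemma Rg.low {c : ℝ → ℝ} (h : ContinuousOn c (Icc a b)) (hp : ∀ y ∈ Icc a b, 0 < c y) :
    ∃ δ : ℝ, 0 < δ ∧ ∀ y ∈ Icc a b, δ ≤ c y := by
  obtain ⟨M, hM, h1⟩ := CB.of_cont (h.inv₀ (fun y hy => (hp y hy).ne'))
  refine ⟨(M + 1)⁻¹, by positivity, fun y hy => ?_⟩
  have h2 := h1 y hy
  have h3 := hp y hy
  rw [Pi.inv_apply, abs_of_pos (inv_pos.mpr h3)] at h2
  rw [inv_le_comm₀ (by positivity) h3]
  linarith

end Run7.k800g
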