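import Pool.Agent.Run7.k800g.VfG
import Pool.Agent.Run7.k800.Rec

set_option autoImplicit false
set_option linter.unusedSectionVars false

/-!
# The forces in terms of power series, general masses
-/

namespace Run7.k800g

open Run7.k800 (PS aT PS_aT ic att att_mul att_neg)
open Filter Topology MeasureTheory Set

lemma att_serG {z : ℂ} {d t : ℝ} (hd : 0 < d) (ht : |t| ≤ 1 / 4) (hz : ‖z‖ ^ 2 = d ^ 2 * (1 + t)) :
    att z = ((1 / d ^ 3 : ℝ) : ℂ) * (z * (ic t : ℂ)) ∧ z ≠ 0 := by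
  have h1 : 0 < 1 + t := by have := (abs_le.mp ht).1; linarith
  have hz0 : z ≠ 0 := by
    intro h
    rw [h, norm_zero] at hz
    have : 0 < d ^ 2 * (1 + t) := by positivity
    rw [← hz] at this
    norm_num at this
  refine ⟨?_, hz0⟩
  have hn : ‖z‖ = d * Real.sqrt (1 + t) := by
    have h2 : 0 ≤ ‖z‖ := norm_nonneg z
    have h3 : (d * Real.sqrt (1 + t)) ^ 2 = ‖z‖ ^ 2 := by
      rw [mul_pow, Real.sq_sqrt h1.le, hz]
    exact ((pow_left_inj₀ h2 (by positivity) two_ne_zero).mp h3.symm)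
  have h3 : ic t = (1 + t) ^ (-3 / 2 : ℝ) := by
    rw [PS_aT ht]; rfl
  have h4 : ic t * ‖z‖ ^ 3 = d ^ 3 := by
    rw [h3, hn]
    have h5 : (d * Real.sqrt (1 + t)) ^ 3 = d ^ 3 * (1 + t) ^ (3 / 2 : ℝ) := by
      rw [mul_pow, Real.sqrt_eq_rpow, ← Real.rpow_natCast ((1 + t) ^ (1 / 2 : ℝ)), ← Real.rpow_mul h1.le]
      norm_num
    rw [h5, mul_comm, mul_assoc, ← Real.rpow_add h1]
    norm_num
  have hn0 : ‖z‖ ^ 3 ≠ 0 := by positivity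
  have hd0 : (d : ℂ) ≠ 0 := by exact_mod_cast hd.ne'
  unfold att
  rw [div_eq_iff (by exact_mod_cast hn0)]
  have h6 : ((ic t : ℂ)) * ((‖z‖ ^ 3 : ℝ) : ℂ) = (d : ℂ) ^ 3 := by
    rw [← Complex.ofReal_mul, h4]; norm_num
  have h7 : ((1 / d ^ 3 : ℝ) : ℂ) * (d : ℂ) ^ 3 = 1 := by
    push_cast
    field_simp
  linear_combination (-((1 / d ^ 3 : ℝ) : ℂ) * z) * h6 - z * h7

lemma hR_eq (k ε s a b : ℝ) : hR k ε s a b = -3 * k * a + (ε * (ε * s)) * hT k ε s a b := by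
  unfold hR hT hZ; ring

/-- expansion of the attraction -/
lemma att_exp {d k ε s a b : ℝ} (hd : 0 < d) (hk : k ≠ 0)
    (ht : |ε * (ε * s) * hZ k ε s a b| ≤ 1 / 4) {z : ℂ}
    (hz : z = (d : ℂ) * (1 + k * ((ε * (ε * s) : ℝ) : ℂ) * (a + b * Complex.I))) :
    att z = ((1 / d ^ 2 : ℝ) : ℂ) * (1 + k * ((ε * (ε * s) : ℝ) : ℂ) * (-2 * a + b * Complex.I)
      + k * ((ε * (ε * s) : ℝ) : ℂ) ^ 2 * (hN1 k ε s a b + hN2 k ε s a b * Complex.I)) ∧ z ≠ 0 := by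
  obtain ⟨δ, hδ⟩ : ∃ δ, δ = ε * (ε * s) := ⟨_, rfl⟩
  rw [← hδ] at ht hz ⊢
  have hn : ‖z‖ ^ 2 = d ^ 2 * (1 + δ * hZ k ε s a b) := by
    have e : z = ((d * (1 + k * δ * a) : ℝ) : ℂ) + ((d * (k * δ * b) : ℝ) : ℂ) * Complex.I := by
      rw [hz]; push_cast; ring
    rw [e, ← Complex.normSq_eq_norm_sq, Complex.normSq_add_mul_I]
    unfold hZ
    rw [← hδ]
    ring
  obtain ⟨h1, h2⟩ := att_serG hd ht hn
  refine ⟨?_, h2⟩
  have h3 : ic (δ * hZ k ε s a b) = 1 + δ * hR k ε s a b := by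
    unfold ic hR hQ
    rw [← hδ]
    have e : ε * ((ε * s) * hZ k ε s a b) = δ * hZ k ε s a b := by rw [hδ]; ring
    rw [e]
    ring
  have h4 : hR k ε s a b = -3 * k * a + δ * hT k ε s a b := by rw [hR_eq, hδ]
  have h4' : (hR k ε s a b : ℂ) = -3 * k * a + δ * hT k ε s a b := by exact_mod_cast h4
  have hk' : (k : ℂ) * (k : ℂ)⁻¹ = 1 := by
    have : (k : ℂ) ≠ 0 := by exact_mod_cast hk
    field_simp
  have hd0 : (d : ℂ) ≠ 0 := by exact_mod_cast hd.ne'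
  have h5 : ((1 / d ^ 3 : ℝ) : ℂ) * (d : ℂ) = ((1 / d ^ 2 : ℝ) : ℂ) := by
    push_cast
    field_simp
  rw [h1, h3, hz]
  unfold hN1 hN2
  rw [← h5]
  push_cast
  linear_combination ((1 / (d : ℂ) ^ 3) * d * δ) * h4'
    - ((1 / (d : ℂ) ^ 3) * d * δ ^ 2 * hT k ε s a b) * hk'

/-- the configuration of Euler with the third body in the middle -/
structure Eu (m1 m2 m3 e d1 d2 F0 : ℝ) : Prop where
  h1 : 0 < m1
  h2 : 0 < m2
  h3 : 0 < m3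
  hd1 : 0 < d1
  hd2 : 0 < d2
  e1 : m2 / (m1 + m2) + e = d1
  e2 : m1 / (m1 + m2) - e = d2
  hF : F0 = m1 + m2 + m3 * (1 / d1 ^ 2 + 1 / d2 ^ 2)
  hG : (m1 + m2 + m3) * (m1 / (m1 + m2) / d1 ^ 2 - m2 / (m1 + m2) / d2 ^ 2) = F0 * e

/-- the constants of the field -/
noncomputable def McOf (m1 m2 m3 e d1 d2 F0 : ℝ) : Mc where
  k1 := 1 / d1
  k2 := -(1 / d2)
  A1 := m3 / (F0 * d1 ^ 3)
  A2 := -(m3 / (F0 * d2 ^ 3))
  C1 := e * (m3 / (F0 * d1 ^ 3)) - (m1 + m2 + m3) * (m1 / (m1 + m2)) / (F0 * d1 ^ 3)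
  C2 := -(e * (m3 / (F0 * d2 ^ 3)) + (m1 + m2 + m3) * (m2 / (m1 + m2)) / (F0 * d2 ^ 3))

/-- the mass parameter -/
noncomputable def kst (m : Mc) : ℝ := -(m.C1 + m.C2)

/-- the first force -/
noncomputable def FfG (m : Mc) (F0 ε s a b : ℝ) : ℂ :=
  F0 * (1 + ((ε * (ε * s) : ℝ) : ℂ) * (hf1 m ε s a b + hf2 m ε s a b * Complex.I))

/-- the second force -/
noncomputable def GfG (m : Mc) (F0 ka e ε s a b : ℝ) : ℂ :=
  FfG m F0 ε s a b * (e + ((ε * (ε * s) : ℝ) : ℂ) * (a + b * Complex.I))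
    - F0 * ((ε * (ε * s) : ℝ) : ℂ) * (((2 * ka + 1) * a - ε * hk1 m ε s a b)
      + (-(ka - 1) * b - ε * hk2 m ε s a b) * Complex.I)

variable {m1 m2 m3 e d1 d2 F0 : ℝ}

lemma Eu.F0_pos (h : Eu m1 m2 m3 e d1 d2 F0) : 0 < F0 := by
  obtain ⟨h1, h2, h3, hd1, hd2, -, -, hF, -⟩ := h
  rw [hF]; positivity

theorem forcesG (h : Eu m1 m2 m3 e d1 d2 F0) {ε s a b : ℝ}
    (t1 : |ε * (ε * s) * hZ (1 / d1) ε s a b| ≤ 1 / 4)
    (t2 : |ε * (ε * s) * hZ (-(1 / d2)) ε s a b| ≤ 1 / 4) {w : ℂ}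
    (hw : w = e + ((ε * (ε * s) : ℝ) : ℂ) * (a + b * Complex.I)) :
    ((m2 / (m1 + m2) : ℝ) : ℂ) + w ≠ 0 ∧ ((m1 / (m1 + m2) : ℝ) : ℂ) - w ≠ 0 ∧
    (((m1 + m2 : ℝ) : ℂ) + m3 * (att (((m2 / (m1 + m2) : ℝ) : ℂ) + w)
      + att (((m1 / (m1 + m2) : ℝ) : ℂ) - w)) = FfG (McOf m1 m2 m3 e d1 d2 F0) F0 ε s a b) ∧
    (((m1 + m2 + m3 : ℝ) : ℂ) * (((m1 / (m1 + m2) : ℝ) : ℂ) * att (((m2 / (m1 + m2) : ℝ) : ℂ) + w)
      - ((m2 / (m1 + m2) : ℝ) : ℂ) * att (((m1 / (m1 + m2) : ℝ) : ℂ) - w))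
      = GfG (McOf m1 m2 m3 e d1 d2 F0) F0 (kst (McOf m1 m2 m3 e d1 d2 F0)) e ε s a b) := by
  have hF0 := h.F0_pos
  obtain ⟨h1, h2, h3, hd1, hd2, e1, e2, hF, hG⟩ := h
  have i1 : (d1 : ℂ) ≠ 0 := by exact_mod_cast hd1.ne'
  have i2 : (d2 : ℂ) ≠ 0 := by exact_mod_cast hd2.ne'
  have iF : (F0 : ℂ) ≠ 0 := by exact_mod_cast hF0.ne'
  obtain ⟨ν1, hν1⟩ : ∃ ν1, ν1 = m1 / (m1 + m2) := ⟨_, rfl⟩
  obtain ⟨ν2, hν2⟩ : ∃ ν2, ν2 = m2 / (m1 + m2) := ⟨_, rfl⟩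
  obtain ⟨n, hn⟩ : ∃ n, n = m1 + m2 := ⟨_, rfl⟩
  have z1 : ((ν2 : ℝ) : ℂ) + w = (d1 : ℂ) * (1 + ((1 / d1 : ℝ) : ℂ) * ((ε * (ε * s) : ℝ) : ℂ)
      * (a + b * Complex.I)) := by
    rw [hw, ← e1, ← hν2]
    have : (ν2 : ℂ) + (e : ℂ) ≠ 0 := by
      rw [hν2]
      have := i1
      rw [← e1] at this
      exact_mod_cast this
    push_cast
    field_simp
    ring
  have z2 : ((ν1 : ℝ) : ℂ) - w = (d2 : ℂ) * (1 + ((-(1 / d2) : ℝ) : ℂ) * ((ε * (ε * s) : ℝ) : ℂ)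
      * (a + b * Complex.I)) := by
    rw [hw, ← e2, ← hν1]
    have : (ν1 : ℂ) - (e : ℂ) ≠ 0 := by
      rw [hν1]
      have := i2
      rw [← e2] at this
      exact_mod_cast this
    push_cast
    field_simp
    ring
  obtain ⟨a1, n1⟩ := att_exp hd1 (by positivity) t1 z1
  have hkn : -(1 / d2) ≠ 0 := by
    have : 0 < 1 / d2 := by positivity
    exact (neg_lt_zero.mpr this).ne
  obtain ⟨a2, n2⟩ := att_exp hd2 hkn t2 z2
  rw [← hν1, ← hν2, ← hn]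
  refine ⟨n1, n2, ?_, ?_⟩
  · rw [a1, a2]
    have r1 : F0 * (McOf m1 m2 m3 e d1 d2 F0).A1 = m3 * (1 / d1 ^ 2) * (1 / d1) := by
      unfold McOf; field_simp
    have r2 : F0 * (McOf m1 m2 m3 e d1 d2 F0).A2 = m3 * (1 / d2 ^ 2) * (-(1 / d2)) := by
      unfold McOf; field_simp
    have j1 : (McOf m1 m2 m3 e d1 d2 F0).k1 = 1 / d1 := rfl
    have j2 : (McOf m1 m2 m3 e d1 d2 F0).k2 = -(1 / d2) := rfl
    rw [← hn] at hF
    unfold FfG hf1 hf2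
    rw [j1, j2]
    generalize (McOf m1 m2 m3 e d1 d2 F0).A1 = A1 at *
    generalize (McOf m1 m2 m3 e d1 d2 F0).A2 = A2 at *
    generalize hN1 (1 / d1) ε s a b = N1 at *
    generalize hN2 (1 / d1) ε s a b = N2 at *
    generalize hN1 (-(1 / d2)) ε s a b = N3 at *
    generalize hN2 (-(1 / d2)) ε s a b = N4 at *
    generalize 1 / d1 = k1 at *
    generalize 1 / d2 = k2 at *
    generalize 1 / d1 ^ 2 = u1 at *
    generalize 1 / d2 ^ 2 = u2 at *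
    have r1' : (F0 : ℂ) * A1 = m3 * u1 * k1 := by exact_mod_cast r1
    have r2' : (F0 : ℂ) * A2 = m3 * u2 * (-k2) := by exact_mod_cast r2
    have hF' : (F0 : ℂ) = n + m3 * (u1 + u2) := by exact_mod_cast hF
    push_cast
    generalize (ε : ℂ) * (ε * s) = δ
    linear_combination (-1) * hF' - (δ * (-2 * a + b * Complex.I) + δ ^ 2 * (N1 + N2 * Complex.I)) * r1'
      - (δ * (-2 * a + b * Complex.I) + δ ^ 2 * (N3 + N4 * Complex.I)) * r2'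
  · rw [a1, a2]
    have r1 : F0 * (e * (McOf m1 m2 m3 e d1 d2 F0).A1 - (McOf m1 m2 m3 e d1 d2 F0).C1)
        = (n + m3) * ν1 * (1 / d1 ^ 2) * (1 / d1) := by
      rw [hν1, hn]
      unfold McOf; field_simp; ring
    have r2 : F0 * (e * (McOf m1 m2 m3 e d1 d2 F0).A2 - (McOf m1 m2 m3 e d1 d2 F0).C2)
        = (n + m3) * ν2 * (1 / d2 ^ 2) * (1 / d2) := by
      rw [hν2, hn]
      unfold McOf; field_simp; ring
    have j1 : (McOf m1 m2 m3 e d1 d2 F0).k1 = 1 / d1 := rfl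
    have j2 : (McOf m1 m2 m3 e d1 d2 F0).k2 = -(1 / d2) := rfl
    have hG' : (n + m3) * (ν1 * (1 / d1 ^ 2) - ν2 * (1 / d2 ^ 2)) = F0 * e := by
      rw [← hG, hν1, hν2, hn]; ring
    unfold GfG FfG kst hk1 hk2 hf1 hf2
    rw [j1, j2]
    generalize (McOf m1 m2 m3 e d1 d2 F0).A1 = A1 at *
    generalize (McOf m1 m2 m3 e d1 d2 F0).A2 = A2 at *
    generalize (McOf m1 m2 m3 e d1 d2 F0).C1 = C1 at *
    generalize (McOf m1 m2 m3 e d1 d2 F0).C2 = C2 at *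
    generalize hN1 (1 / d1) ε s a b = N1 at *
    generalize hN2 (1 / d1) ε s a b = N2 at *
    generalize hN1 (-(1 / d2)) ε s a b = N3 at *
    generalize hN2 (-(1 / d2)) ε s a b = N4 at *
    generalize 1 / d1 = k1 at *
    generalize 1 / d2 = k2 at *
    generalize 1 / d1 ^ 2 = u1 at *
    generalize 1 / d2 ^ 2 = u2 at *
    have r1' : (F0 : ℂ) * (e * A1 - C1) = (n + m3) * ν1 * u1 * k1 := by exact_mod_cast r1
    have r2' : (F0 : ℂ) * (e * A2 - C2) = (n + m3) * ν2 * u2 * k2 := by exact_mod_cast r2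
    have hG'' : ((n : ℂ) + m3) * (ν1 * u1 - ν2 * u2) = F0 * e := by exact_mod_cast hG'
    have hI := Complex.I_sq
    push_cast
    have hδ : (ε : ℂ) * (-(ε * s)) = -(ε * (ε * s)) := by ring
    linear_combination hG''
      - ((ε * (ε * s)) * (-2 * a + b * Complex.I) + (ε * (ε * s)) ^ 2 * (N1 + N2 * Complex.I)) * r1'
      - ((ε * (ε * s)) * (-2 * a + b * Complex.I) + (ε * (ε * s)) ^ 2 * (N3 + N4 * Complex.I)) * r2'
      - (F0 * (ε * (ε * s)) ^ 2 * b * ((A1 + A2) * b + (ε * (ε * s)) * (A1 * N2 + A2 * N4))) * hI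

end Run7.k800g
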