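import Pool.Agent.Run7.k800g.NumG
import Pool.Agent.Run7.k800g.InitG2
import Pool.Agent.Run7.k800g.SerG

set_option autoImplicit false
set_option linter.unusedSectionVars false

/-!
# Almost all masses
-/

namespace Run7.k800g

open Filter Topology MeasureTheory Set

variable {m1 m2 m3 e d1 d2 F0 : ℝ}

lemma euler_exists (h1 : 0 < m1) (h2 : 0 < m2) (h3 : 0 < m3) :
    ∃ e d1 d2 F0 : ℝ, Eu m1 m2 m3 e d1 d2 F0 := by
  obtain ⟨h, hh⟩ : ∃ h : ℝ → ℝ, h = fun d => (m1 + m2 + m3) * (m1 * (1 - d) ^ 2 - m2 * d ^ 2)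
    - ((m1 + m2) * d - m2) * ((m1 + m2) * (d ^ 2 * (1 - d) ^ 2) + m3 * (d ^ 2 + (1 - d) ^ 2)) := ⟨_, rfl⟩
  have hc : Continuous h := by rw [hh]; fun_prop
  have h0 : 0 < h 0 := by
    rw [hh]
    have : (m1 + m2 + m3) * (m1 * (1 - 0) ^ 2 - m2 * 0 ^ 2)
      - ((m1 + m2) * 0 - m2) * ((m1 + m2) * ((0 : ℝ) ^ 2 * (1 - 0) ^ 2) + m3 * (0 ^ 2 + (1 - 0) ^ 2))
      = (m1 + m2 + m3) * m1 + m2 * m3 := by ring
    change 0 < (m1 + m2 + m3) * (m1 * (1 - 0) ^ 2 - m2 * 0 ^ 2)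
      - ((m1 + m2) * 0 - m2) * ((m1 + m2) * ((0 : ℝ) ^ 2 * (1 - 0) ^ 2) + m3 * (0 ^ 2 + (1 - 0) ^ 2))
    rw [this]; positivity
  have h1' : h 1 < 0 := by
    rw [hh]
    have : (m1 + m2 + m3) * (m1 * (1 - 1) ^ 2 - m2 * 1 ^ 2)
      - ((m1 + m2) * 1 - m2) * ((m1 + m2) * ((1 : ℝ) ^ 2 * (1 - 1) ^ 2) + m3 * (1 ^ 2 + (1 - 1) ^ 2))
      = -((m1 + m2 + m3) * m2 + m1 * m3) := by ring
    change (m1 + m2 + m3) * (m1 * (1 - 1) ^ 2 - m2 * 1 ^ 2)
      - ((m1 + m2) * 1 - m2) * ((m1 + m2) * ((1 : ℝ) ^ 2 * (1 - 1) ^ 2) + m3 * (1 ^ 2 + (1 - 1) ^ 2)) < 0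
    rw [this]
    have : 0 < (m1 + m2 + m3) * m2 + m1 * m3 := by positivity
    linarith
  obtain ⟨d, hd, hd0⟩ := intermediate_value_Icc' zero_le_one hc.continuousOn
    (show (0 : ℝ) ∈ Icc (h 1) (h 0) from ⟨h1'.le, h0.le⟩)
  have hd1 : 0 < d := by
    rcases eq_or_lt_of_le hd.1 with h4 | h4
    · rw [← h4] at hd0; linarith
    · exact h4
  have hd2 : d < 1 := by
    rcases eq_or_lt_of_le hd.2 with h4 | h4
    · rw [h4] at hd0; linarith
    · exact h4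
  have hf : 0 < 1 - d := by linarith
  have hn : 0 < m1 + m2 := by positivity
  refine ⟨d - m2 / (m1 + m2), d, 1 - d, m1 + m2 + m3 * (1 / d ^ 2 + 1 / (1 - d) ^ 2), h1, h2, h3, hd1,
    hf, by ring, ?_, rfl, ?_⟩
  · field_simp; ring
  · rw [hh] at hd0
    simp only at hd0
    field_simp
    linear_combination hd0

lemma Eu.sum (h : Eu m1 m2 m3 e d1 d2 F0) : d1 + d2 = 1 := by
  have h1 := h.h1
  have h2 := h.h2
  rw [← h.e1, ← h.e2]
  field_simp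
  ring

lemma Eu.kst_eq (h : Eu m1 m2 m3 e d1 d2 F0) :
    F0 * kst (McOf m1 m2 m3 e d1 d2 F0) = (m1 + m3 * d2) / d1 ^ 3 + (m2 + m3 * d1) / d2 ^ 3 := by
  have h1 := h.h1
  have h2 := h.h2
  have hF := h.F0_pos
  have a1 := h.hd1
  have a2 := h.hd2
  have b1 : (m1 + m2 + m3) * (m1 / (m1 + m2)) = m1 + m3 * d2 + m3 * e := by
    rw [← h.e2]; field_simp; ring
  have b2 : (m1 + m2 + m3) * (m2 / (m1 + m2)) = m2 + m3 * d1 - m3 * e := by
    rw [← h.e1]; field_simp; ring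
  unfold kst McOf
  simp only
  rw [b1, b2]
  field_simp
  ring

lemma Eu.kst_gt (h : Eu m1 m2 m3 e d1 d2 F0) : 1 < kst (McOf m1 m2 m3 e d1 d2 F0) := by
  have h1 := h.h1
  have h2 := h.h2
  have h3 := h.h3
  have hF := h.F0_pos
  have a1 := h.hd1
  have a2 := h.hd2
  have hs := h.sum
  have hk := h.kst_eq
  have hlt : F0 * 1 < F0 * kst (McOf m1 m2 m3 e d1 d2 F0) := by
    rw [hk, mul_one, h.hF]
    have l1 : d1 < 1 := by linarith
    have l2 : d2 < 1 := by linarith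
    have c1 : m1 < m1 / d1 ^ 3 := by
      rw [lt_div_iff₀ (by positivity)]
      have : d1 ^ 3 < 1 := pow_lt_one₀ a1.le l1 (by norm_num)
      nlinarith
    have c2 : m2 < m2 / d2 ^ 3 := by
      rw [lt_div_iff₀ (by positivity)]
      have : d2 ^ 3 < 1 := pow_lt_one₀ a2.le l2 (by norm_num)
      nlinarith
    have c3 : 1 / d1 ^ 2 + 1 / d2 ^ 2 ≤ d2 / d1 ^ 3 + d1 / d2 ^ 3 := by
      have e1 : d2 / d1 ^ 3 + d1 / d2 ^ 3 - (1 / d1 ^ 2 + 1 / d2 ^ 2)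
          = (d2 - d1) ^ 2 * (d2 ^ 2 + d1 * d2 + d1 ^ 2) / (d1 ^ 3 * d2 ^ 3) := by
        field_simp
        ring
      have : 0 ≤ (d2 - d1) ^ 2 * (d2 ^ 2 + d1 * d2 + d1 ^ 2) / (d1 ^ 3 * d2 ^ 3) := by positivity
      linarith
    have c4 : m3 * (1 / d1 ^ 2 + 1 / d2 ^ 2) ≤ m3 * (d2 / d1 ^ 3 + d1 / d2 ^ 3) := by gcongr
    have e2 : (m1 + m3 * d2) / d1 ^ 3 + (m2 + m3 * d1) / d2 ^ 3
        = m1 / d1 ^ 3 + m2 / d2 ^ 3 + m3 * (d2 / d1 ^ 3 + d1 / d2 ^ 3) := by ring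
    rw [e2]
    linarith
  exact lt_of_mul_lt_mul_left hlt hF.le

lemma k0_surj {K : ℝ} (hK : 1 < K) : ∃ y, Ok y ∧ k0 y = K := by
  obtain ⟨a, ha⟩ : ∃ a, a = 1 + 1 / (4 * K) := ⟨_, rfl⟩
  obtain ⟨b, hb⟩ : ∃ b, b = 2 - (K - 1) / (5 * K) := ⟨_, rfl⟩
  have hK0 : 0 < K := by linarith
  have hη : 1 / (4 * K) < 1 / 4 := by
    rw [div_lt_div_iff₀ (by positivity) (by norm_num)]; linarith
  have hη0 : 0 < 1 / (4 * K) := by positivity
  have hζ : (K - 1) / (5 * K) < 1 / 5 := by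
    rw [div_lt_div_iff₀ (by positivity) (by norm_num)]; linarith
  have hζ0 : 0 < (K - 1) / (5 * K) := by apply div_pos <;> linarith
  have hR : Rg a b := ⟨by linarith, by linarith⟩
  have hab : a < b := by linarith
  have hoa : Ok a := ⟨by linarith, by linarith⟩
  have hob : Ok b := ⟨by linarith, by linarith⟩
  have hka : K < k0 a := by
    unfold k0
    rw [lt_div_iff₀ hoa.eE_pos]
    unfold eE
    have e1 : K * ((a + 2) * (a - 1)) = (a + 2) / 4 := by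
      have : a - 1 = 1 / (4 * K) := by rw [ha]; ring
      rw [this]; field_simp
    rw [e1]
    nlinarith
  have hkb : k0 b < K := by
    unfold k0
    rw [div_lt_iff₀ hob.eE_pos]
    unfold eE
    obtain ⟨z, hz⟩ : ∃ z, z = (K - 1) / (5 * K) := ⟨_, rfl⟩
    have hz1 : z * (5 * K) = K - 1 := by rw [hz]; field_simp
    have hbz : b = 2 - z := by rw [hb, hz]
    rw [← hz] at hζ hζ0
    rw [hbz]
    have : K * ((2 - z + 2) * (2 - z - 1)) - (2 - z) ^ 2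
        = 4 * (K - 1) - 5 * K * z + 4 * z + (K - 1) * z ^ 2 := by ring
    have h3 : 0 ≤ (K - 1) * z ^ 2 := by
      have : 0 ≤ K - 1 := by linarith
      positivity
    nlinarith
  obtain ⟨y, hy, hy'⟩ := intermediate_value_Icc' hab.le hR.ck0 ⟨hkb.le, hka.le⟩
  exact ⟨y, hR.ok hy, hy'⟩

/-! ### the masses in terms of the configuration -/

/-- entries of the matrix -/
def r11 (d : ℝ) : ℝ := d ^ 2 * (1 - d) ^ 2
/-- entries of the matrix -/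
def r13 (d : ℝ) : ℝ := (1 - d) ^ 2 + d ^ 2
/-- entries of the matrix -/
def r21 (d : ℝ) : ℝ := (1 - d) ^ 2
/-- entries of the matrix -/
def r22 (d : ℝ) : ℝ := d ^ 2 * (1 - d) ^ 2 - d ^ 2
/-- entries of the matrix -/
def r31 (d : ℝ) : ℝ := d ^ 3 * (1 - d) ^ 3 + (1 - d) ^ 3
/-- entries of the matrix -/
def r32 (d : ℝ) : ℝ := d ^ 3 * (1 - d) ^ 3 + d ^ 3
/-- entries of the matrix -/
def r33 (d : ℝ) : ℝ := (1 - d) ^ 3 + d ^ 3
/-- the determinant -/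
def dt (d : ℝ) : ℝ := 2 * (d * (1 - d)) ^ 3 * (2 - 5 * (d * (1 - d)) + (d * (1 - d)) ^ 3)

lemma dt_eq (d : ℝ) : dt d = r11 d * (r22 d * r33 d - r21 d * r32 d)
    - r11 d * (r21 d * r33 d - r21 d * r31 d) + r13 d * (r21 d * r32 d - r22 d * r31 d) := by
  unfold dt r11 r13 r21 r22 r31 r32 r33; ring

lemma dt_pos {d : ℝ} (h0 : 0 < d) (h1 : d < 1) : 0 < dt d := by
  have h2 : 0 < d * (1 - d) := mul_pos h0 (by linarith)
  have h3 : d * (1 - d) ≤ 1 / 4 := by nlinarith [sq_nonneg (d - 1 / 2)]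
  unfold dt
  have h4 : 0 < (d * (1 - d)) ^ 3 := by positivity
  have h5 : 0 < 2 - 5 * (d * (1 - d)) + (d * (1 - d)) ^ 3 := by linarith
  positivity

/-- first right hand side -/
def s1' (F d : ℝ) : ℝ := F * (d ^ 2 * (1 - d) ^ 2)
/-- second right hand side -/
def s2' (F d : ℝ) : ℝ := F * (d ^ 3 * (1 - d) ^ 2)
/-- third right hand side -/
def s3' (F d k : ℝ) : ℝ := F * ((1 + k) * (d ^ 3 * (1 - d) ^ 3))

/-- cofactor -/
def q11 (d : ℝ) : ℝ := r22 d * r33 d - r21 d * r32 d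
/-- cofactor -/
def q12 (d : ℝ) : ℝ := -(r11 d * r33 d - r13 d * r32 d)
/-- cofactor -/
def q13 (d : ℝ) : ℝ := r11 d * r21 d - r13 d * r22 d
/-- cofactor -/
def q21 (d : ℝ) : ℝ := -(r21 d * r33 d - r21 d * r31 d)
/-- cofactor -/
def q22 (d : ℝ) : ℝ := r11 d * r33 d - r13 d * r31 d
/-- cofactor -/
def q23 (d : ℝ) : ℝ := -(r11 d * r21 d - r13 d * r21 d)
/-- cofactor -/
def q31 (d : ℝ) : ℝ := r21 d * r32 d - r22 d * r31 d
/-- cofactor -/
def q32 (d : ℝ) : ℝ := -(r11 d * r32 d - r11 d * r31 d)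
/-- cofactor -/
def q33 (d : ℝ) : ℝ := r11 d * r22 d - r11 d * r21 d

/-- numerator of a mass -/
def nn (c1 c2 c3 : ℝ → ℝ) (F d k : ℝ) : ℝ := c1 d * s1' F d + c2 d * s2' F d + c3 d * s3' F d k

lemma Eu.lin (h : Eu m1 m2 m3 e d1 d2 F0) : dt d1 * m1 = nn q11 q12 q13 F0 d1 (kst (McOf m1 m2 m3 e d1 d2 F0)) ∧
    dt d1 * m2 = nn q21 q22 q23 F0 d1 (kst (McOf m1 m2 m3 e d1 d2 F0)) ∧
    dt d1 * m3 = nn q31 q32 q33 F0 d1 (kst (McOf m1 m2 m3 e d1 d2 F0)) := by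
  have h1 := h.h1
  have h2 := h.h2
  have hF := h.F0_pos
  have a1 := h.hd1
  have a2 := h.hd2
  have hs := h.sum
  have hk := h.kst_eq
  generalize kst (McOf m1 m2 m3 e d1 d2 F0) = k at *
  have hd2 : d2 = 1 - d1 := by linarith
  have i1 : d1 ≠ 0 := a1.ne'
  have i2 : d2 ≠ 0 := a2.ne'
  have L1 : r11 d1 * m1 + r11 d1 * m2 + r13 d1 * m3 = s1' F0 d1 := by
    have := h.hF
    unfold r11 r13 s1'
    rw [this, ← hd2]
    field_simp
  have L2 : r21 d1 * m1 + r22 d1 * m2 + r21 d1 * m3 = s2' F0 d1 := by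
    have g1 := h.hG
    have g2 : F0 * d1 = F0 * (m2 / (m1 + m2)) + F0 * e := by rw [← h.e1]; ring
    rw [← g1] at g2
    have g3 : s2' F0 d1 = (F0 * d1) * (d1 ^ 2 * (1 - d1) ^ 2) := by unfold s2'; ring
    rw [g3, g2]
    have g4 := h.hF
    rw [g4]
    unfold r21 r22
    rw [← hd2]
    field_simp
    ring
  have L3 : r31 d1 * m1 + r32 d1 * m2 + r33 d1 * m3 = s3' F0 d1 k := by
    have g3 : s3' F0 d1 k = (F0 + F0 * k) * (d1 ^ 3 * (1 - d1) ^ 3) := by unfold s3'; ring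
    rw [g3, hk]
    have g4 := h.hF
    rw [g4]
    unfold r31 r32 r33
    rw [← hd2]
    field_simp
    rw [hd2]
    ring
  refine ⟨?_, ?_, ?_⟩
  · rw [dt_eq]
    unfold nn q11 q12 q13
    linear_combination (r22 d1 * r33 d1 - r21 d1 * r32 d1) * L1
      - (r11 d1 * r33 d1 - r13 d1 * r32 d1) * L2 + (r11 d1 * r21 d1 - r13 d1 * r22 d1) * L3
  · rw [dt_eq]
    unfold nn q21 q22 q23
    linear_combination (-(r21 d1 * r33 d1 - r21 d1 * r31 d1)) * L1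
      + (r11 d1 * r33 d1 - r13 d1 * r31 d1) * L2 - (r11 d1 * r21 d1 - r13 d1 * r21 d1) * L3
  · rw [dt_eq]
    unfold nn q31 q32 q33
    linear_combination (r21 d1 * r32 d1 - r22 d1 * r31 d1) * L1
      - (r11 d1 * r32 d1 - r11 d1 * r31 d1) * L2 + (r11 d1 * r22 d1 - r11 d1 * r21 d1) * L3

/-- the masses of a configuration -/
noncomputable def Phi (x : Fin 3 → ℝ) : Fin 3 → ℝ :=
  ![nn q11 q12 q13 (x 0) (x 1) (k0 (x 2)) / dt (x 1), nn q21 q22 q23 (x 0) (x 1) (k0 (x 2)) / dt (x 1),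
    nn q31 q32 q33 (x 0) (x 1) (k0 (x 2)) / dt (x 1)]

lemma k0_diff {y : ℝ} (h : Ok y) : DifferentiableAt ℝ k0 y := by
  unfold k0
  refine DifferentiableAt.div (by fun_prop) ?_ h.eE_pos.ne'
  unfold eE
  fun_prop

lemma nn_diff {c1 c2 c3 : ℝ → ℝ} (h1 : Differentiable ℝ c1) (h2 : Differentiable ℝ c2)
    (h3 : Differentiable ℝ c3) {x : Fin 3 → ℝ} (h0 : 0 < x 1) (h1' : x 1 < 1) (hy : Ok (x 2)) :
    DifferentiableAt ℝ (fun x : Fin 3 → ℝ => nn c1 c2 c3 (x 0) (x 1) (k0 (x 2)) / dt (x 1)) x := by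
  have hd := (dt_pos h0 h1').ne'
  have p2 : DifferentiableAt ℝ (fun x : Fin 3 → ℝ => x 2) x := differentiableAt_apply 2 x
  have p1 : DifferentiableAt ℝ (fun x : Fin 3 → ℝ => x 1) x := differentiableAt_apply 1 x
  have hk : DifferentiableAt ℝ (fun x : Fin 3 → ℝ => k0 (x 2)) x :=
    DifferentiableAt.comp x (g := k0) (f := fun x : Fin 3 → ℝ => x 2) (k0_diff hy) p2
  have e1 : DifferentiableAt ℝ (fun x : Fin 3 → ℝ => c1 (x 1)) x :=
    DifferentiableAt.comp x (g := c1) (f := fun x : Fin 3 → ℝ => x 1) (h1 _) p1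
  have e2 : DifferentiableAt ℝ (fun x : Fin 3 → ℝ => c2 (x 1)) x :=
    DifferentiableAt.comp x (g := c2) (f := fun x : Fin 3 → ℝ => x 1) (h2 _) p1
  have e3 : DifferentiableAt ℝ (fun x : Fin 3 → ℝ => c3 (x 1)) x :=
    DifferentiableAt.comp x (g := c3) (f := fun x : Fin 3 → ℝ => x 1) (h3 _) p1
  have hdt : DifferentiableAt ℝ (fun x : Fin 3 → ℝ => dt (x 1)) x := by unfold dt; fun_prop
  have g1 : DifferentiableAt ℝ (fun x : Fin 3 → ℝ => s1' (x 0) (x 1)) x := by unfold s1'; fun_prop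
  have g2 : DifferentiableAt ℝ (fun x : Fin 3 → ℝ => s2' (x 0) (x 1)) x := by unfold s2'; fun_prop
  have g4 : DifferentiableAt ℝ (fun x : Fin 3 → ℝ => (x 1) ^ 3 * (1 - x 1) ^ 3) x := by fun_prop
  have g5 : DifferentiableAt ℝ (fun x : Fin 3 → ℝ => x 0) x := differentiableAt_apply 0 x
  have g3 : DifferentiableAt ℝ (fun x : Fin 3 → ℝ => s3' (x 0) (x 1) (k0 (x 2))) x :=
    g5.fun_mul ((hk.const_add 1).fun_mul g4)
  have hi : DifferentiableAt ℝ (fun x : Fin 3 → ℝ => (dt (x 1))⁻¹) x :=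
    DifferentiableAt.comp x (g := fun t : ℝ => t⁻¹) (f := fun x : Fin 3 → ℝ => dt (x 1))
      (differentiableAt_inv hd) hdt
  simp only [div_eq_mul_inv]
  exact (((e1.fun_mul g1).fun_add (e2.fun_mul g2)).fun_add (e3.fun_mul g3)).fun_mul hi

lemma q_diff : Differentiable ℝ q11 ∧ Differentiable ℝ q12 ∧ Differentiable ℝ q13 ∧
    Differentiable ℝ q21 ∧ Differentiable ℝ q22 ∧ Differentiable ℝ q23 ∧
    Differentiable ℝ q31 ∧ Differentiable ℝ q32 ∧ Differentiable ℝ q33 := by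
  refine ⟨?_, ?_, ?_, ?_, ?_, ?_, ?_, ?_, ?_⟩
  · unfold q11 r22 r33 r21 r32; fun_prop
  · unfold q12 r11 r33 r13 r32; fun_prop
  · unfold q13 r11 r21 r13 r22; fun_prop
  · unfold q21 r21 r33 r31; fun_prop
  · unfold q22 r11 r33 r13 r31; fun_prop
  · unfold q23 r11 r21 r13; fun_prop
  · unfold q31 r21 r32 r22 r31; fun_prop
  · unfold q32 r11 r32 r31; fun_prop
  · unfold q33 r11 r22 r21; fun_prop

lemma Phi_diff {x : Fin 3 → ℝ} (h0 : 0 < x 1) (h1 : x 1 < 1) (hy : Ok (x 2)) :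
    DifferentiableAt ℝ Phi x := by
  obtain ⟨a1, a2, a3, b1, b2, b3, c1, c2, c3⟩ := q_diff
  rw [differentiableAt_pi]
  intro i
  fin_cases i
  · exact nn_diff a1 a2 a3 h0 h1 hy
  · exact nn_diff b1 b2 b3 h0 h1 hy
  · exact nn_diff c1 c2 c3 h0 h1 hy

/-- For almost all masses the mass parameter is accumulated by good base points. -/
theorem ae_masses : ∀ᵐ m : Fin 3 → ℝ, (∀ i, 0 < m i) → ∃ e d1 d2 F0 G : ℝ,
    Eu (m 0) (m 1) (m 2) e d1 d2 F0 ∧ 1 < kst (McOf (m 0) (m 1) (m 2) e d1 d2 F0) ∧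
    ∀ δ, 0 < δ → ∃ y, Ok y ∧ kst (McOf (m 0) (m 1) (m 2) e d1 d2 F0) < k0 y ∧
      k0 y < kst (McOf (m 0) (m 1) (m 2) e d1 d2 F0) + δ ∧ Dio2 G (om y) := by
  obtain ⟨N, hN⟩ : ∃ N : Set (Fin 3 → ℝ), N = {x | 0 < x 1 ∧ x 1 < 1 ∧ x 2 ∈ Yb} := ⟨_, rfl⟩
  have hN0 : volume N = 0 := by
    have h1 : volume ((Function.eval 2 : (Fin 3 → ℝ) → ℝ) ⁻¹' Yb) = 0 := by
      rw [volume_pi]
      exact Measure.pi_eval_preimage_null _ Yb_null
    refine measure_mono_null ?_ h1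
    rw [hN]
    rintro x ⟨-, -, h⟩
    exact h
  have hP : volume (Phi '' N) = 0 := by
    refine addHaar_image_eq_zero_of_differentiableOn_of_addHaar_eq_zero volume (fun x hx => ?_) hN0
    rw [hN] at hx
    exact (Phi_diff hx.1 hx.2.1 hx.2.2.1).differentiableWithinAt
  rw [MeasureTheory.ae_iff]
  refine measure_mono_null (fun m hm => ?_) hP
  by_contra hcon
  apply hm
  intro hpos
  obtain ⟨e, d1, d2, F0, h⟩ := euler_exists (hpos 0) (hpos 1) (hpos 2)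
  have hK := h.kst_gt
  obtain ⟨y, hy, hyK⟩ := k0_surj hK
  have hd := dt_pos h.hd1 (by have := h.sum; have := h.hd2; linarith)
  obtain ⟨l1, l2, l3⟩ := h.lin
  have hm' : Phi ![F0, d1, y] = m := by
    funext i
    fin_cases i
    · change nn q11 q12 q13 F0 d1 (k0 y) / dt d1 = m 0
      rw [hyK, ← l1]; field_simp
    · change nn q21 q22 q23 F0 d1 (k0 y) / dt d1 = m 1
      rw [hyK, ← l2]; field_simp
    · change nn q31 q32 q33 F0 d1 (k0 y) / dt d1 = m 2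
      rw [hyK, ← l3]; field_simp
  have hg : Gd y := by
    by_contra hbad
    apply hcon
    refine ⟨![F0, d1, y], ?_, hm'⟩
    rw [hN]
    refine ⟨h.hd1, ?_, hy, hbad⟩
    change d1 < 1
    have := h.sum
    have := h.hd2
    linarith
  obtain ⟨G, hG⟩ := hg
  refine ⟨e, d1, d2, F0, G, h, hK, fun δ hδ => ?_⟩
  rw [← hyK]
  have hcont := (k0_diff hy).continuousAt
  obtain ⟨η, hη, hη'⟩ := Metric.continuousAt_iff.mp hcont δ hδ
  obtain ⟨y', hy', h1, h2, h3⟩ := hG η hη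
  refine ⟨y', hy', k0_anti hy' hy h2, ?_, h3⟩
  have h4 := hη' (show dist y' y < η by rw [Real.dist_eq, abs_lt]; constructor <;> linarith)
  rw [Real.dist_eq] at h4
  linarith [(abs_lt.mp h4).2]

end Run7.k800g
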