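import Pool.Agent.Run7.k800.Rec

set_option autoImplicit false
set_option linter.unusedSectionVars false

/-!
# Positions of the three bodies, general masses
-/

namespace Run7.k800g

open Run7.k800 (att att_mul att_neg Newton)
open Filter Topology MeasureTheory Set

theorem bodiesG {m1 m2 m3 : ℝ} (h1 : 0 < m1) (h2 : 0 < m2) (h3 : 0 < m3) {X V Y W om : ℝ → ℂ}
    (hX0 : ∀ t, X t ≠ 0) (hY : ∀ t, Y t = X t * om t)
    (hp : ∀ t, ((m2 / (m1 + m2) : ℝ) : ℂ) + om t ≠ 0) (hn : ∀ t, ((m1 / (m1 + m2) : ℝ) : ℂ) - om t ≠ 0)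
    (hX : ∀ t, HasDerivAt X (V t) t)
    (hV : ∀ t, HasDerivAt V (-(att (X t)) * (((m1 + m2 : ℝ) : ℂ) + m3 * (att (((m2 / (m1 + m2) : ℝ) : ℂ) + om t)
      + att (((m1 / (m1 + m2) : ℝ) : ℂ) - om t)))) t)
    (hYd : ∀ t, HasDerivAt Y (W t) t)
    (hW : ∀ t, HasDerivAt W (-(att (X t)) * (((m1 + m2 + m3 : ℝ) : ℂ) * (((m1 / (m1 + m2) : ℝ) : ℂ)
      * att (((m2 / (m1 + m2) : ℝ) : ℂ) + om t)
      - ((m2 / (m1 + m2) : ℝ) : ℂ) * att (((m1 / (m1 + m2) : ℝ) : ℂ) - om t)))) t) :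
    ∃ q : Fin 3 → ℝ → ℂ, (∀ t i j, i ≠ j → q i t ≠ q j t) ∧ Newton ![m1, m2, m3] q ∧
      (∀ t, m1 * q 0 t + m2 * q 1 t + m3 * q 2 t = 0) ∧ (∀ t, q 1 t - q 0 t = X t) ∧
      (∀ t, q 2 t - (m1 * q 0 t + m2 * q 1 t) / (m1 + m2) = Y t) := by
  have hS : 0 < m1 + m2 := by positivity
  obtain ⟨ν1, hν1⟩ : ∃ ν1, ν1 = m1 / (m1 + m2) := ⟨_, rfl⟩
  obtain ⟨ν2, hν2⟩ : ∃ ν2, ν2 = m2 / (m1 + m2) := ⟨_, rfl⟩
  simp only [← hν1, ← hν2] at hp hn hV hW
  have e1 : (m1 + m2 : ℂ) * ν1 = m1 := by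
    have : (m1 + m2) * ν1 = m1 := by rw [hν1]; field_simp
    exact_mod_cast this
  have e2 : (m1 + m2 : ℂ) * ν2 = m2 := by
    have : (m1 + m2) * ν2 = m2 := by rw [hν2]; field_simp
    exact_mod_cast this
  have e3 : (ν1 + ν2 : ℂ) = 1 := by
    have : ν1 + ν2 = 1 := by rw [hν1, hν2]; field_simp
    exact_mod_cast this
  obtain ⟨A, hA⟩ : ∃ A : ℂ, A = m3 / (m1 + m2 + m3) := ⟨_, rfl⟩
  have hT : (m1 + m2 + m3 : ℂ) ≠ 0 := by
    have : (m1 + m2 + m3 : ℝ) ≠ 0 := by positivity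
    exact_mod_cast this
  have eA : A * (m1 + m2 + m3) = m3 := by rw [hA]; field_simp
  obtain ⟨q, hq⟩ : ∃ q : Fin 3 → ℝ → ℂ, q = ![fun t => -A * Y t - ν2 * X t,
    fun t => -A * Y t + ν1 * X t, fun t => (1 - A) * Y t] := ⟨_, rfl⟩
  have q0 : ∀ t, q 0 t = -A * Y t - ν2 * X t := fun t => by rw [hq]; rfl
  have q1 : ∀ t, q 1 t = -A * Y t + ν1 * X t := fun t => by rw [hq]; rfl
  have q2 : ∀ t, q 2 t = (1 - A) * Y t := fun t => by rw [hq]; rfl
  have d01 : ∀ t, q 1 t - q 0 t = X t := fun t => by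
    rw [q0, q1]; linear_combination (X t) * e3
  have d02 : ∀ t, q 2 t - q 0 t = X t * (ν2 + om t) := fun t => by rw [q0, q2, hY]; ring
  have d12 : ∀ t, q 2 t - q 1 t = -(X t * (ν1 - om t)) := fun t => by rw [q1, q2, hY]; ring
  have n01 : ∀ t, q 1 t ≠ q 0 t := fun t h => hX0 t (by rw [← d01, h, sub_self])
  have n02 : ∀ t, q 2 t ≠ q 0 t := fun t h => mul_ne_zero (hX0 t) (hp t) (by rw [← d02, h, sub_self])
  have n12 : ∀ t, q 2 t ≠ q 1 t := fun t h => by
    have := d12 t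
    rw [h, sub_self] at this
    exact mul_ne_zero (hX0 t) (hn t) (neg_eq_zero.mp this.symm)
  have a01 : ∀ t, (q 1 t - q 0 t) / ((‖q 1 t - q 0 t‖ ^ 3 : ℝ) : ℂ) = att (X t) := fun t => by
    rw [d01]; rfl
  have a10 : ∀ t, (q 0 t - q 1 t) / ((‖q 0 t - q 1 t‖ ^ 3 : ℝ) : ℂ) = -att (X t) := fun t => by
    have : q 0 t - q 1 t = -(X t) := by rw [← d01]; ring
    rw [this]; exact att_neg _
  have a02 : ∀ t, (q 2 t - q 0 t) / ((‖q 2 t - q 0 t‖ ^ 3 : ℝ) : ℂ) = att (X t) * att (ν2 + om t) :=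
    fun t => by rw [d02, ← att_mul]; rfl
  have a20 : ∀ t, (q 0 t - q 2 t) / ((‖q 0 t - q 2 t‖ ^ 3 : ℝ) : ℂ)
      = -(att (X t) * att (ν2 + om t)) := fun t => by
    have : q 0 t - q 2 t = -(X t * (ν2 + om t)) := by rw [← d02]; ring
    rw [this, ← att_mul]; exact att_neg _
  have a12 : ∀ t, (q 2 t - q 1 t) / ((‖q 2 t - q 1 t‖ ^ 3 : ℝ) : ℂ)
      = -(att (X t) * att (ν1 - om t)) := fun t => by
    rw [d12, ← att_mul]; exact att_neg _
  have a21 : ∀ t, (q 1 t - q 2 t) / ((‖q 1 t - q 2 t‖ ^ 3 : ℝ) : ℂ) = att (X t) * att (ν1 - om t) :=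
    fun t => by
    have : q 1 t - q 2 t = X t * (ν1 - om t) := by
      have := d12 t
      linear_combination -this
    rw [this, ← att_mul]; rfl
  push_cast at hV hW
  refine ⟨q, ?_, ?_, ?_, d01, ?_⟩
  · intro t i j hij
    fin_cases i <;> fin_cases j
    · exact absurd rfl hij
    · exact (n01 t).symm
    · exact (n02 t).symm
    · exact n01 t
    · exact absurd rfl hij
    · exact (n12 t).symm
    · exact n02 t
    · exact n12 t
    · exact absurd rfl hij
  · intro i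
    fin_cases i
    · refine ⟨fun t => -A * W t - ν2 * V t, fun t => -A * (-(att (X t)) * ((m1 + m2 + m3) * (ν1 * att (ν2 + om t) - ν2 * att (ν1 - om t))))
        - ν2 * (-(att (X t)) * ((m1 + m2) + m3 * (att (ν2 + om t) + att (ν1 - om t)))), fun t => ?_,
        fun t => ?_, fun t => ?_⟩
      · rw [hq]
        exact ((hYd t).const_mul (-A)).sub ((hX t).const_mul (ν2 : ℂ))
      · exact ((hW t).const_mul (-A)).sub ((hV t).const_mul (ν2 : ℂ))
      · have e : (Finset.univ.erase (0 : Fin 3)) = {1, 2} := by decide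
        simp only [Fin.zero_eta, Fin.isValue]
        rw [e, Finset.sum_pair (by decide)]
        rw [mul_div_assoc, mul_div_assoc, a01, a02]
        simp only [Matrix.cons_val_zero, Matrix.cons_val_one, Matrix.cons_val]
        linear_combination (m1 * att (X t) * (ν1 * att (ν2 + om t) - ν2 * att (ν1 - om t))) * eA
          + (m1 * att (X t)) * e2 + (m1 * m3 * att (X t) * att (ν2 + om t)) * e3
    · refine ⟨fun t => -A * W t + ν1 * V t, fun t => -A * (-(att (X t)) * ((m1 + m2 + m3) * (ν1 * att (ν2 + om t) - ν2 * att (ν1 - om t))))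
        + ν1 * (-(att (X t)) * ((m1 + m2) + m3 * (att (ν2 + om t) + att (ν1 - om t)))), fun t => ?_,
        fun t => ?_, fun t => ?_⟩
      · rw [hq]
        exact ((hYd t).const_mul (-A)).add ((hX t).const_mul (ν1 : ℂ))
      · exact ((hW t).const_mul (-A)).add ((hV t).const_mul (ν1 : ℂ))
      · have e : (Finset.univ.erase (1 : Fin 3)) = {0, 2} := by decide
        simp only [Fin.mk_one, Fin.isValue]
        rw [e, Finset.sum_pair (by decide)]
        rw [mul_div_assoc, mul_div_assoc, a10, a12]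
        simp only [Matrix.cons_val_zero, Matrix.cons_val_one, Matrix.cons_val]
        linear_combination (m2 * att (X t) * (ν1 * att (ν2 + om t) - ν2 * att (ν1 - om t))) * eA
          - (m2 * att (X t)) * e1 - (m2 * m3 * att (X t) * att (ν1 - om t)) * e3
    · refine ⟨fun t => (1 - A) * W t, fun t => (1 - A) * (-(att (X t)) * ((m1 + m2 + m3) * (ν1 * att (ν2 + om t) - ν2 * att (ν1 - om t)))), fun t => ?_,
        fun t => ?_, fun t => ?_⟩
      · rw [hq]
        exact (hYd t).const_mul (1 - A)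
      · exact (hW t).const_mul (1 - A)
      · have e : (Finset.univ.erase (2 : Fin 3)) = {0, 1} := by decide
        simp only [Fin.reduceFinMk, Fin.isValue]
        rw [e, Finset.sum_pair (by decide)]
        rw [mul_div_assoc, mul_div_assoc, a20, a21]
        simp only [Matrix.cons_val_zero, Matrix.cons_val_one, Matrix.cons_val]
        linear_combination (m3 * att (X t) * (ν1 * att (ν2 + om t) - ν2 * att (ν1 - om t))) * eA
          - (m3 * att (X t) * att (ν2 + om t)) * e1 + (m3 * att (X t) * att (ν1 - om t)) * e2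
  · intro t
    rw [q0, q1, q2]
    linear_combination (-(Y t)) * eA + (ν2 * X t) * e1 - (ν1 * X t) * e2
  · intro t
    rw [q0, q1, q2]
    have : (m1 + m2 : ℂ) ≠ 0 := by
      exact_mod_cast hS.ne'
    field_simp
    linear_combination (ν1 * X t) * e2 - (ν2 * X t) * e1

end Run7.k800g
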