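import Mathlib

set_option autoImplicit false
set_option linter.unusedSectionVars false

/-!
# Constants of the base point
-/

namespace Run7.k800g

open Filter Topology

/-- denominator -/
noncomputable def eE (y : ℝ) : ℝ := (y + 2) * (y - 1)
/-- square of the frequency -/
noncomputable def tt (y : ℝ) : ℝ := (3 * y - 2) / eE y
/-- transversal coefficient -/
noncomputable def bt (y : ℝ) : ℝ := (2 - y) / eE y
/-- the mass parameter -/
noncomputable def k0 (y : ℝ) : ℝ := y ^ 2 / eE y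
/-- longitudinal coefficient -/
noncomputable def aa (y : ℝ) : ℝ := tt y * (y + 1)
/-- the frequency -/
noncomputable def al (y : ℝ) : ℝ := Real.sqrt (tt y)
/-- the hyperbolic exponent -/
noncomputable def la (y : ℝ) : ℝ := Real.sqrt (bt y * (y + 1))
/-- the ratio of the amplitudes -/
noncomputable def be (y : ℝ) : ℝ := -(al y * (y + 2) / 2)
/-- entry of the hyperbolic frame -/
noncomputable def dh (y : ℝ) : ℝ := -(2 * (y + 1) / (y + 2))
/-- entry of the hyperbolic frame -/
noncomputable def chh (y : ℝ) : ℝ := dh y / la y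
/-- normalising factor -/
noncomputable def iQ (y : ℝ) : ℝ := 2 / (tt y + bt y * (y + 1))
/-- inverse of the frequency -/
noncomputable def ia (y : ℝ) : ℝ := (al y)⁻¹
/-- inverse -/
noncomputable def iy (y : ℝ) : ℝ := (y + 1)⁻¹
/-- the frequency vector -/
noncomputable def om (y : ℝ) : ℝ × ℝ := (1, al y)

/-- admissible base points -/
structure Ok (y : ℝ) : Prop where
  y1 : 1 < y
  y2 : y < 2

variable {y : ℝ}

lemma Ok.eE_pos (h : Ok y) : 0 < eE y := by
  have := h.y1
  unfold eE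
  apply mul_pos <;> linarith

lemma Ok.tt_pos (h : Ok y) : 0 < tt y := by
  have := h.y1
  exact div_pos (by linarith) h.eE_pos

lemma Ok.bt_pos (h : Ok y) : 0 < bt y := by
  have := h.y2
  exact div_pos (by linarith) h.eE_pos

lemma Ok.al_pos (h : Ok y) : 0 < al y := Real.sqrt_pos.mpr h.tt_pos

lemma Ok.ll_pos (h : Ok y) : 0 < bt y * (y + 1) := by
  have := h.y1
  exact mul_pos h.bt_pos (by linarith)

lemma Ok.la_pos (h : Ok y) : 0 < la y := Real.sqrt_pos.mpr h.ll_pos

lemma Ok.al_sq (h : Ok y) : al y ^ 2 = tt y := Real.sq_sqrt h.tt_pos.le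

lemma Ok.la_sq (h : Ok y) : la y ^ 2 = bt y * (y + 1) := Real.sq_sqrt h.ll_pos.le

lemma Ok.r1 (h : Ok y) : (y + 2) * (tt y - bt y) = 4 := by
  have h1 := h.eE_pos.ne'
  have h2 : (y + 2) * (4 * y - 4) = 4 * eE y := by unfold eE; ring
  unfold tt bt
  field_simp
  linarith

lemma Ok.r2 (h : Ok y) : 2 * bt y + 3 = tt y * (y + 1) := by
  have h1 := h.eE_pos.ne'
  unfold tt bt
  field_simp
  unfold eE
  ring

lemma Ok.r3 (h : Ok y) : k0 y = bt y + 1 := by
  have h1 := h.eE_pos.ne'
  unfold k0 bt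
  field_simp
  unfold eE
  ring

lemma Ok.r4 (h : Ok y) : 2 * k0 y + 1 = aa y := by
  rw [h.r3, aa, ← h.r2]; ring

lemma Ok.rd (h : Ok y) : dh y * (y + 2) = -(2 * (y + 1)) := by
  have := h.y1
  have h2 : y + 2 ≠ 0 := by linarith
  unfold dh
  field_simp

lemma Ok.rc (h : Ok y) : la y * chh y = dh y := by
  have := h.la_pos.ne'
  unfold chh
  field_simp

lemma Ok.rQ (h : Ok y) : iQ y * (tt y + bt y * (y + 1)) = 2 := by
  have h1 : tt y + bt y * (y + 1) ≠ 0 := by
    have := h.tt_pos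
    have := h.ll_pos
    linarith
  unfold iQ
  field_simp

lemma Ok.ra (h : Ok y) : ia y * al y = 1 := inv_mul_cancel₀ h.al_pos.ne'

lemma Ok.ry (h : Ok y) : iy y * (y + 1) = 1 := inv_mul_cancel₀ (by have := h.y1; linarith)

lemma Ok.rb (h : Ok y) : 2 * be y = -(al y * (y + 2)) := by unfold be; ring

lemma Ok.tt_gt (h : Ok y) : 1 < tt y := by
  have h1 := h.y1
  have h2 := h.y2
  unfold tt
  rw [lt_div_iff₀ h.eE_pos]
  unfold eE
  nlinarith

lemma Ok.al_gt (h : Ok y) : 1 < al y := by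
  have h1 := h.al_sq
  have h2 := h.al_pos
  have h3 := h.tt_gt
  nlinarith

lemma Ok.iQ_pos (h : Ok y) : 0 < iQ y := by
  have := h.tt_pos
  have := h.ll_pos
  unfold iQ
  positivity

lemma Ok.ia_pos (h : Ok y) : 0 < ia y := inv_pos.mpr h.al_pos

lemma Ok.iy_pos (h : Ok y) : 0 < iy y := by
  have := h.y1
  unfold iy
  positivity

lemma k0_anti {x y : ℝ} (hx : Ok x) (hy : Ok y) (h : x < y) : k0 y < k0 x := by
  have h1 := hx.eE_pos
  have h2 := hy.eE_pos
  have h3 := hx.y1
  have h4 := hy.y2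
  unfold k0
  rw [div_lt_div_iff₀ h2 h1]
  unfold eE
  have : 0 < (y - x) * (x * (2 - y) + 2 * y) := by
    have : 0 < x * (2 - y) := by apply mul_pos <;> linarith
    apply mul_pos <;> linarith
  nlinarith

end Run7.k800g
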