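import Pool.Agent.Run7.k800.Slv

set_option autoImplicit false
set_option linter.unusedSectionVars false

/-!
# Small divisors of order two
-/

namespace Run7.k800g

open Run7.k800
open Filter Topology

variable {P : Type*} [TopologicalSpace P] [CompactSpace P]

/-- Diophantine frequency vectors of order two -/
structure Dio2 (G : ℝ) (ω : ℝ × ℝ) : Prop where
  nonneg : 0 ≤ G
  div : ∀ k : ℤ × ℤ, k ≠ 0 → 2 ≤ G * dg k ^ 2 * |dot k ω|

lemma nat_sq_mul_pow_le {s : ℝ} (hs0 : 0 ≤ s) (hs1 : s < 1) (n : ℕ) :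
    (n : ℝ) ^ 2 * s ^ n ≤ 2 / (1 - s) ^ 2 := by
  have h1 : HasSum (fun j : ℕ => (j : ℝ) * s ^ j) (s / (1 - s) ^ 2) :=
    hasSum_coe_mul_geometric_of_norm_lt_one (by rw [Real.norm_eq_abs, abs_of_nonneg hs0]; exact hs1)
  have h2 : ∑ j ∈ Finset.range (n + 1), (j : ℝ) * s ^ j ≤ s / (1 - s) ^ 2 :=
    sum_le_hasSum _ (fun j _ => by positivity) h1
  have h3 : ∑ j ∈ Finset.range (n + 1), (j : ℝ) * s ^ n ≤ ∑ j ∈ Finset.range (n + 1), (j : ℝ) * s ^ j := by
    refine Finset.sum_le_sum (fun j hj => ?_)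
    have : s ^ n ≤ s ^ j := pow_le_pow_of_le_one hs0 hs1.le (by
      have := Finset.mem_range.mp hj
      omega)
    gcongr
  have h4 : ∑ j ∈ Finset.range (n + 1), (j : ℝ) * s ^ n = ((n : ℝ) * (n + 1) / 2) * s ^ n := by
    rw [← Finset.sum_mul]
    congr 1
    have h5 := Finset.sum_range_id_mul_two (n + 1)
    have h6 : ((∑ i ∈ Finset.range (n + 1), i : ℕ) : ℝ) * 2 = (n + 1) * n := by
      have := congrArg (Nat.cast (R := ℝ)) h5
      push_cast at this ⊢
      simpa using this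
    push_cast at h6
    linarith
  have h7 : s / (1 - s) ^ 2 ≤ 1 / (1 - s) ^ 2 := by
    have : 0 < 1 - s := by linarith
    gcongr
  have h8 : 0 ≤ s ^ n := by positivity
  have h9 : (0 : ℝ) ≤ n := by positivity
  have h10 : (2 : ℝ) / (1 - s) ^ 2 = 2 * (1 / (1 - s) ^ 2) := by ring
  rw [h10]
  nlinarith [mul_nonneg h9 h8]

/-- The cohomological equation with small divisors (complex version). -/
lemma solve0g {r M G : ℝ} {ω : ℝ × ℝ} {a : ℤ × ℤ → C(P, ℂ)} {f : P → ℝ × ℝ → ℂ}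
    (hf : BC r M a f) (hr : 1 < r) (hG : 0 ≤ G)
    (hdiv : ∀ k : ℤ × ℤ, k ≠ 0 → 2 ≤ G * dg k ^ 2 * |dot k ω|) :
    ∃ (g : P → ℝ × ℝ → ℂ) (b : ℤ × ℤ → C(P, ℂ)),
      (∀ p x, fderiv ℝ (g p) x ω = f p x - a 0 p) ∧ (∀ p, Differentiable ℝ (g p)) ∧
      ∀ s, 0 < s → s < 1 → 1 ≤ r * s → BC (r * s) (G / (1 - s) ^ 2 * M) b g := by
  have hr0 : 0 < r := by linarith
  have hne : ∀ k : ℤ × ℤ, k ≠ 0 → dot k ω ≠ 0 := by
    intro k hk h0
    have := hdiv k hk
    rw [h0, abs_zero, mul_zero] at this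
    linarith
  let m : ℤ × ℤ → C(P, ℂ) := fun k => if k = 0 then 0 else
    ContinuousMap.const P ((Complex.I * (dot k ω : ℝ))⁻¹)
  have hmn : ∀ k, ‖m k‖ ≤ G / 2 * dg k ^ 2 := by
    intro k
    by_cases hk : k = 0
    · simp only [m, hk, if_true, norm_zero]
      simp [dg]
    · simp only [m, hk, if_false]
      rw [ContinuousMap.norm_le _ (by positivity)]
      intro p
      rw [ContinuousMap.const_apply, norm_inv, norm_mul, Complex.norm_I, one_mul,
        Complex.norm_real, Real.norm_eq_abs]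
      have hpos : 0 < |dot k ω| := abs_pos.mpr (hne k hk)
      rw [inv_le_iff_one_le_mul₀ hpos]
      have := hdiv k hk
      linarith
  have key : ∀ s, 0 < s → s < 1 → 1 ≤ r * s → BC (r * s) (G / (1 - s) ^ 2 * M) (fun k => m k * a k)
      (fun p x => ∑' k : ℤ × ℤ, (m k * a k) p * ch k x) := by
    intro s hs0 hs1 hrs
    have h1s : 0 < 1 - s := by linarith
    refine hf.mult m (by positivity) hrs (fun k => ?_)
    have h2 := nat_sq_mul_pow_le hs0.le hs1 (dg k)
    calc ‖m k‖ * (r * s) ^ dg k ≤ (G / 2 * dg k ^ 2) * (r * s) ^ dg k := by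
          have := hmn k
          gcongr
      _ = G / 2 * r ^ dg k * (dg k ^ 2 * s ^ dg k) := by rw [mul_pow]; ring
      _ ≤ G / 2 * r ^ dg k * (2 / (1 - s) ^ 2) := by gcongr
      _ = _ := by ring
  refine ⟨fun p x => ∑' k : ℤ × ℤ, (m k * a k) p * ch k x, fun k => m k * a k, ?_, ?_, key⟩
  · -- the equation
    intro p x
    obtain ⟨s, hs⟩ : ∃ s : ℝ, s = (1 + 1 / r) / 2 := ⟨_, rfl⟩
    have hx1 : 1 / r < 1 := by rw [div_lt_one hr0]; exact hr
    have hx0 : 0 < 1 / r := by positivity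
    have hs0 : 0 < s := by rw [hs]; linarith
    have hs1 : s < 1 := by rw [hs]; linarith
    have hrs : 1 < r * s := by
      have : r * s = (r + 1) / 2 := by rw [hs]; field_simp
      rw [this]; linarith
    have h1 := key s hs0 hs1 hrs.le
    have hs' : 0 < 1 / (r * s) := by positivity
    have h2 := h1.fder (s := 1 / (r * s)) hs' (by rw [div_lt_one (by linarith)]; exact hrs)
      (by rw [mul_one_div, div_self (by linarith : r * s ≠ 0)]) ω
    have h3 := h2.rep p x
    have h4 : HasSum (fun k : ℤ × ℤ => (if k = 0 then 0 else a k p * ch k x)) (f p x - a 0 p) := by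
      have h5 := hf.rep p x
      have h6 := hasSum_single (f := fun k : ℤ × ℤ => if k = 0 then a 0 p else 0) 0
        (by intro k hk; simp [hk])
      have h7 := h5.sub h6
      simp only [if_true] at h7
      have e : (fun k : ℤ × ℤ => (if k = 0 then 0 else a k p * ch k x))
          = fun b => a b p * ch b x - if b = 0 then a 0 p else 0 := by
        funext k
        by_cases hk : k = 0
        · subst hk; simp [ch_zero]
        · simp [hk]
      rw [e]; exact h7
    refine h3.unique ?_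
    convert h4 using 2 with k
    by_cases hk : k = 0
    · subst hk; simp [dcoef, dot]
    · have hne' : (Complex.I * (dot k ω : ℝ) : ℂ) ≠ 0 := by
        apply mul_ne_zero Complex.I_ne_zero
        exact_mod_cast hne k hk
      simp only [dcoef, m, hk, if_false, ContinuousMap.smul_apply, ContinuousMap.mul_apply,
        ContinuousMap.const_apply, smul_eq_mul]
      rw [← mul_assoc, mul_inv_cancel₀ hne', one_mul]
  · intro p x
    obtain ⟨s, hs⟩ : ∃ s : ℝ, s = (1 + 1 / r) / 2 := ⟨_, rfl⟩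
    have hx1 : 1 / r < 1 := by rw [div_lt_one hr0]; exact hr
    have hx0 : 0 < 1 / r := by positivity
    have hs0 : 0 < s := by rw [hs]; linarith
    have hs1 : s < 1 := by rw [hs]; linarith
    have hrs : 1 < r * s := by
      have : r * s = (r + 1) / 2 := by rw [hs]; field_simp
      rw [this]; linarith
    exact ((key s hs0 hs1 hrs.le).hasFDerivAt hrs p x).1.differentiableAt

/-- The cohomological equation, real version. -/
theorem solveg {r M G δ H : ℝ} {ω : ℝ × ℝ} (hω : Dio2 G ω) (hr : 1 < r) {f : P → ℝ × ℝ → ℝ}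
    (hf : B r M f) (d : C(P, ℝ)) (hδ : 0 < δ) (hd : d = 0 ∨ ∀ p, δ ≤ |d p|) (hH : G ≤ H)
    (hH' : 1 / δ ≤ H) :
    ∃ (c : C(P, ℝ)) (g : P → ℝ × ℝ → ℝ), ‖c‖ ≤ M ∧ (d ≠ 0 → c = 0) ∧
      (∀ p x, pd ω g p x + d p * g p x = f p x + c p) ∧
      (∀ s, 0 < s → s < 1 → 1 ≤ r * s → B (r * s) (H / (1 - s) ^ 2 * M) g) := by
  have hr0 : 0 ≤ r := by linarith
  have hM := hf.nonneg hr0
  obtain ⟨a, ha⟩ := hf
  have hre : ∀ (g : P → ℝ × ℝ → ℂ) (p : P) (x : ℝ × ℝ), DifferentiableAt ℝ (g p) x →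
      pd ω (fun p x => (g p x).re) p x = (fderiv ℝ (g p) x ω).re := by
    intro g p x h
    have h1 : HasFDerivAt (fun x => Complex.reCLM (g p x)) (Complex.reCLM.comp (fderiv ℝ (g p) x)) x :=
      Complex.reCLM.hasFDerivAt.comp x h.hasFDerivAt
    have h2 : HasFDerivAt (fun x => (g p x).re) (Complex.reCLM.comp (fderiv ℝ (g p) x)) x := h1
    unfold pd
    rw [h2.fderiv]
    rfl
  have hM0 : ∀ s : ℝ, 0 < s → s < 1 → M ≤ 1 / (1 - s) ^ 2 * M := by
    intro s hs0 hs1
    have : 1 ≤ 1 / (1 - s) ^ 2 := by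
      have h0 : 0 < 1 - s := by linarith
      rw [le_div_iff₀ (by positivity)]; nlinarith
    nlinarith
  by_cases hd0 : d = 0
  · obtain ⟨g, b, h1, h2, h3⟩ := solve0g ha hr hω.nonneg hω.div
    have hc0 : ‖a 0‖ ≤ M := by
      have h5 := ha.sum.le_tsum (0 : ℤ × ℤ) (fun k _ => by positivity)
      have h6 : dg 0 = 0 := by simp [dg]
      rw [h6, pow_zero, mul_one] at h5
      exact h5.trans ha.le
    refine ⟨-rx (a 0), fun p x => (g p x).re, ?_, fun h => absurd hd0 h, ?_, ?_⟩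
    · rw [norm_neg]
      exact (norm_rx_le _).trans hc0
    · intro p x
      rw [hre g p x (h2 p x), h1 p x, hd0]
      simp [rx_apply]
      ring
    · intro s hs0 hs1 hrs
      have h5 := re_part (h3 s hs0 hs1 hrs) (by linarith)
      refine h5.mono (by linarith) le_rfl ?_
      have : 0 < 1 - s := by linarith
      gcongr
  · have hd' : ∀ p, δ ≤ |d p| := hd.resolve_left hd0
    obtain ⟨g, b, h1, h2, h3⟩ := ha.solve1 (ω := ω) hr d hδ hd'
    refine ⟨0, fun p x => (g p x).re, by simpa using hM, fun _ => rfl, ?_, ?_⟩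
    · intro p x
      rw [hre g p x (h2 p x)]
      have := congrArg Complex.re (h1 p x)
      simp at this
      simpa using this
    · intro s hs0 hs1 hrs
      have h5 := re_part h3 (by linarith)
      have hrs' : r * s ≤ r := by nlinarith
      refine h5.mono (by linarith) hrs' ?_
      have h6 := hM0 s hs0 hs1
      have h7 : 0 < 1 - s := by linarith
      have h8 : 0 ≤ 1 / δ := by positivity
      have h9 : 0 ≤ H := h8.trans hH'
      calc 1 / δ * M ≤ H * M := by gcongr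
        _ ≤ H * (1 / (1 - s) ^ 2 * M) := by gcongr
        _ = _ := by ring

variable {m n : Type*}

/-- matrix version of the cohomological equation -/
lemma msolveg [DecidableEq m] [DecidableEq n] [Fintype m] [Fintype n] {r M G δ H : ℝ} {ω : ℝ × ℝ}
    (hω : Dio2 G ω) (hr : 1 < r)
    {f : P → ℝ × ℝ → Matrix m n ℝ} (hf : MB r M f) (d1 : m → C(P, ℝ)) (d2 : n → C(P, ℝ))
    (hδ : 0 < δ) (hd : ∀ i j, d1 i - d2 j = 0 ∨ ∀ p, δ ≤ |(d1 i - d2 j) p|) (hH : G ≤ H)
    (hH' : 1 / δ ≤ H) :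
    ∃ (c : m → n → C(P, ℝ)) (g : P → ℝ × ℝ → Matrix m n ℝ), (∀ i j, ‖c i j‖ ≤ M) ∧
      (∀ i j, d1 i - d2 j ≠ 0 → c i j = 0) ∧
      (∀ p x, dM ω g p x + dgm d1 p * g p x - g p x * dgm d2 p = f p x + cm c p) ∧
      (∀ s, 0 < s → s < 1 → 1 ≤ r * s → MB (r * s) (H / (1 - s) ^ 2 * M) g) := by
  have h := fun i j => solveg hω hr (hf i j) (d1 i - d2 j) hδ (hd i j) hH hH'
  choose c g h1 h2 h3 h4 using h
  refine ⟨c, fun p x => Matrix.of fun i j => g i j p x, h1, h2, ?_, ?_⟩
  · intro p x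
    ext i j
    have := h3 i j p x
    simp only [Matrix.sub_apply, Matrix.add_apply, dM_apply, Matrix.of_apply, dgm, cm,
      Matrix.diagonal_mul, Matrix.mul_diagonal]
    simp only [ContinuousMap.sub_apply] at this
    linarith
  · intro s hs0 hs1 hrs i j
    exact h4 i j s hs0 hs1 hrs

/-- symmetric solution -/
theorem symsolveg [DecidableEq m] [DecidableEq n] [Fintype m] [Fintype n] [Sm m] [Sm n]
    {r M G δ H : ℝ} {ω : ℝ × ℝ} (hω : Dio2 G ω) (hr : 1 < r) (hM : 0 ≤ M)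
    {f : P → ℝ × ℝ → Matrix m n ℝ} (hf : MB r M f) (d1 : m → C(P, ℝ)) (d2 : n → C(P, ℝ))
    (hδ : 0 < δ) (hd : ∀ i j, d1 i - d2 j = 0 ∨ ∀ p, δ ≤ |(d1 i - d2 j) p|) (hH : G ≤ H)
    (hH' : 1 / δ ≤ H) (L : Matrix m m ℝ) (R : Matrix n n ℝ) (hL : ∀ i j, |L i j| ≤ 1)
    (hR : ∀ i j, |R i j| ≤ 1) (hLL : L * L = 1) (hRR : R * R = 1)
    (hLd : ∀ p, L * dgm d1 p = -(dgm d1 p * L)) (hRd : ∀ p, dgm d2 p * R = -(R * dgm d2 p))
    (hsym : ∀ p x, L * f p (-x) * R = -f p x) :
    ∃ (c : m → n → C(P, ℝ)) (g : P → ℝ × ℝ → Matrix m n ℝ), (∀ i j, ‖c i j‖ ≤ M) ∧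
      (∀ i j, d1 i - d2 j ≠ 0 → c i j = 0) ∧
      (∀ p x, dM ω g p x + dgm d1 p * g p x - g p x * dgm d2 p
        = f p x + (1 / 2 : ℝ) • (cm c p - L * cm c p * R)) ∧
      (∀ p x, L * g p (-x) * R = g p x) ∧
      (∀ s, 0 < s → s < 1 → 1 ≤ r * s → MB (r * s) (36 * (H / (1 - s) ^ 2 * M)) g) := by
  obtain ⟨c, g, h1, h2, h3, h4⟩ := msolveg hω hr hf d1 d2 hδ hd hH hH'
  have hr0 : 0 < r := by linarith
  have hH0 : 0 ≤ H := (by positivity : (0 : ℝ) ≤ 1 / δ).trans hH'
  -- differentiability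
  have hDg : Df g := by
    obtain ⟨s, hs⟩ : ∃ s : ℝ, s = (1 + 1 / r) / 2 := ⟨_, rfl⟩
    have hx1 : 1 / r < 1 := by rw [div_lt_one hr0]; exact hr
    have hx0 : 0 < 1 / r := by positivity
    have hs0 : 0 < s := by rw [hs]; linarith
    have hs1 : s < 1 := by rw [hs]; linarith
    have hrs : 1 < r * s := by
      have : r * s = (r + 1) / 2 := by rw [hs]; field_simp
      rw [this]; linarith
    exact (h4 s hs0 hs1 hrs.le).df hrs
  set g' : P → ℝ × ℝ → Matrix m n ℝ := fun p x => (1 / 2 : ℝ) • (g p x + L * g p (-x) * R) with hg'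
  have hDr : Df (fun p x => g p (-x)) := fun i j p =>
    (hDg i j p).comp (differentiable_id.neg : Differentiable ℝ (fun x : ℝ × ℝ => -x))
  have hDL : Df (P := P) (fun _ _ => L) := Df.const (fun _ => L)
  have hDR : Df (P := P) (fun _ _ => R) := Df.const (fun _ => R)
  have hDLg : Df (fun p x => L * g p (-x)) := hDL.mul hDr
  have hDLgR : Df (fun p x => L * g p (-x) * R) := hDLg.mul hDR
  have hder : ∀ p x, dM ω g' p x = (1 / 2 : ℝ) • (dM ω g p x - L * dM ω g p (-x) * R) := by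
    intro p x
    have e1 := dM_add hDg hDLgR ω p x
    have e2 := dM_mul hDLg hDR ω p x
    have e3 := dM_mul hDL hDr ω p x
    have e4 := dM_refl hDg ω p x
    have e5 := dM_const (P := P) (fun _ => L) ω p x
    have e6 := dM_const (P := P) (fun _ => R) ω p x
    have e7 : dM ω g' p x = (1 / 2 : ℝ) • dM ω (fun p x => g p x + L * g p (-x) * R) p x := by
      ext i j
      rw [Matrix.smul_apply, dM_apply, dM_apply]
      have := pd_cmul (f := fun p x => (g p x + L * g p (-x) * R) i j)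
        ((hDg.add hDLgR) i j p x) (fun _ => (1 / 2 : ℝ)) ω
      exact this
    rw [e7, e1, e2, e3, e4, e5, e6]
    simp only [Matrix.zero_mul, zero_add, Matrix.mul_zero, add_zero, Matrix.mul_neg,
      Matrix.neg_mul, sub_eq_add_neg]
  refine ⟨c, g', h1, h2, ?_, ?_, ?_⟩
  · intro p x
    rw [hder]
    have a1 := h3 p x
    have a2 := h3 p (-x)
    have a3 : L * dM ω g p (-x) * R = -f p x + L * cm c p * R + dgm d1 p * (L * g p (-x) * R)
        - (L * g p (-x) * R) * dgm d2 p := by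
      have a4 : dM ω g p (-x) = f p (-x) + cm c p - dgm d1 p * g p (-x) + g p (-x) * dgm d2 p := by
        rw [← a2]; abel
      rw [a4]
      simp only [Matrix.mul_add, Matrix.add_mul, Matrix.mul_sub, Matrix.sub_mul]
      rw [hsym p x]
      have a5 : L * (dgm d1 p * g p (-x)) * R = -(dgm d1 p * (L * g p (-x) * R)) := by
        rw [← Matrix.mul_assoc L, hLd]
        simp only [Matrix.neg_mul, Matrix.mul_assoc]
      have a6 : L * (g p (-x) * dgm d2 p) * R = -((L * g p (-x) * R) * dgm d2 p) := by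
        rw [← Matrix.mul_assoc L, Matrix.mul_assoc (L * g p (-x)) (dgm d2 p) R, hRd]
        simp only [Matrix.mul_neg, Matrix.mul_assoc]
      rw [a5, a6]
      abel
    rw [a3]
    have a7 : dM ω g p x = f p x + cm c p - dgm d1 p * g p x + g p x * dgm d2 p := by
      rw [← a1]; abel
    rw [a7]
    simp only [hg', Matrix.mul_smul, Matrix.smul_mul, Matrix.mul_add, Matrix.add_mul]
    have h2' : f p x = (1 / 2 : ℝ) • (f p x + f p x) := by
      rw [← two_smul ℝ (f p x), smul_smul]; norm_num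
    conv_rhs => rw [h2', ← smul_add]
    rw [← smul_add, ← smul_sub]
    congr 1
    abel
  · intro p x
    simp only [hg', neg_neg, Matrix.mul_smul, Matrix.smul_mul, Matrix.mul_add, Matrix.add_mul]
    congr 1
    have : L * (L * g p x * R) * R = g p x := by
      rw [← Matrix.mul_assoc, ← Matrix.mul_assoc, hLL, Matrix.one_mul, Matrix.mul_assoc, hRR,
        Matrix.mul_one]
    rw [this, add_comm]
  · intro s hs0 hs1 hrs
    have h5 := h4 s hs0 hs1 hrs
    have h1s : 0 < 1 - s := by linarith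
    have hX : 0 ≤ H / (1 - s) ^ 2 * M := by positivity
    have h6 := ((MB.rconst (P := P) (r := r * s) L hL (by linarith)).mul h5.refl hrs).mul
      (MB.rconst (P := P) (r := r * s) R hR (by linarith)) hrs
    intro i j
    have h7 := ((h5 i j).add (h6 i j) (by linarith)).smul (1 / 2) (by linarith)
    refine (h7.congr (fun p x => ?_)).mono (by linarith) le_rfl ?_
    · simp only [hg', Matrix.smul_apply, Matrix.add_apply, smul_eq_mul]
    · have hm : (Fintype.card m : ℝ) ≤ 6 := Sm.le' m (le_refl (6 : ℝ))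
      have hn : (Fintype.card n : ℝ) ≤ 6 := Sm.le' n (le_refl (6 : ℝ))
      rw [abs_of_pos (by norm_num : (0 : ℝ) < 1 / 2)]
      have h8 : (Fintype.card n : ℝ) * (Fintype.card m * (1 * (H / (1 - s) ^ 2 * M)) * 1)
          ≤ 6 * (6 * (1 * (H / (1 - s) ^ 2 * M)) * 1) := by gcongr
      linarith


lemma exists_meang {G r M : ℝ} {ω : ℝ × ℝ} (hω : Dio2 G ω) {f : P → ℝ × ℝ → ℝ} (hf : B r M f) (hr : 1 < r) :
    ∃ c : C(P, ℝ), ‖c‖ ≤ M ∧ Mn ω f (fun p => c p) := by
  obtain ⟨c, g, h1, h2, h3, h4⟩ := solveg (δ := 1) (H := max G 1) hω hr hf 0 one_pos (Or.inl rfl)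
    (le_max_left _ _) (by norm_num)
  have hr0 : 0 < r := by linarith
  obtain ⟨s, hs⟩ : ∃ s : ℝ, s = (1 + 1 / r) / 2 := ⟨_, rfl⟩
  have hx1 : 1 / r < 1 := by rw [div_lt_one hr0]; exact hr
  have hx0 : 0 < 1 / r := by positivity
  have hs0 : 0 < s := by rw [hs]; linarith
  have hs1 : s < 1 := by rw [hs]; linarith
  have hrs : 1 < r * s := by
    have : r * s = (r + 1) / 2 := by rw [hs]; field_simp
    rw [this]; linarith
  refine ⟨-c, by rw [norm_neg]; exact h1, ?_⟩
  have h5 := Run7.k800.Mn.of_solve (ω := ω) (f := f) (c := c) hrs (h4 s hs0 hs1 hrs.le) (fun p x => by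
    have := h3 p x
    simpa using this)
  exact h5

end Run7.k800g
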