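import Pool.Agent.Run7.k800g.GlueG1
import Pool.Agent.Run7.k800.Sel

set_option autoImplicit false
set_option linter.unusedSectionVars false

/-!
# Selection of the torus
-/

namespace Run7.k800g

open Run7.k800 (RR qS qI qT qS_nonneg qS_le qI_ge qI_le qT_eq P2' B.slice WW mn mn_congr mn_const DD DD_add DD_smul c1 s1 c2 s2 B MB JJ pd zz dM Jac area Ts Sph Sph_norm E3 area_pos area_cont area_ne_top mkp mkp_S mkp_I mkp_cont)
open Filter Topology MeasureTheory Metric Set
open scoped Pointwise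

section area

variable {P : Type*} [TopologicalSpace P] [CompactSpace P]

lemma area_zeroG {c e : ℝ} {f g : P → ℝ × ℝ → ℝ} {p : P} (hf : ∀ x, f p x = e) (hg : ∀ x, g p x = 0) :
    area (Ts c f g p) = 0 := by
  have hsub : {y : sphere (0 : E3) 1 | (1 / 2 : ℝ) • (y : E3) ∈ Ts c f g p}
      ⊆ {⟨(2 : ℝ) • Sph c e 0, by rw [mem_sphere_zero_iff_norm, norm_smul, Sph_norm]; norm_num⟩} := by
    rintro y ⟨x, hx⟩
    rw [mem_singleton_iff]
    apply Subtype.ext
    change (y : E3) = (2 : ℝ) • Sph c e 0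
    change Sph c (f p x) (g p x) = _ at hx
    rw [hf, hg] at hx
    rw [hx, smul_smul]
    norm_num
  unfold area
  have h1 : (volume : Measure E3).toSphere {(⟨(2 : ℝ) • Sph c e 0, by
      rw [mem_sphere_zero_iff_norm, norm_smul, Sph_norm]; norm_num⟩ : sphere (0 : E3) 1)} = 0 := by
    rw [Measure.toSphere_apply' _ (measurableSet_singleton _)]
    have h2 : (volume : Measure E3) (Ioo (0 : ℝ) 1 • ((Subtype.val : sphere (0 : E3) 1 → E3) '' {(⟨(2 : ℝ) • Sph c e 0, by
      rw [mem_sphere_zero_iff_norm, norm_smul, Sph_norm]; norm_num⟩ : sphere (0 : E3) 1)})) = 0 := by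
      refine measure_mono_null (t := ((Submodule.span ℝ {(2 : ℝ) • Sph c e 0} : Submodule ℝ E3) : Set E3))
        ?_ ?_
      · rintro _ ⟨t, -, _, ⟨y, hy, rfl⟩, rfl⟩
        rw [mem_singleton_iff] at hy
        rw [hy]
        exact Submodule.smul_mem _ _ (Submodule.mem_span_singleton_self _)
      · apply Measure.addHaar_submodule
        intro h
        have h4 : (2 : ℝ) • Sph c e 0 ≠ 0 := by
          intro h5
          have h6 : ‖(2 : ℝ) • Sph c e 0‖ = 1 := by rw [norm_smul, Sph_norm]; norm_num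
          rw [h5, norm_zero] at h6
          norm_num at h6
        have h3 := finrank_span_singleton (K := ℝ) h4
        rw [h] at h3
        simp at h3
    rw [h2, mul_zero]
  rw [measure_mono_null hsub h1, mul_zero]

end area

/-- first shape coordinate -/
noncomputable def fag (e ε : ℝ) (U : RR → ℝ × ℝ → Matrix (Fin 6) Unit ℝ) : RR → ℝ × ℝ → ℝ :=
  fun p x => e + ε * (ε * qS p) * U p x 2 ()
/-- second shape coordinate -/
noncomputable def fbg (ε : ℝ) (U : RR → ℝ × ℝ → Matrix (Fin 6) Unit ℝ) : RR → ℝ × ℝ → ℝ :=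
  fun p x => ε * (ε * qS p) * U p x 3 ()

variable {m : Mc} {y ε M : ℝ} {U : RR → ℝ × ℝ → Matrix (Fin 6) Unit ℝ} {q : Fin 2 → C(RR, ℝ)}

lemma fabg_B (h : Fam m y ε M U q) (e : ℝ) :
    ∃ N, B 2 N (fag e ε U) ∧ B 2 N (fbg ε U) := by
  have h1 := ((h.reg 2 ()).cmul (ε • (ε • qS)) (by norm_num))
  have h2 := ((h.reg 3 ()).cmul (ε • (ε • qS)) (by norm_num))
  have h3 := (B.rconst (P := RR) (r := 2) e).add h1 (by norm_num)
  refine ⟨|e| + ‖ε • (ε • qS)‖ * M, h3.congr (fun p x => rfl), ?_⟩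
  refine B.mono (h2.congr (fun p x => rfl)) (by norm_num) le_rfl ?_
  have := abs_nonneg e
  linarith

lemma area_pos_famG (h : Fam m y ε M U q) (hJ : M * ε < J0 y) (e : ℝ) {c : ℝ} (hc : 0 < c) (p : RR)
    (hp : 0 < qS p) : 0 < area (Ts c (fag e ε U) (fbg ε U) p) := by
  obtain ⟨N, h1, h2⟩ := fabg_B h e
  have hε := h.εpos
  have hex : ∃ x, Jac (fun x => U p x 2 ()) (fun x => U p x 3 ()) x ≠ 0 := by
    by_contra hcon
    push Not at hcon
    have h3 : mn (fun x => Jac (fun x => U p x 2 ()) (fun x => U p x 3 ()) x * s1 x) = 0 := by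
      have : mn (fun x => Jac (fun x => U p x 2 ()) (fun x => U p x 3 ()) x * s1 x)
          = mn (fun _ => 0) := mn_congr (fun x => by rw [hcon]; ring)
      rw [this, mn_const]
    have h4 := h.jac p
    rw [h3, zero_sub, abs_neg] at h4
    have h5 := qI_ge p
    have h6 : 0 ≤ ε * qI p := by positivity
    have h8 : ε * qI p * J0 y ≤ |ε * qI p * J0 y| := le_abs_self _
    by_cases hj : 0 ≤ J0 y
    · have h9 : ε * J0 y ≤ ε * qI p * J0 y := by
        have : ε * 1 ≤ ε * qI p := by gcongr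
        nlinarith
      have h10 : M * ε ^ 2 = ε * (M * ε) := by ring
      have h11 : ε * (M * ε) < ε * J0 y := by gcongr
      linarith
    · push Not at hj
      have h12 : 0 ≤ M * ε ^ 2 := (abs_nonneg _).trans h4
      have h13 : 0 ≤ M * ε := by
        have : M * ε ^ 2 = (M * ε) * ε := by ring
        rw [this] at h12
        exact nonneg_of_mul_nonneg_left h12 hε
      linarith
  obtain ⟨x0, hx0⟩ := hex
  refine area_pos (by norm_num : (1 : ℝ) < 2) h1 h2 hc p (x0 := x0) ?_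
  have hW : ∀ i, WW (fun x => U p x i ()) := fun i =>
    ⟨2, M, by norm_num, B.slice (h.reg i ()) (by norm_num) p⟩
  have e1 : ∀ (v : ℝ × ℝ), pd v (fag e ε U) p x0 = ε * (ε * qS p) * DD v (fun x => U p x 2 ()) x0 := by
    intro v
    have g1 : pd v (fag e ε U) p x0 = DD v (fun x => e + ε * (ε * qS p) * U p x 2 ()) x0 := rfl
    rw [g1, DD_add (WW.const e) ((hW 2).smul _), DD_smul _ (hW 2)]
    have : DD v (fun _ => e) x0 = 0 := by unfold DD; simp
    rw [this, zero_add]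
  have e2 : ∀ (v : ℝ × ℝ), pd v (fbg ε U) p x0 = ε * (ε * qS p) * DD v (fun x => U p x 3 ()) x0 := fun v =>
    DD_smul (ε * (ε * qS p)) (hW 3) v x0
  rw [e1, e1, e2, e2]
  have e3 : ε * (ε * qS p) * DD (1, 0) (fun x => U p x 2 ()) x0 * (ε * (ε * qS p) * DD (0, 1) (fun x => U p x 3 ()) x0)
      - ε * (ε * qS p) * DD (1, 0) (fun x => U p x 3 ()) x0 * (ε * (ε * qS p) * DD (0, 1) (fun x => U p x 2 ()) x0)
      = (ε * (ε * qS p)) ^ 2 * Jac (fun x => U p x 2 ()) (fun x => U p x 3 ()) x0 := by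
    unfold Jac; ring
  rw [e3]
  exact mul_ne_zero (by positivity) hx0

/-- all small areas occur in a fixed family -/
theorem selA {K : ℝ} (h : Fam m y ε M U q) (hJ : M * ε < J0 y) (k1 : q 1 (mkp 2 0) < K)
    (k2 : K < q 1 (mkp 1 0)) (e : ℝ) {c : ℝ} (hc : 0 < c) :
    ∃ A1 : ℝ, 0 < A1 ∧ ∀ A0, 0 < A0 → A0 < A1 → ∃ p : RR, q 1 p = K ∧ 0 < qS p ∧
        area (Ts c (fag e ε U) (fbg ε U) p) = ENNReal.ofReal A0 := by
  obtain ⟨N, b1, b2⟩ := fabg_B h e
  have hs0 : (0 : ℝ) ∈ Icc (0 : ℝ) 1 := by norm_num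
  have hx1 : (1 : ℝ) ∈ Icc (1 : ℝ) 2 := by norm_num
  -- choice of the height
  have hcx : ∀ x : ℝ, Continuous (fun s : ℝ => q 1 (mkp x s)) := fun x =>
    (q 1).continuous.comp (mkp_cont.comp (continuous_const.prodMk continuous_id))
  have ev1 : ∀ᶠ s in 𝓝 (0 : ℝ), q 1 (mkp 2 s) < K :=
    (hcx 2).continuousAt.eventually_lt continuousAt_const k1
  have ev2 : ∀ᶠ s in 𝓝 (0 : ℝ), K < q 1 (mkp 1 s) :=
    continuousAt_const.eventually_lt (hcx 1).continuousAt k2
  obtain ⟨δ, hδ, hδb⟩ := Metric.eventually_nhds_iff_ball.mp (ev1.and ev2)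
  obtain ⟨t, ht⟩ : ∃ t, t = min (δ / 2) 1 := ⟨_, rfl⟩
  have ht0 : 0 < t := by rw [ht]; positivity
  have ht1 : t ≤ 1 := by rw [ht]; exact min_le_right _ _
  have htδ : t < δ := by
    have : t ≤ δ / 2 := by rw [ht]; exact min_le_left _ _
    linarith
  have hin : ∀ y ∈ Icc 0 t, y ∈ ball (0 : ℝ) δ := by
    intro y hy
    rw [mem_ball, dist_zero_right, Real.norm_eq_abs, abs_of_nonneg hy.1]
    linarith [hy.2]
  -- the area function
  obtain ⟨A, hA⟩ : ∃ A : ℝ × ℝ → ℝ, A = fun z => (area (Ts c (fag e ε U) (fbg ε U) (mkp z.1 z.2))).toReal :=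
    ⟨_, rfl⟩
  have hAc : Continuous A := by
    rw [hA]
    exact (area_cont (by norm_num : (1 : ℝ) < 2) b1 b2 c).comp mkp_cont
  have hApos : ∀ x, 0 < A (x, t) := by
    intro x
    rw [hA]
    have h1 : 0 < qS (mkp x t) := by rw [mkp_S ⟨ht0.le, ht1⟩]; exact ht0
    exact ENNReal.toReal_pos (area_pos_famG h hJ e hc _ h1).ne'
      (area_ne_top (by norm_num : (1 : ℝ) < 2) b1 b2 c _)
  have hA0 : ∀ x, A (x, 0) = 0 := by
    intro x
    rw [hA]
    have h1 : qS (mkp x 0) = 0 := mkp_S hs0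
    have h2 : area (Ts c (fag e ε U) (fbg ε U) (mkp x 0)) = 0 := by
      apply area_zeroG (e := e)
      · intro y; unfold fag; rw [h1]; ring
      · intro y; unfold fbg; rw [h1]; ring
    change (area (Ts c (fag e ε U) (fbg ε U) (mkp x 0))).toReal = 0
    rw [h2]; rfl
  obtain ⟨x0, hx0, hmin⟩ := (isCompact_Icc (a := (1 : ℝ)) (b := 2)).exists_isMinOn ⟨1, hx1⟩
    ((hAc.comp (continuous_id.prodMk continuous_const) : Continuous (fun x : ℝ => A (x, t))).continuousOn)
  refine ⟨A (x0, t), hApos x0, fun A0 hA00 hA01 => ?_⟩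
  obtain ⟨x, hx, y', hy, h1, h2⟩ := Pool.Agent.Helper627.PM.poincare_miranda 1 2 0 t (by norm_num) ht0.le
    (fun z => A z - A0) (fun z => K - q 1 (mkp z.1 z.2)) (hAc.sub continuous_const).continuousOn
    (continuous_const.sub ((q 1).continuous.comp mkp_cont)).continuousOn
    (fun y hy => by
      have := (hδb y (hin y hy)).2
      change K - q 1 (mkp 1 y) < 0
      linarith)
    (fun y hy => by
      have := (hδb y (hin y hy)).1
      change 0 < K - q 1 (mkp 2 y)
      linarith)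
    (fun x hx => by
      change A (x, 0) - A0 < 0
      rw [hA0]; linarith)
    (fun x hx => by
      change 0 < A (x, t) - A0
      have : A (x0, t) ≤ A (x, t) := hmin hx
      linarith)
  have hAxy : A (x, y') = A0 := by
    have : A (x, y') - A0 = 0 := h1
    linarith
  refine ⟨mkp x y', ?_, ?_, ?_⟩
  · have : K - q 1 (mkp x y') = 0 := h2
    linarith
  · rw [mkp_S ⟨hy.1, hy.2.trans ht1⟩]
    rcases eq_or_lt_of_le hy.1 with h3 | h3
    · rw [← h3, hA0] at hAxy
      linarith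
    · exact h3
  · rw [hA] at hAxy
    have h3 : (area (Ts c (fag e ε U) (fbg ε U) (mkp x y'))).toReal = A0 := hAxy
    rw [← h3, ENNReal.ofReal_toReal (area_ne_top (by norm_num : (1 : ℝ) < 2) b1 b2 c _)]

end Run7.k800g
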