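import Pool.Agent.Run7.k800g.GlueG
import Pool.Agent.Run7.k800g.SelG

set_option autoImplicit false
set_option linter.unusedSectionVars false

/-!
# Selection of the torus
-/

namespace Run7.k800g

open Run7.k800 (RR qS qI qT qS_nonneg qS_le qI_ge qI_le qT_eq P2' B.slice WW mn mn_congr mn_const DD DD_add DD_smul c1 s1 c2 s2 B MB JJ pd zz dM Jac area Ts Sph Sph_norm E3 area_pos area_cont area_ne_top mkp mkp_S mkp_I mkp_cont)
open Filter Topology MeasureTheory Metric Set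
open scoped Pointwise

/-- selection of the family -/
theorem selectG {K G : ℝ} (hK : 1 < K)
    (hacc : ∀ δ, 0 < δ → ∃ y, Ok y ∧ K < k0 y ∧ k0 y < K + δ ∧ Dio2 G (om y)) (m : Mc) {kk : ℝ}
    (hkk : 0 ≤ kk) :
    ∃ (y ε M : ℝ) (U : RR → ℝ × ℝ → Matrix (Fin 6) Unit ℝ) (q : Fin 2 → C(RR, ℝ)),
      Ok y ∧ Dio2 G (om y) ∧ Fam m y ε M U q ∧ 1 ≤ M ∧ M * ε ≤ 1 / 10 ∧
      (∀ k, |k| ≤ kk → ∀ p x, |ε * (ε * qS p) * hZ k ε (qS p) (U p x 2 ()) (U p x 3 ())| ≤ 1 / 4) ∧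
      ∀ e c, 0 < c → ∃ A1 : ℝ, 0 < A1 ∧ ∀ A0, 0 < A0 → A0 < A1 → ∃ p : RR, q 1 p = K ∧ 0 < qS p ∧
        area (Ts c (fag e ε U) (fbg ε U) p) = ENNReal.ofReal A0 := by
  obtain ⟨a, ha⟩ : ∃ a, a = 1 + 1 / (4 * K) := ⟨_, rfl⟩
  obtain ⟨b, hb⟩ : ∃ b, b = 2 - (K - 1) / (5 * K) := ⟨_, rfl⟩
  have hK0 : 0 < K := by linarith
  have hη : 1 / (4 * K) < 1 / 4 := by
    rw [div_lt_div_iff₀ (by positivity) (by norm_num)]; linarith
  have hη0 : 0 < 1 / (4 * K) := by positivity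
  have hζ : (K - 1) / (5 * K) < 1 / 5 := by
    rw [div_lt_div_iff₀ (by positivity) (by norm_num)]; linarith
  have hζ0 : 0 < (K - 1) / (5 * K) := by apply div_pos <;> linarith
  have hR : Rg a b := ⟨by linarith, by linarith⟩
  have hab : a < b := by linarith
  have hoa : Ok a := ⟨by linarith, by linarith⟩
  have hob : Ok b := ⟨by linarith, by linarith⟩
  have hka : K < k0 a := by
    unfold k0
    rw [lt_div_iff₀ hoa.eE_pos]
    unfold eE
    have e1 : K * ((a + 2) * (a - 1)) = (a + 2) / 4 := by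
      have : a - 1 = 1 / (4 * K) := by rw [ha]; ring
      rw [this]; field_simp
    rw [e1]
    nlinarith
  have hkb : k0 b < K := by
    unfold k0
    rw [div_lt_iff₀ hob.eE_pos]
    unfold eE
    obtain ⟨z, hz⟩ : ∃ z, z = (K - 1) / (5 * K) := ⟨_, rfl⟩
    have hz1 : z * (5 * K) = K - 1 := by rw [hz]; field_simp
    have hbz : b = 2 - z := by rw [hb, hz]
    rw [← hz] at hζ hζ0
    rw [hbz]
    have : K * ((2 - z + 2) * (2 - z - 1)) - (2 - z) ^ 2
        = 4 * (K - 1) - 5 * K * z + 4 * z + (K - 1) * z ^ 2 := by ring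
    have h3 : 0 ≤ (K - 1) * z ^ 2 := by
      have : 0 ≤ K - 1 := by linarith
      positivity
    linarith
  obtain ⟨e1, M, he1, he11, hM, hMe, hfam⟩ := fam_exists hR G m
  obtain ⟨α, hα, hα'⟩ := Rg.low hR.cA1 (fun y hy => (hR.ok hy).A1_pos)
  obtain ⟨J, hJ, hJ'⟩ := Rg.low hR.cJ0 (fun y hy => (hR.ok hy).J0_pos)
  have hM0 : 0 < M := by linarith
  obtain ⟨N, hN⟩ : ∃ N, N = kk * (2 * M) + kk * kk * (2 * M * M) + 1 := ⟨_, rfl⟩
  have hN0 : 0 < N := by rw [hN]; positivity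
  obtain ⟨ε0, hε0⟩ : ∃ ε0, ε0 = min (min e1 (α / (2 * M))) (min (J / (2 * M)) (1 / (4 * N))) := ⟨_, rfl⟩
  have hε0p : 0 < ε0 := by rw [hε0]; positivity
  have h1 : ε0 ≤ e1 := by rw [hε0]; exact (min_le_left _ _).trans (min_le_left _ _)
  have h2 : ε0 ≤ α / (2 * M) := by rw [hε0]; exact (min_le_left _ _).trans (min_le_right _ _)
  have h3 : ε0 ≤ J / (2 * M) := by rw [hε0]; exact (min_le_right _ _).trans (min_le_left _ _)
  have h4 : ε0 ≤ 1 / (4 * N) := by rw [hε0]; exact (min_le_right _ _).trans (min_le_right _ _)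
  obtain ⟨y, hy, hy1, hy2, hω⟩ := hacc (min (2 * α * ε0 ^ 2) (k0 a - K))
    (lt_min (by positivity) (by linarith))
  have hya : y ∈ Icc a b := by
    constructor
    · by_contra hcon
      push Not at hcon
      have := k0_anti hy hoa hcon
      have h5 := min_le_right (2 * α * ε0 ^ 2) (k0 a - K)
      linarith
    · by_contra hcon
      push Not at hcon
      have := k0_anti hob hy hcon
      linarith
  have hAy := hα' y hya
  have hJy := hJ' y hya
  have hA0 : 0 < A1 y := by linarith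
  obtain ⟨ε, hε⟩ : ∃ ε, ε = Real.sqrt ((k0 y - K) / (2 * A1 y)) := ⟨_, rfl⟩
  have hq0 : 0 < (k0 y - K) / (2 * A1 y) := by apply div_pos <;> linarith
  have hεp : 0 < ε := by rw [hε]; exact Real.sqrt_pos.mpr hq0
  have hεsq : ε ^ 2 * (2 * A1 y) = k0 y - K := by
    rw [hε, Real.sq_sqrt hq0.le]; field_simp
  have hεε : ε < ε0 := by
    have h5 := min_le_left (2 * α * ε0 ^ 2) (k0 a - K)
    have h6 : ε ^ 2 * (2 * A1 y) < 2 * α * ε0 ^ 2 := by rw [hεsq]; linarith
    have h7 : ε ^ 2 < ε0 ^ 2 := by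
      by_contra hcon
      push Not at hcon
      have : 2 * α * ε0 ^ 2 ≤ ε ^ 2 * (2 * A1 y) := by
        calc 2 * α * ε0 ^ 2 ≤ 2 * A1 y * ε ^ 2 := by gcongr
          _ = _ := by ring
      linarith
    exact lt_of_pow_lt_pow_left₀ 2 hε0p.le h7
  have hεM : M * ε < A1 y := by
    have : M * ε < M * ε0 := by gcongr
    have h8 : M * ε0 ≤ α / 2 := by
      calc M * ε0 ≤ M * (α / (2 * M)) := by gcongr
        _ = α / 2 := by field_simp
    linarith
  have hεJ : M * ε < J0 y := by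
    have : M * ε < M * ε0 := by gcongr
    have h8 : M * ε0 ≤ J / 2 := by
      calc M * ε0 ≤ M * (J / (2 * M)) := by gcongr
        _ = J / 2 := by field_simp
    linarith
  have hεN : ε * N ≤ 1 / 4 := by
    calc ε * N ≤ ε0 * N := by gcongr
      _ ≤ (1 / (4 * N)) * N := by gcongr
      _ = 1 / 4 := by field_simp
  obtain ⟨U, q, hF⟩ := hfam y hya hω ε hεp (hεε.le.trans h1)
  have hε1 : ε ≤ 1 := hεε.le.trans (h1.trans he11)
  refine ⟨y, ε, M, U, q, hy, hω, hF, hM, ?_, ?_, ?_⟩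
  · have : M * ε ≤ M * e1 := by
      have := hεε.le.trans h1
      gcongr
    linarith
  · intro k hk p x
    have s1 := qS_nonneg p
    have s2 := qS_le p
    have u2 : |U p x 2 ()| ≤ M := (hF.reg 2 ()).norm_le (by norm_num) p x
    have u3 : |U p x 3 ()| ≤ M := (hF.reg 3 ()).norm_le (by norm_num) p x
    have a1 : |k * (2 * U p x 2 ())| ≤ kk * (2 * M) := P2' hk (by
      rw [abs_mul, abs_of_pos (by norm_num : (0 : ℝ) < 2)]; linarith)
    have a2 : |U p x 2 () * U p x 2 () + U p x 3 () * U p x 3 ()| ≤ 2 * M * M := by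
      have g1 : |U p x 2 () * U p x 2 ()| ≤ M * M := P2' u2 u2
      have g2 : |U p x 3 () * U p x 3 ()| ≤ M * M := P2' u3 u3
      have := abs_add_le (U p x 2 () * U p x 2 ()) (U p x 3 () * U p x 3 ())
      linarith
    have a3 : |ε * (ε * qS p)| ≤ 1 * (1 * 1) :=
      P2' (by rw [abs_of_pos hεp]; exact hε1) (P2' (by rw [abs_of_pos hεp]; exact hε1)
        (by rw [abs_of_nonneg s1]; exact s2))
    have a3' : |ε * (ε * qS p)| ≤ ε * (1 * 1) :=
      P2' (by rw [abs_of_pos hεp]) (P2' (by rw [abs_of_pos hεp]; exact hε1)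
        (by rw [abs_of_nonneg s1]; exact s2))
    have a4 : |ε * (ε * qS p) * (k * k * (U p x 2 () * U p x 2 () + U p x 3 () * U p x 3 ()))|
        ≤ 1 * (1 * 1) * (kk * kk * (2 * M * M)) := P2' a3 (P2' (P2' hk hk) a2)
    have a5 : |hZ k ε (qS p) (U p x 2 ()) (U p x 3 ())| ≤ N := by
      unfold hZ
      refine (abs_add_le _ _).trans ?_
      rw [hN]
      linarith
    have a6 := P2' a3' a5
    refine a6.trans ?_
    linarith
  · intro e c hc
    have hs0 : (0 : ℝ) ∈ Icc (0 : ℝ) 1 := by norm_num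
    have hx1 : (1 : ℝ) ∈ Icc (1 : ℝ) 2 := by norm_num
    have hx2 : (2 : ℝ) ∈ Icc (1 : ℝ) 2 := by norm_num
    have t1 := hF.tw (mkp 1 0) (mkp_S hs0)
    have t2 := hF.tw (mkp 2 0) (mkp_S hs0)
    rw [mkp_I hx1] at t1
    rw [mkp_I hx2] at t2
    have hcube : M * ε ^ 3 < A1 y * ε ^ 2 := by
      have : M * ε ^ 3 = M * ε * ε ^ 2 := by ring
      rw [this]
      have : 0 < ε ^ 2 := by positivity
      gcongr
    have t1' := (abs_le.mp t1).1
    have t2' := (abs_le.mp t2).2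
    refine selA hF hεJ ?_ ?_ e hc
    · linarith
    · linarith

end Run7.k800g
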