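import Pool.Agent.Run7.k800g.RedFamG
import Pool.Agent.Run7.k800g.SelG2
import Pool.Agent.Run7.k800g.BodiesG
import Pool.Agent.Run7.k800g.CloG

set_option autoImplicit false
set_option linter.unusedSectionVars false

/-!
# Assembly
-/

namespace Run7.k800g

open Run7.k800 (RR qS Newton area Sph Red.sol)
open Filter Topology MeasureTheory Set

/-- the main construction -/
theorem mainG {m1 m2 m3 e d1 d2 F0 G : ℝ} (h : Eu m1 m2 m3 e d1 d2 F0)
    (hK : 1 < kst (McOf m1 m2 m3 e d1 d2 F0))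
    (hacc : ∀ δ, 0 < δ → ∃ y, Ok y ∧ kst (McOf m1 m2 m3 e d1 d2 F0) < k0 y ∧
      k0 y < kst (McOf m1 m2 m3 e d1 d2 F0) + δ ∧ Dio2 G (om y)) {c : ℝ} (hc : 0 < c) :
    ∃ A1 : ℝ, 0 < A1 ∧ ∀ A0, 0 < A0 → A0 < A1 → ∃ (q : Fin 3 → ℝ → ℂ) (w : ℝ → ℂ),
      (∀ t i j, i ≠ j → q i t ≠ q j t) ∧ Newton ![m1, m2, m3] q ∧
      (∀ t, m1 * q 0 t + m2 * q 1 t + m3 * q 2 t = 0) ∧
      (∀ t, q 2 t - (m1 * q 0 t + m2 * q 1 t) / (m1 + m2) = (q 1 t - q 0 t) * w t) ∧
      area (closure (range (fun t => Sph c (w t).re (w t).im))) = ENNReal.ofReal A0 := by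
  have hd1 := h.hd1
  have hd2 := h.hd2
  obtain ⟨y, ε, M, U, q', hy, hω, hF, hM, hMε, hZb, hsel⟩ := selectG hK hacc
    (McOf m1 m2 m3 e d1 d2 F0) (kk := 1 / d1 + 1 / d2) (by positivity)
  obtain ⟨A1, hA1, hA⟩ := hsel e c hc
  refine ⟨A1, hA1, fun A0 hA00 hA01 => ?_⟩
  obtain ⟨p, hp1, hp2, hp3⟩ := hA A0 hA00 hA01
  have hF0pos := h.F0_pos
  obtain ⟨ψ, χ, L, φ, cc, hcc, hred, hlow⟩ := red_famG hF hω hM hMε p hF0pos e
  obtain ⟨τ, X, V, W, hτ, hX0, hX, hV, hY, hW⟩ := Red.sol hred hcc hlow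
  obtain ⟨a, ha⟩ : ∃ a : ℝ → ℝ, a = fun t => U p (τ t • om y) 2 () := ⟨_, rfl⟩
  obtain ⟨b, hb⟩ : ∃ b : ℝ → ℝ, b = fun t => U p (τ t • om y) 3 () := ⟨_, rfl⟩
  obtain ⟨w, hw⟩ : ∃ w : ℝ → ℂ, w = fun t => (e : ℂ) + ((ε * (ε * qS p) : ℝ) : ℂ) * (a t + b t * Complex.I) :=
    ⟨_, rfl⟩
  have hz1 : ∀ t, |ε * (ε * qS p) * hZ (1 / d1) ε (qS p) (a t) (b t)| ≤ 1 / 4 := by
    intro t
    rw [ha, hb]
    refine hZb (1 / d1) ?_ p _
    have : 0 < 1 / d1 := by positivity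
    have : 0 < 1 / d2 := by positivity
    rw [abs_of_pos (by positivity)]; linarith
  have hz2 : ∀ t, |ε * (ε * qS p) * hZ (-(1 / d2)) ε (qS p) (a t) (b t)| ≤ 1 / 4 := by
    intro t
    rw [ha, hb]
    refine hZb (-(1 / d2)) ?_ p _
    have : 0 < 1 / d1 := by positivity
    have : 0 < 1 / d2 := by positivity
    rw [abs_neg, abs_of_pos (by positivity)]; linarith
  have hwt : ∀ t, w t = (e : ℂ) + ((ε * (ε * qS p) : ℝ) : ℂ) * (a t + b t * Complex.I) :=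
    fun t => by rw [hw]
  have hfor := fun t => forcesG h (hz1 t) (hz2 t) (hwt t)
  obtain ⟨q, hq1, hq2, hq3, hq4, hq5⟩ := bodiesG h.h1 h.h2 h.h3 (X := X) (V := V)
    (Y := fun t => X t * w t) (W := W) (om := w) hX0 (fun t => rfl)
    (fun t => (hfor t).1) (fun t => (hfor t).2.1) hX
    (fun t => by
      rw [(hfor t).2.2.1]
      have := hV t
      rw [ha, hb]
      exact this)
    (fun t => by
      have := hY t
      rw [hw, ha, hb]
      exact this)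
    (fun t => by
      rw [(hfor t).2.2.2]
      have := hW t
      rw [hp1] at this
      rw [ha, hb]
      exact this)
  refine ⟨q, w, hq1, hq2, hq3, fun t => ?_, ?_⟩
  · rw [hq5, hq4]
  · have e1 : (fun t => Sph c (w t).re (w t).im)
        = fun t => Sph c (fag e ε U p (τ t • om y)) (fbg ε U p (τ t • om y)) := by
      funext t
      have g1 : w t = ((e + ε * (ε * qS p) * a t : ℝ) : ℂ) + ((ε * (ε * qS p) * b t : ℝ) : ℂ) * Complex.I := by
        rw [hwt]; push_cast; ring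
      have g2 : (w t).re = fag e ε U p (τ t • om y) := by
        rw [g1, Complex.add_re, Complex.ofReal_re, Complex.re_ofReal_mul, Complex.I_re, mul_zero,
          add_zero, ha]
        rfl
      have g3 : (w t).im = fbg ε U p (τ t • om y) := by
        rw [g1, Complex.add_im, Complex.ofReal_im, Complex.im_ofReal_mul, Complex.I_im, mul_one,
          zero_add, hb]
        rfl
      rw [g2, g3]
    obtain ⟨N, b1, b2⟩ := fabg_B hF e
    rw [e1, closure_orbitG (irr_of_dio hω) (by norm_num : (1 : ℝ) ≤ 2) b1 b2 c p hτ]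
    exact hp3

end Run7.k800g
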