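import Pool.Agent.Run7.k800g.InitG2
import Pool.Agent.Run7.k800.Ini

set_option autoImplicit false
set_option linter.unusedSectionVars false

/-!
# The equations of the initial torus
-/

namespace Run7.k800g

open Run7.k800 (c1 s1 c2 s2 B MB JJ St Sg Pi4 cs1 cs2 c1_neg s1_neg c2_neg s2_neg gd pd pd_c1 pd_s1 pd_c2 pd_s2 pd_cmul ev s2_B c2_B c1_B s1_B TB zz DL dM dgm dd B.diff dM_apply sg pd_const Mn lin pd_mul Mn.const)
open Filter Topology Set

variable {P : Type*} [TopologicalSpace P] [CompactSpace P]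

/-- base values -/
noncomputable def z00 (P : Type*) [TopologicalSpace P] (y : ℝ) : JJ → P → ℝ × ℝ → ℝ :=
  fun j p x => zz (St0 P y).U (St0 P y).q p x j

variable {y : ℝ}

lemma dM_U00 (y : ℝ) (v : ℝ × ℝ) (p : P) (x : ℝ × ℝ) (i : Fin 6) :
    dM v (fun (_ : P) x => U00 y x) p x i ()
      = (![-v.1 * s1 x, v.1 * c1 x, -v.2 * s2 x, be y * (v.2 * c2 x), -al y * (v.2 * c2 x),
        al y * be y * (-v.2 * s2 x)] : Fin 6 → ℝ) i := by
  have hc : ∀ (c : ℝ) (f : P → ℝ × ℝ → ℝ) (v : ℝ × ℝ), DifferentiableAt ℝ (f p) x →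
      pd v (fun p x => c * f p x) p x = c * pd v f p x := fun c f v hf =>
    pd_cmul (f := f) hf (fun _ => c) v
  have d2 : DifferentiableAt ℝ (fun x => s2 x) x := (s2_B (P := P)).diff (by norm_num) p x
  have d3 : DifferentiableAt ℝ (fun x => c2 x) x := (c2_B (P := P)).diff (by norm_num) p x
  fin_cases i
  · exact pd_c1 v p x
  · exact pd_s1 v p x
  · exact pd_c2 v p x
  · change pd v (fun (_ : P) x => be y * s2 x) p x = _
    rw [hc _ (fun _ x => s2 x) _ d2, pd_s2]; rfl
  · change pd v (fun (_ : P) x => -al y * s2 x) p x = _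
    rw [hc _ (fun _ x => s2 x) _ d2, pd_s2]; rfl
  · change pd v (fun (_ : P) x => al y * be y * c2 x) p x = _
    rw [hc _ (fun _ x => c2 x) _ d3, pd_c2]; rfl

lemma zl (p : P) (x : ℝ × ℝ) (i : Fin 6) : (fun j => z00 P y j p x) (Sum.inl i)
    = (![c1 x, s1 x, c2 x, be y * s2 x, -al y * s2 x, al y * be y * c2 x] : Fin 6 → ℝ) i := rfl

lemma zr1 (p : P) (x : ℝ × ℝ) : (fun j => z00 P y j p x) (Sum.inr 1) = k0 y := rfl

lemma lin_z00 (h : Ok y) (p : P) (x : ℝ × ℝ) (i : Fin 6) :
    lin (fun j => z00 P y j p x) i = dM (om y) (fun (_ : P) x => U00 y x) p x i () := by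
  rw [dM_U00]
  have r1 := h.r1
  have r2 := h.r2
  have r3 := h.r3
  have ra := h.al_sq
  have rb := h.rb
  have e0 := zl (P := P) (y := y) p x 0
  have e1 := zl (P := P) (y := y) p x 1
  have e2 := zl (P := P) (y := y) p x 2
  have e3 := zl (P := P) (y := y) p x 3
  have e4 := zl (P := P) (y := y) p x 4
  have e5 := zl (P := P) (y := y) p x 5
  have e6 := zr1 (P := P) (y := y) p x
  simp only at e0 e1 e2 e3 e4 e5 e6
  unfold lin om
  fin_cases i
  · simp [e1]
  · simp [e0]
  · simp [e4]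
  · simp [e5]; ring
  · simp [e5, e6, e2]; grind
  · simp [e4, e6, e3]; grind

/-- leading part of the derivative in the parameters -/
noncomputable def B00 (y : ℝ) (x : ℝ × ℝ) : Matrix (Fin 6) (Fin 2) ℝ :=
  !![-s1 x, 0; c1 x, 0; -al y * s2 x, 0; al y * be y * c2 x, 0; -(tt y) * c2 x, 2 * c2 x;
    -(tt y * be y) * s2 x, -be y * s2 x]

/-- the twist coefficient -/
noncomputable def mc (y : ℝ) : ℝ := (2 * bt y + tt y * y) * ia y * iQ y / 4

/-- the mean matrix -/
noncomputable def C00 (y : ℝ) : Matrix (Fin 2) (Fin 2) ℝ := !![1, 0; al y, mc y]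

lemma mean00 (h : Ok y) (i j : Fin 2) :
    Mn (P := P) (om y) (fun _ x => (Psa00 y x * B00 y x) i j) (fun _ => C00 y i j) := by
  have hconst : ∀ (f : ℝ × ℝ → ℝ) (c : ℝ), (∀ x, f x = c) →
      Mn (P := P) (om y) (fun _ x => f x) (fun _ => c) := fun f c h =>
    (Mn.const (om y) (fun _ : P => c)).congr (fun p x => (h x).symm) (fun p => rfl)
  have r1 := h.r1
  have r2 := h.r2
  have ra := h.al_sq
  have rQ := h.rQ
  have rd := h.rd
  have rb := h.rb
  have ri := h.ra
  have hy := h.y1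
  fin_cases i <;> fin_cases j
  · refine hconst _ _ (fun x => ?_)
    have := cs1 x
    simp [Matrix.mul_apply, Fin.sum_univ_six, Psa00, B00, C00]
    linear_combination this
  · refine hconst _ _ (fun x => ?_)
    simp [Matrix.mul_apply, Fin.sum_univ_six, Psa00, B00, C00]
  · refine hconst _ _ (fun x => ?_)
    have := cs2 x
    simp [Matrix.mul_apply, Fin.sum_univ_six, Psa00, B00, C00]
    grind
  · obtain ⟨k, hk⟩ : ∃ k, k = ((bt y - tt y) * iQ y * ia y + iQ y * be y) * ia y / 2 := ⟨_, rfl⟩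
    refine ⟨fun _ x => k * (s2 x * c2 x), ?_, ⟨|k|, fun p x => ?_⟩, fun p x => ?_⟩
    · intro p
      exact (((s2_B (P := P)).diff (by norm_num) p).mul ((c2_B (P := P)).diff (by norm_num) p)).const_mul _
    · rw [abs_mul, abs_mul]
      have h1 : |s2 x| ≤ 1 := Real.abs_sin_le_one _
      have h2 : |c2 x| ≤ 1 := Real.abs_cos_le_one _
      have h3 : |s2 x| * |c2 x| ≤ 1 * 1 := by gcongr
      nlinarith [abs_nonneg k]
    · have d1 : DifferentiableAt ℝ (fun x => s2 x) x := (s2_B (P := P)).diff (by norm_num) p x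
      have d2 : DifferentiableAt ℝ (fun x => c2 x) x := (c2_B (P := P)).diff (by norm_num) p x
      have e1 := pd_mul (P := P) (f := fun _ x => s2 x) (g := fun _ x => c2 x) (p := p) d1 d2 (om y)
      have e2 := pd_cmul (P := P) (f := fun _ x => s2 x * c2 x) (p := p) (x := x) (d1.mul d2)
        (fun _ => k) (om y)
      rw [e2, e1, pd_s2, pd_c2]
      have := cs2 x
      simp [Matrix.mul_apply, Fin.sum_univ_six, Psa00, B00, C00, om, mc]
      grind

/-- derivative of the frame -/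
noncomputable def dPb00 (y : ℝ) (x : ℝ × ℝ) : Matrix (Fin 6) (Fin 4) ℝ :=
  !![-s1 x, 0, 0, 0; c1 x, 0, 0, 0; 0, -al y * s2 x, 0, 0; 0, al y * be y * c2 x, 0, 0;
    0, -(tt y) * c2 x, 0, 0; 0, -(tt y * be y) * s2 x, 0, 0]

lemma dM_Pb00 (h : Ok y) (p : P) (x : ℝ × ℝ) :
    dM (om y) (fun (_ : P) x => Pb00 y x) p x = dPb00 y x := by
  have hc : ∀ (c : ℝ) (f : P → ℝ × ℝ → ℝ) (v : ℝ × ℝ), DifferentiableAt ℝ (f p) x →
      pd v (fun p x => c * f p x) p x = c * pd v f p x := fun c f v hf =>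
    pd_cmul (f := f) hf (fun _ => c) v
  have d2 : DifferentiableAt ℝ (fun x => s2 x) x := (s2_B (P := P)).diff (by norm_num) p x
  have d3 : DifferentiableAt ℝ (fun x => c2 x) x := (c2_B (P := P)).diff (by norm_num) p x
  have hk : ∀ c : ℝ, pd (P := P) (om y) (fun _ _ => c) p x = 0 := fun c => pd_const (fun _ => c) (om y) p x
  have ha := h.al_sq
  ext i j
  rw [dM_apply]
  fin_cases i <;> fin_cases j
  · exact (pd_c1 (om y) p x).trans (by simp [dPb00, om])
  · exact (hk 0).trans (by simp [dPb00])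
  · exact (hk 0).trans (by simp [dPb00])
  · exact (hk 0).trans (by simp [dPb00])
  · exact (pd_s1 (om y) p x).trans (by simp [dPb00, om])
  · exact (hk 0).trans (by simp [dPb00])
  · exact (hk 0).trans (by simp [dPb00])
  · exact (hk 0).trans (by simp [dPb00])
  · exact (hk 0).trans (by simp [dPb00])
  · exact (pd_c2 (om y) p x).trans (by simp [dPb00, om])
  · exact (hk 1).trans (by simp [dPb00])
  · exact (hk 1).trans (by simp [dPb00])
  · exact (hk 0).trans (by simp [dPb00])
  · change pd (om y) (fun (_ : P) x => be y * s2 x) p x = _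
    rw [hc _ (fun _ x => s2 x) _ d2, pd_s2]
    simp [dPb00, om]
    ring
  · exact (hk _).trans (by simp [dPb00])
  · exact (hk _).trans (by simp [dPb00])
  · exact (hk 0).trans (by simp [dPb00])
  · change pd (om y) (fun (_ : P) x => -al y * s2 x) p x = _
    rw [hc _ (fun _ x => s2 x) _ d2, pd_s2]
    simp [dPb00, om]
    linear_combination (c2 x) * ha
  · exact (hk _).trans (by simp [dPb00])
  · exact (hk _).trans (by simp [dPb00])
  · exact (hk 0).trans (by simp [dPb00])
  · change pd (om y) (fun (_ : P) x => al y * be y * c2 x) p x = _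
    rw [hc _ (fun _ x => c2 x) _ d3, pd_c2]
    simp [dPb00, om]
    linear_combination (be y * s2 x) * ha
  · exact (hk _).trans (by simp [dPb00])
  · exact (hk _).trans (by simp [dPb00])

lemma red00 (h : Ok y) (p : P) (x : ℝ × ℝ) :
    dPb00 y x - DL (k0 y) * Pb00 y x - Pb00 y x * dgm (dd (ContinuousMap.const P (la y))) p = 0 := by
  have r1 := h.r1
  have r2 := h.r2
  have r3 := h.r3
  have ra := h.al_sq
  have rl := h.la_sq
  have rb := h.rb
  have rc := h.rc
  have rd := h.rd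
  have hy := h.y1
  have hla := h.la_pos
  ext i j
  rw [Matrix.sub_apply, Matrix.sub_apply, Matrix.mul_apply, Matrix.mul_apply, Fin.sum_univ_six,
    Fin.sum_univ_four, Matrix.zero_apply]
  unfold dPb00 DL Pb00 dgm dd sg
  fin_cases i <;> fin_cases j <;> simp <;> grind

end Run7.k800g
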