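import Pool.Agent.Run7.k800g.VfG
import Pool.Agent.Run7.k800.Oe

set_option autoImplicit false
set_option linter.unusedSectionVars false

/-!
# First order expansion of the vector field
-/

namespace Run7.k800g

open Run7.k800 (JJ PS Adm aT aI adm_aT adm_aI fI Bo Oe Vr PS_aI_zero)
open Filter Topology Set

/-- the bounded region -/
def DmG (K : ℝ) : Set Vr := {i | |i.s| ≤ 5 ∧ |i.si| ≤ 5 ∧ |i.ti| ≤ 5 ∧ ∀ j, |i.z j| ≤ K}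

variable {K : ℝ} (m : Mc)

lemma bo_s : Bo (DmG K) (fun _ i => i.s) := Bo.fn (by norm_num : (0 : ℝ) ≤ 5) (fun _ hi => hi.1)
lemma bo_si : Bo (DmG K) (fun _ i => i.si) := Bo.fn (by norm_num : (0 : ℝ) ≤ 5) (fun _ hi => hi.2.1)
lemma bo_z (j : JJ) : Bo (DmG K) (fun _ i => i.z j) :=
  Bo.fn (abs_nonneg K) (fun _ hi => (hi.2.2.2 j).trans (le_abs_self K))

lemma bo_es : Bo (DmG K) (fun ε i => ε * i.s) := Oe.eps.bo.mul bo_s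

lemma oe_es : Oe (DmG K) (fun ε i => ε * i.s) := Oe.eps.mul bo_s

lemma bo_nsq : Bo (DmG K) (fun _ i => i.z (Sum.inl 2) * i.z (Sum.inl 2)
    + i.z (Sum.inl 3) * i.z (Sum.inl 3)) :=
  ((bo_z _).mul (bo_z _)).add ((bo_z _).mul (bo_z _))

lemma bo_hZ (k : ℝ) : Bo (DmG K) (fun ε i => hZ k ε i.s (i.z (Sum.inl 2)) (i.z (Sum.inl 3))) :=
  ((Bo.cst k).mul ((Bo.cst 2).mul (bo_z _))).add ((Oe.eps.bo.mul bo_es).mul
    ((Bo.cst (k * k)).mul bo_nsq))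

lemma bo_hQ (k : ℝ) : Bo (DmG K) (fun ε i => hQ k ε i.s (i.z (Sum.inl 2)) (i.z (Sum.inl 3))) :=
  ((bo_hZ k).mul (bo_hZ k)).mul ((bo_es.mul (bo_hZ k)).ps adm_aT)

lemma bo_hT (k : ℝ) : Bo (DmG K) (fun ε i => hT k ε i.s (i.z (Sum.inl 2)) (i.z (Sum.inl 3))) :=
  ((Bo.cst (-(3 / 2))).mul ((Bo.cst (k * k)).mul bo_nsq)).add (bo_hQ k)

lemma bo_hR (k : ℝ) : Bo (DmG K) (fun ε i => hR k ε i.s (i.z (Sum.inl 2)) (i.z (Sum.inl 3))) :=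
  ((Bo.cst (-(3 / 2))).mul (bo_hZ k)).add ((Oe.eps.bo.mul bo_es).mul (bo_hQ k))

lemma bo_hN1 (k : ℝ) : Bo (DmG K) (fun ε i => hN1 k ε i.s (i.z (Sum.inl 2)) (i.z (Sum.inl 3))) :=
  ((Bo.cst k⁻¹).mul (bo_hT k)).add ((bo_z _).mul (bo_hR k))

lemma bo_hN2 (k : ℝ) : Bo (DmG K) (fun ε i => hN2 k ε i.s (i.z (Sum.inl 2)) (i.z (Sum.inl 3))) :=
  (bo_z _).mul (bo_hR k)

lemma bo_hf1 : Bo (DmG K) (fun ε i => hf1 m ε i.s (i.z (Sum.inl 2)) (i.z (Sum.inl 3))) :=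
  ((Bo.cst (-2 * (m.A1 + m.A2))).mul (bo_z _)).add ((Oe.eps.bo.mul bo_es).mul
    (((Bo.cst m.A1).mul (bo_hN1 m.k1)).add ((Bo.cst m.A2).mul (bo_hN1 m.k2))))

lemma bo_hf2 : Bo (DmG K) (fun ε i => hf2 m ε i.s (i.z (Sum.inl 2)) (i.z (Sum.inl 3))) :=
  ((Bo.cst (m.A1 + m.A2)).mul (bo_z _)).add ((Oe.eps.bo.mul bo_es).mul
    (((Bo.cst m.A1).mul (bo_hN2 m.k1)).add ((Bo.cst m.A2).mul (bo_hN2 m.k2))))

lemma oe_hk1 : Oe (DmG K) (fun ε i => hk1 m ε i.s (i.z (Sum.inl 2)) (i.z (Sum.inl 3))) :=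
  (oe_es.neg).mul ((((Bo.cst m.C1).mul (bo_hN1 m.k1)).add ((Bo.cst m.C2).mul (bo_hN1 m.k2))).add
    (((bo_z _).mul (bo_hf1 m)).sub ((bo_z _).mul (bo_hf2 m))))

lemma oe_hk2 : Oe (DmG K) (fun ε i => hk2 m ε i.s (i.z (Sum.inl 2)) (i.z (Sum.inl 3))) :=
  (oe_es.neg).mul ((((Bo.cst m.C1).mul (bo_hN2 m.k1)).add ((Bo.cst m.C2).mul (bo_hN2 m.k2))).add
    (((bo_z _).mul (bo_hf2 m)).add ((bo_z _).mul (bo_hf1 m))))

lemma bo_fI : Bo (DmG K) (fun ε i => fI ε i.si (i.z (Sum.inl 0))) :=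
  (bo_si.mul (bo_z _)).ps adm_aI

lemma oe_fI : Oe (DmG K) (fun ε i => fI ε i.si (i.z (Sum.inl 0)) - 1) := by
  have := Oe.ps (bo_si.mul (bo_z (K := K) (Sum.inl 0))) adm_aI
  rw [PS_aI_zero] at this
  exact this

lemma oe_g4 : Oe (DmG K) (fun ε i => hg m ε i.s i.si i.ti i.z 4
    + i.si * i.z (Sum.inl 0) * ((2 * i.z (Sum.inr 1) + 1) * i.z (Sum.inl 2))) := by
  have a1 := (oe_es (K := K)).mul (bo_fI.mul ((bo_hf2 m).mul (bo_z (Sum.inl 4))))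
  have a2 := oe_hk1 (K := K) m
  have a3 := Oe.mul' (bo_si.mul (bo_z (K := K) (Sum.inl 0))) (oe_fI.mul
    ((((Bo.cst 2).mul (bo_z (Sum.inr 1))).add (Bo.cst 1)).mul (bo_z (Sum.inl 2))))
  have a4 := Oe.mul' ((bo_si.mul (bo_z (K := K) (Sum.inl 0))).mul bo_fI) (Oe.eps.mul (oe_hk1 m).bo)
  refine (((a1.sub a2).sub a3).add a4).congr (fun ε i => ?_)
  simp only [hg, Matrix.cons_val]
  ring

lemma oe_g5 : Oe (DmG K) (fun ε i => hg m ε i.s i.si i.ti i.z 5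
    - i.si * i.z (Sum.inl 0) * ((i.z (Sum.inr 1) - 1) * i.z (Sum.inl 3))) := by
  have a1 := (oe_es (K := K)).mul (bo_fI.mul ((bo_hf2 m).mul (bo_z (Sum.inl 5))))
  have a2 := oe_hk2 (K := K) m
  have a3 := Oe.mul' (bo_si.mul (bo_z (K := K) (Sum.inl 0))) (oe_fI.mul
    (((bo_z (Sum.inr 1)).sub (Bo.cst 1)).mul (bo_z (Sum.inl 3))))
  have a4 := Oe.mul' ((bo_si.mul (bo_z (K := K) (Sum.inl 0))).mul bo_fI) (Oe.eps.mul (oe_hk2 m).bo)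
  refine (((a1.sub a2).add a3).add a4).congr (fun ε i => ?_)
  simp only [hg, Matrix.cons_val]
  ring

end Run7.k800g
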