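import Pool.Agent.Run7.k800g.TwistG3
import Pool.Agent.Run7.k800g.OeG
import Pool.Agent.Run7.k800g.InitG3
import Pool.Agent.Run7.k800.Mean

set_option autoImplicit false
set_option linter.unusedSectionVars false

/-!
# The family of tori over a rectangle of parameters
-/

namespace Run7.k800g

open Run7.k800 (RR qS qI qT qS_nonneg qS_le qI_ge qI_le qT_eq P2' B.slice WW mn DD DD_sub DD_smul DD_s2 c1 s1 c2 s2 c1_le c2_le s2_le W_s2 B MB JJ St Sg pd zz dM Jac Vr fI PS_aI)
open Filter Topology Set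

/-- the output of the construction for one value of the small parameter -/
structure Fam (m : Mc) (y ε M : ℝ) (U : RR → ℝ × ℝ → Matrix (Fin 6) Unit ℝ) (q : Fin 2 → C(RR, ℝ)) :
    Prop where
  sym : ∀ p x, U p (-x) = Sg * U p x
  reg : MB 2 M U
  near : MB 2 (M * ε) (fun p x => U p x - U00 y x)
  nearq : ∀ k, ‖q k - (St0 RR y).q k‖ ≤ M * ε
  eq : ∀ p x i, dM (om y) U p x i () = Yh m qS qI qT ε i p (zz U q p x)
  εpos : 0 < ε
  jac : ∀ p : RR, |mn (fun x => Jac (fun x => U p x 2 ()) (fun x => U p x 3 ()) x * s1 x)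
    - ε * qI p * J0 y| ≤ M * ε ^ 2
  tw : ∀ p : RR, qS p = 0 → |q 1 p - k0 y + A1 y * (ε * qI p) ^ 2| ≤ M * ε ^ 3

variable {a b : ℝ}

theorem fam_of (hR : Rg a b) (m : Mc) {e0 C : ℝ} (he0 : 0 < e0) (he01 : e0 ≤ 1) (hC : 0 ≤ C) :
    ∃ e1 M : ℝ, 0 < e1 ∧ e1 ≤ e0 ∧ 1 ≤ M ∧ M * e1 ≤ 1 / 10 ∧ ∀ y ∈ Icc a b, ∀ ε, 0 < ε → ε ≤ e1 →
    ∀ (U : RR → ℝ × ℝ → Matrix (Fin 6) Unit ℝ) (q : Fin 2 → C(RR, ℝ)),
      (∀ p x, U p (-x) = Sg * U p x) → MB 2 (C * ε) (fun p x => U p x - U00 y x) →
      (∀ k, ‖q k - (St0 RR y).q k‖ ≤ C * ε) →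
      (∀ p x i, dM (om y) U p x i () = Yh m qS qI qT ε i p (zz U q p x)) → Fam m y ε M U q := by
  obtain ⟨Kk, hKk, hk0⟩ := CB.of_cont hR.ck0
  obtain ⟨Kb, hKb, hbe⟩ := CB.of_cont hR.cbe
  choose Ku hKu hU0 using fun i : Fin 6 => U00_TU (P := RR) hR i ()
  obtain ⟨KU, hKU⟩ : ∃ KU, KU = ∑ i, Ku i := ⟨_, rfl⟩
  have hKU0 : 0 ≤ KU := by rw [hKU]; exact Finset.sum_nonneg (fun i _ => hKu i)
  have hKUi : ∀ i, Ku i ≤ KU := fun i => by
    rw [hKU]; exact Finset.single_le_sum (fun j _ => hKu j) (Finset.mem_univ i)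
  have hU0' : ∀ y ∈ Icc a b, ∀ x i, |U00 y x i ()| ≤ KU := fun y hy x i =>
    ((hU0 i y hy).norm_le (by norm_num) (Classical.arbitrary RR) x).trans (hKUi i)
  obtain ⟨e4, K4, he4, he41, hK4, hg4⟩ := oe_g4 (K := KU + Kk + 3) m
  obtain ⟨e5, K5, he5, he51, hK5, hg5⟩ := oe_g5 (K := KU + Kk + 3) m
  obtain ⟨M0, hM0⟩ : ∃ M0, M0 = K4 + K5 + (20 * (Kk + 2) + 20 * (Kk + 2) * (Kb + 1)) * (C + 1) + KU + 1 :=
    ⟨_, rfl⟩
  have hM0C : (20 * (Kk + 2) + 20 * (Kk + 2) * (Kb + 1)) * C + K4 + K5 ≤ M0 := by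
    rw [hM0]
    have : 0 ≤ 20 * (Kk + 2) + 20 * (Kk + 2) * (Kb + 1) := by positivity
    linarith
  have hq0' : 0 ≤ (20 * (Kk + 2) + 20 * (Kk + 2) * (Kb + 1)) * C := by positivity
  have hM0C' : 40 * C ≤ M0 := by
    have h1 : 0 ≤ (20 * Kk + 20 * (Kk + 2) * Kb + 20 * Kk) * C := by positivity
    linarith
  have hM00 : 1 ≤ M0 := by
    rw [hM0]
    have : 0 ≤ (20 * (Kk + 2) + 20 * (Kk + 2) * (Kb + 1)) * (C + 1) := by positivity
    linarith
  have hM0U : C + KU ≤ M0 := by
    rw [hM0]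
    have h1 : 0 ≤ (20 * Kk + 20 * (Kk + 2) * Kb + 20 * Kk) * (C + 1) := by positivity
    linarith
  obtain ⟨e6, K6, he6, he61, hK6, hjac⟩ := ojac hR (M := M0) (by linarith)
  obtain ⟨e7, K7, he7, he71, hK7, htw⟩ := twist hR (M := M0) (by linarith)
  obtain ⟨M, hM⟩ : ∃ M, M = M0 + K6 + K7 := ⟨_, rfl⟩
  have hM1 : 1 ≤ M := by linarith
  have hMM : M0 ≤ M := by linarith
  refine ⟨min (min (min e0 (min e4 e5)) (min e6 e7)) (1 / (10 * M)), M, by positivity,
    (min_le_left _ _).trans ((min_le_left _ _).trans (min_le_left _ _)), hM1, ?_,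
    fun y hy ε hε he U q u1 u2 u3 u4 => ?_⟩
  · calc M * min (min (min e0 (min e4 e5)) (min e6 e7)) (1 / (10 * M)) ≤ M * (1 / (10 * M)) := by
          gcongr; exact min_le_right _ _
      _ = 1 / 10 := by field_simp
  have h03 : ε ≤ min e0 (min e4 e5) := he.trans ((min_le_left _ _).trans (min_le_left _ _))
  have h0 : ε ≤ e0 := h03.trans (min_le_left _ _)
  have h4 : ε ≤ e4 := h03.trans ((min_le_right _ _).trans (min_le_left _ _))
  have h5 : ε ≤ e5 := h03.trans ((min_le_right _ _).trans (min_le_right _ _))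
  have h67 : ε ≤ min e6 e7 := he.trans ((min_le_left _ _).trans (min_le_right _ _))
  have h6 : ε ≤ e6 := h67.trans (min_le_left _ _)
  have h7 : ε ≤ e7 := h67.trans (min_le_right _ _)
  have hok := hR.ok hy
  have hME : M * ε ≤ 1 / 10 := by
    have h1 : ε ≤ 1 / (10 * M) := he.trans (min_le_right _ _)
    calc M * ε ≤ M * (1 / (10 * M)) := by gcongr
      _ = 1 / 10 := by field_simp
  have hCe0 : 0 ≤ C * ε := by positivity
  have hCM0 : 40 * (C * ε) ≤ M0 * ε := by
    calc 40 * (C * ε) = (40 * C) * ε := by ring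
      _ ≤ _ := by gcongr
  have hM0M : M0 * ε ≤ M * ε := by gcongr
  have hCe : C * ε ≤ 1 / 400 := by linarith
  -- closeness
  have hcl : ∀ p x i, |U p x i () - U00 y x i ()| ≤ C * ε := by
    intro p x i
    exact (u2 i ()).norm_le (by norm_num) p x
  have hq0 : ∀ p, |q 0 p - 1| ≤ C * ε := by
    intro p
    have := (q 0 - (St0 RR y).q 0).norm_coe_le_norm p
    exact this.trans (u3 0)
  have hq1 : ∀ p, |q 1 p - k0 y| ≤ C * ε := by
    intro p
    have := (q 1 - (St0 RR y).q 1).norm_coe_le_norm p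
    exact this.trans (u3 1)
  -- regularity
  have hreg : MB 2 M U := by
    intro i j
    have a1 := u2 i j
    have a2 : B (P := RR) 2 (Ku i) (fun p x => U00 y x i j) := (hU0 i y hy).mono (by norm_num) (by norm_num) le_rfl
    refine ((a1.add a2 (by norm_num)).congr (fun p x => ?_)).mono (by norm_num) le_rfl ?_
    · simp
    · have h1 := hKUi i
      have h2 : C * ε ≤ C := by
        have : ε ≤ 1 := h0.trans he01
        exact mul_le_of_le_one_right hC this
      linarith
  have hW : ∀ p i, WW (fun x => U p x i ()) := fun p i =>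
    ⟨2, M, by norm_num, B.slice (hreg i ()) (by norm_num) p⟩
  -- the equations
  have heq : ∀ p x i, DD (om y) (fun x => U p x i ()) x = Yh m qS qI qT ε i p (zz U q p x) :=
    fun p x i => u4 p x i
  have hk0y := abs_le.mp (hk0 y hy)
  have hbey := hbe y hy
  -- membership in the bounded region
  have hD : ∀ p x, (⟨qS p, qI p, qT p, zz U q p x⟩ : Vr) ∈ DmG (KU + Kk + 3) := by
    intro p x
    have b1 := qS_nonneg p
    have b2 := qS_le p
    have b3 := qI_ge p
    have b4 := qI_le p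
    refine ⟨?_, ?_, ?_, fun j => ?_⟩
    · change |qS p| ≤ 5
      rw [abs_of_nonneg b1]; linarith
    · change |qI p| ≤ 5
      rw [abs_of_nonneg (by linarith)]; linarith
    · change |qT p| ≤ 5
      rw [qT_eq, abs_of_nonneg (by positivity)]
      have : (qI p)⁻¹ ≤ 1 := inv_le_one_of_one_le₀ b3
      linarith
    · rcases j with i | k
      · change |U p x i ()| ≤ KU + Kk + 3
        have h1 := abs_le.mp (hcl p x i)
        have h2 := abs_le.mp (hU0' y hy x i)
        rw [abs_le]; constructor <;> linarith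
      · change |q k p| ≤ KU + Kk + 3
        fin_cases k
        · have h1 := abs_le.mp (hq0 p)
          change |q 0 p| ≤ KU + Kk + 3
          rw [abs_le]; constructor <;> linarith
        · have h1 := abs_le.mp (hq1 p)
          change |q 1 p| ≤ KU + Kk + 3
          rw [abs_le]; constructor <;> linarith
  have hmu0 : ∀ p, q 0 p ≠ 0 := by
    intro p h
    have h1 := abs_le.mp (hq0 p)
    rw [h] at h1
    linarith [h1.1]
  -- the slices
  have hSl : ∀ p, ∃ g4 g5 : ℝ × ℝ → ℝ, Sl a b M0 ε ⟨y, qI p, q 0 p, q 1 p, fun x => U p x 0 (),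
      fun x => U p x 1 (), fun x => U p x 2 (), fun x => U p x 3 (), fun x => U p x 4 (),
      fun x => U p x 5 (), g4, g5⟩ := by
    intro p
    obtain ⟨g4, hg4d⟩ : ∃ g4 : ℝ × ℝ → ℝ, g4 = fun x => ε⁻¹ * ((q 0 p)⁻¹ * DD (om y) (fun x => U p x 4 ()) x
      - (2 * U p x 5 () + (2 * q 1 p + 1) * U p x 2 ())) := ⟨_, rfl⟩
    obtain ⟨g5, hg5d⟩ : ∃ g5 : ℝ × ℝ → ℝ, g5 = fun x => ε⁻¹ * ((q 0 p)⁻¹ * DD (om y) (fun x => U p x 5 ()) x
      - (-2 * U p x 4 () - (q 1 p - 1) * U p x 3 ())) := ⟨_, rfl⟩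
    have E4 : ∀ x, DD (om y) (fun x => U p x 4 ()) x = q 0 p * (2 * U p x 5 () + (2 * q 1 p + 1) * U p x 2 ()
        + ε * hg m ε (qS p) (qI p) (qT p) (zz U q p x) 4) := fun x => heq p x 4
    have E5 : ∀ x, DD (om y) (fun x => U p x 5 ()) x = q 0 p * (-2 * U p x 4 () - (q 1 p - 1) * U p x 3 ()
        + ε * hg m ε (qS p) (qI p) (qT p) (zz U q p x) 5) := fun x => heq p x 5
    have G4 : ∀ x, g4 x = hg m ε (qS p) (qI p) (qT p) (zz U q p x) 4 := by
      intro x
      rw [hg4d]
      simp only [E4 x]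
      have := hmu0 p
      field_simp
      ring
    have G5 : ∀ x, g5 x = hg m ε (qS p) (qI p) (qT p) (zz U q p x) 5 := by
      intro x
      rw [hg5d]
      simp only [E5 x]
      have := hmu0 p
      field_simp
      ring
    refine ⟨g4, g5, ?_⟩
    have hb1 := qI_ge p
    have hb2 := qI_le p
    have cU : ∀ x, |U p x 0 () - c1 x| ≤ C * ε := fun x => hcl p x 0
    have cV : ∀ x, |U p x 2 () - c2 x| ≤ C * ε := fun x => hcl p x 2
    have cV2 : ∀ x, |U p x 3 () - be y * s2 x| ≤ C * ε := fun x => hcl p x 3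
    have aU : ∀ x, |U p x 0 ()| ≤ 2 := fun x => by
      have h1 := abs_le.mp (cU x)
      have h2 := abs_le.mp (c1_le x)
      rw [abs_le]; constructor <;> linarith
    have hbs : ∀ x, |be y * s2 x| ≤ Kb * 1 := fun x => P2' hbey (s2_le x)
    have hsi : |qI p| ≤ 2 := by rw [abs_of_nonneg (by linarith)]; exact hb2
    have hk1 : |2 * q 1 p + 1| ≤ 2 * (Kk + 2) := by
      have := abs_le.mp (hq1 p)
      rw [abs_le]; constructor <;> linarith
    have hk2 : |q 1 p - 1| ≤ Kk + 2 := by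
      have := abs_le.mp (hq1 p)
      rw [abs_le]; constructor <;> linarith
    have hk3 : |2 * k0 y + 1| ≤ 2 * (Kk + 2) := by
      rw [abs_le]; constructor <;> linarith
    have hk4 : |k0 y - 1| ≤ Kk + 2 := by
      rw [abs_le]; constructor <;> linarith
    have cd : ∀ x, |DD (0, 1) (fun x => U p x 3 ()) x - be y * c2 x| ≤ 2 * (C * ε) := by
      intro x
      have a1 : B (1 : ℝ) (‖((0, 1) : ℝ × ℝ)‖ / (1 - 1 / 2) * (C * ε))
          (pd (0, 1) (fun p x => (U p x - U00 y x) 3 ())) := by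
        have := (u2 3 ()).pd (s := 1 / 2) (by norm_num) (by norm_num) (by norm_num) (0, 1)
        norm_num at this ⊢
        exact this
      have a2 := a1.norm_le le_rfl p x
      have a3 : ‖((0, 1) : ℝ × ℝ)‖ = 1 := by simp [Prod.norm_def]
      rw [a3] at a2
      have a4 : pd (0, 1) (fun p x => (U p x - U00 y x) 3 ()) p x
          = DD (0, 1) (fun x => U p x 3 ()) x - be y * c2 x := by
        have w2 := hW p 3
        have e : (fun x => (U p x - U00 y x) 3 ()) = fun x => U p x 3 () - be y * s2 x := by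
          funext x
          simp [U00]
        change DD (0, 1) (fun x => (U p x - U00 y x) 3 ()) x = _
        rw [e, DD_sub w2 (W_s2.smul _), DD_smul _ W_s2, DD_s2]
        simp
      rw [a4] at a2
      refine a2.trans (le_of_eq ?_)
      ring
    refine { hy := hy, hs1 := hb1, hs2 := hb2, wu := hW p 0, wv := hW p 1,
             ww1 := hW p 2, ww2 := hW p 3, wp1 := hW p 4, wp2 := hW p 5, wg4 := ?_, wg5 := ?_,
             cu := fun x => (cU x).trans (by linarith), cw1 := fun x => (cV x).trans (by linarith),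
             cw2 := fun x => (cV2 x).trans (by linarith), cd2 := fun x => (cd x).trans (by linarith),
             cmu := (hq0 p).trans (by linarith), cka := (hq1 p).trans (by linarith), e1 := fun x => ?_,
             e2 := fun x => ?_, e4 := fun x => ?_, e5 := fun x => ?_, ag4 := fun x => ?_,
             ag5 := fun x => ?_ }
    · change WW g4
      rw [hg4d]
      exact ((((hW p 4).pd (om y)).smul _).sub (((hW p 5).smul 2).add ((hW p 2).smul _))).smul _
    · change WW g5
      rw [hg5d]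
      exact ((((hW p 5).pd (om y)).smul _).sub (((hW p 4).smul (-2)).sub ((hW p 3).smul _))).smul _
    · have := heq p x 2
      change DD (om y) (fun x => U p x 2 ()) x = _
      rw [this]
      change q 0 p * (U p x 4 () + ε * 0) = _
      ring
    · have := heq p x 3
      change DD (om y) (fun x => U p x 3 ()) x = _
      rw [this]
      change q 0 p * (U p x 5 () + ε * 0) = _
      ring
    · change DD (om y) (fun x => U p x 4 ()) x = q 0 p * (2 * U p x 5 () + (2 * q 1 p + 1) * U p x 2 ()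
        + ε * g4 x)
      rw [G4 x]; exact E4 x
    · change DD (om y) (fun x => U p x 5 ()) x = q 0 p * (-2 * U p x 4 () - (q 1 p - 1) * U p x 3 ()
        + ε * g5 x)
      rw [G5 x]; exact E5 x
    · change |g4 x + qI p * aa y * (c1 x * c2 x)| ≤ M0 * ε
      rw [G4 x]
      have a1 := hg4 ε hε.le h4 _ (hD p x)
      have a2 : |hg m ε (qS p) (qI p) (qT p) (zz U q p x) 4
        + qI p * U p x 0 () * ((2 * q 1 p + 1) * U p x 2 ())| ≤ K4 * ε := a1
      have e : hg m ε (qS p) (qI p) (qT p) (zz U q p x) 4 + qI p * aa y * (c1 x * c2 x)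
          = (hg m ε (qS p) (qI p) (qT p) (zz U q p x) 4
            + qI p * U p x 0 () * ((2 * q 1 p + 1) * U p x 2 ()))
            - qI p * (U p x 0 () * ((2 * q 1 p + 1) * (U p x 2 () - c2 x))
              + 2 * ((q 1 p - k0 y) * (U p x 0 () * c2 x))
              + (2 * k0 y + 1) * ((U p x 0 () - c1 x) * c2 x)) := by
        rw [← hok.r4]; ring
      have t1 : |U p x 0 () * ((2 * q 1 p + 1) * (U p x 2 () - c2 x))| ≤ 2 * (2 * (Kk + 2) * (C * ε)) :=
        P2' (aU x) (P2' hk1 (cV x))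
      have t2 : |2 * ((q 1 p - k0 y) * (U p x 0 () * c2 x))| ≤ 2 * ((C * ε) * (2 * 1)) :=
        P2' (by norm_num) (P2' (hq1 p) (P2' (aU x) (c2_le x)))
      have t3 : |(2 * k0 y + 1) * ((U p x 0 () - c1 x) * c2 x)| ≤ 2 * (Kk + 2) * ((C * ε) * 1) :=
        P2' hk3 (P2' (cU x) (c2_le x))
      have t4 : |qI p * (U p x 0 () * ((2 * q 1 p + 1) * (U p x 2 () - c2 x))
              + 2 * ((q 1 p - k0 y) * (U p x 0 () * c2 x))
              + (2 * k0 y + 1) * ((U p x 0 () - c1 x) * c2 x))| ≤ 2 * (8 * (Kk + 2) * (C * ε)) := by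
        refine P2' hsi ?_
        have s1 := abs_add_le (U p x 0 () * ((2 * q 1 p + 1) * (U p x 2 () - c2 x))
              + 2 * ((q 1 p - k0 y) * (U p x 0 () * c2 x))) ((2 * k0 y + 1) * ((U p x 0 () - c1 x) * c2 x))
        have s2 := abs_add_le (U p x 0 () * ((2 * q 1 p + 1) * (U p x 2 () - c2 x)))
              (2 * ((q 1 p - k0 y) * (U p x 0 () * c2 x)))
        have s3 : 0 ≤ Kk * (C * ε) := by positivity
        linarith
      rw [e]
      refine (abs_sub _ _).trans ?_
      have hK : ((20 * (Kk + 2) + 20 * (Kk + 2) * (Kb + 1)) * C + K4 + K5) * ε ≤ M0 * ε := by gcongr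
      have s4 : 0 ≤ (Kk + 2) * (Kb + 1) * C * ε := by positivity
      have s5 : 0 ≤ (Kk + 2) * (C * ε) := by positivity
      have s6 : 0 ≤ K5 * ε := by positivity
      linarith
    · change |g5 x - qI p * (bt y * be y) * (c1 x * s2 x)| ≤ M0 * ε
      rw [G5 x]
      have a1 := hg5 ε hε.le h5 _ (hD p x)
      have a2 : |hg m ε (qS p) (qI p) (qT p) (zz U q p x) 5
        - qI p * U p x 0 () * ((q 1 p - 1) * U p x 3 ())| ≤ K5 * ε := a1
      have e : hg m ε (qS p) (qI p) (qT p) (zz U q p x) 5 - qI p * (bt y * be y) * (c1 x * s2 x)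
          = (hg m ε (qS p) (qI p) (qT p) (zz U q p x) 5
            - qI p * U p x 0 () * ((q 1 p - 1) * U p x 3 ()))
            + qI p * (U p x 0 () * ((q 1 p - 1) * (U p x 3 () - be y * s2 x))
              + (q 1 p - k0 y) * (U p x 0 () * (be y * s2 x))
              + (k0 y - 1) * ((U p x 0 () - c1 x) * (be y * s2 x))) := by
        have := hok.r3
        rw [this]; ring
      have t1 : |U p x 0 () * ((q 1 p - 1) * (U p x 3 () - be y * s2 x))| ≤ 2 * ((Kk + 2) * (C * ε)) :=
        P2' (aU x) (P2' hk2 (cV2 x))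
      have t2 : |(q 1 p - k0 y) * (U p x 0 () * (be y * s2 x))| ≤ (C * ε) * (2 * (Kb * 1)) :=
        P2' (hq1 p) (P2' (aU x) (hbs x))
      have t3 : |(k0 y - 1) * ((U p x 0 () - c1 x) * (be y * s2 x))| ≤ (Kk + 2) * ((C * ε) * (Kb * 1)) :=
        P2' hk4 (P2' (cU x) (hbs x))
      have t4 : |qI p * (U p x 0 () * ((q 1 p - 1) * (U p x 3 () - be y * s2 x))
              + (q 1 p - k0 y) * (U p x 0 () * (be y * s2 x))
              + (k0 y - 1) * ((U p x 0 () - c1 x) * (be y * s2 x)))|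
              ≤ 2 * (2 * (Kk + 2) * (C * ε) + 2 * (Kk + 2) * (Kb + 1) * (C * ε)) := by
        refine P2' hsi ?_
        have s1 := abs_add_le (U p x 0 () * ((q 1 p - 1) * (U p x 3 () - be y * s2 x))
              + (q 1 p - k0 y) * (U p x 0 () * (be y * s2 x)))
              ((k0 y - 1) * ((U p x 0 () - c1 x) * (be y * s2 x)))
        have s2 := abs_add_le (U p x 0 () * ((q 1 p - 1) * (U p x 3 () - be y * s2 x)))
              ((q 1 p - k0 y) * (U p x 0 () * (be y * s2 x)))
        have s3 : 0 ≤ Kk * (C * ε) := by positivity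
        have s4 : 0 ≤ Kb * (C * ε) := by positivity
        have s5 : 0 ≤ Kk * Kb * (C * ε) := by positivity
        linarith
      rw [e]
      refine (abs_add_le _ _).trans ?_
      have hK : ((20 * (Kk + 2) + 20 * (Kk + 2) * (Kb + 1)) * C + K4 + K5) * ε ≤ M0 * ε := by gcongr
      have s4 : 0 ≤ (Kk + 2) * (Kb + 1) * C * ε := by positivity
      have s5 : 0 ≤ (Kk + 2) * (C * ε) := by positivity
      have s6 : 0 ≤ K4 * ε := by positivity
      linarith
  refine ⟨u1, hreg, fun i j => (u2 i j).mono (by norm_num) le_rfl (by linarith),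
    fun k => (u3 k).trans (by linarith), u4, hε, fun p => ?_, fun p hp => ?_⟩
  · obtain ⟨g4, g5, hsl⟩ := hSl p
    have h1 := hjac ε hε.le h6 _ hsl
    refine (show |mn (fun x => Jac (fun x => U p x 2 ()) (fun x => U p x 3 ()) x * s1 x)
      - ε * qI p * J0 y| ≤ K6 * ε ^ 2 from h1).trans ?_
    have : K6 ≤ M := by linarith
    gcongr
  · obtain ⟨g4, g5, hsl⟩ := hSl p
    have fz1 : ∀ (a b : ℝ), hk1 m ε 0 a b = 0 := by intro a b; unfold hk1; ring
    have fz2 : ∀ (a b : ℝ), hk2 m ε 0 a b = 0 := by intro a b; unfold hk2; ring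
    have hfI : ∀ x, fI ε (qI p) (U p x 0 ()) * (1 + ε * (qI p * U p x 0 ())) = 1 := by
      intro x
      unfold fI
      apply PS_aI
      have h1 := abs_le.mp (hcl p x 0)
      have h2 := abs_le.mp (c1_le x)
      have h3 : |U p x 0 ()| ≤ 2 := by
        have : U00 y x 0 () = c1 x := rfl
        rw [this] at h1
        rw [abs_le]; constructor <;> linarith
      have h4 : |qI p| ≤ 2 := by
        have := qI_ge p
        have := qI_le p
        rw [abs_of_nonneg (by linarith)]; linarith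
      have h5 : |ε| ≤ 1 / 40 := by
        rw [abs_of_pos hε]
        have h6 : 20 * (Kk + 2) ≤ M0 := by
          rw [hM0]
          have : 0 ≤ 20 * (Kk + 2) * (Kb + 1) * (C + 1) := by positivity
          have : 0 ≤ 20 * (Kk + 2) * C := by positivity
          linarith
        have h7 : 40 ≤ M0 := by linarith
        have : 40 * ε ≤ M0 * ε := by gcongr
        linarith
      have := P2' h5 (P2' h4 h3)
      linarith
    have hbd : Bd a b M0 ε ⟨y, qI p, q 0 p, q 1 p, fun x => U p x 0 (),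
      fun x => U p x 1 (), fun x => U p x 2 (), fun x => U p x 3 (), fun x => U p x 4 (),
      fun x => U p x 5 (), g4, g5⟩ := by
      refine ⟨hsl, fun x => ?_, fun x => ?_, fun x => ?_, fun x => ?_⟩
      · have := heq p x 0
        change DD (om y) (fun x => U p x 0 ()) x = _
        rw [this]
        change q 0 p * (-U p x 1 () + ε * (-2 * (qS p * qT p) * hf2 m ε (qS p) (U p x 2 ()) (U p x 3 ()))) = _
        rw [hp]; ring
      · have := heq p x 1
        change DD (om y) (fun x => U p x 1 ()) x = _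
        rw [this]
        change q 0 p * (U p x 0 () + ε * (-(qS p * qT p) * hf1 m ε (qS p) (U p x 2 ()) (U p x 3 ())
          - ε * qS p * (fI ε (qI p) (U p x 0 ())
          * (hf2 m ε (qS p) (U p x 2 ()) (U p x 3 ()) * U p x 1 ())))) = _
        rw [hp]; ring
      · have := heq p x 4
        change (1 + ε * qI p * U p x 0 ()) * (DD (om y) (fun x => U p x 4 ()) x - q 0 p * (2 * U p x 5 ())) = _
        rw [this]
        change (1 + ε * qI p * U p x 0 ()) * (q 0 p * (2 * U p x 5 () + (2 * q 1 p + 1) * U p x 2 ()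
          + ε * (ε * qS p * (fI ε (qI p) (U p x 0 ())
          * (hf2 m ε (qS p) (U p x 2 ()) (U p x 3 ()) * U p x 4 ()))
        - hk1 m ε (qS p) (U p x 2 ()) (U p x 3 ())
        + qI p * U p x 0 () * fI ε (qI p) (U p x 0 ()) * (-((2 * q 1 p + 1) * U p x 2 ())
          + ε * hk1 m ε (qS p) (U p x 2 ()) (U p x 3 ())))) - q 0 p * (2 * U p x 5 ())) = _
        rw [hp, fz1]
        linear_combination (-(ε * q 0 p * qI p * U p x 0 () * (2 * q 1 p + 1) * U p x 2 ())) * hfI x
      · have := heq p x 5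
        change (1 + ε * qI p * U p x 0 ()) * (DD (om y) (fun x => U p x 5 ()) x + q 0 p * (2 * U p x 4 ())) = _
        rw [this]
        change (1 + ε * qI p * U p x 0 ()) * (q 0 p * (-2 * U p x 4 () - (q 1 p - 1) * U p x 3 ()
          + ε * (ε * qS p * (fI ε (qI p) (U p x 0 ())
          * (hf2 m ε (qS p) (U p x 2 ()) (U p x 3 ()) * U p x 5 ()))
        - hk2 m ε (qS p) (U p x 2 ()) (U p x 3 ())
        + qI p * U p x 0 () * fI ε (qI p) (U p x 0 ()) * ((q 1 p - 1) * U p x 3 ()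
          + ε * hk2 m ε (qS p) (U p x 2 ()) (U p x 3 ())))) + q 0 p * (2 * U p x 4 ())) = _
        rw [hp, fz2]
        linear_combination ((ε * q 0 p * qI p * U p x 0 () * (q 1 p - 1) * U p x 3 ())) * hfI x
    have h1 := htw ε hε.le h7 _ hbd
    refine (show |q 1 p - k0 y + A1 y * (ε * qI p) ^ 2| ≤ K7 * ε ^ 3 from h1).trans ?_
    have : K7 ≤ M := by linarith
    gcongr

end Run7.k800g
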