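import Pool.Agent.Run7.k800g.TorusG
import Pool.Agent.Run7.k800g.GlueG1

set_option autoImplicit false
set_option linter.unusedSectionVars false

/-!
# Existence of the family of tori
-/

namespace Run7.k800g

open Run7.k800 (RR qS qI qT)
open Filter Topology Set

variable {a b : ℝ}

theorem fam_exists (hR : Rg a b) (G : ℝ) (m : Mc) : ∃ e1 M : ℝ, 0 < e1 ∧ e1 ≤ 1 ∧ 1 ≤ M ∧
    M * e1 ≤ 1 / 10 ∧ ∀ y ∈ Icc a b, Dio2 G (om y) → ∀ ε, 0 < ε → ε ≤ e1 →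
    ∃ (U : RR → ℝ × ℝ → Matrix (Fin 6) Unit ℝ) (q : Fin 2 → C(RR, ℝ)), Fam m y ε M U q := by
  obtain ⟨e0, C, he0, he01, hC, htor⟩ := torus (P := RR) m qS qI qT hR G
  obtain ⟨e1, M, h1, h2, h3, h4, hf⟩ := fam_of hR m he0 he01 hC
  refine ⟨e1, M, h1, h2.trans he01, h3, h4, fun y hy hω ε hε he => ?_⟩
  obtain ⟨U, q, u1, u2, u3, u4, u5⟩ := htor y hy hω ε hε.le (he.trans h2)
  exact ⟨U, q, hf y hy ε hε he U q u1 u2 u3 u4⟩

end Run7.k800g
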