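import Pool.Agent.Run7.k800g.Bs
import Pool.Agent.Run7.k800.Ini

set_option autoImplicit false
set_option linter.unusedSectionVars false

/-!
# The initial state
-/

namespace Run7.k800g

open Run7.k800 (c1 s1 c2 s2 B MB JJ St Sg Pi4 cs1 cs2 c1_neg s1_neg c2_neg s2_neg gd pd pd_c1 pd_s1 pd_c2 pd_s2 pd_cmul ev s2_B c2_B c1_B s1_B TB zz DL dM dgm dd B.diff dM_apply sg)
open Filter Topology

variable {P : Type*} [TopologicalSpace P] [CompactSpace P]

/-- the unperturbed torus -/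
noncomputable def U00 (y : ℝ) (x : ℝ × ℝ) : Matrix (Fin 6) Unit ℝ :=
  Matrix.of fun i _ => ![c1 x, s1 x, c2 x, be y * s2 x, -al y * s2 x, al y * be y * c2 x] i

/-- the gradient of the unperturbed torus -/
noncomputable def G00 (y : ℝ) (x : ℝ × ℝ) : Matrix (Fin 6) (Fin 2) ℝ :=
  !![-s1 x, 0; c1 x, 0; 0, -s2 x; 0, be y * c2 x; 0, -al y * c2 x; 0, -(al y * be y) * s2 x]

/-- the normal frame -/
noncomputable def Pb00 (y : ℝ) (x : ℝ × ℝ) : Matrix (Fin 6) (Fin 4) ℝ :=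
  !![c1 x, 0, 0, 0; s1 x, 0, 0, 0; 0, c2 x, 1, 1; 0, be y * s2 x, chh y, -chh y;
    0, -al y * s2 x, la y, -la y; 0, al y * be y * c2 x, dh y, dh y]

/-- the dual tangential frame -/
noncomputable def Psa00 (y : ℝ) (x : ℝ × ℝ) : Matrix (Fin 2) (Fin 6) ℝ :=
  !![-s1 x, c1 x, 0, 0, 0, 0;
    0, 0, -(dh y * iQ y) * s2 x, -(bt y * iQ y * ia y) * c2 x,
      ((bt y - tt y) / 2 * iQ y * ia y) * c2 x, iQ y * s2 x]

/-- the dual normal frame -/
noncomputable def Psb00 (y : ℝ) (x : ℝ × ℝ) : Matrix (Fin 4) (Fin 6) ℝ :=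
  !![c1 x, s1 x, 0, 0, 0, 0;
    0, 0, (dh y * iQ y) * c2 x, -(bt y * iQ y * ia y) * s2 x,
      ((bt y - tt y) / 2 * iQ y * ia y) * s2 x, -iQ y * c2 x;
    0, 0, -(al y * be y * iQ y / 2), -(la y * iQ y * iy y / 2), la y * (y + 2) * iQ y * iy y / 4,
      iQ y / 2;
    0, 0, -(al y * be y * iQ y / 2), la y * iQ y * iy y / 2, -(la y * (y + 2) * iQ y * iy y / 4),
      iQ y / 2]

/-- the initial state -/
noncomputable def St0 (P : Type*) [TopologicalSpace P] (y : ℝ) : St P where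
  U := fun _ x => U00 y x
  Pb := fun _ x => Pb00 y x
  Psa := fun _ x => Psa00 y x
  Psb := fun _ x => Psb00 y x
  S := fun _ _ => 0
  q := ![ContinuousMap.const P 1, ContinuousMap.const P (k0 y)]
  lam := ContinuousMap.const P (la y)

lemma U00_sym (y : ℝ) (x : ℝ × ℝ) : U00 y (-x) = Sg * U00 y x := by
  ext i j
  unfold Sg U00
  rw [Matrix.diagonal_mul]
  fin_cases i <;> simp [c1_neg, s1_neg, c2_neg, s2_neg]

lemma St0_sym (y : ℝ) : (St0 P y).Sym := by
  refine ⟨fun p x => U00_sym y x, fun p x => ?_, fun p x => ?_, fun p x => ?_, fun p x => ?_⟩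
  · change Pb00 y (-x) = Sg * Pb00 y x * Pi4
    ext i j
    unfold Sg Pb00 Pi4
    rw [Matrix.mul_apply, Fin.sum_univ_four]
    simp only [Matrix.diagonal_mul]
    fin_cases i <;> fin_cases j <;> simp [c1_neg, s1_neg, c2_neg, s2_neg]
  · change Psa00 y (-x) = -(Psa00 y x * Sg)
    ext i j
    unfold Sg Psa00
    rw [Matrix.neg_apply, Matrix.mul_diagonal]
    fin_cases i <;> fin_cases j <;> simp [c1_neg, s1_neg, c2_neg, s2_neg]
  · change Psb00 y (-x) = Pi4 * Psb00 y x * Sg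
    ext i j
    unfold Sg Psb00 Pi4
    rw [Matrix.mul_diagonal, Matrix.mul_apply, Fin.sum_univ_four]
    fin_cases i <;> fin_cases j <;> simp [c1_neg, s1_neg, c2_neg, s2_neg]
  · change (0 : Matrix (Fin 2) (Fin 4) ℝ) = 0 * Pi4
    rw [Matrix.zero_mul]

lemma gd_U00 (y : ℝ) (p : P) (x : ℝ × ℝ) : gd (fun (_ : P) x => U00 y x) p x = G00 y x := by
  ext i k
  have hc : ∀ (c : ℝ) (f : P → ℝ × ℝ → ℝ) (v : ℝ × ℝ), DifferentiableAt ℝ (f p) x →
      pd v (fun p x => c * f p x) p x = c * pd v f p x := fun c f v hf =>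
    pd_cmul (f := f) hf (fun _ => c) v
  have d2 : DifferentiableAt ℝ (fun x => s2 x) x := (s2_B (P := P)).diff (by norm_num) p x
  have d3 : DifferentiableAt ℝ (fun x => c2 x) x := (c2_B (P := P)).diff (by norm_num) p x
  fin_cases i
  · change pd (ev k) (fun (_ : P) x => c1 x) p x = _
    rw [pd_c1]
    fin_cases k <;> simp [ev, G00]
  · change pd (ev k) (fun (_ : P) x => s1 x) p x = _
    rw [pd_s1]
    fin_cases k <;> simp [ev, G00]
  · change pd (ev k) (fun (_ : P) x => c2 x) p x = _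
    rw [pd_c2]
    fin_cases k <;> simp [ev, G00]
  · change pd (ev k) (fun (_ : P) x => be y * s2 x) p x = _
    rw [hc _ (fun _ x => s2 x) _ d2, pd_s2]
    fin_cases k <;> simp [ev, G00]
  · change pd (ev k) (fun (_ : P) x => -al y * s2 x) p x = _
    rw [hc _ (fun _ x => s2 x) _ d2, pd_s2]
    fin_cases k <;> simp [ev, G00]
  · change pd (ev k) (fun (_ : P) x => al y * be y * c2 x) p x = _
    rw [hc _ (fun _ x => c2 x) _ d3, pd_c2]
    fin_cases k <;> simp [ev, G00]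

variable {y : ℝ}

lemma F00 (h : Ok y) (x : ℝ × ℝ) : G00 y x * Psa00 y x + Pb00 y x * Psb00 y x = 1 := by
  have h1 := cs1 x
  have h2 := cs2 x
  have r1 := h.r1
  have r2 := h.r2
  have ra := h.al_sq
  have rl := h.la_sq
  have rQ := h.rQ
  have rd := h.rd
  have rb := h.rb
  have rc := h.rc
  have ri := h.ra
  have rj := h.ry
  have hy := h.y1
  have hla := h.la_pos
  have hal := h.al_pos
  ext i j
  rw [Matrix.add_apply, Matrix.mul_apply, Matrix.mul_apply, Fin.sum_univ_two, Fin.sum_univ_four]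
  unfold G00 Psa00 Pb00 Psb00
  fin_cases i <;> fin_cases j <;> simp <;> grind

end Run7.k800g
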