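import Pool.Agent.Run7.k800g.Dio2
import Pool.Agent.Run7.k800.Slv

set_option autoImplicit false
set_option linter.unusedSectionVars false

/-!
# The linear system of the Newton step
-/

namespace Run7.k800g

open Run7.k800
open Filter Topology

variable {P : Type*} [TopologicalSpace P] [CompactSpace P]

/-- Solution of the linear equations of the Newton step. -/
theorem lins {c : Type*} [DecidableEq c] [Fintype c] [Sm c] {r s k w G δ H : ℝ} {ω : ℝ × ℝ}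
    (hω : Dio2 G ω) (hs0 : 0 < s) (hs1 : s < 1) (hrs : 1 < r * s) (hrs2 : 1 ≤ r * s * s)
    (hk : 0 ≤ k) (hw : 0 ≤ w) (hδ : 0 < δ) (hH : G ≤ H) (hH' : 1 / δ ≤ H)
    {Psa : P → ℝ × ℝ → Matrix (Fin 2) (Fin 6) ℝ} {Psb : P → ℝ × ℝ → Matrix (Fin 4) (Fin 6) ℝ}
    {S : P → ℝ × ℝ → Matrix (Fin 2) (Fin 4) ℝ} {lam : C(P, ℝ)}
    {W : P → ℝ × ℝ → Matrix (Fin 6) c ℝ}
    (hPsa : MB r k Psa) (hPsb : MB r k Psb) (hS : MB r k S) (hlam : ∀ p, δ ≤ lam p)
    (hW : MB r w W)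
    (sPsa : ∀ p x, Psa p (-x) = -(Psa p x * Sg)) (sPsb : ∀ p x, Psb p (-x) = Pi4 * Psb p x * Sg)
    (sS : ∀ p x, S p (-x) = S p x * Pi4) (sW : ∀ p x, W p (-x) = -(Sg * W p x)) :
    ∃ (C : Fin 2 → c → C(P, ℝ)) (xa : P → ℝ × ℝ → Matrix (Fin 2) c ℝ)
      (xb : P → ℝ × ℝ → Matrix (Fin 4) c ℝ),
      (∀ p x, dM ω xb p x = Psb p x * W p x - dgm (dd lam) p * xb p x) ∧
      (∀ p x, dM ω xa p x = Psa p x * W p x - S p x * xb p x + cm C p) ∧
      (∀ p x, xb p (-x) = Pi4 * xb p x) ∧ (∀ p x, xa p (-x) = -xa p x) ∧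
      (∀ s', 0 < s' → s' < 1 → 1 ≤ r * s' →
        MB (r * s') (36 * (H / (1 - s') ^ 2 * (6 * (k * w)))) xb) ∧
      (∀ i j, ‖C i j‖ ≤ 6 * (k * w) + 6 * (k * (36 * (H / (1 - s) ^ 2 * (6 * (k * w)))))) ∧
      MB (r * s * s) (36 * (H / (1 - s) ^ 2 *
        (6 * (k * w) + 6 * (k * (36 * (H / (1 - s) ^ 2 * (6 * (k * w)))))))) xa ∧
      (∀ i j, Mn ω (fun p x => (Psa p x * W p x - S p x * xb p x) i j) (fun p => -C i j p)) := by
  have hr : 1 < r := by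
    have : 0 < r := by
      by_contra h
      push Not at h
      nlinarith
    nlinarith
  have hH0 : 0 ≤ H := (by positivity : (0 : ℝ) ≤ 1 / δ).trans hH'
  have h1s : 0 < 1 - s := by linarith
  -- first equation
  have hf1 : MB r (6 * (k * w)) (fun p x => Psb p x * W p x) := by
    refine (hPsb.mul hW hr.le).mono (by linarith) le_rfl ?_
    simp
  have hsgn : ∀ (i : Fin 4) (j : c), dd lam i - (fun _ => (0 : C(P, ℝ))) j = 0 ∨
      ∀ p, δ ≤ |(dd lam i - (fun _ => (0 : C(P, ℝ))) j) p| := by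
    intro i j
    fin_cases i
    · left; simp [dd, sg]
    · left; simp [dd, sg]
    · right; intro p
      simp only [dd, sg, sub_zero]
      have := hlam p
      simp
      exact this.trans (le_abs_self _)
    · right; intro p
      simp only [dd, sg, sub_zero]
      have := hlam p
      simp
      exact this.trans (le_abs_self _)
  have hsym1 : ∀ p x, Pi4 * ((fun p x => Psb p x * W p x) p (-x)) * (1 : Matrix c c ℝ)
      = -(fun p x => Psb p x * W p x) p x := by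
    intro p x
    simp only [sPsb, sW]
    rw [Matrix.mul_one, Matrix.mul_neg, Matrix.mul_neg]
    congr 1
    have : Pi4 * (Pi4 * Psb p x * Sg * (Sg * W p x)) = (Pi4 * Pi4) * Psb p x * ((Sg * Sg) * W p x) := by
      simp only [Matrix.mul_assoc]
    rw [this, Pi4_sq, Sg_sq, Matrix.one_mul, Matrix.one_mul]
  obtain ⟨c1, xb, b1, b2, b3, b4, b5⟩ := symsolveg hω hr (by positivity) hf1 (dd lam)
    (fun _ : c => (0 : C(P, ℝ))) hδ hsgn hH hH' Pi4 1 Pi4_le one_le' Pi4_sq (one_mul _)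
    (Pi4_dd lam) (fun p => by rw [dgm_zero]; simp) hsym1
  have b3' : ∀ p x, dM ω xb p x = Psb p x * W p x - dgm (dd lam) p * xb p x := by
    intro p x
    have h1 := b3 p x
    have hz : (1 / 2 : ℝ) • (cm c1 p - Pi4 * cm c1 p * (1 : Matrix c c ℝ)) = 0 := by
      rw [Matrix.mul_one]
      have hlp := hlam p
      have hc2 : ∀ j, c1 2 j = 0 := fun j => b2 2 j (fun h => by
        have := congrArg (fun f : C(P, ℝ) => f p) h
        simp [dd, sg] at this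
        linarith)
      have hc3 : ∀ j, c1 3 j = 0 := fun j => b2 3 j (fun h => by
        have := congrArg (fun f : C(P, ℝ) => f p) h
        simp [dd, sg] at this
        linarith)
      ext i j
      simp only [Matrix.smul_apply, Matrix.sub_apply, Matrix.mul_apply, Fin.sum_univ_four, cm,
        Matrix.of_apply, Matrix.zero_apply, smul_eq_mul]
      fin_cases i <;> simp [Pi4, hc2, hc3]
    rw [hz, dgm_zero, Matrix.mul_zero, sub_zero, add_zero] at h1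
    rw [← h1]; abel
  have b4' : ∀ p x, xb p (-x) = Pi4 * xb p x := by
    intro p x
    have h1 := b4 p x
    rw [Matrix.mul_one] at h1
    rw [← h1, ← Matrix.mul_assoc, Pi4_sq, Matrix.one_mul]
  -- second equation
  have hxb := b5 s hs0 hs1 hrs.le
  have hf2 : MB (r * s) (6 * (k * w) + 6 * (k * (36 * (H / (1 - s) ^ 2 * (6 * (k * w))))))
      (fun p x => Psa p x * W p x - S p x * xb p x) := by
    have e1 : MB (r * s) (6 * (k * w)) (fun p x => Psa p x * W p x) := by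
      refine (hPsa.mul hW hr.le).mono (by linarith) (by nlinarith) ?_
      simp
    have e2 : MB (r * s) (6 * (k * (36 * (H / (1 - s) ^ 2 * (6 * (k * w))))))
        (fun p x => S p x * xb p x) := by
      refine ((hS.mono (by linarith) (by nlinarith) le_rfl : MB (r * s) k S).mul hxb
        hrs.le).mono (by linarith) le_rfl ?_
      have h0 : 0 ≤ k * (36 * (H / (1 - s) ^ 2 * (6 * (k * w)))) := by positivity
      simp only [Fintype.card_fin]
      push_cast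
      linarith
    intro i j
    exact (e1 i j).sub (e2 i j) (by linarith)
  have hsym2 : ∀ p x, (-1 : Matrix (Fin 2) (Fin 2) ℝ) *
      ((fun p x => Psa p x * W p x - S p x * xb p x) p (-x)) * (1 : Matrix c c ℝ)
      = -(fun p x => Psa p x * W p x - S p x * xb p x) p x := by
    intro p x
    simp only [sPsa, sW, sS, b4', Matrix.mul_one, Matrix.neg_mul, Matrix.one_mul, Matrix.mul_neg,
      neg_neg]
    have h1 : Psa p x * Sg * (Sg * W p x) = Psa p x * ((Sg * Sg) * W p x) := by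
      simp only [Matrix.mul_assoc]
    have h2 : S p x * Pi4 * (Pi4 * xb p x) = S p x * ((Pi4 * Pi4) * xb p x) := by
      simp only [Matrix.mul_assoc]
    rw [h1, h2, Sg_sq, Pi4_sq, Matrix.one_mul, Matrix.one_mul]
  obtain ⟨c2, xa, a1, a2, a3, a4, a5⟩ := symsolveg hω hrs (by positivity) hf2
    (fun _ : Fin 2 => (0 : C(P, ℝ))) (fun _ : c => (0 : C(P, ℝ))) hδ
    (fun i j => Or.inl (sub_zero _)) hH hH' (-1) 1 negone_le' one_le' (by simp) (one_mul _)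
    (fun p => by rw [dgm_zero]; simp) (fun p => by rw [dgm_zero]; simp) hsym2
  have a3' : ∀ p x, dM ω xa p x = Psa p x * W p x - S p x * xb p x + cm c2 p := by
    intro p x
    have h1 := a3 p x
    rw [dgm_zero, dgm_zero, Matrix.zero_mul, Matrix.mul_zero, add_zero, sub_zero] at h1
    rw [h1]
    congr 1
    rw [Matrix.mul_one, Matrix.neg_mul, Matrix.one_mul, sub_neg_eq_add, ← two_smul ℝ (cm c2 p), smul_smul]
    norm_num
  have a4' : ∀ p x, xa p (-x) = -xa p x := by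
    intro p x
    have h1 := a4 p x
    rw [Matrix.mul_one, Matrix.neg_mul, Matrix.one_mul] at h1
    rw [← h1, neg_neg]
  refine ⟨c2, xa, xb, b3', a3', b4', a4', b5, a1, a5 s hs0 hs1 hrs2, ?_⟩
  intro i j
  have hxa := a5 s hs0 hs1 hrs2
  -- need a radius larger than one
  obtain ⟨t, ht⟩ : ∃ t : ℝ, t = (1 + 1 / (r * s)) / 2 := ⟨_, rfl⟩
  have hx1 : 1 / (r * s) < 1 := by rw [div_lt_one (by linarith)]; exact hrs
  have hx0 : 0 < 1 / (r * s) := by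
    have : 0 < r * s := by linarith
    positivity
  have ht0 : 0 < t := by rw [ht]; linarith
  have ht1 : t < 1 := by rw [ht]; linarith
  have hrt : 1 < r * s * t := by
    have h0 : r * s ≠ 0 := by
      have : 0 < r * s := by linarith
      exact this.ne'
    have : r * s * t = (r * s + 1) / 2 := by rw [ht]; field_simp
    rw [this]; linarith
  have h9 := a5 t ht0 ht1 hrt.le i j
  refine Mn.of_solve hrt h9 (fun p x => ?_)
  have h10 := congrFun (congrFun (a3' p x) i) j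
  rw [dM_apply, Matrix.add_apply] at h10
  exact h10

lemma lins_b {k w H Λ s : ℝ} {a : ℕ} (hs1 : s < 1) (hΛ : 6 ≤ Λ) (hk : 0 ≤ k) (hw : 0 ≤ w)
    (hH : 0 ≤ H) (hkΛ : k ≤ Λ) (hHΛ : H / (1 - s) ≤ Λ) (hsΛ : 1 / (1 - s) ≤ Λ) {e : ℝ}
    (hwa : w ≤ Λ ^ a * e) :
    36 * (H / (1 - s) ^ 2 * (6 * (k * w))) ≤ Λ ^ (a + 6) * e ∧
    6 * (k * w) + 6 * (k * (36 * (H / (1 - s) ^ 2 * (6 * (k * w))))) ≤ Λ ^ (a + 9) * e ∧
    36 * (H / (1 - s) ^ 2 *
        (6 * (k * w) + 6 * (k * (36 * (H / (1 - s) ^ 2 * (6 * (k * w)))))))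
        ≤ Λ ^ (a + 13) * e := by
  have h1s : 0 < 1 - s := by linarith
  have hΛ0 : 0 ≤ Λ := by linarith
  have h36 : (36 : ℝ) ≤ Λ * Λ := by nlinarith
  have key : ∀ (v : ℝ) , 0 ≤ v → 36 * (H / (1 - s) ^ 2 * v) ≤ Λ * Λ * (Λ * Λ * v) := by
    intro v hv
    have : H / (1 - s) ^ 2 = (H / (1 - s)) * (1 / (1 - s)) := by
      rw [div_mul_div_comm, mul_one, sq]
    rw [this]
    have h2 : 0 ≤ 1 / (1 - s) := by positivity
    have h3 : 0 ≤ H / (1 - s) := by positivity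
    gcongr
  have h6 : 6 * (k * w) ≤ Λ * (Λ * (Λ ^ a * e)) := by gcongr
  have h60 : 0 ≤ 6 * (k * w) := by positivity
  have hX : 0 ≤ Λ ^ a * e := hw.trans hwa
  have e1 : 36 * (H / (1 - s) ^ 2 * (6 * (k * w))) ≤ Λ ^ (a + 6) * e := by
    calc _ ≤ Λ * Λ * (Λ * Λ * (6 * (k * w))) := key _ h60
      _ ≤ Λ * Λ * (Λ * Λ * (Λ * (Λ * (Λ ^ a * e)))) := by gcongr
      _ = _ := by ring
  have e10 : 0 ≤ 36 * (H / (1 - s) ^ 2 * (6 * (k * w))) := by positivity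
  have e2 : 6 * (k * w) + 6 * (k * (36 * (H / (1 - s) ^ 2 * (6 * (k * w))))) ≤ Λ ^ (a + 9) * e := by
    have h7 : 6 * (k * (36 * (H / (1 - s) ^ 2 * (6 * (k * w))))) ≤ Λ * (Λ * (Λ ^ (a + 6) * e)) := by
      gcongr
    have h8 : 6 * (k * w) ≤ Λ * (Λ * (Λ ^ (a + 6) * e)) := by
      refine h6.trans ?_
      have h9 : Λ ^ a * e ≤ Λ ^ (a + 6) * e := by
        have h10 : Λ ^ (a + 6) * e = Λ ^ 6 * (Λ ^ a * e) := by ring
        rw [h10]
        exact le_mul_of_one_le_left hX (one_le_pow₀ (by linarith))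
      gcongr
    have h10 : 0 ≤ Λ * (Λ * (Λ ^ (a + 6) * e)) := le_trans h60 h8
    calc _ ≤ 2 * (Λ * (Λ * (Λ ^ (a + 6) * e))) := by linarith
      _ ≤ Λ * (Λ * (Λ * (Λ ^ (a + 6) * e))) := by gcongr; linarith
      _ = _ := by ring
  refine ⟨e1, e2, ?_⟩
  have e20 : 0 ≤ 6 * (k * w) + 6 * (k * (36 * (H / (1 - s) ^ 2 * (6 * (k * w))))) := by positivity
  calc _ ≤ Λ * Λ * (Λ * Λ * (6 * (k * w) + 6 * (k * (36 * (H / (1 - s) ^ 2 * (6 * (k * w))))))) :=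
        key _ e20
    _ ≤ Λ * Λ * (Λ * Λ * (Λ ^ (a + 9) * e)) := by gcongr
    _ = _ := by ring

/-- Solution of the linear equations of the Newton step, with parameters. -/
theorem lins2 {r s k K ε G δ H Λ : ℝ} {ω : ℝ × ℝ}
    (hω : Dio2 G ω) (hs0 : 0 < s) (hs1 : s < 1) (hrs2 : 1 < r * s * s) (hr2 : 2 ≤ r)
    (hk : 0 ≤ k) (hK : 0 ≤ K) (hε : 0 ≤ ε) (hδ : 0 < δ) (hH : G ≤ H) (hH' : 1 / δ ≤ H)
    (hΛ : 6 ≤ Λ) (hkΛ : k ≤ Λ) (hKΛ : K ≤ Λ) (hHΛ : H / (1 - s) ≤ Λ) (hsΛ : 1 / (1 - s) ≤ Λ)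
    {Psa : P → ℝ × ℝ → Matrix (Fin 2) (Fin 6) ℝ} {Psb : P → ℝ × ℝ → Matrix (Fin 4) (Fin 6) ℝ}
    {S : P → ℝ × ℝ → Matrix (Fin 2) (Fin 4) ℝ} {lam : C(P, ℝ)}
    {W1 : P → ℝ × ℝ → Matrix (Fin 6) Unit ℝ} {W2 : P → ℝ × ℝ → Matrix (Fin 6) (Fin 2) ℝ}
    (hPsa : MB r k Psa) (hPsb : MB r k Psb) (hS : MB r k S) (hlam : ∀ p, δ ≤ lam p)
    (hW1 : T r Λ 0 ε W1) (hW2 : MB r K W2)
    (sPsa : ∀ p x, Psa p (-x) = -(Psa p x * Sg)) (sPsb : ∀ p x, Psb p (-x) = Pi4 * Psb p x * Sg)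
    (sS : ∀ p x, S p (-x) = S p x * Pi4) (sW1 : ∀ p x, W1 p (-x) = -(Sg * W1 p x))
    (sW2 : ∀ p x, W2 p (-x) = -(Sg * W2 p x))
    (hdet : ∀ (xb : P → ℝ × ℝ → Matrix (Fin 4) (Fin 2) ℝ) (Cm : P → Matrix (Fin 2) (Fin 2) ℝ),
      MB 1 (36 * (H / (1 - 1 / 2) ^ 2 * (6 * (k * K)))) xb →
      (∀ i j, Mn ω (fun p x => (Psa p x * W2 p x - S p x * xb p x) i j) (fun p => Cm p i j)) →
      ∀ p, δ ≤ |Cm p 0 0 * Cm p 1 1 - Cm p 0 1 * Cm p 1 0|) :
    ∃ (dq : Fin 2 → C(P, ℝ)) (xa : P → ℝ × ℝ → Matrix (Fin 2) Unit ℝ)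
      (xb : P → ℝ × ℝ → Matrix (Fin 4) Unit ℝ),
      (∀ p x, dM ω xb p x = Psb p x * (W1 p x + W2 p x * cq dq p) - dgm (dd lam) p * xb p x) ∧
      (∀ p x, dM ω xa p x = Psa p x * (W1 p x + W2 p x * cq dq p) - S p x * xb p x) ∧
      (∀ p x, xb p (-x) = Pi4 * xb p x) ∧ (∀ p x, xa p (-x) = -xa p x) ∧
      (∀ i, ‖dq i‖ ≤ Λ ^ 21 * ε) ∧ T (r * s) Λ 30 ε xb ∧ T (r * s * s) Λ 37 ε xa := by
  have hr0 : 0 < r := by linarith
  have hrs : 1 < r * s := by nlinarith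
  have hH0 : 0 ≤ H := (by positivity : (0 : ℝ) ≤ 1 / δ).trans hH'
  have h1s : 0 < 1 - s := by linarith
  obtain ⟨C1, xa1, xb1, a1, a2, a3, a4, a5, a6, a7, a8⟩ := lins (w := ε) hω hs0 hs1 hrs hrs2.le hk
    hε hδ hH hH' hPsa hPsb hS hlam (by simpa [T] using hW1) sPsa sPsb sS sW1
  obtain ⟨C2, xa2, xb2, b1, b2, b3, b4, b5, b6, b7, b8⟩ := lins (w := K) hω hs0 hs1 hrs hrs2.le hk
    hK hδ hH hH' hPsa hPsb hS hlam hW2 sPsa sPsb sS sW2
  obtain ⟨m1, m2, m3⟩ := lins_b (a := 0) (e := ε) hs1 hΛ hk hε hH0 hkΛ hHΛ hsΛ (by simp)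
  obtain ⟨n1, n2, n3⟩ := lins_b (a := 1) (e := 1) hs1 hΛ hk hK hH0 hkΛ hHΛ hsΛ (by simpa using hKΛ)
  -- determinant
  have hxb2 : MB 1 (36 * (H / (1 - 1 / 2) ^ 2 * (6 * (k * K)))) xb2 :=
    (b5 (1 / 2) (by norm_num) (by norm_num) (by linarith)).mono (by norm_num) (by linarith) le_rfl
  have hd := hdet xb2 (fun p => -cm C2 p) hxb2 (fun i j => (b8 i j).congr (fun p x => rfl)
    (fun p => rfl))
  let dt : C(P, ℝ) := C2 0 0 * C2 1 1 - C2 0 1 * C2 1 0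
  have hdt : ∀ p, δ ≤ |dt p| := by
    intro p
    have := hd p
    simp only [Matrix.neg_apply, cm, Matrix.of_apply, neg_mul_neg] at this
    exact this
  have hdt0 : ∀ p, dt p ≠ 0 := by
    intro p h
    have := hdt p
    rw [h, abs_zero] at this
    linarith
  let di : C(P, ℝ) := ⟨fun p => (dt p)⁻¹, dt.continuous.inv₀ hdt0⟩
  have hdi : ∀ p, di p = (dt p)⁻¹ := fun p => rfl
  have hdin : ‖di‖ ≤ 1 / δ := by
    rw [ContinuousMap.norm_le _ (by positivity)]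
    intro p
    rw [hdi, norm_inv, one_div]
    exact inv_anti₀ hδ (hdt p)
  let dq : Fin 2 → C(P, ℝ) := ![-(di * (C2 1 1 * C1 0 () - C2 0 1 * C1 1 ())),
    -(di * (C2 0 0 * C1 1 () - C2 1 0 * C1 0 ()))]
  have hC1 : ∀ i, ‖C1 i ()‖ ≤ Λ ^ 9 * ε := fun i => (a6 i ()).trans (by simpa using m2)
  have hC2 : ∀ i j, ‖C2 i j‖ ≤ Λ ^ 10 := fun i j => (b6 i j).trans (by simpa using n2)
  have hHH : H ≤ H / (1 - s) := by
    rw [le_div_iff₀ h1s]; nlinarith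
  have hδΛ : 1 / δ ≤ Λ := (hH'.trans hHH).trans hHΛ
  have hΛ0 : 0 ≤ Λ := by linarith
  have hdqb : ∀ (u v : C(P, ℝ)) (y z : C(P, ℝ)), ‖u‖ ≤ Λ ^ 10 → ‖v‖ ≤ Λ ^ 10 → ‖y‖ ≤ Λ ^ 9 * ε →
      ‖z‖ ≤ Λ ^ 9 * ε → ‖-(di * (u * y - v * z))‖ ≤ Λ ^ 21 * ε := by
    intro u v y z hu hv hy hz
    rw [norm_neg]
    have f1 : ‖u * y - v * z‖ ≤ Λ ^ 10 * (Λ ^ 9 * ε) + Λ ^ 10 * (Λ ^ 9 * ε) := by
      refine (norm_sub_le _ _).trans ?_
      have g1 := norm_mul_le u y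
      have g2 := norm_mul_le v z
      have g3 : ‖u‖ * ‖y‖ ≤ Λ ^ 10 * (Λ ^ 9 * ε) := by gcongr
      have g4 : ‖v‖ * ‖z‖ ≤ Λ ^ 10 * (Λ ^ 9 * ε) := by gcongr
      linarith
    calc ‖di * (u * y - v * z)‖ ≤ ‖di‖ * ‖u * y - v * z‖ := norm_mul_le _ _
      _ ≤ Λ * (Λ ^ 10 * (Λ ^ 9 * ε) + Λ ^ 10 * (Λ ^ 9 * ε)) := by
          have := hdin.trans hδΛ
          gcongr
      _ = Λ ^ 20 * (2 * ε) := by ring
      _ ≤ Λ ^ 20 * (Λ * ε) := by gcongr; linarith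
      _ = _ := by ring
  have hdq : ∀ i, ‖dq i‖ ≤ Λ ^ 21 * ε := by
    intro i
    fin_cases i
    · exact hdqb _ _ _ _ (hC2 _ _) (hC2 _ _) (hC1 _) (hC1 _)
    · exact hdqb _ _ _ _ (hC2 _ _) (hC2 _ _) (hC1 _) (hC1 _)
  have hzero : ∀ p, cm C1 p + cm C2 p * cq dq p = 0 := by
    intro p
    have hne := hdt0 p
    have hmul : di p * dt p = 1 := by rw [hdi]; exact inv_mul_cancel₀ hne
    have hdtp : dt p = C2 0 0 p * C2 1 1 p - C2 0 1 p * C2 1 0 p := rfl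
    have q0 : dq 0 p = -(di p * (C2 1 1 p * C1 0 () p - C2 0 1 p * C1 1 () p)) := rfl
    have q1 : dq 1 p = -(di p * (C2 0 0 p * C1 1 () p - C2 1 0 p * C1 0 () p)) := rfl
    ext i j
    simp only [Matrix.add_apply, Matrix.mul_apply, Fin.sum_univ_two, cm, cq, Matrix.of_apply,
      Matrix.zero_apply]
    rw [hdtp] at hmul
    fin_cases i
    · simp only [Fin.zero_eta, Fin.isValue]
      rw [q0, q1]
      linear_combination (-(C1 0 () p)) * hmul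
    · simp only [Fin.mk_one, Fin.isValue]
      rw [q0, q1]
      linear_combination (-(C1 1 () p)) * hmul
  have hcq : ∀ r', 0 ≤ r' → T (P := P) r' Λ 21 ε (fun p _ => cq dq p) := fun r' hr' =>
    T.const (fun k _ => dq k) (fun i j => hdq i) hr'
  have r1 : 1 ≤ r * s := hrs.le
  have r2 : 1 ≤ r * s * s := hrs2.le
  have txb1 : T (r * s) Λ 6 ε xb1 := (a5 s hs0 hs1 hrs.le).mono (by linarith) le_rfl
    (by simpa using m1)
  have txb2 : T (r * s) Λ 7 1 xb2 := (b5 s hs0 hs1 hrs.le).mono (by linarith) le_rfl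
    (by simpa using n1)
  have txa1 : T (r * s * s) Λ 13 ε xa1 := a7.mono (by linarith) le_rfl (by simpa using m3)
  have txa2 : T (r * s * s) Λ 14 1 xa2 := b7.mono (by linarith) le_rfl (by simpa using n3)
  have dcq : ∀ p x, dM ω (fun p _ => cq dq p) p x = 0 := fun p x => dM_const _ ω p x
  have Dcq : Df (P := P) (fun p _ => cq dq p) := Df.const _
  refine ⟨dq, fun p x => xa1 p x + xa2 p x * cq dq p, fun p x => xb1 p x + xb2 p x * cq dq p,
    ?_, ?_, ?_, ?_, hdq, ?_, ?_⟩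
  · intro p x
    have D1 := txb1.df hrs
    have D2 := txb2.df hrs
    rw [dM_add D1 (D2.mul Dcq), dM_mul D2 Dcq, dcq, a1, b1]
    simp only [Matrix.mul_add, Matrix.add_mul, Matrix.sub_mul, Matrix.mul_assoc,
      Matrix.mul_zero, add_zero]
    abel
  · intro p x
    have D1 := txa1.df hrs2
    have D2 := txa2.df hrs2
    rw [dM_add D1 (D2.mul Dcq), dM_mul D2 Dcq, dcq, a2, b2]
    have hz := hzero p
    have e : Psa p x * W1 p x - S p x * xb1 p x + cm C1 p +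
        ((Psa p x * W2 p x - S p x * xb2 p x + cm C2 p) * cq dq p
          + xa2 p x * (0 : Matrix (Fin 2) Unit ℝ))
        = Psa p x * (W1 p x + W2 p x * cq dq p) - S p x * (xb1 p x + xb2 p x * cq dq p)
          + (cm C1 p + cm C2 p * cq dq p) := by
      simp only [Matrix.mul_add, Matrix.add_mul, Matrix.sub_mul, Matrix.mul_assoc,
        Matrix.mul_zero, add_zero]
      abel
    rw [e, hz, add_zero]
  · intro p x
    simp only [a3, b3, Matrix.mul_add, Matrix.mul_assoc]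
  · intro p x
    simp only [a4, b4, Matrix.neg_mul, neg_add]
  · exact txb1.add' (txb2.mulL (hcq _ (by linarith)) r1 hΛ hε (c := 29) (by norm_num)) r1 hΛ hε
      (by norm_num)
  · exact txa1.add' (txa2.mulL (hcq _ (by linarith)) r2 hΛ hε (c := 36) (by norm_num)) r2 hΛ hε
      (by norm_num)


end Run7.k800g
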