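import Pool.Agent.Run7.k800g.ModesG

set_option autoImplicit false
set_option linter.unusedSectionVars false

/-!
# First order Fourier coefficients of the tori
-/

namespace Run7.k800g

open Run7.k800 (WW mn mn_add mn_sub mn_smul mn_abs_le mn_congr mn_const DD DD_sn DD_cc ibp cc sn cc_WW sn_WW cc_le sn_le c1 s1 c2 s2 c1_le c2_le s2_le W_c1 W_s1 W_c2 W_s2 kk sb sb_sq mn_c2_kk mn_s2_kk mn_c1c2_kk mn_c1s2_kk dot c1c2_eq c1s2_eq)
open Filter Topology Set

variable {a b M : ℝ}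

section basic

lemma oC {c : ℝ → ℝ} (hc : CB a b c) : On (Ds a b M) 0 (fun _ i => c i.y) := by
  obtain ⟨K, hK, h1⟩ := hc
  exact On.fn hK (fun ε _ i hi => h1 i.y hi.hy)

lemma oσ : On (Ds a b M) 0 (fun _ i => i.σ) :=
  On.fn (K := 2) (by norm_num) (fun ε _ i hi => by
    have h1 := hi.hs1
    have h2 := hi.hs2
    rw [abs_of_nonneg (by linarith)]; exact h2)

lemma omu1 (hM : 0 ≤ M) : On (Ds a b M) 1 (fun _ i => i.mu - 1) :=
  ⟨1, M, one_pos, le_rfl, hM, fun ε _ _ i hi => by rw [pow_one]; exact hi.cmu⟩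

lemma oka1 (hM : 0 ≤ M) : On (Ds a b M) 1 (fun _ i => i.ka - k0 i.y) :=
  ⟨1, M, one_pos, le_rfl, hM, fun ε _ _ i hi => by rw [pow_one]; exact hi.cka⟩

lemma omu (hM : 0 ≤ M) : On (Ds a b M) 0 (fun _ i => i.mu) :=
  (((omu1 hM).le (Nat.zero_le 1)).add (On.cst 1)).congr (fun ε i _ => by ring)

lemma oka (hR : Rg a b) (hM : 0 ≤ M) : On (Ds a b M) 0 (fun _ i => i.ka) :=
  (((oka1 hM).le (Nat.zero_le 1)).add (oC (CB.of_cont hR.ck0))).congr (fun ε i _ => by ring)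

lemma ou (hM : 0 ≤ M) : On (D2 (Ds a b M)) 1 (fun _ z => z.1.u z.2 - c1 z.2) :=
  ⟨1, M, one_pos, le_rfl, hM, fun ε _ _ z hz => by rw [pow_one]; exact hz.cu z.2⟩

lemma ow1 (hM : 0 ≤ M) : On (D2 (Ds a b M)) 1 (fun _ z => z.1.w1 z.2 - c2 z.2) :=
  ⟨1, M, one_pos, le_rfl, hM, fun ε _ _ z hz => by rw [pow_one]; exact hz.cw1 z.2⟩

lemma ow2 (hM : 0 ≤ M) : On (D2 (Ds a b M)) 1 (fun _ z => z.1.w2 z.2 - be z.1.y * s2 z.2) :=
  ⟨1, M, one_pos, le_rfl, hM, fun ε _ _ z hz => by rw [pow_one]; exact hz.cw2 z.2⟩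

lemma od2 (hM : 0 ≤ M) :
    On (D2 (Ds a b M)) 1 (fun _ z => DD (0, 1) z.1.w2 z.2 - be z.1.y * c2 z.2) :=
  ⟨1, M, one_pos, le_rfl, hM, fun ε _ _ z hz => by rw [pow_one]; exact hz.cd2 z.2⟩

lemma og4 (hM : 0 ≤ M) :
    On (D2 (Ds a b M)) 1 (fun _ z => z.1.g4 z.2 + z.1.σ * aa z.1.y * (c1 z.2 * c2 z.2)) :=
  ⟨1, M, one_pos, le_rfl, hM, fun ε _ _ z hz => by rw [pow_one]; exact hz.ag4 z.2⟩

lemma og5 (hM : 0 ≤ M) :
    On (D2 (Ds a b M)) 1 (fun _ z => z.1.g5 z.2 - z.1.σ * (bt z.1.y * be z.1.y) * (c1 z.2 * s2 z.2)) :=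
  ⟨1, M, one_pos, le_rfl, hM, fun ε _ _ z hz => by rw [pow_one]; exact hz.ag5 z.2⟩

variable {ι : Type*} {D : ℝ → Set ι}

lemma oX {f : ℝ × ℝ → ℝ} (hf : ∀ x, |f x| ≤ 1) : On (D2 D) 0 (fun _ z => f z.2) :=
  On.fn (K := 1) zero_le_one (fun ε _ z _ => hf z.2)

/-- comparison of means -/
lemma mclose {n : ℕ} {f g : ι → ℝ × ℝ → ℝ} {h : ℝ × ℝ → ℝ}
    (ho : On (D2 D) n (fun _ z => f z.1 z.2 - g z.1 z.2)) (hh : ∀ x, |h x| ≤ 1) (Wh : WW h)
    (hf : ∀ ε, ∀ i ∈ D ε, WW (f i)) (hg : ∀ ε, ∀ i ∈ D ε, WW (g i)) :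
    On D n (fun _ i => mn (fun x => f i x * h x) - mn (fun x => g i x * h x)) := by
  refine On.mn_sub (φ := fun _ i x => f i x * h x) (ψ := fun _ i x => g i x * h x) ?_
    (fun ε i hi => (hf ε i hi).mul Wh) (fun ε i hi => (hg ε i hi).mul Wh)
  exact (ho.mul0 (oX hh)).congr (fun ε z _ => by ring)

end basic

/-- the determinant of the linear system of the modes -/
noncomputable def Dc (c : Bool) (y : ℝ) : ℝ :=
  (1 + 2 * (sb c * al y)) * ((1 + sb c * al y) ^ 2 + bt y * (y + 1))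

lemma Ok.Dc_ne {y : ℝ} (h : Ok y) (c : Bool) : Dc c y ≠ 0 := by
  have h1 := h.al_gt
  have h2 := h.ll_pos
  have h3 : (0 : ℝ) ≤ (1 + sb c * al y) ^ 2 := sq_nonneg _
  unfold Dc
  refine mul_ne_zero ?_ (by linarith)
  cases c
  · simp only [sb]; norm_num; intro h4; linarith
  · simp only [sb]; norm_num; intro h4; linarith

lemma Ok.Dc_eq {y : ℝ} (h : Ok y) (c : Bool) :
    ((1 + sb c * al y) ^ 2 + aa y) * ((1 + sb c * al y) ^ 2 - bt y) - 4 * (1 + sb c * al y) ^ 2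
      = Dc c y := by
  have h1 := h.al_sq
  have hs := sb_sq c
  have r1 := h.r1
  have r2 := h.r2
  have ha : aa y = tt y * (y + 1) := rfl
  have e2 : (sb c * al y) ^ 2 = tt y := by
    rw [← h1]
    linear_combination (al y ^ 2) * hs
  unfold Dc
  rw [ha]
  generalize sb c * al y = w at *
  generalize tt y = t at *
  generalize bt y = b at *
  subst e2
  have e3 : ((1 + w) ^ 2 - w ^ 2) = 1 + 2 * w := by ring
  rw [← e3]
  have hy := h.y1
  grind

lemma Rg.cDc {a b : ℝ} (h : Rg a b) (c : Bool) : ContinuousOn (Dc c) (Icc a b) := by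
  unfold Dc
  exact ((continuousOn_const (c := (1:ℝ))).add ((continuousOn_const (c := (2:ℝ))).mul
    ((continuousOn_const (c := sb c)).mul h.cal))).mul
    ((((continuousOn_const (c := (1:ℝ))).add ((continuousOn_const (c := sb c)).mul h.cal)).pow 2).add
      (h.cbt.mul (by fun_prop)))

lemma Rg.cxh {a b : ℝ} (h : Rg a b) : ContinuousOn xh (Icc a b) ∧ ContinuousOn xt (Icc a b) ∧
    ContinuousOn yh (Icc a b) ∧ ContinuousOn yt (Icc a b) := by
  have hq : ContinuousOn qq (Icc a b) := by unfold qq; fun_prop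
  have hq0 : ∀ y ∈ Icc a b, qq y ≠ 0 := fun y hy => (h.ok hy).qq_neg.ne
  refine ⟨?_, ?_, ?_, ?_⟩
  · unfold xh; exact ContinuousOn.div (by fun_prop) hq hq0
  · unfold xt; exact ContinuousOn.div (by fun_prop) hq hq0
  · unfold yh; exact ContinuousOn.div (by fun_prop) hq hq0
  · unfold yt
    refine ContinuousOn.div (by fun_prop) (hq.mul (by fun_prop)) (fun y hy => ?_)
    have := (h.ok hy).y1
    exact mul_ne_zero (hq0 y hy) (by linarith)

/-- First order coefficients of the two modes. -/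
lemma mode (hR : Rg a b) (hM : 0 ≤ M) (c : Bool) :
    On (Ds a b M) 2 (fun ε i => mn (fun x => i.w1 x * cc (kk c) x) - ε * i.σ * Xc c i.y) ∧
    On (Ds a b M) 2 (fun ε i => mn (fun x => i.w2 x * sn (kk c) x) - ε * i.σ * Yc c i.y) := by
  have cal := CB.of_cont hR.cal
  have cbt := CB.of_cont hR.cbt
  have cbe := CB.of_cont hR.cbe
  have caa : CB a b aa := (CB.of_cont hR.ctt).mul (CB.id.add (CB.cst 1))
  have oν : On (Ds a b M) 0 (fun _ i => 1 + sb c * al i.y) := (On.cst 1).add ((On.cst (sb c)).mul0 (oC cal))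
  -- smallness of the coefficients
  have o1 : On (Ds a b M) 1 (fun _ i => mn (fun x => i.w1 x * cc (kk c) x)) :=
    (mclose (f := fun i => i.w1) (g := fun _ => c2) (ow1 hM) (cc_le (kk c)) (cc_WW _) (fun ε i hi => hi.ww1)
      (fun ε i hi => W_c2)).congr (fun ε i hi => by rw [mn_c2_kk, sub_zero])
  have o2 : On (Ds a b M) 1 (fun _ i => mn (fun x => i.w2 x * sn (kk c) x)) :=
    (mclose (f := fun i => i.w2) (g := fun i x => be i.y * s2 x) (ow2 hM) (sn_le (kk c)) (sn_WW _) (fun ε i hi => hi.ww2)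
      (fun ε i hi => W_s2.smul _)).congr (fun ε i hi => by
        have e : mn (fun x => be i.y * s2 x * sn (kk c) x) = 0 := by
          have : mn (fun x => be i.y * s2 x * sn (kk c) x)
              = mn (fun x => be i.y * (s2 x * sn (kk c) x)) := mn_congr (fun x => by ring)
          rw [this, mn_smul _ (W_s2.mul (sn_WW _)), mn_s2_kk, mul_zero]
        rw [e, sub_zero])
  have o4 : On (Ds a b M) 1 (fun _ i => mn (fun x => i.g4 x * cc (kk c) x) + i.σ * (aa i.y / 4)) :=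
    (mclose (f := fun i => i.g4) (g := fun i x => -(i.σ * aa i.y) * (c1 x * c2 x))
      ((og4 hM).congr (fun ε z _ => by ring)) (cc_le (kk c)) (cc_WW _) (fun ε i hi => hi.wg4)
      (fun ε i hi => (W_c1.mul W_c2).smul _)).congr (fun ε i hi => by
        have e : mn (fun x => -(i.σ * aa i.y) * (c1 x * c2 x) * cc (kk c) x) = -(i.σ * (aa i.y / 4)) := by
          have : mn (fun x => -(i.σ * aa i.y) * (c1 x * c2 x) * cc (kk c) x)
              = mn (fun x => -(i.σ * aa i.y) * (c1 x * c2 x * cc (kk c) x)) :=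
            mn_congr (fun x => by ring)
          rw [this, mn_smul _ ((W_c1.mul W_c2).mul (cc_WW _)), mn_c1c2_kk]; ring
        rw [e, sub_neg_eq_add])
  have o5 : On (Ds a b M) 1 (fun _ i => mn (fun x => i.g5 x * sn (kk c) x)
      - i.σ * (bt i.y * be i.y * sb c / 4)) :=
    (mclose (f := fun i => i.g5) (g := fun i x => (i.σ * (bt i.y * be i.y)) * (c1 x * s2 x))
      ((og5 hM).congr (fun ε z _ => by ring)) (sn_le (kk c)) (sn_WW _) (fun ε i hi => hi.wg5)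
      (fun ε i hi => (W_c1.mul W_s2).smul _)).congr (fun ε i hi => by
        have e : mn (fun x => (i.σ * (bt i.y * be i.y)) * (c1 x * s2 x) * sn (kk c) x)
            = i.σ * (bt i.y * be i.y * sb c / 4) := by
          have : mn (fun x => (i.σ * (bt i.y * be i.y)) * (c1 x * s2 x) * sn (kk c) x)
              = mn (fun x => (i.σ * (bt i.y * be i.y)) * (c1 x * s2 x * sn (kk c) x)) :=
            mn_congr (fun x => by ring)
          rw [this, mn_smul _ ((W_c1.mul W_s2).mul (sn_WW _)), mn_c1s2_kk]; ring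
        rw [e])
  have omu2 : On (Ds a b M) 1 (fun _ i => i.mu ^ 2 - 1) :=
    ((omu1 hM).mul0 ((omu hM).add (On.cst 1))).congr (fun ε i _ => by ring)
  have om4 : On (Ds a b M) 0 (fun _ i => mn (fun x => i.g4 x * cc (kk c) x)) :=
    ((o4.le (Nat.zero_le 1)).sub (oσ.mul0 (oC (caa.mul (CB.cst (1 / 4)))))).congr
      (fun ε i _ => by ring)
  have om5 : On (Ds a b M) 0 (fun _ i => mn (fun x => i.g5 x * sn (kk c) x)) :=
    ((o5.le (Nat.zero_le 1)).add (oσ.mul0 (oC (((cbt.mul cbe).mul (CB.cst (sb c))).mul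
      (CB.cst (1 / 4)))))).congr (fun ε i _ => by ring)
  -- the remainders
  obtain ⟨e1, he1⟩ : ∃ e1 : ℝ → Da → ℝ, e1 = fun ε i =>
      (i.mu - 1) * (2 * (1 + sb c * al i.y) * mn (fun x => i.w2 x * sn (kk c) x))
      + (i.mu ^ 2 - 1) * ((2 * i.ka + 1) * mn (fun x => i.w1 x * cc (kk c) x))
      + 2 * ((i.ka - k0 i.y) * mn (fun x => i.w1 x * cc (kk c) x))
      + (i.mu ^ 2 - 1) * (ε * mn (fun x => i.g4 x * cc (kk c) x))
      + ε * (mn (fun x => i.g4 x * cc (kk c) x) + i.σ * (aa i.y / 4)) := ⟨_, rfl⟩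
  obtain ⟨e2, he2⟩ : ∃ e2 : ℝ → Da → ℝ, e2 = fun ε i =>
      (i.mu - 1) * (2 * (1 + sb c * al i.y) * mn (fun x => i.w1 x * cc (kk c) x))
      - (i.mu ^ 2 - 1) * ((i.ka - 1) * mn (fun x => i.w2 x * sn (kk c) x))
      - (i.ka - k0 i.y) * mn (fun x => i.w2 x * sn (kk c) x)
      + (i.mu ^ 2 - 1) * (ε * mn (fun x => i.g5 x * sn (kk c) x))
      + ε * (mn (fun x => i.g5 x * sn (kk c) x) - i.σ * (bt i.y * be i.y * sb c / 4)) := ⟨_, rfl⟩
  have oe1 : On (Ds a b M) 2 e1 := by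
    rw [he1]
    exact (((((omu1 hM).mul (((On.cst 2).mul0 oν).mul0' o2)).add
      (omu2.mul ((((On.cst 2).mul0 (oka hR hM)).add (On.cst 1)).mul0' o1))).add
      (((oka1 hM).mul o1).cmul 2)).add (omu2.mul (On.eps.mul0 om4))).add (On.eps.mul o4)
  have oe2 : On (Ds a b M) 2 e2 := by
    rw [he2]
    exact (((((omu1 hM).mul (((On.cst 2).mul0 oν).mul0' o1)).sub
      (omu2.mul (((oka hR hM).sub (On.cst 1)).mul0' o2))).sub
      ((oka1 hM).mul o2)).add (omu2.mul (On.eps.mul0 om5))).add (On.eps.mul o5)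
  -- the exact equations
  have E : ∀ ε, ∀ i ∈ Ds a b M ε,
      -((1 + sb c * al i.y) ^ 2 + aa i.y) * mn (fun x => i.w1 x * cc (kk c) x)
        - 2 * (1 + sb c * al i.y) * mn (fun x => i.w2 x * sn (kk c) x)
        = -(ε * i.σ * (aa i.y / 4)) + e1 ε i ∧
      -2 * (1 + sb c * al i.y) * mn (fun x => i.w1 x * cc (kk c) x)
        - ((1 + sb c * al i.y) ^ 2 - bt i.y) * mn (fun x => i.w2 x * sn (kk c) x)
        = ε * i.σ * (bt i.y * be i.y * sb c / 4) + e2 ε i := by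
    intro ε i hi
    obtain ⟨r1, r2, r3, r4⟩ := hi.rel (kk c)
    have hok := hR.ok hi.hy
    have r3' := hok.r3
    have r4' := hok.r4
    rw [dot_kk] at r1 r2 r3 r4
    rw [he1, he2]
    simp only
    generalize mn (fun x => i.w1 x * cc (kk c) x) = x1 at *
    generalize mn (fun x => i.w2 x * sn (kk c) x) = x2 at *
    generalize mn (fun x => i.p1 x * sn (kk c) x) = y1 at *
    generalize mn (fun x => i.p2 x * cc (kk c) x) = y2 at *
    generalize mn (fun x => i.g4 x * cc (kk c) x) = m4 at *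
    generalize mn (fun x => i.g5 x * sn (kk c) x) = m5 at *
    generalize 1 + sb c * al i.y = nu at *
    constructor
    · have k3 : -nu ^ 2 * x1 = i.mu * (2 * (nu * x2)) + i.mu ^ 2 * ((2 * i.ka + 1) * x1 + ε * m4) := by
        linear_combination (-nu) * r1 + i.mu * r3 + 2 * i.mu * r2
      linear_combination k3 + x1 * r4'
    · have k4 : -nu ^ 2 * x2 = i.mu * (2 * (nu * x1)) + i.mu ^ 2 * (-((i.ka - 1) * x2) + ε * m5) := by
        linear_combination nu * r2 + i.mu * r4 - 2 * i.mu * r1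
      linear_combination k4 - x2 * r3'
  have hB : Bl (Ds a b M) (fun _ i => Dc c i.y) := by
    obtain ⟨δ, hδ, h1⟩ := Rg.low (hR.cDc c).abs (fun y hy => abs_pos.mpr ((hR.ok hy).Dc_ne c))
    exact Bl.fn hδ (fun ε _ i hi => h1 i.y hi.hy)
  have oν2 : On (Ds a b M) 0 (fun _ i => (1 + sb c * al i.y) ^ 2) :=
    (oν.mul0 oν).congr (fun ε i _ => by ring)
  constructor
  · refine On.div (φ := fun ε i => -((1 + sb c * al i.y) ^ 2 - bt i.y) * e1 ε i
      + 2 * (1 + sb c * al i.y) * e2 ε i) ?_ hB (fun ε i hi => ?_)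
    · exact ((((oν2.sub (oC cbt)).neg).mul0' oe1)).add (((On.cst 2).mul0 oν).mul0' oe2)
    · obtain ⟨E1, E2⟩ := E ε i hi
      have hok := hR.ok hi.hy
      obtain ⟨Z1, Z2⟩ := Xc_eq hok c
      rw [← hok.Dc_eq c]
      linear_combination (-((1 + sb c * al i.y) ^ 2 - bt i.y)) * (E1 - (ε * i.σ) * Z1)
        + 2 * (1 + sb c * al i.y) * (E2 - (ε * i.σ) * Z2)
  · refine On.div (φ := fun ε i => -((1 + sb c * al i.y) ^ 2 + aa i.y) * e2 ε i
      + 2 * (1 + sb c * al i.y) * e1 ε i) ?_ hB (fun ε i hi => ?_)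
    · exact ((((oν2.add (oC caa)).neg).mul0' oe2)).add (((On.cst 2).mul0 oν).mul0' oe1)
    · obtain ⟨E1, E2⟩ := E ε i hi
      have hok := hR.ok hi.hy
      obtain ⟨Z1, Z2⟩ := Xc_eq hok c
      rw [← hok.Dc_eq c]
      linear_combination (-((1 + sb c * al i.y) ^ 2 + aa i.y)) * (E2 - (ε * i.σ) * Z2)
        + 2 * (1 + sb c * al i.y) * (E1 - (ε * i.σ) * Z1)

end Run7.k800g
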