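import Pool.Agent.Run7.k800g.OnG
import Pool.Agent.Run7.k800.Mean

set_option autoImplicit false
set_option linter.unusedSectionVars false

/-!
# First order Fourier coefficients of the tori
-/

namespace Run7.k800g

open Run7.k800 (WW mn mn_add mn_sub mn_smul mn_abs_le mn_congr mn_const DD DD_sn DD_cc ibp cc sn cc_WW sn_WW cc_le sn_le c1 s1 c2 s2 c1_le c2_le s2_le W_c1 W_s1 W_c2 W_s2 kk sb sb_sq mn_c2_kk mn_s2_kk mn_c1c2_kk mn_c1s2_kk dot c1c2_eq c1s2_eq)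
open Filter Topology Set

/-- the data of a torus at a fixed value of the parameters -/
structure Da where
  y : ℝ
  σ : ℝ
  mu : ℝ
  ka : ℝ
  u : ℝ × ℝ → ℝ
  v : ℝ × ℝ → ℝ
  w1 : ℝ × ℝ → ℝ
  w2 : ℝ × ℝ → ℝ
  p1 : ℝ × ℝ → ℝ
  p2 : ℝ × ℝ → ℝ
  g4 : ℝ × ℝ → ℝ
  g5 : ℝ × ℝ → ℝ

/-- the torus and the equations at a fixed value of the parameters -/
structure Sl (a b M ε : ℝ) (i : Da) : Prop where
  hy : i.y ∈ Icc a b
  hs1 : 1 ≤ i.σ
  hs2 : i.σ ≤ 2
  wu : WW i.u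
  wv : WW i.v
  ww1 : WW i.w1
  ww2 : WW i.w2
  wp1 : WW i.p1
  wp2 : WW i.p2
  wg4 : WW i.g4
  wg5 : WW i.g5
  cu : ∀ x, |i.u x - c1 x| ≤ M * ε
  cw1 : ∀ x, |i.w1 x - c2 x| ≤ M * ε
  cw2 : ∀ x, |i.w2 x - be i.y * s2 x| ≤ M * ε
  cd2 : ∀ x, |DD (0, 1) i.w2 x - be i.y * c2 x| ≤ M * ε
  cmu : |i.mu - 1| ≤ M * ε
  cka : |i.ka - k0 i.y| ≤ M * ε
  e1 : ∀ x, DD (om i.y) i.w1 x = i.mu * i.p1 x
  e2 : ∀ x, DD (om i.y) i.w2 x = i.mu * i.p2 x
  e4 : ∀ x, DD (om i.y) i.p1 x = i.mu * (2 * i.p2 x + (2 * i.ka + 1) * i.w1 x + ε * i.g4 x)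
  e5 : ∀ x, DD (om i.y) i.p2 x = i.mu * (-2 * i.p1 x - (i.ka - 1) * i.w2 x + ε * i.g5 x)
  ag4 : ∀ x, |i.g4 x + i.σ * aa i.y * (c1 x * c2 x)| ≤ M * ε
  ag5 : ∀ x, |i.g5 x - i.σ * (bt i.y * be i.y) * (c1 x * s2 x)| ≤ M * ε

/-- the set of data -/
def Ds (a b M : ℝ) : ℝ → Set Da := fun ε => {i | Sl a b M ε i}

variable {a b M ε : ℝ}

lemma dot_kk (y : ℝ) (c : Bool) : dot (kk c) (om y) = 1 + sb c * al y := by
  unfold dot kk sb om
  cases c <;> simp

/-- the exact linear relations between the coefficients of a frequency -/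
lemma Sl.rel {i : Da} (h : Sl a b M ε i) (k : ℤ × ℤ) :
    i.mu * mn (fun x => i.p1 x * sn k x) = -dot k (om i.y) * mn (fun x => i.w1 x * cc k x) ∧
    i.mu * mn (fun x => i.p2 x * cc k x) = dot k (om i.y) * mn (fun x => i.w2 x * sn k x) ∧
    dot k (om i.y) * mn (fun x => i.p1 x * sn k x) = i.mu * (2 * mn (fun x => i.p2 x * cc k x)
      + (2 * i.ka + 1) * mn (fun x => i.w1 x * cc k x) + ε * mn (fun x => i.g4 x * cc k x)) ∧
    -dot k (om i.y) * mn (fun x => i.p2 x * cc k x) = i.mu * (-2 * mn (fun x => i.p1 x * sn k x)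
      - (i.ka - 1) * mn (fun x => i.w2 x * sn k x) + ε * mn (fun x => i.g5 x * sn k x)) := by
  obtain ⟨y, σ, mu, ka, u, v, w1, w2, p1, p2, g4, g5⟩ := i
  obtain ⟨hy, hs1, hs2, wu, wv, ww1, ww2, wp1, wp2, wg4, wg5, -, -, -, -, -, -, he1, he2, he4, he5, -, -⟩ := h
  simp only at *
  have dS : ∀ f : ℝ × ℝ → ℝ, WW f → mn (fun x => DD (om y) f x * sn k x)
      = -dot k (om y) * mn (fun x => f x * cc k x) := by
    intro f hf
    rw [ibp hf (sn_WW k) (om y)]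
    have : mn (fun x => f x * DD (om y) (sn k) x) = mn (fun x => dot k (om y) * (f x * cc k x)) :=
      mn_congr (fun x => by rw [DD_sn]; ring)
    rw [this, mn_smul _ (hf.mul (cc_WW k))]; ring
  have dC : ∀ f : ℝ × ℝ → ℝ, WW f → mn (fun x => DD (om y) f x * cc k x)
      = dot k (om y) * mn (fun x => f x * sn k x) := by
    intro f hf
    rw [ibp hf (cc_WW k) (om y)]
    have : mn (fun x => f x * DD (om y) (cc k) x) = mn (fun x => -dot k (om y) * (f x * sn k x)) :=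
      mn_congr (fun x => by rw [DD_cc]; ring)
    rw [this, mn_smul _ (hf.mul (sn_WW k))]; ring
  refine ⟨?_, ?_, ?_, ?_⟩
  · rw [← dS w1 ww1, ← mn_smul _ (wp1.mul (sn_WW k))]
    exact mn_congr (fun x => by rw [he1]; ring)
  · rw [← dC w2 ww2, ← mn_smul _ (wp2.mul (cc_WW k))]
    exact mn_congr (fun x => by rw [he2]; ring)
  · rw [← dC p1 wp1]
    have e : mn (fun x => DD (om y) p1 x * cc k x) = mn (fun x => mu * ((2 * (p2 x * cc k x)
        + (2 * ka + 1) * (w1 x * cc k x)) + ε * (g4 x * cc k x))) :=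
      mn_congr (fun x => by rw [he4]; ring)
    have a1 := (wp2.mul (cc_WW k)).smul 2
    have a2 := (ww1.mul (cc_WW k)).smul (2 * ka + 1)
    have a3 := (wg4.mul (cc_WW k)).smul ε
    rw [e, mn_smul _ ((a1.add a2).add a3), mn_add (a1.add a2) a3, mn_add a1 a2,
      mn_smul _ (wp2.mul (cc_WW k)), mn_smul _ (ww1.mul (cc_WW k)),
      mn_smul _ (wg4.mul (cc_WW k))]
  · rw [← dS p2 wp2]
    have e : mn (fun x => DD (om y) p2 x * sn k x) = mn (fun x => mu * ((-2 * (p1 x * sn k x)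
        - (ka - 1) * (w2 x * sn k x)) + ε * (g5 x * sn k x))) :=
      mn_congr (fun x => by rw [he5]; ring)
    have a1 := (wp1.mul (sn_WW k)).smul (-2)
    have a2 := (ww2.mul (sn_WW k)).smul (ka - 1)
    have a3 := (wg5.mul (sn_WW k)).smul ε
    rw [e, mn_smul _ ((a1.sub a2).add a3), mn_add (a1.sub a2) a3, mn_sub a1 a2,
      mn_smul _ (wp1.mul (sn_WW k)), mn_smul _ (ww2.mul (sn_WW k)),
      mn_smul _ (wg5.mul (sn_WW k))]

/-! ### the explicit coefficients -/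

/-- auxiliary polynomial -/
noncomputable def qq (y : ℝ) : ℝ := 8 * (4 * y ^ 2 + y - 2) * (y ^ 2 - 11 * y + 6)
/-- mean of the two first coefficients -/
noncomputable def xh (y : ℝ) : ℝ := (-24 + 56 * y + 6 * y ^ 2 - 50 * y ^ 3 - 6 * y ^ 4) / qq y
/-- half difference of the two first coefficients over the frequency -/
noncomputable def xt (y : ℝ) : ℝ :=
  (-24 * y + 40 * y ^ 2 + 14 * y ^ 3 - 22 * y ^ 4 + 4 * y ^ 5) / qq y
/-- half difference of the two second coefficients over the frequency -/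
noncomputable def yh (y : ℝ) : ℝ :=
  (24 - 44 * y - 30 * y ^ 2 + 55 * y ^ 3 + 12 * y ^ 4 - 8 * y ^ 5) / qq y
/-- mean of the two second coefficients -/
noncomputable def yt (y : ℝ) : ℝ :=
  (-24 * y + 72 * y ^ 2 - 30 * y ^ 3 - 60 * y ^ 4 + 36 * y ^ 5) / (qq y * (y - 1))

/-- the first order coefficients -/
noncomputable def Xc (c : Bool) (y : ℝ) : ℝ := xh y + sb c * (al y * xt y)
/-- the first order coefficients -/
noncomputable def Yc (c : Bool) (y : ℝ) : ℝ := yt y + sb c * (al y * yh y)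

variable {y : ℝ}

lemma Ok.pS (h : Ok y) : y ^ 2 - 11 * y + 6 < 0 := by
  have h1 := h.y1
  have h2 := h.y2
  nlinarith

lemma Ok.qq_neg (h : Ok y) : qq y < 0 := by
  have h1 := h.y1
  have h2 : 0 < 8 * (4 * y ^ 2 + y - 2) := by nlinarith
  exact mul_neg_of_pos_of_neg h2 h.pS

lemma Ok.rat (h : Ok y) :
    -(1 + tt y + aa y) * xh y - 2 * tt y * xt y - 2 * yt y - 2 * tt y * yh y + aa y / 4 = 0 ∧
    -(1 + tt y + aa y) * xt y - 2 * xh y - 2 * yh y - 2 * yt y = 0 ∧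
    -2 * xh y - 2 * tt y * xt y - (1 + tt y - bt y) * yt y - 2 * tt y * yh y = 0 ∧
    -2 * xt y - 2 * xh y - (1 + tt y - bt y) * yh y - 2 * yt y + bt y * (y + 2) / 8 = 0 := by
  have h2 := h.qq_neg.ne
  have h3 : y - 1 ≠ 0 := by have := h.y1; linarith
  have h4 : y + 2 ≠ 0 := by have := h.y1; linarith
  have ht : tt y = (3 * y - 2) / ((y + 2) * (y - 1)) := rfl
  have hb : bt y = (2 - y) / ((y + 2) * (y - 1)) := rfl
  have ha : aa y = tt y * (y + 1) := rfl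
  rw [ha, hb, ht]
  unfold xh xt yh yt
  refine ⟨?_, ?_, ?_, ?_⟩
  · field_simp
    unfold qq
    ring
  · field_simp
    unfold qq
    ring
  · field_simp
    unfold qq
    ring
  · field_simp
    unfold qq
    ring

lemma Xc_eq (h : Ok y) (c : Bool) :
    -((1 + sb c * al y) ^ 2 + aa y) * Xc c y - 2 * (1 + sb c * al y) * Yc c y = -(aa y / 4) ∧
    -2 * (1 + sb c * al y) * Xc c y - ((1 + sb c * al y) ^ 2 - bt y) * Yc c y
      = bt y * be y * sb c / 4 := by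
  have hs := sb_sq c
  have h1 := h.al_sq
  obtain ⟨P1, P2, P3, P4⟩ := h.rat
  have hbe : be y = -(al y * (y + 2) / 2) := rfl
  unfold Xc Yc
  rw [hbe]
  have e : (1 + sb c * al y) ^ 2 = 1 + 2 * (sb c * al y) + tt y := by
    rw [← h1]
    linear_combination (al y ^ 2) * hs
  rw [e]
  have e2 : (sb c * al y) * (sb c * al y) = tt y := by
    rw [← h1]
    linear_combination (al y ^ 2) * hs
  constructor
  · linear_combination P1 + (sb c * al y) * P2 - (2 * xt y + 2 * yh y) * e2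
  · linear_combination P3 + (sb c * al y) * P4 - (2 * xt y + 2 * yh y) * e2

end Run7.k800g
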