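import Pool.Agent.Run7.k800g.Bs
import Pool.Agent.Run7.k800g.Dio2

set_option autoImplicit false
set_option linter.unusedSectionVars false

/-!
# Diophantine base points
-/

namespace Run7.k800g

open Run7.k800 (dg dot)
open Filter Topology MeasureTheory Set

/-- uniform lower bounds for small denominators -/
lemma fin_low {x : ℝ} (hx : Irrational x) (N : ℕ) :
    ∃ C : ℝ, 0 ≤ C ∧ ∀ n : ℕ, 0 < n → n < N → ∀ m : ℤ, 2 ≤ C * |n * x - m| := by
  induction N with
  | zero => exact ⟨0, le_rfl, fun n _ h => absurd h (Nat.not_lt_zero n)⟩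
  | succ N ih =>
    obtain ⟨C, hC, h⟩ := ih
    by_cases hN : N = 0
    · refine ⟨C, hC, fun n h1 h2 m => ?_⟩
      omega
    · have h0 : 0 < |(N : ℝ) * x - round ((N : ℝ) * x)| := by
        rw [abs_pos, sub_ne_zero]
        have := hx.natCast_mul hN
        exact this.ne_int _
      refine ⟨C + 2 / |(N : ℝ) * x - round ((N : ℝ) * x)|, by positivity, fun n h1 h2 m => ?_⟩
      rcases Nat.lt_succ_iff_lt_or_eq.mp h2 with h3 | h3
      · have h4 := h n h1 h3 m
        have h5 : 0 ≤ 2 / |(N : ℝ) * x - round ((N : ℝ) * x)| * |n * x - m| := by positivity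
        rw [add_mul]
        linarith
      · subst h3
        have h4 : |(n : ℝ) * x - round ((n : ℝ) * x)| ≤ |(n : ℝ) * x - m| := round_le _ _
        have h5 : 0 ≤ C * |n * x - m| := by positivity
        rw [add_mul]
        have h6 : 2 ≤ 2 / |(n : ℝ) * x - round ((n : ℝ) * x)| * |n * x - m| := by
          rw [div_mul_eq_mul_div, le_div_iff₀ h0]
          linarith
        linarith

/-- numbers that are badly approximable to the order three give small divisors of order two -/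
lemma dio_of_not {x : ℝ} (hx : ¬ LiouvilleWith 3 x) (hirr : Irrational x) : ∃ G, Dio2 G (1, x) := by
  unfold LiouvilleWith at hx
  push Not at hx
  have h1 := hx 1
  rw [Filter.eventually_atTop] at h1
  obtain ⟨N, hN⟩ := h1
  obtain ⟨C, hC, hfin⟩ := fin_low hirr N
  have key : ∀ n : ℕ, 0 < n → ∀ m : ℤ, 2 ≤ (C + 2) * (n : ℝ) ^ 2 * |n * x - m| := by
    intro n hn m
    have hn' : (1 : ℝ) ≤ n := by exact_mod_cast hn
    have hn0 : (0 : ℝ) < n := by linarith
    rcases lt_or_ge n N with h | h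
    · have h2 := hfin n hn h m
      have h3 : 0 ≤ |(n : ℝ) * x - m| := abs_nonneg _
      have h4 : C * |(n : ℝ) * x - m| ≤ (C + 2) * (n : ℝ) ^ 2 * |n * x - m| := by
        apply mul_le_mul_of_nonneg_right _ h3
        have : (1 : ℝ) ≤ (n : ℝ) ^ 2 := one_le_pow₀ hn'
        nlinarith
      linarith
    · have hne : x ≠ m / n := by
        intro h5
        have := hirr.ne_int
        have h6 : Irrational ((n : ℝ) * x) := hirr.natCast_mul hn.ne'
        apply h6.ne_int m
        rw [h5]; field_simp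
      have h2 := hN n h m hne
      have h3 : (n : ℝ) ^ (3 : ℝ) = (n : ℝ) ^ 3 := by
        rw [← Real.rpow_natCast]; norm_num
      rw [h3] at h2
      have h4 : |(n : ℝ) * x - m| = n * |x - m / n| := by
        have : (n : ℝ) * x - m = n * (x - m / n) := by field_simp
        rw [this, abs_mul, abs_of_pos hn0]
      rw [h4]
      have h5 : (n : ℝ) ^ 2 * (n * (1 / (n : ℝ) ^ 3)) = 1 := by field_simp
      have h6 : 1 ≤ (n : ℝ) ^ 2 * (n * |x - m / n|) := by
        rw [← h5]; gcongr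
      have h7 : 0 ≤ (n : ℝ) ^ 2 * (n * |x - m / n|) := by positivity
      nlinarith
  refine ⟨C + 2, by positivity, fun k hk => ?_⟩
  have hdg : (k.2.natAbs : ℝ) ^ 2 ≤ (dg k : ℝ) ^ 2 := by
    have : (k.2.natAbs : ℝ) ≤ (dg k : ℝ) := by
      unfold dg
      push_cast
      have : (0 : ℝ) ≤ (k.1.natAbs : ℝ) := by positivity
      linarith
    gcongr
  by_cases h2 : k.2 = 0
  · have h1 : k.1 ≠ 0 := by
      intro h1
      exact hk (Prod.ext h1 h2)
    have h3 : dot k (1, x) = k.1 := by unfold dot; rw [h2]; simp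
    have h4 : (1 : ℝ) ≤ |(k.1 : ℝ)| := by
      have : 1 ≤ |k.1| := Int.one_le_abs h1
      exact_mod_cast this
    have h5 : (1 : ℝ) ≤ (dg k : ℝ) := by
      have : 1 ≤ dg k := by
        unfold dg
        have : 0 < k.1.natAbs := Int.natAbs_pos.mpr h1
        omega
      exact_mod_cast this
    have h6 : (1 : ℝ) ≤ (dg k : ℝ) ^ 2 := one_le_pow₀ h5
    rw [h3]
    have h7 : (1 : ℝ) ≤ (dg k : ℝ) ^ 2 * |(k.1 : ℝ)| := by nlinarith
    nlinarith
  · have hn : 0 < k.2.natAbs := Int.natAbs_pos.mpr h2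
    have h3 : 0 ≤ |dot k (1, x)| := abs_nonneg _
    have h4 : ∃ m : ℤ, |dot k (1, x)| = |(k.2.natAbs : ℝ) * x - m| := by
      rcases le_or_gt 0 k.2 with h | h
      · refine ⟨-k.1, ?_⟩
        have : ((k.2.natAbs : ℕ) : ℝ) = (k.2 : ℝ) := by
          rw [Nat.cast_natAbs, abs_of_nonneg h]
        rw [this]
        unfold dot
        congr 1
        push_cast
        ring
      · refine ⟨k.1, ?_⟩
        have : ((k.2.natAbs : ℕ) : ℝ) = -(k.2 : ℝ) := by
          rw [Nat.cast_natAbs, abs_of_neg h]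
          push_cast
          rfl
        rw [this]
        unfold dot
        rw [← abs_neg]
        congr 1
        ring
    obtain ⟨m, hm⟩ := h4
    have h5 := key _ hn m
    rw [← hm] at h5
    refine h5.trans ?_
    gcongr

/-- inverse of the frequency function -/
noncomputable def gi (x : ℝ) : ℝ := (3 - x ^ 2 + Real.sqrt (9 * x ^ 4 - 14 * x ^ 2 + 9)) / (2 * x ^ 2)

lemma Ok.gi_al {y : ℝ} (h : Ok y) : gi (al y) = y := by
  have h1 := h.al_sq
  have h2 := h.al_pos
  have h3 := h.y1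
  have h4 := h.y2
  have h5 := h.tt_pos
  have h6 : tt y * eE y = 3 * y - 2 := by
    have := h.eE_pos.ne'
    unfold tt; field_simp
  have h7 : al y ^ 4 = tt y ^ 2 := by rw [← h1]; ring
  have h8 : Real.sqrt (9 * al y ^ 4 - 14 * al y ^ 2 + 9) = 2 * tt y * y + tt y - 3 := by
    rw [Real.sqrt_eq_iff_mul_self_eq_of_pos, h7, h1]
    · unfold eE at h6
      linear_combination (4 * tt y) * h6
    · have := h.tt_gt
      nlinarith
  unfold gi
  rw [h8, h1]
  field_simp
  ring

lemma gi_diff {x : ℝ} (hx : 0 < x) : DifferentiableAt ℝ gi x := by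
  unfold gi
  have h1 : 9 * x ^ 4 - 14 * x ^ 2 + 9 ≠ 0 := by nlinarith [sq_nonneg (3 * x ^ 2 - 7 / 3)]
  refine DifferentiableAt.div (DifferentiableAt.add (by fun_prop) (DifferentiableAt.sqrt (by fun_prop) h1))
    (by fun_prop) (by positivity)

/-- base points without a small divisor condition -/
def Yb0 : Set ℝ := {y | Ok y ∧ ∀ G, ¬ Dio2 G (om y)}

lemma Yb0_null : volume Yb0 = 0 := by
  have hN : volume {x : ℝ | ¬ (¬ LiouvilleWith 3 x ∧ Irrational x)} = 0 := by
    have h1 : ∀ᵐ x : ℝ, ¬ LiouvilleWith 3 x := by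
      filter_upwards [ae_not_liouvilleWith] with x hx
      exact hx 3 (by norm_num)
    have h2 : ∀ᵐ x : ℝ, Irrational x := by
      have : (Set.range ((↑) : ℚ → ℝ)).Countable := Set.countable_range _
      have h3 := this.measure_zero volume
      rw [MeasureTheory.ae_iff]
      refine measure_mono_null (fun x hx => ?_) h3
      simp only [Set.mem_setOf_eq, Irrational, not_not] at hx
      exact hx
    have h3 := h1.and h2
    rwa [MeasureTheory.ae_iff] at h3
  have hsub : Yb0 ⊆ gi '' ({x : ℝ | ¬ (¬ LiouvilleWith 3 x ∧ Irrational x)} ∩ Ioi 0) := by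
    rintro y ⟨hy, hG⟩
    refine ⟨al y, ⟨?_, hy.al_pos⟩, hy.gi_al⟩
    intro h
    obtain ⟨G, hG'⟩ := dio_of_not h.1 h.2
    exact hG G hG'
  refine measure_mono_null hsub ?_
  refine addHaar_image_eq_zero_of_differentiableOn_of_addHaar_eq_zero volume (fun x hx =>
    (gi_diff hx.2).differentiableWithinAt) ?_
  exact measure_mono_null Set.inter_subset_left hN

/-- good base points -/
def Gd (y : ℝ) : Prop := ∃ G : ℝ, ∀ δ, 0 < δ → ∃ y', Ok y' ∧ y - δ < y' ∧ y' < y ∧ Dio2 G (om y')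

/-- bad base points -/
def Yb : Set ℝ := {y | Ok y ∧ ¬ Gd y}

lemma Dio2.mono {G G' : ℝ} {ω : ℝ × ℝ} (h : Dio2 G ω) (hG : G ≤ G') : Dio2 G' ω := by
  refine ⟨h.nonneg.trans hG, fun k hk => (h.div k hk).trans ?_⟩
  gcongr

lemma Yb_null : volume Yb = 0 := by
  have hsub : Yb ⊆ Yb0 ∪ ⋃ n : ℕ, {x ∈ {y | Ok y ∧ Dio2 n (om y)} |
      𝓝[{y | Ok y ∧ Dio2 n (om y)} ∩ Iio x] x = ⊥} := by
    rintro y ⟨hy, hG⟩
    by_cases h : ∀ G, ¬ Dio2 G (om y)
    · exact Or.inl ⟨hy, h⟩
    · push Not at h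
      obtain ⟨G, hG1⟩ := h
      obtain ⟨n, hn⟩ := exists_nat_ge G
      right
      rw [Set.mem_iUnion]
      refine ⟨n, ⟨hy, hG1.mono hn⟩, ?_⟩
      by_contra hcon
      apply hG
      refine ⟨n, fun δ hδ => ?_⟩
      have hne : (𝓝[{y | Ok y ∧ Dio2 n (om y)} ∩ Iio y] y).NeBot := ⟨hcon⟩
      have h1 : Ioo (y - δ) (y + δ) ∈ 𝓝[{y | Ok y ∧ Dio2 n (om y)} ∩ Iio y] y :=
        mem_nhdsWithin_of_mem_nhds (Ioo_mem_nhds (by linarith) (by linarith))
      have h2 : {y | Ok y ∧ Dio2 n (om y)} ∩ Iio y ∈ 𝓝[{y | Ok y ∧ Dio2 n (om y)} ∩ Iio y] y :=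
        self_mem_nhdsWithin
      obtain ⟨y', h3, h4⟩ := hne.nonempty_of_mem (inter_mem h1 h2)
      exact ⟨y', h4.1.1, h3.1, h4.2, h4.1.2⟩
  refine measure_mono_null hsub (measure_union_null Yb0_null ?_)
  rw [measure_iUnion_null_iff]
  intro n
  exact (countable_setOfPred_isolated_left_within).measure_zero volume

end Run7.k800g
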