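import Pool.Agent.Run7.k800g.InitG2
import Pool.Agent.Run7.k800.Mean

set_option autoImplicit false
set_option linter.unusedSectionVars false

/-!
# Calculus of uniformly small quantities
-/

namespace Run7.k800g

open Run7.k800 (WW mn mn_add mn_sub mn_smul mn_abs_le mn_congr)
open Filter Topology Set

variable {ι : Type*} {D : ℝ → Set ι}

/-- uniformly of order `n` in the parameter -/
def On (D : ℝ → Set ι) (n : ℕ) (φ : ℝ → ι → ℝ) : Prop :=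
  ∃ e K : ℝ, 0 < e ∧ e ≤ 1 ∧ 0 ≤ K ∧ ∀ ε, 0 ≤ ε → ε ≤ e → ∀ i ∈ D ε, |φ ε i| ≤ K * ε ^ n

variable {n m : ℕ} {φ ψ : ℝ → ι → ℝ}

lemma On.congr (h : On D n φ) (e : ∀ ε, ∀ i ∈ D ε, φ ε i = ψ ε i) : On D n ψ := by
  obtain ⟨e1, K1, h1, h1', hK1, h2⟩ := h
  exact ⟨e1, K1, h1, h1', hK1, fun ε h0 he i hi => by rw [← e ε i hi]; exact h2 ε h0 he i hi⟩

lemma On.cst (c : ℝ) : On D 0 (fun _ _ => c) :=
  ⟨1, |c|, one_pos, le_rfl, abs_nonneg c, fun ε _ _ i _ => by simp⟩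

lemma On.eps : On D 1 (fun ε _ => ε) :=
  ⟨1, 1, one_pos, le_rfl, zero_le_one, fun ε h _ i _ => by rw [abs_of_nonneg h]; simp⟩

lemma On.fn {f : ι → ℝ} {K : ℝ} (hK : 0 ≤ K) (h : ∀ ε, 0 ≤ ε → ∀ i ∈ D ε, |f i| ≤ K) :
    On D 0 (fun _ i => f i) :=
  ⟨1, K, one_pos, le_rfl, hK, fun ε h0 _ i hi => by simpa using h ε h0 i hi⟩

lemma On.add (h : On D n φ) (g : On D n ψ) : On D n (fun ε i => φ ε i + ψ ε i) := by
  obtain ⟨e1, K1, h1, h1', hK1, h2⟩ := h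
  obtain ⟨e2, K2, g1, g1', hK2, g2⟩ := g
  refine ⟨min e1 e2, K1 + K2, lt_min h1 g1, (min_le_left _ _).trans h1', by positivity,
    fun ε h0 he i hi => ?_⟩
  have a1 := h2 ε h0 (he.trans (min_le_left _ _)) i hi
  have a2 := g2 ε h0 (he.trans (min_le_right _ _)) i hi
  have := abs_add_le (φ ε i) (ψ ε i)
  linarith

lemma On.mul (h : On D n φ) (g : On D m ψ) : On D (n + m) (fun ε i => φ ε i * ψ ε i) := by
  obtain ⟨e1, K1, h1, h1', hK1, h2⟩ := h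
  obtain ⟨e2, K2, g1, g1', hK2, g2⟩ := g
  refine ⟨min e1 e2, K1 * K2, lt_min h1 g1, (min_le_left _ _).trans h1', by positivity,
    fun ε h0 he i hi => ?_⟩
  have a1 := h2 ε h0 (he.trans (min_le_left _ _)) i hi
  have a2 := g2 ε h0 (he.trans (min_le_right _ _)) i hi
  rw [abs_mul]
  calc |φ ε i| * |ψ ε i| ≤ (K1 * ε ^ n) * (K2 * ε ^ m) := mul_le_mul a1 a2 (abs_nonneg _) (by positivity)
    _ = _ := by rw [pow_add]; ring

lemma On.le (h : On D m φ) (hnm : n ≤ m) : On D n φ := by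
  obtain ⟨e1, K1, h1, h1', hK1, h2⟩ := h
  refine ⟨e1, K1, h1, h1', hK1, fun ε h0 he i hi => (h2 ε h0 he i hi).trans ?_⟩
  have : ε ^ m ≤ ε ^ n := pow_le_pow_of_le_one h0 (he.trans h1') hnm
  gcongr

lemma On.cmul (c : ℝ) (h : On D n φ) : On D n (fun ε i => c * φ ε i) := by
  have := (On.cst (D := D) c).mul h
  rwa [zero_add] at this

lemma On.neg (h : On D n φ) : On D n (fun ε i => -φ ε i) :=
  (h.cmul (-1)).congr (fun ε i _ => by ring)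

lemma On.sub (h : On D n φ) (g : On D n ψ) : On D n (fun ε i => φ ε i - ψ ε i) :=
  (h.add g.neg).congr (fun ε i _ => by ring)

lemma On.mul0 (h : On D n φ) (g : On D 0 ψ) : On D n (fun ε i => φ ε i * ψ ε i) := h.mul g

lemma On.mul0' (h : On D 0 φ) (g : On D n ψ) : On D n (fun ε i => φ ε i * ψ ε i) :=
  (g.mul0 h).congr (fun ε i _ => mul_comm _ _)

/-- bounded below for small values of the parameter -/
def Bl (D : ℝ → Set ι) (φ : ℝ → ι → ℝ) : Prop :=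
  ∃ e δ : ℝ, 0 < e ∧ e ≤ 1 ∧ 0 < δ ∧ ∀ ε, 0 ≤ ε → ε ≤ e → ∀ i ∈ D ε, δ ≤ |φ ε i|

lemma Bl.fn {f : ι → ℝ} {δ : ℝ} (hδ : 0 < δ) (h : ∀ ε, 0 ≤ ε → ∀ i ∈ D ε, δ ≤ |f i|) :
    Bl D (fun _ i => f i) :=
  ⟨1, δ, one_pos, le_rfl, hδ, fun ε h0 _ i hi => h ε h0 i hi⟩

lemma Bl.near (h : Bl D φ) (g : On D 1 (fun ε i => ψ ε i - φ ε i)) : Bl D ψ := by
  obtain ⟨e1, δ, h1, h1', hδ, h2⟩ := h
  obtain ⟨e2, K, g1, g1', hK, g2⟩ := g
  refine ⟨min (min e1 e2) (δ / (2 * (K + 1))), δ / 2, by positivity,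
    (min_le_left _ _).trans ((min_le_left _ _).trans h1'), by positivity, fun ε h0 he i hi => ?_⟩
  have a1 := h2 ε h0 (he.trans ((min_le_left _ _).trans (min_le_left _ _))) i hi
  have a2 := g2 ε h0 (he.trans ((min_le_left _ _).trans (min_le_right _ _))) i hi
  have a3 : ε ≤ δ / (2 * (K + 1)) := he.trans (min_le_right _ _)
  rw [le_div_iff₀ (by positivity)] at a3
  have a4 : |φ ε i| ≤ |ψ ε i| + |ψ ε i - φ ε i| := by
    have e : φ ε i = ψ ε i - (ψ ε i - φ ε i) := by ring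
    calc |φ ε i| = |ψ ε i - (ψ ε i - φ ε i)| := by rw [← e]
      _ ≤ _ := abs_sub _ _
  rw [pow_one] at a2
  nlinarith

lemma On.div (h : On D n φ) (g : Bl D ψ) {χ : ℝ → ι → ℝ}
    (e : ∀ ε, ∀ i ∈ D ε, ψ ε i * χ ε i = φ ε i) : On D n χ := by
  obtain ⟨e1, K, h1, h1', hK, h2⟩ := h
  obtain ⟨e2, δ, g1, g1', hδ, g2⟩ := g
  refine ⟨min e1 e2, K / δ, lt_min h1 g1, (min_le_left _ _).trans h1', by positivity,
    fun ε h0 he i hi => ?_⟩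
  have a1 := h2 ε h0 (he.trans (min_le_left _ _)) i hi
  have a2 := g2 ε h0 (he.trans (min_le_right _ _)) i hi
  rw [← e ε i hi, abs_mul] at a1
  have a3 : δ * |χ ε i| ≤ K * ε ^ n := by
    refine le_trans ?_ a1
    have := abs_nonneg (χ ε i)
    gcongr
  rw [div_mul_eq_mul_div, le_div_iff₀ hδ]
  linarith

/-- restriction to small values and smaller sets -/
lemma On.sub_set {D' : ℝ → Set ι} (h : On D n φ) (hD : ∀ ε, D' ε ⊆ D ε) : On D' n φ := by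
  obtain ⟨e1, K, h1, h1', hK, h2⟩ := h
  exact ⟨e1, K, h1, h1', hK, fun ε h0 he i hi => h2 ε h0 he i (hD ε hi)⟩

/-- pairs of data and points -/
def D2 (D : ℝ → Set ι) : ℝ → Set (ι × (ℝ × ℝ)) := fun ε => {z | z.1 ∈ D ε}

lemma On.lift (h : On D n φ) : On (D2 D) n (fun ε z => φ ε z.1) := by
  obtain ⟨e1, K, h1, h1', hK, h2⟩ := h
  exact ⟨e1, K, h1, h1', hK, fun ε h0 he i hi => h2 ε h0 he i.1 hi⟩

lemma On.mn {φ : ℝ → ι → ℝ × ℝ → ℝ} (h : On (D2 D) n (fun ε z => φ ε z.1 z.2))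
    (hW : ∀ ε, ∀ i ∈ D ε, WW (φ ε i)) : On D n (fun ε i => mn (φ ε i)) := by
  obtain ⟨e1, K, h1, h1', hK, h2⟩ := h
  refine ⟨e1, K, h1, h1', hK, fun ε h0 he i hi => ?_⟩
  exact mn_abs_le (hW ε i hi) (fun x => h2 ε h0 he (i, x) hi)

lemma On.mn_sub {φ ψ : ℝ → ι → ℝ × ℝ → ℝ}
    (h : On (D2 D) n (fun ε z => φ ε z.1 z.2 - ψ ε z.1 z.2))
    (hW : ∀ ε, ∀ i ∈ D ε, WW (φ ε i)) (hW' : ∀ ε, ∀ i ∈ D ε, WW (ψ ε i)) :
    On D n (fun ε i => Run7.k800.mn (φ ε i) - Run7.k800.mn (ψ ε i)) := by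
  have h1 := On.mn (φ := fun ε i x => φ ε i x - ψ ε i x) h (fun ε i hi => (hW ε i hi).sub (hW' ε i hi))
  exact h1.congr (fun ε i hi => Run7.k800.mn_sub (hW ε i hi) (hW' ε i hi))

end Run7.k800g
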