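import Pool.Agent.Run7.k800g.Dio2
import Pool.Agent.Run7.k800g.GlueG1
import Pool.Agent.Run7.k800g.SerG

set_option autoImplicit false
set_option linter.unusedSectionVars false

/-!
# The reduced equations along the orbits of the tori
-/

namespace Run7.k800g

open Run7.k800 (RR qS qI qT qS_nonneg qS_le qI_ge qI_le qT_eq P2' B.slice WW mn DD c1 s1 c2 s2 c1_le c2_le s2_le W_s2 B MB JJ St Sg pd zz dM fI PS_aI Mn Red GG adm_aI PS_bound pd_refl)
open Filter Topology MeasureTheory Set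

lemma mn_refl_zeroG {G : ℝ} {ω : ℝ × ℝ} (hω : Dio2 G ω) {f : ℝ × ℝ → ℝ} (hf : WW f)
    (hodd : ∀ x, f (-x) = -f x) : Mn (P := Unit) ω (fun _ x => f x) (fun _ => 0) := by
  obtain ⟨r, M, hr, hB⟩ := hf
  obtain ⟨c, -, hc⟩ := exists_meang (P := Unit) hω hB hr
  have hc0 := hc
  obtain ⟨g, h1, ⟨C, h2⟩, h3⟩ := hc
  have h4 : Mn (P := Unit) ω (fun _ x => f x) (fun p => -(c p)) := by
    refine ⟨fun p x => g p (-x), fun p => (h1 p).comp (by fun_prop : Differentiable ℝ (fun x : ℝ × ℝ => -x)), ⟨C, fun p x => h2 p (-x)⟩,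
      fun p x => ?_⟩
    have h5 : f (-x) = c p + pd ω g p (-x) := h3 p (-x)
    rw [hodd] at h5
    have h6 := pd_refl (f := g) (v := ω) (p := p) (x := x) (h1 p (-x))
    change f x = -(c p) + pd ω (fun p x => g p (-x)) p x
    rw [h6]
    linarith
  have h5 := Mn.unique hc0 h4 ()
  have h6 : c () = 0 := by linarith
  exact hc0.congr (fun p x => rfl) (fun p => by cases p; exact h6)

lemma FfG_re (m : Mc) (F0 ε s a b : ℝ) :
    (FfG m F0 ε s a b).re = F0 * (1 + ε * (ε * s) * hf1 m ε s a b) := by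
  have : FfG m F0 ε s a b = ((F0 * (1 + ε * (ε * s) * hf1 m ε s a b) : ℝ) : ℂ)
      + ((F0 * (ε * (ε * s) * hf2 m ε s a b) : ℝ) : ℂ) * Complex.I := by
    unfold FfG; push_cast; ring
  rw [this, Complex.add_re, Complex.ofReal_re, Complex.re_ofReal_mul, Complex.I_re, mul_zero, add_zero]

lemma FfG_im (m : Mc) (F0 ε s a b : ℝ) :
    (FfG m F0 ε s a b).im = F0 * (ε * (ε * s) * hf2 m ε s a b) := by
  have : FfG m F0 ε s a b = ((F0 * (1 + ε * (ε * s) * hf1 m ε s a b) : ℝ) : ℂ)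
      + ((F0 * (ε * (ε * s) * hf2 m ε s a b) : ℝ) : ℂ) * Complex.I := by
    unfold FfG; push_cast; ring
  rw [this, Complex.add_im, Complex.ofReal_im, Complex.im_ofReal_mul, Complex.I_im, mul_one, zero_add]

/-- The reduced equations hold along an orbit. -/
theorem red_famG {m : Mc} {y ε M G : ℝ} {U : RR → ℝ × ℝ → Matrix (Fin 6) Unit ℝ} {q : Fin 2 → C(RR, ℝ)}
    (h : Fam m y ε M U q) (hω : Dio2 G (om y)) (hM : 1 ≤ M) (hMε : M * ε ≤ 1 / 10) (p : RR)
    {F0 : ℝ} (hF0 : 0 < F0) (e0 : ℝ) :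
    ∃ (ψ χ L : ℝ → ℝ) (φ : ℝ → ℂ) (c : ℝ), 0 < c ∧
      Red (q 0 p) ψ χ L (fun s => (e0 : ℂ) + ((ε * (ε * qS p) : ℝ) : ℂ) * (U p (s • om y) 2 ()
        + U p (s • om y) 3 () * Complex.I)) φ
        (fun s => FfG m F0 ε (qS p) (U p (s • om y) 2 ()) (U p (s • om y) 3 ()))
        (fun s => GfG m F0 (q 1 p) e0 ε (qS p) (U p (s • om y) 2 ()) (U p (s • om y) 3 ())) ∧
      ∀ s, c ≤ q 0 p * L s ^ 3 / ψ s ^ 2 := by
  have hε := h.εpos
  have hσ1 := qI_ge p
  have hσ2 := qI_le p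
  have hs1 := qS_nonneg p
  have hs2 := qS_le p
  have hε10 : ε ≤ 1 / 10 := by nlinarith
  obtain ⟨μ, hμ⟩ : ∃ μ, μ = q 0 p := ⟨_, rfl⟩
  obtain ⟨k, hk⟩ : ∃ k, k = q 1 p := ⟨_, rfl⟩
  obtain ⟨σ, hσ⟩ : ∃ σ, σ = qI p := ⟨_, rfl⟩
  obtain ⟨s0, hs0⟩ : ∃ s0, s0 = qS p := ⟨_, rfl⟩
  obtain ⟨ti, hti⟩ : ∃ ti, ti = qT p := ⟨_, rfl⟩
  have hσt : σ * ti = 1 := by
    rw [hti, qT_eq, hσ]
    field_simp
  rw [← hσ] at hσ1 hσ2
  rw [← hs0] at hs1 hs2
  have hμ1 : |μ - 1| ≤ 1 / 10 := by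
    have := (q 0 - (St0 RR y).q 0).norm_coe_le_norm p
    have h2 : |q 0 p - 1| ≤ M * ε := this.trans (h.nearq 0)
    rw [hμ]; linarith
  have hμ2 := abs_le.mp hμ1
  have hμpos : 0 < μ := by linarith
  -- the functions on the torus
  have hW : ∀ i, WW (fun x => U p x i ()) := fun i =>
    ⟨2, M, by norm_num, B.slice (h.reg i ()) (by norm_num) p⟩
  have hub : ∀ x, |U p x 0 ()| ≤ 11 / 10 := by
    intro x
    have h1 : |U p x 0 () - c1 x| ≤ M * ε := (h.near 0 ()).norm_le (by norm_num) p x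
    have h2 := abs_le.mp h1
    have h3 := abs_le.mp (c1_le x)
    rw [abs_le]; constructor <;> linarith
  have hsm : ∀ x, |ε * (σ * U p x 0 ())| ≤ 1 / 4 := by
    intro x
    have h1 : |σ| ≤ 2 := by rw [abs_of_nonneg (by linarith)]; exact hσ2
    have h2 : |ε| ≤ 1 / 10 := by rw [abs_of_pos hε]; exact hε10
    have := P2' h2 (P2' h1 (hub x))
    linarith
  have hfI : ∀ x, fI ε σ (U p x 0 ()) * (1 + ε * (σ * U p x 0 ())) = 1 := fun x => PS_aI (hsm x)
  have hDpos : ∀ x, 1 / 2 ≤ 1 + ε * (σ * U p x 0 ()) := fun x => by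
    have := (abs_le.mp (hsm x)).1
    linarith
  have hDle : ∀ x, 1 + ε * (σ * U p x 0 ()) ≤ 2 := fun x => by
    have := (abs_le.mp (hsm x)).2
    linarith
  have WfI : WW (fun x => fI ε σ (U p x 0 ())) := by
    refine ⟨2, GG, by norm_num, ?_⟩
    have h1 : B (P := Unit) 2 (1 / 4) (fun _ x => ε * (σ * U p x 0 ())) := by
      have h2 := ((B.slice (h.reg 0 ()) (by norm_num) p).smul (ε * σ) (by norm_num))
      refine (B.mono h2 (by norm_num) le_rfl ?_).congr (fun _ x => by ring)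
      rw [abs_of_nonneg (by positivity)]
      nlinarith
    exact PS_bound (by norm_num) adm_aI h1
  -- equations
  have heq : ∀ x i, DD (om y) (fun x => U p x i ()) x = Yh m qS qI qT ε i p (zz U q p x) :=
    fun x i => h.eq p x i
  have Y0 : ∀ x, DD (om y) (fun x => U p x 0 ()) x = μ * (-U p x 1 () + ε * (-2 * (s0 * ti)
      * hf2 m ε s0 (U p x 2 ()) (U p x 3 ()))) := fun x => by
    rw [hμ, hs0, hti]; exact heq x 0
  have Y1 : ∀ x, DD (om y) (fun x => U p x 1 ()) x = μ * (U p x 0 () + ε * (-(s0 * ti)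
      * hf1 m ε s0 (U p x 2 ()) (U p x 3 ()) - ε * s0 * (fI ε σ (U p x 0 ())
        * (hf2 m ε s0 (U p x 2 ()) (U p x 3 ()) * U p x 1 ())))) := fun x => by
    rw [hμ, hs0, hti, hσ]; exact heq x 1
  have Y2 : ∀ x, DD (om y) (fun x => U p x 2 ()) x = μ * U p x 4 () := fun x => by
    have := heq x 2
    rw [this, hμ]
    change q 0 p * (U p x 4 () + ε * 0) = _
    ring
  have Y3 : ∀ x, DD (om y) (fun x => U p x 3 ()) x = μ * U p x 5 () := fun x => by
    have := heq x 3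
    rw [this, hμ]
    change q 0 p * (U p x 5 () + ε * 0) = _
    ring
  have Y4 : ∀ x, DD (om y) (fun x => U p x 4 ()) x = μ * (2 * U p x 5 () + (2 * k + 1) * U p x 2 ()
      + ε * (ε * s0 * (fI ε σ (U p x 0 ()) * (hf2 m ε s0 (U p x 2 ()) (U p x 3 ()) * U p x 4 ()))
      - hk1 m ε s0 (U p x 2 ()) (U p x 3 ())
      + σ * U p x 0 () * fI ε σ (U p x 0 ()) * (-((2 * k + 1) * U p x 2 ())
        + ε * hk1 m ε s0 (U p x 2 ()) (U p x 3 ())))) := fun x => by
    rw [hμ, hk, hs0, hσ]; exact heq x 4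
  have Y5 : ∀ x, DD (om y) (fun x => U p x 5 ()) x = μ * (-2 * U p x 4 () - (k - 1) * U p x 3 ()
      + ε * (ε * s0 * (fI ε σ (U p x 0 ()) * (hf2 m ε s0 (U p x 2 ()) (U p x 3 ()) * U p x 5 ()))
      - hk2 m ε s0 (U p x 2 ()) (U p x 3 ())
      + σ * U p x 0 () * fI ε σ (U p x 0 ()) * ((k - 1) * U p x 3 ()
        + ε * hk2 m ε s0 (U p x 2 ()) (U p x 3 ())))) := fun x => by
    rw [hμ, hk, hs0, hσ]; exact heq x 5
  -- the angular momentum
  obtain ⟨f, hf⟩ : ∃ f : ℝ × ℝ → ℝ, f = fun x => μ * (ε * (ε * s0) * hf2 m ε s0 (U p x 2 ()) (U p x 3 ()))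
      * fI ε σ (U p x 0 ()) := ⟨_, rfl⟩
  have hfW : WW f := by
    have h1 := ((((hW 0).pd (om y)).add ((hW 1).smul μ)).smul (-(ε * σ / 2))).mul WfI
    refine h1.congr (fun x => ?_)
    rw [hf, Y0]
    linear_combination (μ * ε * ε * s0 * hf2 m ε s0 (U p x 2 ()) (U p x 3 ()) * fI ε σ (U p x 0 ())) * hσt
  have hfodd : ∀ x, f (-x) = -f x := by
    intro x
    have sy : ∀ i, U p (-x) i () = ![1, -1, 1, -1, -1, 1] i * U p x i () := by
      intro i
      rw [h.sym]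
      unfold Sg
      rw [Matrix.diagonal_mul]
    have e0 : U p (-x) 0 () = U p x 0 () := by rw [sy]; simp
    have e2 : U p (-x) 2 () = U p x 2 () := by rw [sy]; simp
    have e3 : U p (-x) 3 () = -U p x 3 () := by rw [sy]; simp
    rw [hf]
    simp only [e0, e2, e3, hf2_neg]
    ring
  obtain ⟨g, g1, ⟨C, g2⟩, g3⟩ := mn_refl_zeroG hω hfW hfodd
  -- differentiation along the orbit
  have hline : ∀ s : ℝ, HasDerivAt (fun s : ℝ => s • om y) (om y) s := fun s => by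
    simpa using (hasDerivAt_id s).smul_const (om y)
  have hder : ∀ (F : ℝ × ℝ → ℝ), Differentiable ℝ F → ∀ s : ℝ,
      HasDerivAt (fun s : ℝ => F (s • om y)) (DD (om y) F (s • om y)) s := by
    intro F hF s
    exact (hF (s • om y)).hasFDerivAt.comp_hasDerivAt s (hline s)
  have hU : ∀ i (s : ℝ), HasDerivAt (fun s : ℝ => U p (s • om y) i ())
      (DD (om y) (fun x => U p x i ()) (s • om y)) s :=
    fun i s => hder _ (hW i).diff s
  refine ⟨fun s => F0 * (1 + ε * (σ * U p (s • om y) 0 ())), fun s => F0 * (ε * (σ * U p (s • om y) 1 ())),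
    fun s => Real.exp (-(g () (s • om y))),
    fun s => ((ε * (ε * s0) : ℝ) : ℂ) * (U p (s • om y) 4 () + U p (s • om y) 5 () * Complex.I),
    9 / 10 * Real.exp (-C) ^ 3 / (F0 * 2) ^ 2, by positivity, ?_, ?_⟩
  · rw [← hμ, ← hk, ← hs0]
    refine ⟨hμpos, fun s => ?_, fun s => Real.exp_pos _, fun s => ?_, fun s => ?_, fun s => ?_,
      fun s => ?_, fun s => ?_⟩
    · have := hDpos (s • om y)
      have : 0 < 1 + ε * (σ * U p (s • om y) 0 ()) := by linarith
      positivity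
    · have h1 := ((((hU 0 s).const_mul σ).const_mul ε).const_add 1).const_mul F0
      refine h1.congr_deriv ?_
      rw [Y0, FfG_im]
      linear_combination (-(F0 * ε * ε * μ * 2 * s0 * hf2 m ε s0 (U p (s • om y) 2 ()) (U p (s • om y) 3 ()))) * hσt
    · have h1 := (((hU 1 s).const_mul σ).const_mul ε).const_mul F0
      refine h1.congr_deriv ?_
      rw [Y1, FfG_im, FfG_re]
      have hI := hfI (s • om y)
      have hD := hDpos (s • om y)
      have hDne : 1 + ε * (σ * U p (s • om y) 0 ()) ≠ 0 := by linarith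
      have hIe : fI ε σ (U p (s • om y) 0 ()) = (1 + ε * (σ * U p (s • om y) 0 ()))⁻¹ :=
        eq_inv_of_mul_eq_one_left hI
      rw [hIe]
      field_simp
      linear_combination (-(s0 * ε ^ 2 * hf1 m ε s0 (U p (s • om y) 2 ()) (U p (s • om y) 3 ()))) * hσt
    · have h1 : HasDerivAt (fun s : ℝ => g () (s • om y)) (DD (om y) (g ()) (s • om y)) s := hder _ (g1 ()) s
      have h2 := h1.neg.exp
      refine h2.congr_deriv ?_
      have h3 : f (s • om y) = 0 + DD (om y) (g ()) (s • om y) := g3 () (s • om y)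
      rw [zero_add] at h3
      rw [← h3, hf, FfG_im]
      have hI := hfI (s • om y)
      have hD := hDpos (s • om y)
      have hDne : 1 + ε * (σ * U p (s • om y) 0 ()) ≠ 0 := by linarith
      have hIe : fI ε σ (U p (s • om y) 0 ()) = (1 + ε * (σ * U p (s • om y) 0 ()))⁻¹ :=
        eq_inv_of_mul_eq_one_left hI
      simp only [hIe, Pi.neg_apply]
      field_simp
    · have h1 := (((hU 2 s).ofReal_comp.add ((hU 3 s).ofReal_comp.mul_const Complex.I)).const_mul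
        ((ε * (ε * s0) : ℝ) : ℂ)).const_add (e0 : ℂ)
      refine h1.congr_deriv ?_
      rw [Y2, Y3]
      push_cast
      ring
    · have h1 := ((hU 4 s).ofReal_comp.add ((hU 5 s).ofReal_comp.mul_const Complex.I)).const_mul
        ((ε * (ε * s0) : ℝ) : ℂ)
      refine h1.congr_deriv ?_
      have hI := hfI (s • om y)
      have hD := hDpos (s • om y)
      have hDne : 1 + ε * (σ * U p (s • om y) 0 ()) ≠ 0 := by linarith
      have hI' : (fI ε σ (U p (s • om y) 0 ()) : ℂ) * (1 + ε * (σ * U p (s • om y) 0 ())) = 1 := by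
        exact_mod_cast hI
      have hF0' : (F0 : ℂ) ≠ 0 := by exact_mod_cast hF0.ne'
      have hinv : (((F0 * (1 + ε * (σ * U p (s • om y) 0 ())) : ℝ) : ℂ))⁻¹
          = (F0 : ℂ)⁻¹ * fI ε σ (U p (s • om y) 0 ()) := by
        rw [inv_eq_iff_eq_inv, mul_inv, inv_inv, ← eq_inv_of_mul_eq_one_right hI']
        push_cast; ring
      obtain ⟨T, hT⟩ : ∃ T : ℂ, T = ((2 * k + 1) * U p (s • om y) 2 () - ε * hk1 m ε s0 (U p (s • om y) 2 ()) (U p (s • om y) 3 ()))
        + (-(k - 1) * U p (s • om y) 3 () - ε * hk2 m ε s0 (U p (s • om y) 2 ()) (U p (s • om y) 3 ())) * Complex.I :=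
        ⟨_, rfl⟩
      have hFG : (FfG m F0 ε s0 (U p (s • om y) 2 ()) (U p (s • om y) 3 ())
          * ((e0 : ℂ) + ((ε * (ε * s0) : ℝ) : ℂ) * (U p (s • om y) 2 () + U p (s • om y) 3 () * Complex.I))
          - GfG m F0 k e0 ε s0 (U p (s • om y) 2 ()) (U p (s • om y) 3 ())) * (F0 : ℂ)⁻¹
          = (ε * (ε * s0) : ℂ) * T := by
        rw [mul_inv_eq_iff_eq_mul₀ hF0', hT]
        unfold GfG
        push_cast
        ring
      have hdiv : ∀ z : ℂ, z / (((F0 * (1 + ε * (σ * U p (s • om y) 0 ())) : ℝ) : ℂ))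
          = z * (F0 : ℂ)⁻¹ * fI ε σ (U p (s • om y) 0 ()) := by
        intro z
        rw [div_eq_mul_inv, hinv]; ring
      have hIm : ∀ z : ℂ, z * ((F0 * (ε * (ε * s0) * hf2 m ε s0 (U p (s • om y) 2 ()) (U p (s • om y) 3 ())) : ℝ) : ℂ)
          * (F0 : ℂ)⁻¹ = z * (ε * (ε * s0) * hf2 m ε s0 (U p (s • om y) 2 ()) (U p (s • om y) 3 ())) := by
        intro z
        push_cast
        field_simp
      rw [Y4, Y5, FfG_im, hdiv, hdiv, hFG, hIm, hT]
      push_cast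
      linear_combination (-(ε * (ε * s0) * μ : ℂ) * (((2 * k + 1) * U p (s • om y) 2 () - ε * hk1 m ε s0 (U p (s • om y) 2 ()) (U p (s • om y) 3 ()))
        + (-(k - 1) * U p (s • om y) 3 () - ε * hk2 m ε s0 (U p (s • om y) 2 ()) (U p (s • om y) 3 ())) * Complex.I)) * hI'
        + (2 * (ε * (ε * s0) * μ : ℂ) * U p (s • om y) 5 ()) * Complex.I_sq
  · intro s
    have hg := g2 () (s • om y)
    have h1 : Real.exp (-C) ≤ Real.exp (-(g () (s • om y))) := by
      apply Real.exp_le_exp.mpr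
      linarith [(abs_le.mp hg).2]
    have h2 := hDpos (s • om y)
    have h3 := hDle (s • om y)
    rw [← hμ]
    have h4 : 9 / 10 ≤ μ := by linarith
    have h5 : 0 < F0 * (1 + ε * (σ * U p (s • om y) 0 ())) := by
      have : 0 < 1 + ε * (σ * U p (s • om y) 0 ()) := by linarith
      positivity
    have h6 : F0 * (1 + ε * (σ * U p (s • om y) 0 ())) ≤ F0 * 2 := mul_le_mul_of_nonneg_left h3 hF0.le
    change 9 / 10 * Real.exp (-C) ^ 3 / (F0 * 2) ^ 2
      ≤ μ * Real.exp (-(g () (s • om y))) ^ 3 / (F0 * (1 + ε * (σ * U p (s • om y) 0 ()))) ^ 2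
    gcongr

end Run7.k800g
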