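import Pool.Agent.Run7.k800g.VfG
import Pool.Agent.Run7.k800g.InitG3
import Pool.Agent.Run7.k800g.KamG

set_option autoImplicit false
set_option linter.unusedSectionVars false

/-!
# Existence of the family of tori
-/

namespace Run7.k800g

open Run7.k800 (c1 s1 c2 s2 B MB JJ St Sg Pi4 cs1 cs2 gd pd pd_mul ev zz DL dM dgm dd dM_apply sg lin_fderiv Tm Dj Dj_mul Dj_add Dj_coord Dj_const Dj_lin Dj_lin0 Dj_lin1 nrz mkF tame_mk lin Mn Fld rz)
open Filter Topology Set

variable {P : Type*} [TopologicalSpace P] [CompactSpace P]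
variable {a b y : ℝ}

lemma nrz_self {r ρ : ℝ} (hρ : 0 ≤ ρ) (hr : 0 ≤ r) (z0 : JJ → P → ℝ × ℝ → ℝ) : nrz r ρ z0 z0 := by
  intro j
  refine (B.zero.mono hr le_rfl hρ : B r ρ (fun (_ : P) _ => (0 : ℝ))).congr (fun p x => ?_)
  simp

lemma z00_TF (hR : Rg a b) (j : JJ) : TF a b (z00 P) (fun _ _ z => z j) := by
  rcases j with i | k
  · obtain ⟨M, hM, h1⟩ := U00_TU (P := P) hR i ()
    exact TF.coord _ hM h1
  · fin_cases k
    · refine TF.coord (k := 1) _ zero_le_one (fun y hy => ?_)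
      have : z00 P y (Sum.inr 0) = fun _ _ => (1 : ℝ) := rfl
      change B 4 1 (z00 P y (Sum.inr 0))
      rw [this]
      exact (B.rconst 1).mono (by norm_num) le_rfl (by norm_num)
    · obtain ⟨M, hM, h1⟩ := CB.of_cont hR.ck0
      refine TF.coord (k := M) _ hM (fun y hy => ?_)
      have : z00 P y (Sum.inr 1) = fun _ _ => k0 y := rfl
      change B 4 M (z00 P y (Sum.inr 1))
      rw [this]
      exact (B.rconst (k0 y)).mono (by norm_num) le_rfl (h1 y hy)

lemma TF_all {φ : Fin 6 → ℝ → P → (JJ → ℝ) → ℝ} {z0 : ℝ → JJ → P → ℝ × ℝ → ℝ}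
    (h : ∀ i, TF a b z0 (φ i)) :
    ∃ e1 : ℝ, 0 < e1 ∧ e1 ≤ 1 ∧ ∃ K : ℝ, 0 ≤ K ∧ ∀ y ∈ Icc a b, ∀ i ε, 0 ≤ ε → ε ≤ e1 →
      Tm 1 K (z0 y) (φ i ε) := by
  choose e he he1 K hK hT using h
  refine ⟨∏ i, e i, Finset.prod_pos (fun i _ => he i),
    Finset.prod_le_one (fun i _ => (he i).le) (fun i _ => he1 i), ∑ i, K i,
    Finset.sum_nonneg (fun i _ => hK i), fun y hy i ε h0 h1 => ?_⟩
  refine (hT i y hy ε h0 (h1.trans ?_)).mono (Finset.single_le_sum (fun j _ => hK j) (Finset.mem_univ i))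
  calc ∏ j, e j = e i * ∏ j ∈ Finset.univ.erase i, e j :=
        (Finset.mul_prod_erase _ _ (Finset.mem_univ i)).symm
    _ ≤ e i * 1 := by
        have := Finset.prod_le_one (s := Finset.univ.erase i) (f := e) (fun i _ => (he i).le)
          (fun i _ => he1 i)
        have := (he i).le
        gcongr
    _ = e i := mul_one _

variable (m : Mc) (ss si ti : C(P, ℝ))

/-- the perturbation as a function on the parameter space -/
noncomputable def gg (ε : ℝ) (i : Fin 6) (p : P) (z : JJ → ℝ) : ℝ :=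
  hg m ε (ss p) (si p) (ti p) z i

lemma Dj_Yh (ε : ℝ) (i : Fin 6) (j : JJ) (p : P) (z : JJ → ℝ)
    (hd : DifferentiableAt ℝ (gg m ss si ti ε i p) z) :
    Dj (Yh m ss si ti ε i) j p z = (if Sum.inr 0 = j then 1 else 0) * (lin z i + ε * gg m ss si ti ε i p z)
      + z (Sum.inr 0) * (Dj (P := P) (fun _ z => lin z i) j p z + ε * Dj (gg m ss si ti ε i) j p z) := by
  have h1 : Yh m ss si ti ε i = fun p z => z (Sum.inr 0) * (lin z i + ε * gg m ss si ti ε i p z) := rfl
  have d1 : DifferentiableAt ℝ (fun z : JJ → ℝ => z (Sum.inr 0)) z := differentiableAt_apply _ z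
  have d2 : DifferentiableAt ℝ (fun z : JJ → ℝ => lin z i) z := (lin_fderiv i z).differentiableAt
  have d4 : DifferentiableAt ℝ (fun z : JJ → ℝ => ε * gg m ss si ti ε i p z) z := hd.const_mul ε
  have d3 : DifferentiableAt ℝ (fun z : JJ → ℝ => lin z i + ε * gg m ss si ti ε i p z) z := d2.add d4
  rw [h1, Dj_mul (φ := fun _ z => z (Sum.inr 0))
    (ψ := fun p z => lin z i + ε * gg m ss si ti ε i p z) d1 d3, Dj_coord,
    Dj_add (φ := fun _ z => lin z i) (ψ := fun p z => ε * gg m ss si ti ε i p z) d2 d4,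
    Dj_mul (φ := fun _ _ => ε) (ψ := gg m ss si ti ε i) (differentiableAt_const _) hd, Dj_const]
  ring

lemma Er0 (hy : Ok y) {ε Kg k : ℝ} (hε : 0 ≤ ε) (hk : 0 ≤ k) (hKg : 0 ≤ Kg)
    (hg : ∀ i, Tm 1 Kg (z00 P y) (gg m ss si ti ε i)) (hb : (St0 P y).Bd 4 k) :
    (St0 P y).Er (mkF (Yh m ss si ti ε)) (om y) 4 ((Kg + 6 * (Kg * k)) * ε) := by
  have hz := nrz_self (P := P) (r := 4) zero_le_one (by norm_num) (z00 P y)
  have hX : 0 ≤ 6 * (Kg * k) := by positivity
  refine ⟨?_, ?_, ?_⟩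
  · intro i j
    have h1 := ((hg i).b0 4 (z00 P y) (by norm_num) le_rfl hz).smul (-ε) (by norm_num)
    refine (h1.congr (fun p x => ?_)).mono (by norm_num) le_rfl ?_
    · unfold St.E
      rw [Matrix.sub_apply]
      have e1 : dM (om y) (St0 P y).U p x i j = lin (fun j => z00 P y j p x) i := (lin_z00 hy p x i).symm
      have e2 : (mkF (Yh m ss si ti ε)).Y p (zz (St0 P y).U (St0 P y).q p x) i j
          = Yh m ss si ti ε i p (fun j => z00 P y j p x) := rfl
      have e3 : Yh m ss si ti ε i p (fun j => z00 P y j p x)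
          = 1 * (lin (fun j => z00 P y j p x) i + ε * gg m ss si ti ε i p (fun j => z00 P y j p x)) := rfl
      rw [e1, e2, e3]; ring
    · rw [abs_neg, abs_of_nonneg hε]
      nlinarith
  · intro i j
    have h1 := (B.sum (P := P) (r := 4) Finset.univ (fun (l : Fin 6) _ =>
      ((hg i).b1 4 (z00 P y) (by norm_num) le_rfl hz (Sum.inl l)).mul (hb.Pb l j) (by norm_num))
      (by norm_num)).smul (-ε) (by norm_num)
    refine (h1.congr (fun p x => ?_)).mono (by norm_num) le_rfl ?_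
    · have hd := (hg i).hd p x (fun j => z00 P y j p x) (hz.pt (by norm_num) p x)
      unfold St.R
      have e0 : (St0 P y).S p x = 0 := rfl
      have e1 : dM (om y) (St0 P y).Pb p x = dPb00 y x := dM_Pb00 hy p x
      have e2 : (St0 P y).Pb p x = Pb00 y x := rfl
      have e3 : (St0 P y).lam = ContinuousMap.const P (la y) := rfl
      have e4 : zz (St0 P y).U (St0 P y).q p x = fun j => z00 P y j p x := rfl
      rw [e0, e1, e2, e3, e4, Matrix.mul_zero, sub_zero]
      have e5 := congrFun (congrFun (red00 hy p x) i) j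
      rw [Matrix.sub_apply, Matrix.sub_apply, Matrix.zero_apply] at e5
      rw [Matrix.sub_apply, Matrix.sub_apply]
      have e6 : ((mkF (Yh m ss si ti ε)).A p (fun j => z00 P y j p x) * Pb00 y x) i j
          = (DL (k0 y) * Pb00 y x) i j + ε * ∑ l, Dj (gg m ss si ti ε i) (Sum.inl l) p
            (fun j => z00 P y j p x) * Pb00 y x l j := by
        rw [Matrix.mul_apply, Matrix.mul_apply, Finset.mul_sum, ← Finset.sum_add_distrib]
        refine Finset.sum_congr rfl (fun l _ => ?_)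
        have e7 : (mkF (Yh m ss si ti ε)).A p (fun j => z00 P y j p x) i l
            = Dj (Yh m ss si ti ε i) (Sum.inl l) p (fun j => z00 P y j p x) := rfl
        have e8 : z00 P y (Sum.inr 0) p x = 1 := rfl
        have e9 : z00 P y (Sum.inr 1) p x = k0 y := rfl
        rw [e7, Dj_Yh m ss si ti ε i (Sum.inl l) p _ hd, Dj_lin]
        simp only [e8, e9]
        simp
        ring
      rw [e6]
      linarith
    · rw [abs_neg, abs_of_nonneg hε, Finset.sum_const, Finset.card_univ, Fintype.card_fin,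
        nsmul_eq_mul]
      push_cast
      nlinarith
  · intro i j
    refine (B.zero.mono (by norm_num) le_rfl (by positivity) :
      B 4 ((Kg + 6 * (Kg * k)) * ε) (fun (_ : P) _ => (0 : ℝ))).congr (fun p x => ?_)
    have e1 : gd (St0 P y).U p x = G00 y x := gd_U00 y p x
    unfold St.F
    have e2 : (St0 P y).Pb p x = Pb00 y x := rfl
    have e3 : (St0 P y).Psa p x = Psa00 y x := rfl
    have e4 : (St0 P y).Psb p x = Psb00 y x := rfl
    rw [e1, e2, e3, e4, F00 hy, sub_self, Matrix.zero_apply]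

/-- mean matrix of the actual field at the initial torus -/
lemma mean_actual (hy : Ok y) {G : ℝ} (hω : Dio2 G (om y)) {ε Kg k : ℝ} (hk : 0 ≤ k) (hKg : 0 ≤ Kg)
    (hg : ∀ i, Tm 1 Kg (z00 P y) (gg m ss si ti ε i)) (hb : (St0 P y).Bd 4 k) :
    ∃ c : P → Matrix (Fin 2) (Fin 2) ℝ, (∀ p i j, |c p i j| ≤ 12 * (k * Kg)) ∧
      ∀ i j, Mn (om y) (fun p x => ((St0 P y).Psa p x * (mkF (Yh m ss si ti ε)).Bq p
        (zz (St0 P y).U (St0 P y).q p x)) i j) (fun p => C00 y i j + ε * c p i j) := by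
  have hz := nrz_self (P := P) (r := 4) zero_le_one (by norm_num) (z00 P y)
  -- the perturbation of Bq
  obtain ⟨B1, hB1⟩ : ∃ B1 : P → ℝ × ℝ → Matrix (Fin 6) (Fin 2) ℝ, B1 = fun p x =>
      Matrix.of fun i k => (if k = 0 then gg m ss si ti ε i p (fun j => z00 P y j p x) else 0)
        + Dj (gg m ss si ti ε i) (Sum.inr k) p (fun j => z00 P y j p x) := ⟨_, rfl⟩
  have hB1b : ∀ i k, B 4 (Kg + Kg) (fun p x => B1 p x i k) := by
    intro i k
    rw [hB1]
    simp only [Matrix.of_apply]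
    refine B.add ?_ ((hg i).b1 4 (z00 P y) (by norm_num) le_rfl hz (Sum.inr k)) (by norm_num)
    by_cases h : k = 0
    · simp only [h, if_true]
      exact (hg i).b0 4 (z00 P y) (by norm_num) le_rfl hz
    · simp only [h, if_false]
      exact B.zero.mono (by norm_num) le_rfl hKg
  have hBq : ∀ p x, (mkF (Yh m ss si ti ε)).Bq p (zz (St0 P y).U (St0 P y).q p x)
      = B00 y x + ε • B1 p x := by
    intro p x
    ext i k
    have hd := (hg i).hd p x (fun j => z00 P y j p x) (hz.pt (by norm_num) p x)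
    have e7 : (mkF (Yh m ss si ti ε)).Bq p (zz (St0 P y).U (St0 P y).q p x) i k
            = Dj (Yh m ss si ti ε i) (Sum.inr k) p (fun j => z00 P y j p x) := rfl
    rw [e7, Dj_Yh m ss si ti ε i (Sum.inr k) p _ hd, Matrix.add_apply, Matrix.smul_apply, hB1]
    simp only [Matrix.of_apply, smul_eq_mul]
    have z2 : z00 P y (Sum.inl 2) p x = c2 x := rfl
    have z3 : z00 P y (Sum.inl 3) p x = be y * s2 x := rfl
    have hl := lin_z00 (P := P) hy p x i
    rw [dM_U00] at hl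
    have hr0 : z00 P y (Sum.inr 0) p x = 1 := rfl
    have ha := hy.al_sq
    fin_cases k
    · have : Dj (P := P) (fun _ z => lin z i) (Sum.inr 0) p (fun j => z00 P y j p x) = 0 := Dj_lin0 _ _ _
      simp only [Fin.zero_eta, Fin.isValue, this, hl, hr0, if_true]
      have e8 : (![-(om y).1 * s1 x, (om y).1 * c1 x, -(om y).2 * s2 x, be y * ((om y).2 * c2 x),
        -al y * ((om y).2 * c2 x), al y * be y * (-(om y).2 * s2 x)] : Fin 6 → ℝ) i = B00 y x i 0 := by
        unfold B00 om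
        fin_cases i <;> simp
        · ring
        · linear_combination (c2 x) * ha
        · linear_combination (be y * s2 x) * ha
      rw [e8]; ring
    · have : Dj (P := P) (fun _ z => lin z i) (Sum.inr 1) p (fun j => z00 P y j p x) = _ := Dj_lin1 _ _ _
      simp only [Fin.mk_one, Fin.isValue, this, hr0]
      have e8 : (![0, 0, 0, 0, 2 * z00 P y (Sum.inl 2) p x, -z00 P y (Sum.inl 3) p x] : Fin 6 → ℝ) i
          = B00 y x i 1 := by
        unfold B00
        rw [z2, z3]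
        fin_cases i <;> simp
      rw [e8]
      simp
  -- means of the perturbation
  have hmean : ∀ i j, ∃ c : C(P, ℝ), ‖c‖ ≤ 12 * (k * Kg) ∧
      Mn (om y) (fun p x => ((St0 P y).Psa p x * B1 p x) i j) (fun p => c p) := by
    intro i j
    have h1 : MB 4 (Kg + Kg) B1 := hB1b
    have h2 := hb.Psa.mul h1 (by norm_num)
    obtain ⟨c, h3, h4⟩ := exists_meang hω (h2 i j) (by norm_num)
    refine ⟨c, h3.trans (le_of_eq ?_), h4⟩
    simp
    ring
  choose c hc1 hc2 using hmean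
  refine ⟨fun p => Matrix.of fun i j => c i j p, fun p i j =>
    ((c i j).norm_coe_le_norm p).trans (hc1 i j), fun i j => ?_⟩
  refine ((mean00 hy i j).add ((hc2 i j).smul ε)).congr (fun p x => ?_) (fun p => rfl)
  rw [hBq, Matrix.mul_add, Matrix.add_apply, Matrix.mul_smul, Matrix.smul_apply, smul_eq_mul]
  rfl

lemma Rg.cmc (h : Rg a b) : ContinuousOn mc (Icc a b) := by
  unfold mc
  exact (((((continuousOn_const (c := (2:ℝ))).mul h.cbt).add (h.ctt.mul continuousOn_id)).mul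
    h.cia).mul h.ciQ).div_const 4

lemma Ok.mc_pos (h : Ok y) : 0 < mc y := by
  have h1 := h.tt_pos
  have h2 := h.bt_pos
  have h3 := h.ia_pos
  have h4 := h.iQ_pos
  have h5 := h.y1
  unfold mc
  positivity

/-- The family of invariant tori. -/
theorem torus [Nonempty P] (hR : Rg a b) (G : ℝ) :
    ∃ e1 C : ℝ, 0 < e1 ∧ e1 ≤ 1 ∧ 0 ≤ C ∧ ∀ y ∈ Icc a b, Dio2 G (om y) → ∀ ε, 0 ≤ ε → ε ≤ e1 →
      ∃ (U : P → ℝ × ℝ → Matrix (Fin 6) Unit ℝ) (q : Fin 2 → C(P, ℝ)),
        (∀ p x, U p (-x) = Sg * U p x) ∧ MB 2 (C * ε) (fun p x => U p x - U00 y x) ∧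
        (∀ k, ‖q k - (St0 P y).q k‖ ≤ C * ε) ∧
        (∀ p x i, dM (om y) U p x i () = Yh m ss si ti ε i p (zz U q p x)) ∧ C * ε ≤ 1 := by
  obtain ⟨ey, hey, hey1, KY, hKY, hY⟩ := TF_all (P := P) (fun i => TF_Yh m ss si ti (z00_TF hR) i)
  obtain ⟨eg, heg, heg1, Kg, hKg, hg⟩ := TF_all (P := P) (fun i => TF_hg m ss si ti (z00_TF hR) i)
  obtain ⟨k, hk, hb⟩ := St0_bd (P := P) hR
  obtain ⟨δ1, hδ1, hδ1'⟩ := Rg.low hR.cla (fun y hy => (hR.ok hy).la_pos)
  obtain ⟨δ2, hδ2, hδ2'⟩ := Rg.low hR.cmc (fun y hy => (hR.ok hy).mc_pos)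
  obtain ⟨A, hA, hA'⟩ := CB.of_cont hR.cal
  obtain ⟨A2, hA2, hA2'⟩ := CB.of_cont hR.cmc
  obtain ⟨w, hw⟩ : ∃ w, w = 12 * (k * Kg) := ⟨_, rfl⟩
  have hw0 : 0 ≤ w := by rw [hw]; positivity
  obtain ⟨c0, hc0⟩ : ∃ c0, c0 = 1 + A + A2 := ⟨_, rfl⟩
  have hc00 : 0 ≤ c0 := by rw [hc0]; positivity
  obtain ⟨δ, hδ⟩ : ∃ δ, δ = min (δ1 / 2) (δ2 / 4) := ⟨_, rfl⟩
  have hδ0 : 0 < δ := by rw [hδ]; positivity
  have hδa : 2 * δ ≤ δ1 := by
    have : δ ≤ δ1 / 2 := by rw [hδ]; exact min_le_left _ _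
    linarith
  have hδb : 4 * δ ≤ δ2 := by
    have : δ ≤ δ2 / 4 := by rw [hδ]; exact min_le_right _ _
    linarith
  obtain ⟨e0, C0, he0, hC0, hkam⟩ := kam P (G := G) (c := c0 + w) one_pos hKY hk
    hδ0 (by positivity)
  obtain ⟨E1, hE1⟩ : ∃ E1, E1 = Kg + 6 * (Kg * k) := ⟨_, rfl⟩
  have hE10 : 0 ≤ E1 := by rw [hE1]; positivity
  obtain ⟨N, hN⟩ : ∃ N, N = 4 * (c0 * w) + 2 * w ^ 2 := ⟨_, rfl⟩
  have hN0 : 0 ≤ N := by rw [hN]; positivity
  refine ⟨min (min ey eg) (min (e0 / (E1 + 1)) (2 * δ / (N + 1))), C0 * E1,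
    by positivity, (min_le_left _ _).trans ((min_le_left _ _).trans hey1), by positivity, ?_⟩
  intro y hy hω ε hε he
  have hok := hR.ok hy
  have hy' : ε ≤ ey := he.trans ((min_le_left _ _).trans (min_le_left _ _))
  have hg' : ε ≤ eg := he.trans ((min_le_left _ _).trans (min_le_right _ _))
  have h0' : ε ≤ e0 / (E1 + 1) := he.trans ((min_le_right _ _).trans (min_le_left _ _))
  have hd' : ε ≤ 2 * δ / (N + 1) := he.trans ((min_le_right _ _).trans (min_le_right _ _))
  have hε1 : ε ≤ 1 := hy'.trans hey1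
  have hgT : ∀ i, Tm 1 Kg (z00 P y) (gg m ss si ti ε i) := fun i => hg y hy i ε hε hg'
  have hYT : ∀ i, Tm 1 KY (z00 P y) (Yh m ss si ti ε i) := fun i => hY y hy i ε hε hy'
  have hTame : (mkF (Yh m ss si ti ε)).Tame 4 1 KY (St0 P y).U (St0 P y).q :=
    tame_mk hKY hYT (Yh_rev m ss si ti ε)
  obtain ⟨c, hc1, hc2⟩ := mean_actual m ss si ti hok hω hk hKg hgT (hb y hy)
  rw [← hw] at hc1
  have hsm : E1 * ε ≤ e0 := by
    have h1 : 0 < E1 + 1 := by positivity
    calc E1 * ε ≤ (E1 + 1) * ε := by linarith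
      _ ≤ (E1 + 1) * (e0 / (E1 + 1)) := by gcongr
      _ = e0 := mul_div_cancel₀ _ h1.ne'
  have hsm2 : ε * N ≤ 2 * δ := by
    have h1 : 0 < N + 1 := by positivity
    rw [le_div_iff₀ h1] at hd'
    linarith
  have hCle : ∀ i j, |C00 y i j| ≤ c0 := by
    intro i j
    have a1 := hA' y hy
    have a2 := hA2' y hy
    rw [hc0]
    fin_cases i <;> fin_cases j <;> simp [C00] <;> linarith
  obtain ⟨U, q, h1, h2, h3, h4, h5⟩ := hkam (om y) hω (mkF (Yh m ss si ti ε)) (St0 P y)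
    (fun p => Matrix.of fun i j => C00 y i j + ε * c p i j) (E1 * ε) (by positivity) hsm hTame
    (St0_sym y) (hb y hy) (fun p => by
      have := hδ1' y hy
      change 2 * δ ≤ la y
      linarith) (fun p x => rfl)
    (fun i j => hc2 i j)
    (fun p i j => by
      rw [Matrix.of_apply]
      have a1 := hCle i j
      have a2 := hc1 p i j
      calc |C00 y i j + ε * c p i j| ≤ |C00 y i j| + |ε * c p i j| := abs_add_le _ _
        _ ≤ c0 + 1 * w := by
            rw [abs_mul, abs_of_nonneg hε]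
            gcongr
        _ = c0 + w := by ring)
    (fun p => by
      simp only [Matrix.of_apply]
      have a0 : C00 y 0 0 * C00 y 1 1 - C00 y 0 1 * C00 y 1 0 = mc y := by simp [C00]
      have a1 := hδ2' y hy
      have e : (C00 y 0 0 + ε * c p 0 0) * (C00 y 1 1 + ε * c p 1 1)
          - (C00 y 0 1 + ε * c p 0 1) * (C00 y 1 0 + ε * c p 1 0)
          = mc y + ε * (C00 y 0 0 * c p 1 1 + c p 0 0 * C00 y 1 1
            - C00 y 0 1 * c p 1 0 - c p 0 1 * C00 y 1 0 + ε * (c p 0 0 * c p 1 1 - c p 0 1 * c p 1 0)) := by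
        rw [← a0]; ring
      have f1 : |C00 y 0 0 * c p 1 1 + c p 0 0 * C00 y 1 1
            - C00 y 0 1 * c p 1 0 - c p 0 1 * C00 y 1 0 + ε * (c p 0 0 * c p 1 1 - c p 0 1 * c p 1 0)|
          ≤ N := by
        have g0 : |C00 y 0 0 * c p 1 1| ≤ c0 * w := by
          rw [abs_mul]; exact mul_le_mul (hCle _ _) (hc1 _ _ _) (abs_nonneg _) hc00
        have g1 : |c p 0 0 * C00 y 1 1| ≤ w * c0 := by
          rw [abs_mul]; exact mul_le_mul (hc1 _ _ _) (hCle _ _) (abs_nonneg _) hw0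
        have g2 : |C00 y 0 1 * c p 1 0| ≤ c0 * w := by
          rw [abs_mul]; exact mul_le_mul (hCle _ _) (hc1 _ _ _) (abs_nonneg _) hc00
        have g3 : |c p 0 1 * C00 y 1 0| ≤ w * c0 := by
          rw [abs_mul]; exact mul_le_mul (hc1 _ _ _) (hCle _ _) (abs_nonneg _) hw0
        have g4 : |c p 0 0 * c p 1 1| ≤ w * w := by
          rw [abs_mul]; exact mul_le_mul (hc1 _ _ _) (hc1 _ _ _) (abs_nonneg _) hw0
        have g5 : |c p 0 1 * c p 1 0| ≤ w * w := by
          rw [abs_mul]; exact mul_le_mul (hc1 _ _ _) (hc1 _ _ _) (abs_nonneg _) hw0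
        have g6 : |ε * (c p 0 0 * c p 1 1 - c p 0 1 * c p 1 0)| ≤ 1 * (w * w + w * w) := by
          rw [abs_mul, abs_of_nonneg hε]
          have := abs_sub (c p 0 0 * c p 1 1) (c p 0 1 * c p 1 0)
          have h7 : |c p 0 0 * c p 1 1 - c p 0 1 * c p 1 0| ≤ w * w + w * w := by linarith
          gcongr
        obtain ⟨g01, g02⟩ := _root_.abs_le.mp g0
        obtain ⟨g11, g12⟩ := _root_.abs_le.mp g1
        obtain ⟨g21, g22⟩ := _root_.abs_le.mp g2
        obtain ⟨g31, g32⟩ := _root_.abs_le.mp g3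
        obtain ⟨g61, g62⟩ := _root_.abs_le.mp g6
        have hN' : N = 4 * (c0 * w) + 2 * (w * w) := by rw [hN]; ring
        rw [_root_.abs_le, hN']
        constructor <;> linarith
      have f2 : |ε * (C00 y 0 0 * c p 1 1 + c p 0 0 * C00 y 1 1
            - C00 y 0 1 * c p 1 0 - c p 0 1 * C00 y 1 0 + ε * (c p 0 0 * c p 1 1 - c p 0 1 * c p 1 0))|
          ≤ 2 * δ := by
        rw [abs_mul, abs_of_nonneg hε]
        refine le_trans ?_ hsm2
        gcongr
      rw [e]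
      have f3 := (_root_.abs_le.mp f2).1
      rw [abs_of_nonneg (by linarith)]
      linarith)
    (by rw [hE1]; exact Er0 m ss si ti hok hε hk hKg hgT (hb y hy))
  refine ⟨U, q, h1, ?_, ?_, ?_, ?_⟩
  · rw [mul_assoc]; exact h2
  · intro k; rw [mul_assoc]; exact h3 k
  · intro p x i
    have := congrFun (congrFun (h4 p x) i) ()
    exact this
  · rw [mul_assoc]; exact h5

end Run7.k800g
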