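import Pool.Agent.Run7.k800g.ModeG2

set_option autoImplicit false
set_option linter.unusedSectionVars false

/-!
# The Jacobian
-/

namespace Run7.k800g

open Run7.k800 (WW mn mn_add mn_sub mn_smul mn_abs_le mn_congr mn_const DD DD_sn DD_cc ibp cc sn cc_WW sn_WW cc_le sn_le c1 s1 c2 s2 c1_le c2_le s2_le W_c1 W_s1 W_c2 W_s2 kk sb sb_sq mn_c2_kk mn_s2_kk mn_c1c2_kk mn_c1s2_kk dot c1c2_eq c1s2_eq Jac DD_comm DD_s1 DD_c1 DD_s2 DD_c2 mn_c1_c2c2 DD_mul)
open Filter Topology Set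

variable {a b M : ℝ}

lemma oXY (hR : Rg a b) (hM : 0 ≤ M) :
    On (Ds a b M) 2 (fun ε i => mn (fun x => i.w1 x * (c1 x * c2 x)) - ε * i.σ * xh i.y) ∧
    On (Ds a b M) 2 (fun ε i => mn (fun x => i.w2 x * (c1 x * s2 x)) - ε * i.σ * (al i.y * yh i.y)) := by
  obtain ⟨a1, a2⟩ := mode hR hM true
  obtain ⟨b1, b2⟩ := mode hR hM false
  constructor
  · refine ((a1.cmul (1 / 2)).add (b1.cmul (1 / 2))).congr (fun ε i hi => ?_)
    have e1 : mn (fun x => i.w1 x * (c1 x * c2 x)) = 1 / 2 * mn (fun x => i.w1 x * cc (kk false) x)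
        + 1 / 2 * mn (fun x => i.w1 x * cc (kk true) x) := by
      rw [← mn_smul _ (hi.ww1.mul (cc_WW _)), ← mn_smul _ (hi.ww1.mul (cc_WW _)),
        ← mn_add ((hi.ww1.mul (cc_WW _)).smul _) ((hi.ww1.mul (cc_WW _)).smul _)]
      refine mn_congr (fun x => ?_)
      rw [c1c2_eq]
      simp only [kk]
      norm_num
      ring
    have x1 : Xc true i.y + Xc false i.y = 2 * xh i.y := by simp [Xc, sb]; ring
    rw [e1]
    linear_combination (-(ε * i.σ) / 2) * x1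
  · refine ((a2.cmul (1 / 2)).sub (b2.cmul (1 / 2))).congr (fun ε i hi => ?_)
    have e2 : mn (fun x => i.w2 x * (c1 x * s2 x)) = 1 / 2 * mn (fun x => i.w2 x * sn (kk true) x)
        - 1 / 2 * mn (fun x => i.w2 x * sn (kk false) x) := by
      rw [← mn_smul _ (hi.ww2.mul (sn_WW _)), ← mn_smul _ (hi.ww2.mul (sn_WW _)),
        ← mn_sub ((hi.ww2.mul (sn_WW _)).smul _) ((hi.ww2.mul (sn_WW _)).smul _)]
      refine mn_congr (fun x => ?_)
      rw [c1s2_eq]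
      simp only [kk]
      norm_num
      ring
    have x2 : Yc true i.y - Yc false i.y = 2 * (al i.y * yh i.y) := by simp [Yc, sb]; ring
    rw [e2]
    linear_combination (-(ε * i.σ) / 2) * x2

/-- first order coefficient of the Jacobian -/
noncomputable def J0 (y : ℝ) : ℝ := -(be y * xh y + al y * yh y)

/-- The mean of the Jacobian against the first sine. -/
lemma ojac (hR : Rg a b) (hM : 0 ≤ M) :
    On (Ds a b M) 2 (fun ε i => mn (fun x => Jac i.w1 i.w2 x * s1 x) - ε * i.σ * J0 i.y) := by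
  obtain ⟨hX, hY⟩ := oXY hR hM
  have cbe := CB.of_cont hR.cbe
  obtain ⟨EE, hEE⟩ : ∃ EE : ℝ → Da → ℝ, EE = fun _ i =>
      mn (fun x => (i.w1 x - c2 x) * (DD (0, 1) i.w2 x - be i.y * c2 x) * c1 x) := ⟨_, rfl⟩
  have oE : On (Ds a b M) 2 EE := by
    rw [hEE]
    refine On.mn (φ := fun (_ : ℝ) (i : Da) x =>
      (i.w1 x - c2 x) * (DD (0, 1) i.w2 x - be i.y * c2 x) * c1 x) ?_
      (fun ε i (hi : Sl a b M ε i) =>
        ((hi.ww1.sub W_c2).mul ((hi.ww2.pd (0, 1)).sub (W_c2.smul _))).mul W_c1)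
    exact ((ow1 hM).mul (od2 hM)).mul0 (oX c1_le)
  refine ((((oC cbe).mul0' hX).add (hY.add oE)).neg).congr (fun ε i hi => ?_)
  have W1 := hi.ww1
  have W2 := hi.ww2
  have Wd2 := W2.pd (0, 1)
  have Wd1 := W2.pd (1, 0)
  have e1 : mn (fun x => Jac i.w1 i.w2 x * s1 x) = -mn (fun x => i.w1 x * DD (0, 1) i.w2 x * c1 x) := by
    have p1 := ibp (W1.mul Wd2) W_s1 (1, 0)
    have p2 := ibp (W1.mul Wd1) W_s1 (0, 1)
    have q1 : mn (fun x => i.w1 x * DD (0, 1) i.w2 x * DD (1, 0) s1 x)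
        = mn (fun x => i.w1 x * DD (0, 1) i.w2 x * c1 x) := mn_congr (fun x => by rw [DD_s1]; ring)
    have q2 : mn (fun x => i.w1 x * DD (1, 0) i.w2 x * DD (0, 1) s1 x) = 0 := by
      have : mn (fun x => i.w1 x * DD (1, 0) i.w2 x * DD (0, 1) s1 x) = mn (fun _ => 0) :=
        mn_congr (fun x => by rw [DD_s1]; ring)
      rw [this, mn_const]
    rw [q1] at p1
    rw [q2, neg_zero] at p2
    have q3 : mn (fun x => Jac i.w1 i.w2 x * s1 x)
        = mn (fun x => DD (1, 0) (fun x => i.w1 x * DD (0, 1) i.w2 x) x * s1 x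
          - DD (0, 1) (fun x => i.w1 x * DD (1, 0) i.w2 x) x * s1 x) := by
      refine mn_congr (fun x => ?_)
      rw [DD_mul W1 Wd2, DD_mul W1 Wd1, DD_comm W2 (1, 0) (0, 1)]
      unfold Jac; ring
    rw [q3, mn_sub (((W1.mul Wd2).pd _).mul W_s1) (((W1.mul Wd1).pd _).mul W_s1), p1, p2]
    ring
  have e2 : mn (fun x => i.w1 x * DD (0, 1) i.w2 x * c1 x)
      = be i.y * mn (fun x => i.w1 x * (c1 x * c2 x)) + mn (fun x => i.w2 x * (c1 x * s2 x))
        + mn (fun x => (i.w1 x - c2 x) * (DD (0, 1) i.w2 x - be i.y * c2 x) * c1 x) := by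
    have r1 : mn (fun x => DD (0, 1) i.w2 x * (c1 x * c2 x)) = mn (fun x => i.w2 x * (c1 x * s2 x)) := by
      rw [ibp W2 (W_c1.mul W_c2) (0, 1)]
      have : mn (fun x => i.w2 x * DD (0, 1) (fun x => c1 x * c2 x) x)
          = mn (fun x => -1 * (i.w2 x * (c1 x * s2 x))) := by
        refine mn_congr (fun x => ?_)
        rw [DD_mul W_c1 W_c2, DD_c1, DD_c2]; ring
      rw [this, mn_smul _ (W2.mul (W_c1.mul W_s2))]; ring
    have r2 := mn_c1_c2c2
    have Wa := (W1.mul (W_c1.mul W_c2)).smul (be i.y)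
    have Wb := Wd2.mul (W_c1.mul W_c2)
    have Wc := (W_c1.mul (W_c2.mul W_c2)).smul (-be i.y)
    have Wd := ((W1.sub W_c2).mul (Wd2.sub (W_c2.smul (be i.y)))).mul W_c1
    have r3 : mn (fun x => i.w1 x * DD (0, 1) i.w2 x * c1 x)
        = mn (fun x => (be i.y * (i.w1 x * (c1 x * c2 x)) + DD (0, 1) i.w2 x * (c1 x * c2 x))
          + (-be i.y * (c1 x * (c2 x * c2 x))
          + (i.w1 x - c2 x) * (DD (0, 1) i.w2 x - be i.y * c2 x) * c1 x)) :=
      mn_congr (fun x => by ring)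
    rw [r3, mn_add (Wa.add Wb) (Wc.add Wd), mn_add Wa Wb, mn_add Wc Wd,
      mn_smul _ (W1.mul (W_c1.mul W_c2)), mn_smul _ (W_c1.mul (W_c2.mul W_c2)), r1, r2]
    ring
  rw [e1, e2, hEE]
  simp only
  unfold J0
  ring

/-- auxiliary polynomial -/
noncomputable def Nn (y : ℝ) : ℝ := 48 - 88 * y - 64 * y ^ 2 + 102 * y ^ 3 + 43 * y ^ 4 - 5 * y ^ 5

lemma Ok.Nn_pos {y : ℝ} (h : Ok y) : 0 < Nn y := by
  have h1 := h.y1
  have h2 := h.y2
  have h3 : 1 ≤ y ^ 2 := by nlinarith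
  have h4 : y ^ 2 ≤ y ^ 3 := by nlinarith [sq_nonneg y]
  have h5 : y ^ 2 ≤ y ^ 4 := by nlinarith [sq_nonneg y]
  have h6 : y ^ 5 ≤ 2 * y ^ 4 := by
    have : 0 ≤ y ^ 4 := by positivity
    nlinarith
  unfold Nn
  nlinarith [sq_nonneg (y - 1)]

lemma Ok.J0_eq {y : ℝ} (h : Ok y) : J0 y * qq y = -(al y * Nn y) := by
  have h2 := h.qq_neg.ne
  unfold J0 be xh yh Nn
  field_simp
  ring

lemma Ok.J0_pos {y : ℝ} (h : Ok y) : 0 < J0 y := by
  have h1 := h.J0_eq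
  have h2 := h.qq_neg
  have h3 := mul_pos h.al_pos h.Nn_pos
  by_contra hcon
  push Not at hcon
  have := mul_nonneg_of_nonpos_of_nonpos hcon h2.le
  linarith

lemma Rg.cJ0 {a b : ℝ} (h : Rg a b) : ContinuousOn J0 (Icc a b) := by
  obtain ⟨h1, -, h3, -⟩ := h.cxh
  unfold J0
  exact ((h.cbe.mul h1).add (h.cal.mul h3)).neg

end Run7.k800g
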