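import Pool.Agent.Run7.k800g.TwistG

set_option autoImplicit false
set_option linter.unusedSectionVars false

/-!
# The twist
-/

namespace Run7.k800g

open Run7.k800 (WW mn mn_add mn_sub mn_smul mn_abs_le mn_congr mn_const DD DD_sn DD_cc ibp cc sn cc_WW sn_WW cc_le sn_le c1 s1 c2 s2 c1_le c2_le s2_le W_c1 W_s1 W_c2 W_s2 kk sb sb_sq mn_c2_kk mn_s2_kk mn_c1c2_kk mn_c1s2_kk dot c1c2_eq c1s2_eq Jac DD_comm DD_s1 DD_c1 DD_s2 DD_c2 mn_c1_c2c2 DD_mul mn_c1_s2s2 mn_c1c2_sq mn_c1s2_sq mn_close mn_cc_self mn_sn_self dot_add cc_mul_cc sn_mul_sn c2_eq s2_eq)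
open Filter Topology Set

/-- the boundary conditions on the data -/
structure Bd (a b M ε : ℝ) (i : Da) : Prop where
  sl : Sl a b M ε i
  hu : ∀ x, DD (om i.y) i.u x = -(i.mu * i.v x)
  hv : ∀ x, DD (om i.y) i.v x = i.mu * i.u x
  hT1 : ∀ x, (1 + ε * i.σ * i.u x) * (DD (om i.y) i.p1 x - i.mu * (2 * i.p2 x))
    = i.mu * ((2 * i.ka + 1) * i.w1 x)
  hT2 : ∀ x, (1 + ε * i.σ * i.u x) * (DD (om i.y) i.p2 x + i.mu * (2 * i.p1 x))
    = -(i.mu * ((i.ka - 1) * i.w2 x))

/-- the boundary data -/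
def Db (a b M : ℝ) : ℝ → Set Da := fun ε => {i | Bd a b M ε i}

/-- the boundary data with unit time scale -/
def Dc1 (a b M : ℝ) : ℝ → Set Da := fun ε => {i | Bd a b M ε i ∧ i.mu = 1}

section gen

variable {ι : Type*} {D : ℝ → Set ι} {n : ℕ} {φ : ℝ → ι → ℝ}

lemma On.shrink {D' : ℝ → Set ι} (h : On D' n φ) {e : ℝ} (he : 0 < e)
    (hD : ∀ ε, 0 ≤ ε → ε ≤ e → D ε ⊆ D' ε) : On D n φ := by
  obtain ⟨e1, K1, h1, h1', hK1, h2⟩ := h
  refine ⟨min e1 e, K1, lt_min h1 he, (min_le_left _ _).trans h1', hK1, fun ε h0 hε i hi => ?_⟩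
  exact h2 ε h0 (hε.trans (min_le_left _ _)) i (hD ε h0 (hε.trans (min_le_right _ _)) hi)

end gen

variable {a b M : ℝ}

lemma Dc1_sub : ∀ ε, Dc1 a b M ε ⊆ Ds a b M ε := fun _ _ hi => hi.1.sl

/-- the time scale is one -/
lemma Bd.mu_one {ε : ℝ} {i : Da} (h : Bd a b M ε i) (hMε : M * ε ≤ 1 / 10) : i.mu = 1 := by
  obtain ⟨hs, hu, hv, -, -⟩ := h
  have wu := hs.wu
  have wv := hs.wv
  have a1 : mn (fun x => i.u x * c1 x) = i.mu * mn (fun x => i.v x * s1 x) := by
    have := ibp wu W_s1 (om i.y)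
    have e1 : mn (fun x => DD (om i.y) i.u x * s1 x) = mn (fun x => -i.mu * (i.v x * s1 x)) :=
      mn_congr (fun x => by rw [hu]; ring)
    have e2 : mn (fun x => i.u x * DD (om i.y) s1 x) = mn (fun x => i.u x * c1 x) :=
      mn_congr (fun x => by rw [DD_s1]; simp [om])
    rw [e1, e2, mn_smul _ (wv.mul W_s1)] at this
    linarith
  have a2 : mn (fun x => i.v x * s1 x) = i.mu * mn (fun x => i.u x * c1 x) := by
    have := ibp wv W_c1 (om i.y)
    have e1 : mn (fun x => DD (om i.y) i.v x * c1 x) = mn (fun x => i.mu * (i.u x * c1 x)) :=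
      mn_congr (fun x => by rw [hv]; ring)
    have e2 : mn (fun x => i.v x * DD (om i.y) c1 x) = mn (fun x => -1 * (i.v x * s1 x)) :=
      mn_congr (fun x => by rw [DD_c1]; simp [om])
    rw [e1, e2, mn_smul _ (wu.mul W_c1), mn_smul _ (wv.mul W_s1)] at this
    linarith
  have a3 : mn (fun x => c1 x * c1 x) = 1 / 2 := mn_cc_self (by simp)
  have a4 := mn_close wu W_c1 W_c1 hs.cu c1_le
  rw [a3] at a4
  have a5 : (2 : ℝ) / 5 ≤ mn (fun x => i.u x * c1 x) := by
    have := (abs_le.mp a4).1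
    linarith
  have a6 : (i.mu ^ 2 - 1) * mn (fun x => i.u x * c1 x) = 0 := by
    rw [a2] at a1
    linear_combination -a1
  have a7 : i.mu ^ 2 - 1 = 0 := (mul_eq_zero.mp a6).resolve_right (by linarith)
  have h2 := abs_le.mp hs.cmu
  have a8 : (i.mu - 1) * (i.mu + 1) = 0 := by linear_combination a7
  rcases mul_eq_zero.mp a8 with h3 | h3
  · linarith
  · linarith

/-- orthogonality -/
lemma Bd.u_orth {ε : ℝ} {i : Da} (h : Bd a b M ε i) (hmu : i.mu = 1) {k : ℤ × ℤ}
    (hk : (dot k (om i.y)) ^ 2 ≠ 1) : mn (fun x => i.u x * cc k x) = 0 := by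
  obtain ⟨hs, hu, hv, -, -⟩ := h
  have wu := hs.wu
  have wv := hs.wv
  rw [hmu] at hu hv
  have a1 : mn (fun x => i.v x * sn k x) = dot k (om i.y) * mn (fun x => i.u x * cc k x) := by
    have := ibp wu (sn_WW k) (om i.y)
    have e1 : mn (fun x => DD (om i.y) i.u x * sn k x) = mn (fun x => -1 * (i.v x * sn k x)) :=
      mn_congr (fun x => by rw [hu]; ring)
    have e2 : mn (fun x => i.u x * DD (om i.y) (sn k) x)
        = mn (fun x => dot k (om i.y) * (i.u x * cc k x)) :=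
      mn_congr (fun x => by rw [DD_sn]; ring)
    rw [e1, e2, mn_smul _ (wv.mul (sn_WW k)), mn_smul _ (wu.mul (cc_WW k))] at this
    linarith
  have a2 : mn (fun x => i.u x * cc k x) = dot k (om i.y) * mn (fun x => i.v x * sn k x) := by
    have := ibp wv (cc_WW k) (om i.y)
    have e1 : mn (fun x => DD (om i.y) i.v x * cc k x) = mn (fun x => i.u x * cc k x) :=
      mn_congr (fun x => by rw [hv, one_mul])
    have e2 : mn (fun x => i.v x * DD (om i.y) (cc k) x)
        = mn (fun x => -dot k (om i.y) * (i.v x * sn k x)) :=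
      mn_congr (fun x => by rw [DD_cc]; ring)
    rw [e1, e2, mn_smul _ (wv.mul (sn_WW k))] at this
    linarith
  rw [a1] at a2
  have a3 : ((dot k (om i.y)) ^ 2 - 1) * mn (fun x => i.u x * cc k x) = 0 := by linear_combination -a2
  rcases mul_eq_zero.mp a3 with h3 | h3
  · exact absurd (by linarith) hk
  · exact h3

lemma dot0_sq' (y : ℝ) : (dot 0 (om y)) ^ 2 ≠ 1 := by simp [dot]

lemma Ok.dot2_sq {y : ℝ} (h : Ok y) : (dot ((0, 1) + (0, 1)) (om y)) ^ 2 ≠ 1 := by
  have ha := h.al_gt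
  have e : dot ((0, 1) + (0, 1)) (om y) = 2 * al y := by
    rw [dot_add]
    simp [dot, om]
    ring
  rw [e]
  intro h1
  nlinarith

/-- orthogonality relations -/
lemma Bd.orth {ε : ℝ} {i : Da} (h : Bd a b M ε i) (hR : Rg a b) (hmu : i.mu = 1) :
    mn (fun x => i.u x * (c2 x * c2 x)) = 0 ∧ mn (fun x => i.u x * (s2 x * s2 x)) = 0 := by
  have WU := h.sl.wu
  have hok := hR.ok h.sl.hy
  have z0 := h.u_orth hmu (dot0_sq' i.y)
  have z2 := h.u_orth hmu hok.dot2_sq
  constructor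
  · have e : mn (fun x => i.u x * (c2 x * c2 x)) = mn (fun x => 1 / 2 * (i.u x * cc 0 x)
        + 1 / 2 * (i.u x * cc ((0, 1) + (0, 1)) x)) := mn_congr (fun x => by
      have := cc_mul_cc (0, 1) (0, 1) x
      rw [sub_self] at this
      rw [c2_eq, this]; ring)
    rw [e, mn_add ((WU.mul (cc_WW _)).smul _) ((WU.mul (cc_WW _)).smul _),
      mn_smul _ (WU.mul (cc_WW _)), mn_smul _ (WU.mul (cc_WW _)), z0, z2]
    ring
  · have e : mn (fun x => i.u x * (s2 x * s2 x)) = mn (fun x => 1 / 2 * (i.u x * cc 0 x)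
        - 1 / 2 * (i.u x * cc ((0, 1) + (0, 1)) x)) := mn_congr (fun x => by
      have := sn_mul_sn (0, 1) (0, 1) x
      rw [sub_self] at this
      rw [s2_eq, this]; ring)
    rw [e, mn_sub ((WU.mul (cc_WW _)).smul _) ((WU.mul (cc_WW _)).smul _),
      mn_smul _ (WU.mul (cc_WW _)), mn_smul _ (WU.mul (cc_WW _)), z0, z2]
    ring

/-- the first force -/
noncomputable def T1 (i : Da) (x : ℝ × ℝ) : ℝ := DD (om i.y) i.p1 x - 2 * i.p2 x
/-- the second force -/
noncomputable def T2 (i : Da) (x : ℝ × ℝ) : ℝ := DD (om i.y) i.p2 x + 2 * i.p1 x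

lemma Sl.WT1 {ε : ℝ} {i : Da} (h : Sl a b M ε i) : WW (T1 i) :=
  (h.wp1.pd (om i.y)).sub (h.wp2.smul 2)
lemma Sl.WT2 {ε : ℝ} {i : Da} (h : Sl a b M ε i) : WW (T2 i) :=
  (h.wp2.pd (om i.y)).add (h.wp1.smul 2)

/-- the exact linear relations -/
lemma Bd.lin {ε : ℝ} {i : Da} (h : Bd a b M ε i) (hR : Rg a b) (hmu : i.mu = 1) :
    (∀ x, T1 i x = (2 * i.ka + 1) * i.w1 x - ε * i.σ * (i.u x * T1 i x)) ∧
    (∀ x, T2 i x = -(i.ka - 1) * i.w2 x - ε * i.σ * (i.u x * T2 i x)) ∧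
    (i.ka - k0 i.y) * (2 * mn (fun x => i.w1 x * c2 x) - be i.y * mn (fun x => i.w2 x * s2 x))
      = ε * i.σ * (mn (fun x => i.u x * T1 i x * c2 x) + be i.y * mn (fun x => i.u x * T2 i x * s2 x)) := by
  have hs := h.sl
  have W1 := hs.ww1
  have W2 := hs.ww2
  have WU := hs.wu
  have WT1 := hs.WT1
  have WT2 := hs.WT2
  have hok := hR.ok hs.hy
  have q1 : ∀ x, T1 i x = (2 * i.ka + 1) * i.w1 x - ε * i.σ * (i.u x * T1 i x) := fun x => by
    have := h.hT1 x
    rw [hmu] at this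
    unfold T1
    linear_combination this
  have q2 : ∀ x, T2 i x = -(i.ka - 1) * i.w2 x - ε * i.σ * (i.u x * T2 i x) := fun x => by
    have := h.hT2 x
    rw [hmu] at this
    unfold T2
    linear_combination this
  refine ⟨q1, q2, ?_⟩
  have j1 : mn (fun x => i.p1 x * s2 x) = -al i.y * mn (fun x => i.w1 x * c2 x) := by
    have : mn (fun x => DD (om i.y) i.w1 x * s2 x) = mn (fun x => i.p1 x * s2 x) :=
      mn_congr (fun x => by rw [hs.e1, hmu, one_mul])
    rw [← this, ibp W1 W_s2 (om i.y)]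
    have : mn (fun x => i.w1 x * DD (om i.y) s2 x) = mn (fun x => al i.y * (i.w1 x * c2 x)) :=
      mn_congr (fun x => by rw [DD_s2]; simp only [om]; ring)
    rw [this, mn_smul _ (W1.mul W_c2)]; ring
  have j2 : mn (fun x => i.p2 x * c2 x) = al i.y * mn (fun x => i.w2 x * s2 x) := by
    have : mn (fun x => DD (om i.y) i.w2 x * c2 x) = mn (fun x => i.p2 x * c2 x) :=
      mn_congr (fun x => by rw [hs.e2, hmu, one_mul])
    rw [← this, ibp W2 W_c2 (om i.y)]
    have : mn (fun x => i.w2 x * DD (om i.y) c2 x) = mn (fun x => -al i.y * (i.w2 x * s2 x)) :=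
      mn_congr (fun x => by rw [DD_c2]; simp only [om]; ring)
    rw [this, mn_smul _ (W2.mul W_s2)]; ring
  have m1 : mn (fun x => T1 i x * c2 x) = -tt i.y * mn (fun x => i.w1 x * c2 x)
      - 2 * al i.y * mn (fun x => i.w2 x * s2 x) := by
    have i1 : mn (fun x => DD (om i.y) i.p1 x * c2 x) = al i.y * mn (fun x => i.p1 x * s2 x) := by
      rw [ibp hs.wp1 W_c2 (om i.y)]
      have : mn (fun x => i.p1 x * DD (om i.y) c2 x) = mn (fun x => -al i.y * (i.p1 x * s2 x)) :=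
        mn_congr (fun x => by rw [DD_c2]; simp only [om]; ring)
      rw [this, mn_smul _ (hs.wp1.mul W_s2)]; ring
    have e : mn (fun x => T1 i x * c2 x) = mn (fun x => DD (om i.y) i.p1 x * c2 x
        - 2 * (i.p2 x * c2 x)) := mn_congr (fun x => by unfold T1; ring)
    rw [e, mn_sub ((hs.wp1.pd (om i.y)).mul W_c2) ((hs.wp2.mul W_c2).smul 2),
      mn_smul _ (hs.wp2.mul W_c2), i1, j1, j2, ← hok.al_sq]
    ring
  have m2 : mn (fun x => T2 i x * s2 x) = -tt i.y * mn (fun x => i.w2 x * s2 x)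
      - 2 * al i.y * mn (fun x => i.w1 x * c2 x) := by
    have i1 : mn (fun x => DD (om i.y) i.p2 x * s2 x) = -al i.y * mn (fun x => i.p2 x * c2 x) := by
      rw [ibp hs.wp2 W_s2 (om i.y)]
      have : mn (fun x => i.p2 x * DD (om i.y) s2 x) = mn (fun x => al i.y * (i.p2 x * c2 x)) :=
        mn_congr (fun x => by rw [DD_s2]; simp only [om]; ring)
      rw [this, mn_smul _ (hs.wp2.mul W_c2)]; ring
    have e : mn (fun x => T2 i x * s2 x) = mn (fun x => DD (om i.y) i.p2 x * s2 x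
        + 2 * (i.p1 x * s2 x)) := mn_congr (fun x => by unfold T2; ring)
    rw [e, mn_add ((hs.wp2.pd (om i.y)).mul W_s2) ((hs.wp1.mul W_s2).smul 2),
      mn_smul _ (hs.wp1.mul W_s2), i1, j1, j2, ← hok.al_sq]
    ring
  have m3 : mn (fun x => T1 i x * c2 x) = (2 * i.ka + 1) * mn (fun x => i.w1 x * c2 x)
      - ε * i.σ * mn (fun x => i.u x * T1 i x * c2 x) := by
    have e : mn (fun x => T1 i x * c2 x) = mn (fun x => (2 * i.ka + 1) * (i.w1 x * c2 x)
        - ε * i.σ * (i.u x * T1 i x * c2 x)) := mn_congr (fun x => by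
      have := q1 x
      linear_combination c2 x * this)
    rw [e, mn_sub ((W1.mul W_c2).smul _) (((WU.mul WT1).mul W_c2).smul _),
      mn_smul _ (W1.mul W_c2), mn_smul _ ((WU.mul WT1).mul W_c2)]
  have m4 : mn (fun x => T2 i x * s2 x) = -(i.ka - 1) * mn (fun x => i.w2 x * s2 x)
      - ε * i.σ * mn (fun x => i.u x * T2 i x * s2 x) := by
    have e : mn (fun x => T2 i x * s2 x) = mn (fun x => -(i.ka - 1) * (i.w2 x * s2 x)
        - ε * i.σ * (i.u x * T2 i x * s2 x)) := mn_congr (fun x => by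
      have := q2 x
      linear_combination s2 x * this)
    rw [e, mn_sub ((W2.mul W_s2).smul _) (((WU.mul WT2).mul W_s2).smul _),
      mn_smul _ (W2.mul W_s2), mn_smul _ ((WU.mul WT2).mul W_s2)]
  rw [m1] at m3
  rw [m2] at m4
  have r1 := hok.r1
  have r3 := hok.r3
  have r4 := hok.r4
  have rb := hok.rb
  have ha := hok.al_sq
  have r5 : aa i.y = tt i.y * (i.y + 1) := rfl
  generalize mn (fun x => i.w1 x * c2 x) = x0 at *
  generalize mn (fun x => i.w2 x * s2 x) = y0 at *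
  generalize mn (fun x => i.u x * T1 i x * c2 x) = Z1 at *
  generalize mn (fun x => i.u x * T2 i x * s2 x) = Z2 at *
  generalize be i.y = B at *
  generalize al i.y = α at *
  have e1 : (tt i.y + aa i.y) * 1 + 2 * α * B = 0 := by
    rw [r5, ← ha]
    linear_combination α * rb
  have e2 : 2 * α + B * (tt i.y - bt i.y) = 0 := by
    have h2 : (i.y + 2) ≠ 0 := by have := hok.y1; linarith
    have : (i.y + 2) * (2 * α + B * (tt i.y - bt i.y)) = 0 := by
      linear_combination B * r1 + 2 * rb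
    exact (mul_eq_zero.mp this).resolve_left h2
  linear_combination (-1) * m3 - B * m4 - x0 * e1 - y0 * e2 - x0 * r4 + B * y0 * r3

end Run7.k800g
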