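import Pool.Agent.Run7.k800g.TwistG2

set_option autoImplicit false
set_option linter.unusedSectionVars false

/-!
# The twist
-/

namespace Run7.k800g

open Run7.k800 (WW mn mn_add mn_sub mn_smul mn_abs_le mn_congr mn_const DD DD_sn DD_cc ibp cc sn cc_WW sn_WW cc_le sn_le c1 s1 c2 s2 c1_le c2_le s2_le W_c1 W_s1 W_c2 W_s2 kk sb sb_sq mn_c2_kk mn_s2_kk mn_c1c2_kk mn_c1s2_kk dot c1c2_eq c1s2_eq Jac DD_comm DD_s1 DD_c1 DD_s2 DD_c2 mn_c1_c2c2 DD_mul mn_c1_s2s2 mn_c1c2_sq mn_c1s2_sq mn_close mn_cc_self mn_sn_self)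
open Filter Topology Set

variable {a b M : ℝ}

/-- second order coefficient -/
noncomputable def NN (y : ℝ) : ℝ :=
  aa y * (xh y - 1 / 4) + be y * (bt y * (be y / 4 - al y * yh y))
/-- the denominator -/
noncomputable def dn (y : ℝ) : ℝ := 1 - be y * be y / 2
/-- the twist coefficient -/
noncomputable def A1 (y : ℝ) : ℝ := -(NN y) / dn y

lemma Ok.dn_neg {y : ℝ} (h : Ok y) : dn y < 0 := by
  have h1 := h.al_sq
  have h2 := h.y1
  have h3 : be y * be y = tt y * (y + 2) ^ 2 / 4 := by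
    rw [← h1]; unfold be; ring
  have h4 : tt y * (y + 2) ^ 2 = (3 * y - 2) * (y + 2) / (y - 1) := by
    have a1 : y + 2 ≠ 0 := by linarith
    have a2 : y - 1 ≠ 0 := by linarith
    unfold tt eE
    field_simp
  unfold dn
  rw [h3, h4]
  have h5 : 8 * (y - 1) < (3 * y - 2) * (y + 2) := by nlinarith [sq_nonneg (y - 1)]
  have h6 : 8 < (3 * y - 2) * (y + 2) / (y - 1) := by
    rw [lt_div_iff₀ (by linarith)]; exact h5
  linarith

lemma Ok.NN_pos {y : ℝ} (h : Ok y) : 0 < NN y := by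
  have h1 := h.al_sq
  have h2 := h.y1
  have h3 := h.y2
  have hq := h.qq_neg
  have hE := h.eE_pos
  have e0 : NN y = tt y * (y + 1) * (xh y - 1 / 4) + bt y * (tt y * (y + 2) ^ 2 / 16
      + tt y * (y + 2) / 2 * yh y) := by
    rw [← h1]
    unfold NN be aa
    rw [← h1]
    ring
  have e1 : NN y * (2 * qq y * (y - 1) * eE y) = 3 * y ^ 2 * (2 - y)
      * (24 * y ^ 4 - 55 * y ^ 3 - 22 * y ^ 2 + 68 * y - 24) := by
    have a1 : y + 2 ≠ 0 := by linarith
    have a2 : y - 1 ≠ 0 := by linarith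
    have a3 := hq.ne
    rw [e0]
    unfold tt bt xh yh eE
    field_simp
    unfold qq
    ring
  have e2 : 24 * y ^ 4 - 55 * y ^ 3 - 22 * y ^ 2 + 68 * y - 24 < 0 := by
    obtain ⟨z, hz⟩ : ∃ z, z = y - 1 := ⟨_, rfl⟩
    have hy : y = z + 1 := by linarith
    have z0 : 0 < z := by linarith
    have z1 : z < 1 := by linarith
    have e : 24 * y ^ 4 - 55 * y ^ 3 - 22 * y ^ 2 + 68 * y - 24
        = -9 - 45 * z - 43 * z ^ 2 + 41 * z ^ 3 + 24 * z ^ 4 := by rw [hy]; ring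
    rw [e]
    have z2 : z ^ 2 ≤ z := by nlinarith
    have z3 : z ^ 3 ≤ z ^ 2 := by nlinarith [sq_nonneg z]
    have z4 : z ^ 4 ≤ z ^ 2 := by nlinarith [sq_nonneg z, sq_nonneg (z ^ 2)]
    nlinarith
  have e3 : 3 * y ^ 2 * (2 - y) * (24 * y ^ 4 - 55 * y ^ 3 - 22 * y ^ 2 + 68 * y - 24) < 0 := by
    refine mul_neg_of_pos_of_neg ?_ e2
    have : 0 < y ^ 2 := by positivity
    have : 0 < 2 - y := by linarith
    positivity
  have e4 : 2 * qq y * (y - 1) * eE y < 0 := by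
    refine mul_neg_of_neg_of_pos (mul_neg_of_neg_of_pos (by linarith) (by linarith)) hE
  by_contra hcon
  push Not at hcon
  have := mul_nonneg_of_nonpos_of_nonpos hcon e4.le
  linarith

lemma Ok.A1_pos {y : ℝ} (h : Ok y) : 0 < A1 y :=
  div_pos_of_neg_of_neg (by have := h.NN_pos; linarith) h.dn_neg

lemma Ok.A1_eq {y : ℝ} (h : Ok y) : A1 y * dn y = -NN y := by
  have := h.dn_neg.ne
  unfold A1
  field_simp

lemma Rg.cdn {a b : ℝ} (h : Rg a b) : ContinuousOn dn (Icc a b) := by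
  unfold dn
  exact (continuousOn_const (c := (1 : ℝ))).sub ((h.cbe.mul h.cbe).div_const 2)

lemma Rg.cNN {a b : ℝ} (h : Rg a b) : ContinuousOn NN (Icc a b) := by
  obtain ⟨h1, -, h3, -⟩ := h.cxh
  unfold NN aa
  exact ((h.ctt.mul (by fun_prop)).mul (h1.sub (continuousOn_const (c := (1/4 : ℝ))))).add
    (h.cbe.mul (h.cbt.mul ((h.cbe.div_const 4).sub (h.cal.mul h3))))

lemma Rg.cA1 {a b : ℝ} (h : Rg a b) : ContinuousOn A1 (Icc a b) := by
  unfold A1
  exact (h.cNN.neg).div h.cdn (fun y hy => (h.ok hy).dn_neg.ne)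

lemma ou0 (hM : 0 ≤ M) : On (D2 (Ds a b M)) 0 (fun _ z => z.1.u z.2) :=
  (((ou hM).le (Nat.zero_le 1)).add (oX c1_le)).congr (fun ε z _ => by ring)

lemma D2_sub {ι : Type*} {D D' : ℝ → Set ι} (h : ∀ ε, D' ε ⊆ D ε) : ∀ ε, D2 D' ε ⊆ D2 D ε :=
  fun ε _ hz => h ε hz

/-- The expansion of the mass parameter on the boundary of the family. -/
theorem twist1 (hR : Rg a b) (hM : 0 ≤ M) :
    On (Dc1 a b M) 3 (fun ε i => i.ka - k0 i.y + A1 i.y * (ε * i.σ) ^ 2) := by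
  have cal := CB.of_cont hR.cal
  have cbt := CB.of_cont hR.cbt
  have cbe := CB.of_cont hR.cbe
  have caa : CB a b aa := (CB.of_cont hR.ctt).mul (CB.id.add (CB.cst 1))
  have cxh := CB.of_cont hR.cxh.1
  have cyh := CB.of_cont hR.cxh.2.2.1
  have S1 := Dc1_sub (a := a) (b := b) (M := M)
  have S2 := D2_sub S1
  -- basic quantities
  have oc : ∀ {c : ℝ → ℝ}, CB a b c → On (Dc1 a b M) 0 (fun _ i => c i.y) :=
    fun hc => (oC hc).sub_set S1
  have osi : On (Dc1 a b M) 0 (fun _ i => i.σ) := oσ.sub_set S1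
  have oka' : On (Dc1 a b M) 0 (fun _ i => i.ka) := (oka hR hM).sub_set S1
  have okd : On (Dc1 a b M) 1 (fun _ i => i.ka - k0 i.y) := (oka1 hM).sub_set S1
  have oes : On (Dc1 a b M) 1 (fun ε i => ε * i.σ) := On.eps.mul0 osi
  have ouu : On (D2 (Dc1 a b M)) 0 (fun _ z => z.1.u z.2) := (ou0 hM).sub_set S2
  have ou1 : On (D2 (Dc1 a b M)) 1 (fun _ z => z.1.u z.2 - c1 z.2) := (ou hM).sub_set S2
  have ow1' : On (D2 (Dc1 a b M)) 1 (fun _ z => z.1.w1 z.2 - c2 z.2) := (ow1 hM).sub_set S2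
  have ow2' : On (D2 (Dc1 a b M)) 1 (fun _ z => z.1.w2 z.2 - be z.1.y * s2 z.2) :=
    (ow2 hM).sub_set S2
  have oXX := (oXY hR hM).1.sub_set S1
  have oYY := (oXY hR hM).2.sub_set S1
  have hB : Bl (D2 (Dc1 a b M)) (fun ε z => 1 + ε * z.1.σ * z.1.u z.2) := by
    refine Bl.near (φ := fun _ _ => (1 : ℝ)) (Bl.fn one_pos (fun ε _ z _ => by simp)) ?_
    exact ((oes.lift).mul0 ouu).congr (fun ε z _ => by ring)
  -- closeness of the forces
  have oT1 : On (D2 (Dc1 a b M)) 1 (fun _ z => T1 z.1 z.2 - aa z.1.y * c2 z.2) := by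
    refine On.div (φ := fun ε z => (2 * z.1.ka + 1) * (z.1.w1 z.2 - c2 z.2)
      + 2 * (z.1.ka - k0 z.1.y) * c2 z.2 - ε * z.1.σ * (z.1.u z.2 * (aa z.1.y * c2 z.2))) ?_ hB
      (fun ε z hz => ?_)
    · exact ((((((On.cst 2).mul0 oka'.lift).add (On.cst 1)).mul0' ow1')).add
        ((okd.lift.cmul 2).mul0 (oX c2_le))).sub
        (oes.lift.mul0 (ouu.mul0 ((oc caa).lift.mul0 (oX c2_le))))
    · have hz1 : z.1 ∈ Dc1 a b M ε := hz
      obtain ⟨q1, -, -⟩ := hz1.1.lin hR hz1.2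
      have r4 := (hR.ok hz1.1.sl.hy).r4
      linear_combination q1 z.2 + c2 z.2 * r4
  have oT2 : On (D2 (Dc1 a b M)) 1 (fun _ z => T2 z.1 z.2 + bt z.1.y * be z.1.y * s2 z.2) := by
    refine On.div (φ := fun ε z => -((z.1.ka - 1) * (z.1.w2 z.2 - be z.1.y * s2 z.2))
      - (z.1.ka - k0 z.1.y) * (be z.1.y * s2 z.2)
      + ε * z.1.σ * (z.1.u z.2 * (bt z.1.y * be z.1.y * s2 z.2))) ?_ hB
      (fun ε z hz => ?_)
    · exact ((((oka'.lift.sub (On.cst 1)).mul0' ow2').neg).sub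
        (okd.lift.mul0 ((oc cbe).lift.mul0 (oX s2_le)))).add
        (oes.lift.mul0 (ouu.mul0 ((((oc cbt).lift).mul0 (oc cbe).lift).mul0 (oX s2_le))))
    · have hz1 : z.1 ∈ Dc1 a b M ε := hz
      obtain ⟨-, q2, -⟩ := hz1.1.lin hR hz1.2
      have r3 := (hR.ok hz1.1.sl.hy).r3
      linear_combination q2 z.2 - (be z.1.y * s2 z.2) * r3
  -- means
  have W_w1 : ∀ ε, ∀ i ∈ Dc1 a b M ε, WW i.w1 := fun ε i hi => hi.1.sl.ww1
  have W_w2 : ∀ ε, ∀ i ∈ Dc1 a b M ε, WW i.w2 := fun ε i hi => hi.1.sl.ww2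
  have W_u : ∀ ε, ∀ i ∈ Dc1 a b M ε, WW i.u := fun ε i hi => hi.1.sl.wu
  have W_T1 : ∀ ε, ∀ i ∈ Dc1 a b M ε, WW (T1 i) := fun ε i hi => hi.1.sl.WT1
  have W_T2 : ∀ ε, ∀ i ∈ Dc1 a b M ε, WW (T2 i) := fun ε i hi => hi.1.sl.WT2
  have ox : On (Dc1 a b M) 1 (fun _ i => mn (fun x => i.w1 x * c2 x) - 1 / 2) :=
    (mclose (f := fun i => i.w1) (g := fun _ => c2) ow1' c2_le W_c2 W_w1 (fun _ _ _ => W_c2)).congr
      (fun ε i _ => by
        have h2 : mn (fun x => c2 x * c2 x) = 1 / 2 := mn_cc_self (by simp)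
        rw [h2])
  have oy : On (Dc1 a b M) 1 (fun _ i => mn (fun x => i.w2 x * s2 x) - be i.y / 2) :=
    (mclose (f := fun i => i.w2) (g := fun i x => be i.y * s2 x) ow2' s2_le W_s2 W_w2
      (fun _ _ _ => W_s2.smul _)).congr
      (fun ε i _ => by
        have h3 : mn (fun x => s2 x * s2 x) = 1 / 2 := mn_sn_self (by simp)
        have e : mn (fun x => be i.y * s2 x * s2 x) = mn (fun x => be i.y * (s2 x * s2 x)) :=
          mn_congr (fun x => by ring)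
        rw [e, mn_smul _ (W_s2.mul W_s2), h3]; ring)
  have hcc : ∀ x, |c1 x * c2 x| ≤ 1 := fun x => by
    rw [abs_mul]; exact mul_le_one₀ (c1_le x) (abs_nonneg _) (c2_le x)
  have hcs : ∀ x, |c1 x * s2 x| ≤ 1 := fun x => by
    rw [abs_mul]; exact mul_le_one₀ (c1_le x) (abs_nonneg _) (s2_le x)
  have oX1 : On (Dc1 a b M) 1 (fun _ i => mn (fun x => i.w1 x * (c1 x * c2 x))) :=
    (mclose (f := fun i => i.w1) (g := fun _ => c2) ow1' hcc (W_c1.mul W_c2) W_w1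
      (fun _ _ _ => W_c2)).congr (fun ε i _ => by
        have h2 : mn (fun x => c2 x * (c1 x * c2 x)) = 0 := by
          rw [← mn_c1_c2c2]
          exact mn_congr (fun x => by ring)
        rw [h2, sub_zero])
  have oY1 : On (Dc1 a b M) 1 (fun _ i => mn (fun x => i.w2 x * (c1 x * s2 x))) :=
    (mclose (f := fun i => i.w2) (g := fun i x => be i.y * s2 x) ow2' hcs (W_c1.mul W_s2) W_w2
      (fun _ _ _ => W_s2.smul _)).congr (fun ε i _ => by
        have h2 : mn (fun x => be i.y * s2 x * (c1 x * s2 x)) = 0 := by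
          have e : mn (fun x => be i.y * s2 x * (c1 x * s2 x))
              = mn (fun x => be i.y * (c1 x * (s2 x * s2 x))) := mn_congr (fun x => by ring)
          rw [e, mn_smul _ (W_c1.mul (W_s2.mul W_s2)), mn_c1_s2s2, mul_zero]
        rw [h2, sub_zero])
  -- products
  have oP1 : On (D2 (Dc1 a b M)) 1 (fun _ z => z.1.u z.2 * T1 z.1 z.2
      - aa z.1.y * (c1 z.2 * c2 z.2)) :=
    ((ouu.mul0' oT1).add (ou1.mul0 ((oc caa).lift.mul0 (oX c2_le)))).congr (fun ε z _ => by ring)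
  have oP2 : On (D2 (Dc1 a b M)) 1 (fun _ z => z.1.u z.2 * T2 z.1 z.2
      - -(bt z.1.y * be z.1.y) * (c1 z.2 * s2 z.2)) :=
    ((ouu.mul0' oT2).sub (ou1.mul0 (((oc cbt).lift.mul0 (oc cbe).lift).mul0 (oX s2_le)))).congr
      (fun ε z _ => by ring)
  obtain ⟨F1, hF1⟩ : ∃ F1 : Da → ℝ, F1 = fun i => mn (fun x => i.u x * T1 i x * (c1 x * c2 x))
      - aa i.y / 4 := ⟨_, rfl⟩
  obtain ⟨F2, hF2⟩ : ∃ F2 : Da → ℝ, F2 = fun i => mn (fun x => i.u x * T2 i x * (c1 x * s2 x))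
      + bt i.y * be i.y / 4 := ⟨_, rfl⟩
  obtain ⟨E1, hE1⟩ : ∃ E1 : Da → ℝ, E1 = fun i => mn (fun x => (i.u x - c1 x)
      * (T1 i x - aa i.y * c2 x) * c2 x) := ⟨_, rfl⟩
  obtain ⟨E2, hE2⟩ : ∃ E2 : Da → ℝ, E2 = fun i => mn (fun x => (i.u x - c1 x)
      * (T2 i x + bt i.y * be i.y * s2 x) * s2 x) := ⟨_, rfl⟩
  have oF1 : On (Dc1 a b M) 1 (fun _ i => F1 i) :=
    (mclose (f := fun i x => i.u x * T1 i x) (g := fun i x => aa i.y * (c1 x * c2 x)) oP1 hcc
      (W_c1.mul W_c2) (fun ε i hi => (W_u ε i hi).mul (W_T1 ε i hi))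
      (fun _ _ _ => (W_c1.mul W_c2).smul _)).congr (fun ε i _ => by
        have e : mn (fun x => aa i.y * (c1 x * c2 x) * (c1 x * c2 x))
            = mn (fun x => aa i.y * (c1 x * c2 x * (c1 x * c2 x))) := mn_congr (fun x => by ring)
        rw [hF1, e, mn_smul _ ((W_c1.mul W_c2).mul (W_c1.mul W_c2)), mn_c1c2_sq]; ring)
  have oF2 : On (Dc1 a b M) 1 (fun _ i => F2 i) :=
    (mclose (f := fun i x => i.u x * T2 i x) (g := fun i x => -(bt i.y * be i.y) * (c1 x * s2 x)) oP2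
      hcs (W_c1.mul W_s2) (fun ε i hi => (W_u ε i hi).mul (W_T2 ε i hi))
      (fun _ _ _ => (W_c1.mul W_s2).smul _)).congr (fun ε i _ => by
        have e : mn (fun x => -(bt i.y * be i.y) * (c1 x * s2 x) * (c1 x * s2 x))
            = mn (fun x => -(bt i.y * be i.y) * (c1 x * s2 x * (c1 x * s2 x))) :=
          mn_congr (fun x => by ring)
        rw [hF2, e, mn_smul _ ((W_c1.mul W_s2).mul (W_c1.mul W_s2)), mn_c1s2_sq]; ring)
  have oE1 : On (Dc1 a b M) 2 (fun _ i => E1 i) := by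
    rw [hE1]
    refine On.mn (φ := fun (_ : ℝ) (i : Da) x => (i.u x - c1 x) * (T1 i x - aa i.y * c2 x) * c2 x) ?_
      (fun ε i hi => (((W_u ε i hi).sub W_c1).mul ((W_T1 ε i hi).sub (W_c2.smul _))).mul W_c2)
    exact (ou1.mul oT1).mul0 (oX c2_le)
  have oE2 : On (Dc1 a b M) 2 (fun _ i => E2 i) := by
    rw [hE2]
    refine On.mn (φ := fun (_ : ℝ) (i : Da) x => (i.u x - c1 x)
        * (T2 i x + bt i.y * be i.y * s2 x) * s2 x) ?_
      (fun ε i hi => (((W_u ε i hi).sub W_c1).mul ((W_T2 ε i hi).add (W_s2.smul _))).mul W_s2)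
    exact (ou1.mul oT2).mul0 (oX s2_le)
  -- the remainder
  obtain ⟨R, hRd⟩ : ∃ R : ℝ → Da → ℝ, R = fun ε i =>
      aa i.y * (mn (fun x => i.w1 x * (c1 x * c2 x)) - ε * i.σ * xh i.y)
      + 2 * ((i.ka - k0 i.y) * mn (fun x => i.w1 x * (c1 x * c2 x))) - ε * i.σ * F1 i + E1 i
      + be i.y * (-(bt i.y * (mn (fun x => i.w2 x * (c1 x * s2 x)) - ε * i.σ * (al i.y * yh i.y)))
        - (i.ka - k0 i.y) * mn (fun x => i.w2 x * (c1 x * s2 x)) - ε * i.σ * F2 i + E2 i) := ⟨_, rfl⟩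
  have oR : On (Dc1 a b M) 2 R := by
    rw [hRd]
    exact (((((oc caa).mul0' oXX).add ((okd.mul oX1).cmul 2)).sub (oes.mul oF1)).add oE1).add
      ((oc cbe).mul0' ((((((oc cbt).mul0' oYY).neg).sub (okd.mul oY1)).sub (oes.mul oF2)).add oE2))
  obtain ⟨L, hL⟩ : ∃ L : Da → ℝ, L = fun i => 2 * mn (fun x => i.w1 x * c2 x)
      - be i.y * mn (fun x => i.w2 x * s2 x) := ⟨_, rfl⟩
  have main : ∀ ε, ∀ i ∈ Dc1 a b M ε, (i.ka - k0 i.y) * L i = ε * i.σ * (ε * i.σ * NN i.y + R ε i) := by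
    intro ε i hi
    obtain ⟨q1, q2, hm⟩ := hi.1.lin hR hi.2
    obtain ⟨o1, o2⟩ := hi.1.orth hR hi.2
    have hok := hR.ok hi.1.sl.hy
    have W1 := W_w1 ε i hi
    have W2 := W_w2 ε i hi
    have WU := W_u ε i hi
    have WT1 := W_T1 ε i hi
    have WT2 := W_T2 ε i hi
    have z1 : mn (fun x => i.u x * T1 i x * c2 x) = (2 * i.ka + 1) * mn (fun x => i.w1 x * (c1 x * c2 x))
        - ε * i.σ * (aa i.y / 4 + F1 i) + E1 i := by
      have Wm := W_c1.mul W_c2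
      have r1 : mn (fun x => T1 i x * (c1 x * c2 x)) = (2 * i.ka + 1) * mn (fun x => i.w1 x * (c1 x * c2 x))
          - ε * i.σ * mn (fun x => i.u x * T1 i x * (c1 x * c2 x)) := by
        have e : mn (fun x => T1 i x * (c1 x * c2 x)) = mn (fun x => (2 * i.ka + 1) * (i.w1 x * (c1 x * c2 x))
            - ε * i.σ * (i.u x * T1 i x * (c1 x * c2 x))) := mn_congr (fun x => by
          have := q1 x
          linear_combination (c1 x * c2 x) * this)
        rw [e, mn_sub ((W1.mul Wm).smul _) (((WU.mul WT1).mul Wm).smul _),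
          mn_smul _ (W1.mul Wm), mn_smul _ ((WU.mul WT1).mul Wm)]
      have r2 : mn (fun x => i.u x * T1 i x * (c1 x * c2 x)) = aa i.y / 4 + F1 i := by
        rw [hF1]; ring
      have r3 : mn (fun x => i.u x * T1 i x * c2 x) = mn (fun x => T1 i x * (c1 x * c2 x)) + E1 i := by
        have e : mn (fun x => i.u x * T1 i x * c2 x) = mn (fun x => ((T1 i x * (c1 x * c2 x)
            + (i.u x - c1 x) * (T1 i x - aa i.y * c2 x) * c2 x) - aa i.y * (c1 x * (c2 x * c2 x)))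
            + aa i.y * (i.u x * (c2 x * c2 x))) := mn_congr (fun x => by ring)
        have Wa := WT1.mul Wm
        have Wb := ((WU.sub W_c1).mul (WT1.sub (W_c2.smul (aa i.y)))).mul W_c2
        have Wc := W_c1.mul (W_c2.mul W_c2)
        have Wd := WU.mul (W_c2.mul W_c2)
        rw [e, mn_add ((Wa.add Wb).sub (Wc.smul _)) (Wd.smul _), mn_sub (Wa.add Wb) (Wc.smul _),
          mn_add Wa Wb, mn_smul _ Wc, mn_smul _ Wd, o1, mn_c1_c2c2, hE1]
        ring
      rw [r3, r1, r2]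
    have z2 : mn (fun x => i.u x * T2 i x * s2 x) = -(i.ka - 1) * mn (fun x => i.w2 x * (c1 x * s2 x))
        - ε * i.σ * (-(bt i.y * be i.y / 4) + F2 i) + E2 i := by
      have Wm := W_c1.mul W_s2
      have r1 : mn (fun x => T2 i x * (c1 x * s2 x)) = -(i.ka - 1) * mn (fun x => i.w2 x * (c1 x * s2 x))
          - ε * i.σ * mn (fun x => i.u x * T2 i x * (c1 x * s2 x)) := by
        have e : mn (fun x => T2 i x * (c1 x * s2 x)) = mn (fun x => -(i.ka - 1) * (i.w2 x * (c1 x * s2 x))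
            - ε * i.σ * (i.u x * T2 i x * (c1 x * s2 x))) := mn_congr (fun x => by
          have := q2 x
          linear_combination (c1 x * s2 x) * this)
        rw [e, mn_sub ((W2.mul Wm).smul _) (((WU.mul WT2).mul Wm).smul _),
          mn_smul _ (W2.mul Wm), mn_smul _ ((WU.mul WT2).mul Wm)]
      have r2 : mn (fun x => i.u x * T2 i x * (c1 x * s2 x)) = -(bt i.y * be i.y / 4) + F2 i := by
        rw [hF2]; ring
      have r3 : mn (fun x => i.u x * T2 i x * s2 x) = mn (fun x => T2 i x * (c1 x * s2 x)) + E2 i := by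
        have e : mn (fun x => i.u x * T2 i x * s2 x) = mn (fun x => ((T2 i x * (c1 x * s2 x)
            + (i.u x - c1 x) * (T2 i x + bt i.y * be i.y * s2 x) * s2 x)
            + bt i.y * be i.y * (c1 x * (s2 x * s2 x)))
            - bt i.y * be i.y * (i.u x * (s2 x * s2 x))) := mn_congr (fun x => by ring)
        have Wa := WT2.mul Wm
        have Wb := ((WU.sub W_c1).mul (WT2.add (W_s2.smul (bt i.y * be i.y)))).mul W_s2
        have Wc := W_c1.mul (W_s2.mul W_s2)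
        have Wd := WU.mul (W_s2.mul W_s2)
        rw [e, mn_sub ((Wa.add Wb).add (Wc.smul _)) (Wd.smul _), mn_add (Wa.add Wb) (Wc.smul _),
          mn_add Wa Wb, mn_smul _ Wc, mn_smul _ Wd, o2, mn_c1_s2s2, hE2]
        ring
      rw [r3, r1, r2]
    rw [hL]
    simp only
    rw [hm, z1, z2, hRd]
    simp only
    have r3 := hok.r3
    have r4 := hok.r4
    unfold NN
    linear_combination (ε * i.σ * mn (fun x => i.w1 x * (c1 x * c2 x))) * r4
      - (ε * i.σ * be i.y * mn (fun x => i.w2 x * (c1 x * s2 x))) * r3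
  have oL : On (Dc1 a b M) 1 (fun _ i => L i - dn i.y) :=
    ((ox.cmul 2).sub ((oc cbe).mul0' oy)).congr (fun ε i _ => by rw [hL]; unfold dn; ring)
  have hBd : Bl (Dc1 a b M) (fun _ i => dn i.y) := by
    obtain ⟨δ, hδ, h1⟩ := Rg.low hR.cdn.abs (fun y hy => abs_pos.mpr (hR.ok hy).dn_neg.ne)
    exact Bl.fn hδ (fun ε _ i hi => h1 i.y hi.1.sl.hy)
  have hBL : Bl (Dc1 a b M) (fun _ i => L i) := hBd.near oL
  have cNN := CB.of_cont hR.cNN
  have ok2 : On (Dc1 a b M) 2 (fun _ i => i.ka - k0 i.y) := by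
    refine On.div (φ := fun ε i => ε * i.σ * (ε * i.σ * NN i.y + R ε i)) ?_ hBL
      (fun ε i hi => by rw [mul_comm]; exact main ε i hi)
    exact oes.mul ((oes.mul0 (oc cNN)).add (oR.le (by norm_num)))
  refine On.div (φ := fun ε i => ε * i.σ * R ε i - (i.ka - k0 i.y) * (L i - dn i.y)) ?_ hBd
    (fun ε i hi => ?_)
  · exact (oes.mul oR).sub (ok2.mul oL)
  · have h1 := main ε i hi
    have h2 := (hR.ok hi.1.sl.hy).A1_eq
    linear_combination h1 + (ε * i.σ) ^ 2 * h2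

/-- The expansion of the mass parameter on the boundary of the family. -/
theorem twist (hR : Rg a b) (hM : 0 ≤ M) :
    On (Db a b M) 3 (fun ε i => i.ka - k0 i.y + A1 i.y * (ε * i.σ) ^ 2) := by
  refine (twist1 hR hM).shrink (e := 1 / (10 * (M + 1))) (by positivity) (fun ε h0 he i hi => ?_)
  refine ⟨hi, hi.mu_one ?_⟩
  have h1 : ε * (10 * (M + 1)) ≤ 1 := by
    rw [le_div_iff₀ (by positivity)] at he
    exact he
  nlinarith

end Run7.k800g
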