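import Pool.Agent.Run7.k800.Ini

set_option autoImplicit false
set_option linter.unusedSectionVars false

/-!
# The reduced three-body vector field for general masses
-/

namespace Run7.k800g

open Run7.k800 (JJ B Tm cJ cJ_pos norm_const_le PS Adm GG GG_nonneg aT aI adm_aT adm_aI fI lin sgJ rz)
open Filter Topology Set

variable {P : Type*} [TopologicalSpace P] [CompactSpace P]

/-- families of tame functions, uniformly for small values of the parameter -/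
def TF (a b : ℝ) (z0 : ℝ → JJ → P → ℝ × ℝ → ℝ) (φ : ℝ → P → (JJ → ℝ) → ℝ) : Prop :=
  ∃ e1 : ℝ, 0 < e1 ∧ e1 ≤ 1 ∧ ∃ K : ℝ, 0 ≤ K ∧ ∀ y ∈ Icc a b, ∀ ε, 0 ≤ ε → ε ≤ e1 →
    Tm 1 K (z0 y) (φ ε)

variable {a b : ℝ} {z0 : ℝ → JJ → P → ℝ × ℝ → ℝ}

lemma TF.const' (c : ℝ → C(P, ℝ)) {M : ℝ} (hc : ∀ ε, 0 ≤ ε → ε ≤ 1 → ‖c ε‖ ≤ M) (hM : 0 ≤ M) :
    TF a b z0 (fun ε p _ => c ε p) :=
  ⟨1, one_pos, le_rfl, M, hM, fun y _ ε h0 h1 => Tm.const (c ε) (hc ε h0 h1)⟩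

lemma TF.cst (c : C(P, ℝ)) : TF a b z0 (fun _ p _ => c p) :=
  TF.const' (fun _ => c) (fun _ _ _ => le_rfl) (norm_nonneg _)

lemma TF.real (c : ℝ) : TF a b z0 (fun _ _ _ => c) := TF.cst (ContinuousMap.const P c)

lemma TF.eps : TF a b z0 (fun ε _ _ => ε) :=
  TF.const' (fun ε => ContinuousMap.const P ε) (M := 1) (fun ε h0 h1 => by
    refine (norm_const_le ε).trans ?_
    rw [abs_of_nonneg h0]; exact h1) zero_le_one

lemma TF.coord (i : JJ) {k : ℝ} (hk0 : 0 ≤ k) (hk : ∀ y ∈ Icc a b, B 4 k (z0 y i)) :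
    TF a b z0 (fun _ _ z => z i) :=
  ⟨1, one_pos, le_rfl, k + 1, by linarith, fun y hy ε _ _ =>
    Tm.coord i (hk y hy) le_rfl (by linarith)⟩

lemma TF.add {φ ψ : ℝ → P → (JJ → ℝ) → ℝ} (h : TF a b z0 φ) (g : TF a b z0 ψ) :
    TF a b z0 (fun ε p z => φ ε p z + ψ ε p z) := by
  obtain ⟨e1, h1, h1', K1, hK1, h2⟩ := h
  obtain ⟨e2, g1, g1', K2, hK2, g2⟩ := g
  refine ⟨min e1 e2, lt_min h1 g1, (min_le_left _ _).trans h1', K1 + K2, by positivity,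
    fun y hy ε h0 he => ?_⟩
  exact (h2 y hy ε h0 (he.trans (min_le_left _ _))).add (g2 y hy ε h0 (he.trans (min_le_right _ _)))

lemma TF.mul {φ ψ : ℝ → P → (JJ → ℝ) → ℝ} (h : TF a b z0 φ) (g : TF a b z0 ψ) :
    TF a b z0 (fun ε p z => φ ε p z * ψ ε p z) := by
  obtain ⟨e1, h1, h1', K1, hK1, h2⟩ := h
  obtain ⟨e2, g1, g1', K2, hK2, g2⟩ := g
  have := cJ_pos (J := JJ)
  refine ⟨min e1 e2, lt_min h1 g1, (min_le_left _ _).trans h1', cJ JJ * (K1 * K2), by positivity,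
    fun y hy ε h0 he => ?_⟩
  exact (h2 y hy ε h0 (he.trans (min_le_left _ _))).mul (g2 y hy ε h0 (he.trans (min_le_right _ _)))

lemma TF.congr {φ ψ : ℝ → P → (JJ → ℝ) → ℝ} (h : TF a b z0 φ) (e : ∀ ε p z, φ ε p z = ψ ε p z) :
    TF a b z0 ψ := by
  have : φ = ψ := by funext ε p z; exact e ε p z
  rwa [this] at h

lemma TF.neg {φ : ℝ → P → (JJ → ℝ) → ℝ} (h : TF a b z0 φ) : TF a b z0 (fun ε p z => -φ ε p z) :=
  ((TF.real (-1)).mul h).congr (fun ε p z => by ring)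

lemma TF.sub {φ ψ : ℝ → P → (JJ → ℝ) → ℝ} (h : TF a b z0 φ) (g : TF a b z0 ψ) :
    TF a b z0 (fun ε p z => φ ε p z - ψ ε p z) :=
  (h.add g.neg).congr (fun ε p z => by ring)

lemma TF.ps [Nonempty P] {φ : ℝ → P → (JJ → ℝ) → ℝ} (h : TF a b z0 φ) {c : ℕ → ℝ} (ha : Adm c) :
    TF a b z0 (fun ε p z => PS c (ε * φ ε p z)) := by
  obtain ⟨e0, g1, g1', K0, hK0, g2⟩ := h
  obtain ⟨e1, h1, h1', K1, hK1, h2⟩ := (TF.eps (z0 := z0) (a := a) (b := b)).mul ⟨e0, g1, g1', K0, hK0, g2⟩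
  have hG := GG_nonneg
  refine ⟨min (min e1 e0) (1 / (8 * (K0 + 1))), by positivity,
    (min_le_left _ _).trans ((min_le_left _ _).trans h1'),
    GG * ((Fintype.card JJ + 1) * K1 + 1) ^ 2 + GG * K1 + GG, by positivity, fun y hy ε h0 he => ?_⟩
  have he1 : ε ≤ e1 := he.trans ((min_le_left _ _).trans (min_le_left _ _))
  have he0 : ε ≤ e0 := he.trans ((min_le_left _ _).trans (min_le_right _ _))
  have he2 : ε ≤ 1 / (8 * (K0 + 1)) := he.trans (min_le_right _ _)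
  refine (h2 y hy ε h0 he1).ps ?_ ha
  intro r z hr1 hr4 hz
  refine (((g2 y hy ε h0 he0).b0 r z hr1 hr4 hz).smul ε (by linarith)).mono (by linarith) le_rfl ?_
  rw [abs_of_nonneg h0]
  calc ε * K0 ≤ 1 / (8 * (K0 + 1)) * (K0 + 1) := by
        apply mul_le_mul he2 (by linarith) hK0 (by positivity)
    _ = 1 / 8 := by field_simp

/-! ### the functions -/

/-- constants depending on the masses -/
structure Mc where
  k1 : ℝ
  k2 : ℝ
  A1 : ℝ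
  A2 : ℝ
  C1 : ℝ
  C2 : ℝ

/-- relative change of the squared distance -/
def hZ (k ε s a b : ℝ) : ℝ := k * (2 * a) + ε * (ε * s) * (k * k * (a * a + b * b))

/-- second remainder -/
noncomputable def hQ (k ε s a b : ℝ) : ℝ :=
  hZ k ε s a b * hZ k ε s a b * PS aT (ε * ((ε * s) * hZ k ε s a b))

/-- second remainder of the inverse cube -/
noncomputable def hT (k ε s a b : ℝ) : ℝ := -(3 / 2) * (k * k * (a * a + b * b)) + hQ k ε s a b

/-- first remainder of the inverse cube -/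
noncomputable def hR (k ε s a b : ℝ) : ℝ := -(3 / 2) * hZ k ε s a b + ε * (ε * s) * hQ k ε s a b

/-- real part -/
noncomputable def hN1 (k ε s a b : ℝ) : ℝ := k⁻¹ * hT k ε s a b + a * hR k ε s a b
/-- imaginary part -/
noncomputable def hN2 (k ε s a b : ℝ) : ℝ := b * hR k ε s a b

/-- real part of the first force -/
noncomputable def hf1 (m : Mc) (ε s a b : ℝ) : ℝ :=
  -2 * (m.A1 + m.A2) * a + ε * (ε * s) * (m.A1 * hN1 m.k1 ε s a b + m.A2 * hN1 m.k2 ε s a b)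

/-- imaginary part of the first force -/
noncomputable def hf2 (m : Mc) (ε s a b : ℝ) : ℝ :=
  (m.A1 + m.A2) * b + ε * (ε * s) * (m.A1 * hN2 m.k1 ε s a b + m.A2 * hN2 m.k2 ε s a b)

/-- nonlinear part of the second force -/
noncomputable def hk1 (m : Mc) (ε s a b : ℝ) : ℝ :=
  -(ε * s) * (m.C1 * hN1 m.k1 ε s a b + m.C2 * hN1 m.k2 ε s a b
    + (a * hf1 m ε s a b - b * hf2 m ε s a b))

/-- nonlinear part of the second force -/
noncomputable def hk2 (m : Mc) (ε s a b : ℝ) : ℝ :=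
  -(ε * s) * (m.C1 * hN2 m.k1 ε s a b + m.C2 * hN2 m.k2 ε s a b
    + (a * hf2 m ε s a b + b * hf1 m ε s a b))

/-- perturbation -/
noncomputable def hg (m : Mc) (ε s si ti : ℝ) (z : JJ → ℝ) : Fin 6 → ℝ :=
  ![-2 * (s * ti) * hf2 m ε s (z (Sum.inl 2)) (z (Sum.inl 3)),
    -(s * ti) * hf1 m ε s (z (Sum.inl 2)) (z (Sum.inl 3))
      - ε * s * (fI ε si (z (Sum.inl 0)) * (hf2 m ε s (z (Sum.inl 2)) (z (Sum.inl 3)) * z (Sum.inl 1))),
    0, 0,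
    ε * s * (fI ε si (z (Sum.inl 0)) * (hf2 m ε s (z (Sum.inl 2)) (z (Sum.inl 3)) * z (Sum.inl 4)))
      - hk1 m ε s (z (Sum.inl 2)) (z (Sum.inl 3))
      + si * z (Sum.inl 0) * fI ε si (z (Sum.inl 0)) * (-((2 * z (Sum.inr 1) + 1) * z (Sum.inl 2))
        + ε * hk1 m ε s (z (Sum.inl 2)) (z (Sum.inl 3))),
    ε * s * (fI ε si (z (Sum.inl 0)) * (hf2 m ε s (z (Sum.inl 2)) (z (Sum.inl 3)) * z (Sum.inl 5)))
      - hk2 m ε s (z (Sum.inl 2)) (z (Sum.inl 3))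
      + si * z (Sum.inl 0) * fI ε si (z (Sum.inl 0)) * ((z (Sum.inr 1) - 1) * z (Sum.inl 3)
        + ε * hk2 m ε s (z (Sum.inl 2)) (z (Sum.inl 3)))]

/-- the vector field -/
noncomputable def Yh (m : Mc) (ss si ti : C(P, ℝ)) (ε : ℝ) (i : Fin 6) (p : P) (z : JJ → ℝ) : ℝ :=
  z (Sum.inr 0) * (lin z i + ε * hg m ε (ss p) (si p) (ti p) z i)

section tame

variable (m : Mc) (ss si ti : C(P, ℝ))

lemma TF_hZ {u v : ℝ → P → (JJ → ℝ) → ℝ} (ha : TF a b z0 u) (hb : TF a b z0 v) (k : ℝ) :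
    TF a b z0 (fun ε p z => hZ k ε (ss p) (u ε p z) (v ε p z)) :=
  ((TF.real k).mul ((TF.real 2).mul ha)).add ((TF.eps.mul (TF.eps.mul (TF.cst ss))).mul
    ((TF.real (k * k)).mul ((ha.mul ha).add (hb.mul hb))))

lemma TF_hQ [Nonempty P] {u v : ℝ → P → (JJ → ℝ) → ℝ} (ha : TF a b z0 u) (hb : TF a b z0 v) (k : ℝ) :
    TF a b z0 (fun ε p z => hQ k ε (ss p) (u ε p z) (v ε p z)) := by
  have h1 := TF_hZ (z0 := z0) ss ha hb k
  exact (h1.mul h1).mul (((TF.eps.mul (TF.cst ss)).mul h1).ps adm_aT)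

lemma TF_hT [Nonempty P] {u v : ℝ → P → (JJ → ℝ) → ℝ} (ha : TF a b z0 u) (hb : TF a b z0 v) (k : ℝ) :
    TF a b z0 (fun ε p z => hT k ε (ss p) (u ε p z) (v ε p z)) :=
  ((TF.real (-(3 / 2))).mul ((TF.real (k * k)).mul ((ha.mul ha).add (hb.mul hb)))).add
    (TF_hQ ss ha hb k)

lemma TF_hR [Nonempty P] {u v : ℝ → P → (JJ → ℝ) → ℝ} (ha : TF a b z0 u) (hb : TF a b z0 v) (k : ℝ) :
    TF a b z0 (fun ε p z => hR k ε (ss p) (u ε p z) (v ε p z)) :=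
  ((TF.real (-(3 / 2))).mul (TF_hZ ss ha hb k)).add
    ((TF.eps.mul (TF.eps.mul (TF.cst ss))).mul (TF_hQ ss ha hb k))

lemma TF_hN1 [Nonempty P] {u v : ℝ → P → (JJ → ℝ) → ℝ} (ha : TF a b z0 u) (hb : TF a b z0 v) (k : ℝ) :
    TF a b z0 (fun ε p z => hN1 k ε (ss p) (u ε p z) (v ε p z)) :=
  ((TF.real k⁻¹).mul (TF_hT ss ha hb k)).add (ha.mul (TF_hR ss ha hb k))

lemma TF_hN2 [Nonempty P] {u v : ℝ → P → (JJ → ℝ) → ℝ} (ha : TF a b z0 u) (hb : TF a b z0 v) (k : ℝ) :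
    TF a b z0 (fun ε p z => hN2 k ε (ss p) (u ε p z) (v ε p z)) :=
  hb.mul (TF_hR ss ha hb k)

lemma TF_hf1 [Nonempty P] {u v : ℝ → P → (JJ → ℝ) → ℝ} (ha : TF a b z0 u) (hb : TF a b z0 v) :
    TF a b z0 (fun ε p z => hf1 m ε (ss p) (u ε p z) (v ε p z)) :=
  ((TF.real (-2 * (m.A1 + m.A2))).mul ha).add ((TF.eps.mul (TF.eps.mul (TF.cst ss))).mul
    (((TF.real m.A1).mul (TF_hN1 ss ha hb m.k1)).add ((TF.real m.A2).mul (TF_hN1 ss ha hb m.k2))))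

lemma TF_hf2 [Nonempty P] {u v : ℝ → P → (JJ → ℝ) → ℝ} (ha : TF a b z0 u) (hb : TF a b z0 v) :
    TF a b z0 (fun ε p z => hf2 m ε (ss p) (u ε p z) (v ε p z)) :=
  ((TF.real (m.A1 + m.A2)).mul hb).add ((TF.eps.mul (TF.eps.mul (TF.cst ss))).mul
    (((TF.real m.A1).mul (TF_hN2 ss ha hb m.k1)).add ((TF.real m.A2).mul (TF_hN2 ss ha hb m.k2))))

lemma TF_hk1 [Nonempty P] {u v : ℝ → P → (JJ → ℝ) → ℝ} (ha : TF a b z0 u) (hb : TF a b z0 v) :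
    TF a b z0 (fun ε p z => hk1 m ε (ss p) (u ε p z) (v ε p z)) :=
  ((TF.eps.mul (TF.cst ss)).neg).mul ((((TF.real m.C1).mul (TF_hN1 ss ha hb m.k1)).add
    ((TF.real m.C2).mul (TF_hN1 ss ha hb m.k2))).add ((ha.mul (TF_hf1 m ss ha hb)).sub
      (hb.mul (TF_hf2 m ss ha hb))))

lemma TF_hk2 [Nonempty P] {u v : ℝ → P → (JJ → ℝ) → ℝ} (ha : TF a b z0 u) (hb : TF a b z0 v) :
    TF a b z0 (fun ε p z => hk2 m ε (ss p) (u ε p z) (v ε p z)) :=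
  ((TF.eps.mul (TF.cst ss)).neg).mul ((((TF.real m.C1).mul (TF_hN2 ss ha hb m.k1)).add
    ((TF.real m.C2).mul (TF_hN2 ss ha hb m.k2))).add ((ha.mul (TF_hf2 m ss ha hb)).add
      (hb.mul (TF_hf1 m ss ha hb))))

lemma TF_fI [Nonempty P] {u : ℝ → P → (JJ → ℝ) → ℝ} (hu : TF a b z0 u) :
    TF a b z0 (fun ε p z => fI ε (si p) (u ε p z)) :=
  ((TF.cst si).mul hu).ps adm_aI

lemma TF_lin (hz : ∀ j, TF a b z0 (fun _ _ z => z j)) (i : Fin 6) :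
    TF a b z0 (fun _ _ z => lin z i) := by
  fin_cases i
  · exact (hz (Sum.inl 1)).neg
  · exact hz (Sum.inl 0)
  · exact hz (Sum.inl 4)
  · exact hz (Sum.inl 5)
  · exact ((TF.real 2).mul (hz (Sum.inl 5))).add ((((TF.real 2).mul (hz (Sum.inr 1))).add
      (TF.real 1)).mul (hz (Sum.inl 2)))
  · exact ((TF.real (-2)).mul (hz (Sum.inl 4))).sub (((hz (Sum.inr 1)).sub
      (TF.real 1)).mul (hz (Sum.inl 3)))

lemma TF_hg [Nonempty P] (hz : ∀ j, TF a b z0 (fun _ _ z => z j)) (i : Fin 6) :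
    TF a b z0 (fun ε p z => hg m ε (ss p) (si p) (ti p) z i) := by
  have a' := hz (Sum.inl 2)
  have b' := hz (Sum.inl 3)
  have k := hz (Sum.inr 1)
  have u := hz (Sum.inl 0)
  have h2 := TF_hf2 (z0 := z0) m ss a' b'
  have h1 := TF_hf1 (z0 := z0) m ss a' b'
  have hI := TF_fI (z0 := z0) si u
  have k1 := TF_hk1 (z0 := z0) m ss a' b'
  have k2 := TF_hk2 (z0 := z0) m ss a' b'
  have st := (TF.cst (z0 := z0) (a := a) (b := b) ss).mul (TF.cst ti)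
  have es := (TF.eps (z0 := z0) (a := a) (b := b)).mul (TF.cst ss)
  fin_cases i
  · exact ((TF.real (-2)).mul st).mul h2
  · exact ((st.neg).mul h1).sub (es.mul (hI.mul (h2.mul (hz (Sum.inl 1)))))
  · exact TF.real 0
  · exact TF.real 0
  · exact ((es.mul (hI.mul (h2.mul (hz (Sum.inl 4))))).sub k1).add
      ((((TF.cst si).mul u).mul hI).mul ((((((TF.real 2).mul k).add (TF.real 1)).mul a').neg).add
        (TF.eps.mul k1)))
  · exact ((es.mul (hI.mul (h2.mul (hz (Sum.inl 5))))).sub k2).add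
      ((((TF.cst si).mul u).mul hI).mul (((k.sub (TF.real 1)).mul b').add (TF.eps.mul k2)))

lemma TF_Yh [Nonempty P] (hz : ∀ j, TF a b z0 (fun _ _ z => z j)) (i : Fin 6) :
    TF a b z0 (fun ε p z => Yh m ss si ti ε i p z) :=
  (hz (Sum.inr 0)).mul ((TF_lin hz i).add (TF.eps.mul (TF_hg m ss si ti hz i)))

end tame

/-! ### reversibility -/

lemma hZ_neg (k ε s a b : ℝ) : hZ k ε s a (-b) = hZ k ε s a b := by unfold hZ; ring

lemma hQ_neg (k ε s a b : ℝ) : hQ k ε s a (-b) = hQ k ε s a b := by unfold hQ; rw [hZ_neg]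

lemma hT_neg (k ε s a b : ℝ) : hT k ε s a (-b) = hT k ε s a b := by unfold hT; rw [hQ_neg]; ring

lemma hR_neg (k ε s a b : ℝ) : hR k ε s a (-b) = hR k ε s a b := by unfold hR; rw [hQ_neg, hZ_neg]

lemma hN1_neg (k ε s a b : ℝ) : hN1 k ε s a (-b) = hN1 k ε s a b := by
  unfold hN1; rw [hT_neg, hR_neg]

lemma hN2_neg (k ε s a b : ℝ) : hN2 k ε s a (-b) = -hN2 k ε s a b := by
  unfold hN2; rw [hR_neg]; ring

lemma hf1_neg (m : Mc) (ε s a b : ℝ) : hf1 m ε s a (-b) = hf1 m ε s a b := by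
  unfold hf1; rw [hN1_neg, hN1_neg]

lemma hf2_neg (m : Mc) (ε s a b : ℝ) : hf2 m ε s a (-b) = -hf2 m ε s a b := by
  unfold hf2; rw [hN2_neg, hN2_neg]; ring

lemma hk1_neg (m : Mc) (ε s a b : ℝ) : hk1 m ε s a (-b) = hk1 m ε s a b := by
  unfold hk1; rw [hN1_neg, hN1_neg, hf1_neg, hf2_neg]; ring

lemma hk2_neg (m : Mc) (ε s a b : ℝ) : hk2 m ε s a (-b) = -hk2 m ε s a b := by
  unfold hk2; rw [hN2_neg, hN2_neg, hf1_neg, hf2_neg]; ring

lemma Yh_rev (m : Mc) (ss si ti : C(P, ℝ)) (ε : ℝ) (i : Fin 6) (p : P) (z : JJ → ℝ) :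
    Yh m ss si ti ε i p (rz z) = -sgJ (Sum.inl i) * Yh m ss si ti ε i p z := by
  have h0 : rz z (Sum.inl 0) = z (Sum.inl 0) := by simp [rz]
  have h1 : rz z (Sum.inl 1) = -z (Sum.inl 1) := by simp [rz]
  have h2 : rz z (Sum.inl 2) = z (Sum.inl 2) := by simp [rz]
  have h3 : rz z (Sum.inl 3) = -z (Sum.inl 3) := by simp [rz]
  have h4 : rz z (Sum.inl 4) = -z (Sum.inl 4) := by simp [rz]
  have h5 : rz z (Sum.inl 5) = z (Sum.inl 5) := by simp [rz]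
  have k0 : rz z (Sum.inr 0) = z (Sum.inr 0) := rfl
  have k1 : rz z (Sum.inr 1) = z (Sum.inr 1) := rfl
  unfold Yh
  fin_cases i <;>
  simp only [lin, hg, h0, h1, h2, h3, h4, h5, k0, k1, sgJ, Sum.elim_inl, hf1_neg, hf2_neg,
    hk1_neg, hk2_neg, Fin.zero_eta, Fin.mk_one, Fin.reduceFinMk, Fin.isValue, Matrix.cons_val_zero,
    Matrix.cons_val_one, Matrix.cons_val] <;> ring

end Run7.k800g
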